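import Pool.Agent.PQ.Defs

set_option autoImplicit false

/-!
# The primes dividing the squarefree part of the leading coefficient are defective, over `ℚ`
-/

namespace Pool.Agent.PQ

open Polynomial NumberField IsDedekindDomain Pool.Agent.GPoly

namespace DensC

/-- A squarefree natural number is not in the square of a prime of the integers of `ℚ`. -/
theorem natCast_notMem_sq {J : ℕ} (hJ : Squarefree J) (v : HeightOneSpectrum (𝓞 ℚ)) :
    (J : 𝓞 ℚ) ∉ v.asIdeal ^ 2 := by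
  intro h
  set e : 𝓞 ℚ ≃+* ℤ := Rat.ringOfIntegersEquiv with he
  obtain ⟨p, hp⟩ : ∃ p : ℤ, v.asIdeal.map (e : 𝓞 ℚ →+* ℤ) = Ideal.span {p} :=
    (IsPrincipalIdealRing.principal (v.asIdeal.map (e : 𝓞 ℚ →+* ℤ))).principal
  have h1 : (J : ℤ) ∈ (v.asIdeal ^ 2).map (e : 𝓞 ℚ →+* ℤ) := by
    have := Ideal.mem_map_of_mem (e : 𝓞 ℚ →+* ℤ) h
    rwa [map_natCast] at this
  rw [Ideal.map_pow, hp, Ideal.span_singleton_pow, Ideal.mem_span_singleton, pow_two] at h1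
  have h2 : IsUnit p := (Int.squarefree_natCast.2 hJ) p h1
  have h3 : v.asIdeal.map (e : 𝓞 ℚ →+* ℤ) = ⊤ := by
    rw [hp]; exact Ideal.span_singleton_eq_top.2 h2
  have h4 : v.asIdeal = ⊤ := by
    have h5 : Ideal.comap (e : 𝓞 ℚ →+* ℤ) (Ideal.map (e : 𝓞 ℚ →+* ℤ) v.asIdeal) = v.asIdeal :=
      Ideal.comap_map_of_bijective (e : 𝓞 ℚ →+* ℤ) e.bijective
    rw [h3, Ideal.comap_top] at h5
    exact h5.symm
  exact v.isPrime.ne_top h4

theorem intCast_notMem_of_isCoprime {J : ℕ} {b : ℤ} (hb : IsCoprime (J : ℤ) b)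
    (v : HeightOneSpectrum (𝓞 ℚ)) (hv : (J : 𝓞 ℚ) ∈ v.asIdeal) : (b : 𝓞 ℚ) ∉ v.asIdeal := by
  intro h
  obtain ⟨s, t, hst⟩ := hb
  have h1 : (s : 𝓞 ℚ) * (J : 𝓞 ℚ) + (t : 𝓞 ℚ) * (b : 𝓞 ℚ) = 1 := by
    have h0 := congrArg (Int.cast : ℤ → 𝓞 ℚ) hst
    push_cast at h0
    exact h0
  have h2 : (1 : 𝓞 ℚ) ∈ v.asIdeal := by
    rw [← h1]
    exact Ideal.add_mem _ (Ideal.mul_mem_left _ _ hv) (Ideal.mul_mem_left _ _ h)
  exact v.isPrime.ne_top (v.asIdeal.eq_top_iff_one.2 h2)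

end DensC

/-- The primes dividing `J` are defective. -/
theorem defA_of_good (k : ℕ) (hk : 1 ≤ k) (F : (𝓞 ℚ)[X]) (hF : 3 ≤ F.natDegree) (b m e : ℤ)
    (J : ℕ) (hJ : Squarefree J) (hlead : F.leadingCoeff = (J : 𝓞 ℚ) * (m : 𝓞 ℚ))
    (hm : IsCoprime (J : ℤ) m) (hb : IsCoprime (J : ℤ) b)
    (he : F.coeff (F.natDegree - 1) = (e : 𝓞 ℚ)) (hce : IsCoprime (J : ℤ) e)
    (v : HeightOneSpectrum (𝓞 ℚ)) (hv : v.asIdeal ∣ Ideal.span {(J : 𝓞 ℚ)}) :
    DefA k F (b : 𝓞 ℚ) v := by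
  have hv1 : (J : 𝓞 ℚ) ∈ v.asIdeal := by
    rw [Ideal.dvd_span_singleton] at hv
    exact hv
  have hlm : F.leadingCoeff ∈ v.asIdeal := by
    rw [hlead]; exact Ideal.mul_mem_right _ _ hv1
  refine ⟨DensC.intCast_notMem_of_isCoprime hb v hv1, hlm, fun h => ?_, fun h => ?_⟩
  · have h2 : F.leadingCoeff ∈ v.asIdeal ^ 2 := Ideal.pow_le_pow_right (by omega) h
    rw [hlead] at h2
    have := v.isPrime
    have h3 : (m : 𝓞 ℚ) ∈ v.asIdeal :=
      Ideal.mem_prime_of_mul_mem_pow v.ne_bot (i := 1) (DensC.natCast_notMem_sq hJ v) h2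
    exact DensC.intCast_notMem_of_isCoprime hm v hv1 h3
  · have h1 := h.2 (F.natDegree - 1) (by omega)
    have h2 : v.intValuation (F.coeff (F.natDegree - 1)) = 1 := by
      rw [HeightOneSpectrum.intValuation_eq_one_iff, he]
      exact DensC.intCast_notMem_of_isCoprime hce v hv1
    have h3 : v.intValuation F.leadingCoeff < 1 := by
      rw [HeightOneSpectrum.intValuation_lt_one_iff_mem]; exact hlm
    rw [h2, one_pow] at h1
    have h4 : v.intValuation F.leadingCoeff ^ (F.natDegree - 1 - 1) < 1 :=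
      pow_lt_one₀ zero_le h3 (by omega)
    exact absurd h1 (not_le.2 h4)

/-- The norm of an ideal generated by a rational integer. -/
theorem absNorm_intCast (a : ℤ) :
    Ideal.absNorm (Ideal.span {(a : 𝓞 ℚ)}) = a.natAbs := by
  rw [Ideal.absNorm_span_singleton]
  have h1 : (a : 𝓞 ℚ) = algebraMap ℤ (𝓞 ℚ) a := rfl
  rw [h1, Algebra.norm_algebraMap, RingOfIntegers.rank, Module.finrank_self, pow_one]

theorem absNorm_natCast (a : ℕ) :
    Ideal.absNorm (Ideal.span {(a : 𝓞 ℚ)}) = a := by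
  have h := absNorm_intCast (a : ℤ)
  rwa [Int.cast_natCast, Int.natAbs_natCast] at h

end Pool.Agent.PQ
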