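import Mathlib
import Pool.Agent.GPoly.LocalBound
import Pool.Agent.GPoly.PlaceColour
import Pool.Agent.GPoly.PlacesB
import Pool.Agent.GPoly.CaseA

set_option autoImplicit false

/-!
# All preperiodic points of bounded degree of a polynomial: definitions
-/

namespace Pool.Agent.PQ

open Polynomial NumberField IsDedekindDomain Pool.Agent.GPoly

section normed

variable {𝕜 : Type*} [NormedField 𝕜]

/-- The orbit of `x` under `f` is bounded. -/
def Bd (f : 𝕜[X]) (x : 𝕜) : Prop := ∃ R : ℝ, ∀ n : ℕ, ‖(fun z => f.eval z)^[n] x‖ ≤ R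

/-- `G_x(r) = ∑_{i ≥ 1} |c_i(x)| r ^ i`, where `f (x + u) = ∑ c_i(x) u ^ i`. -/
noncomputable def GG (f : 𝕜[X]) (x : 𝕜) (r : ℝ) : ℝ :=
  ∑ i ∈ Finset.Icc 1 f.natDegree, ‖(taylor x f).coeff i‖ * r ^ i

/-- The radius `r ≥ 0` with `G_x(r) = t`. -/
noncomputable def inv (f : 𝕜[X]) (x : 𝕜) (t : ℝ) : ℝ := sSup {r : ℝ | 0 ≤ r ∧ GG f x r ≤ t}

/-- The radii `R_j(x)`: `R_0(x) = 1` and `G_x(R_{j+1}(x)) = R_j(f(x))`. -/
noncomputable def RR (f : 𝕜[X]) : ℕ → 𝕜 → ℝ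
  | 0, _ => 1
  | j + 1, x => inv f x (RR f j (f.eval x))

/-- The normalised situation: the points with bounded orbit have mutual distance at most `1`, the
point `0` is one of them, and two of them have distance at least `1 / 16`. -/
structure Nrm (d : ℕ) (f : 𝕜[X]) : Prop where
  deg : f.natDegree = d
  zero : Bd f 0
  diam : ∀ x y, Bd f x → Bd f y → ‖x - y‖ ≤ 1
  sep : ∃ x y, Bd f x ∧ Bd f y ∧ 1 / 16 ≤ ‖x - y‖

/-- The norm of `𝕜` is not trivial. -/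
def Spr (𝕜 : Type*) [NormedField 𝕜] : Prop := ∃ a : 𝕜, 1 < ‖a‖

end normed

variable {K : Type} [Field K] [NumberField K]

/-- The prime `v` is harmless for `F / b`: it does not divide `b`, and
`(d - 1) v(c_j) ≥ (j - 1) v(a)` for `j ≥ 2`, where `F = ∑ c_j X ^ j`, `d = deg F`, `a = c_d`. -/
def Harmless (F : (𝓞 K)[X]) (b : 𝓞 K) (v : HeightOneSpectrum (𝓞 K)) : Prop :=
  b ∉ v.asIdeal ∧ ∀ j, 2 ≤ j →
    v.intValuation (F.coeff j) ^ (F.natDegree - 1) ≤ v.intValuation F.leadingCoeff ^ (j - 1)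

/-- First kind of defective primes. -/
def DefA (k : ℕ) (F : (𝓞 K)[X]) (b : 𝓞 K) (v : HeightOneSpectrum (𝓞 K)) : Prop :=
  b ∉ v.asIdeal ∧ F.leadingCoeff ∈ v.asIdeal ∧ F.leadingCoeff ∉ v.asIdeal ^ (k + 1) ∧
    ¬ Harmless F b v

/-- Second kind of defective primes. -/
def DefB (N : ℕ) (F : (𝓞 K)[X]) (b : 𝓞 K) (v : HeightOneSpectrum (𝓞 K)) : Prop :=
  F.leadingCoeff ∉ v.asIdeal ∧ b ∈ v.asIdeal ∧
    ∃ h : (𝓞 K ⧸ v.asIdeal)[X], Irreducible h ∧ N < h.natDegree ∧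
      h ∣ F.map (Ideal.Quotient.mk v.asIdeal)

/-- The polynomial `F / b` over a field extension `E` of `K`. -/
noncomputable def fE (E : Type) [Field E] [Algebra K E] (F : (𝓞 K)[X]) (b : 𝓞 K) : E[X] :=
  (fp F b).map (algebraMap K E)

/-- `x` is preperiodic for `F / b`. -/
def PreE (E : Type) [Field E] [Algebra K E] (F : (𝓞 K)[X]) (b : 𝓞 K) (x : E) : Prop :=
  Pre (fun z => (fE E F b).eval z) x

/-- `x` is a root of a polynomial over `K` of degree at most `N`. -/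
def DegLe (K : Type) [Field K] {E : Type} [Field E] [Algebra K E] (N : ℕ) (x : E) : Prop :=
  ∃ P : K[X], P ≠ 0 ∧ P.natDegree ≤ N ∧ aeval x P = 0

end Pool.Agent.PQ
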