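import Pool.Agent.PQ.Defs

set_option autoImplicit false

/-!
# Algebraically closed extensions, embeddings and norms
-/

namespace Pool.Agent.PQ

open Polynomial NumberField IsDedekindDomain Pool.Agent.GPoly

section Ext

variable {K : Type} [Field K] [NumberField K]

/-- An algebraically closed ultrametric field over `K` which induces the absolute value `av v`. -/
theorem exists_Om (v : HeightOneSpectrum (𝓞 K)) :
    ∃ (Om : Type) (_ : NormedField Om) (_ : IsAlgClosed Om) (_ : IsUltrametricDist Om)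
      (_ : Algebra K Om), ∀ x : K, ‖algebraMap K Om x‖ = av v x := by
  let i1 : NontriviallyNormedField (v.adicCompletion K) :=
    Valued.toNontriviallyNormedField (v.adicCompletion K) (WithZero (Multiplicative ℤ))
  have i2 : IsUltrametricDist (v.adicCompletion K) :=
    Valued.instIsUltrametricDist (v.adicCompletion K) (WithZero (Multiplicative ℤ))
  have i3 : CompleteSpace (v.adicCompletion K) := inferInstance
  let j1 : NormedField (AlgebraicClosure (v.adicCompletion K)) :=
    spectralNorm.normedField (v.adicCompletion K) (AlgebraicClosure (v.adicCompletion K))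
  have j3 : IsUltrametricDist (AlgebraicClosure (v.adicCompletion K)) :=
    IsUltrametricDist.isUltrametricDist_of_isNonarchimedean_norm
      (isNonarchimedean_spectralNorm (K := v.adicCompletion K)
        (L := AlgebraicClosure (v.adicCompletion K)))
  refine ⟨AlgebraicClosure (v.adicCompletion K), j1, inferInstance, j3,
    (RingHom.comp (algebraMap (v.adicCompletion K) (AlgebraicClosure (v.adicCompletion K)))
      (FinitePlace.embedding v)).toAlgebra, fun x => ?_⟩
  have h1 : ‖(algebraMap (v.adicCompletion K) (AlgebraicClosure (v.adicCompletion K)))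
      (FinitePlace.embedding v x)‖ = ‖FinitePlace.embedding v x‖ :=
    spectralNorm_extends _
  exact h1.trans (FinitePlace.norm_embedding v x)

theorem exists_one_lt (v : HeightOneSpectrum (𝓞 K)) (Om : Type) [NormedField Om] [Algebra K Om]
    (h : ∀ x : K, ‖algebraMap K Om x‖ = av v x) : ∃ c : Om, 1 < ‖c‖ := by
  obtain ⟨a, ha, ha0⟩ := Submodule.exists_mem_ne_zero_of_ne_bot v.ne_bot
  have h1 : av v (algebraMap (𝓞 K) K a) < 1 := (av_int_lt_one v a).2 ha
  have h2 : 0 < av v (algebraMap (𝓞 K) K a) := av_int_pos v a ha0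
  refine ⟨(algebraMap K Om (algebraMap (𝓞 K) K a))⁻¹, ?_⟩
  rw [norm_inv, h]
  exact (one_lt_inv₀ h2).2 h1

theorem card_emb (E L : Type) [Field E] [IsAlgClosed E] [Algebra K E] [Field L] [Algebra K L]
    [FiniteDimensional K L] : Fintype.card (L →ₐ[K] E) = Module.finrank K L :=
  AlgHom.card K L E

/-- The energies of the conjugates and the norms of the differences. -/
theorem local_sum (E L : Type) [NormedField E] [IsAlgClosed E] [Algebra K E] [Field L]
    [Algebra K L] [FiniteDimensional K L] {T : ℕ} (x : Fin T → L) (hx : Function.Injective x)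
    (U : ℝ) (h : ∀ φ : L →ₐ[K] E, ∑ i, ∑ j, Real.log ‖φ (x i) - φ (x j)‖ ≤ U) :
    ∑ i, ∑ j, Real.log ‖algebraMap K E (Algebra.norm K (x i - x j))‖ ≤
      Module.finrank K L * U := by
  have h1 : ∀ i j, Real.log ‖algebraMap K E (Algebra.norm K (x i - x j))‖ =
      ∑ φ : L →ₐ[K] E, Real.log ‖φ (x i) - φ (x j)‖ := by
    intro i j
    rw [Algebra.norm_eq_prod_embeddings K E, norm_prod]
    by_cases hij : i = j
    · subst hij
      have h2 : (Finset.univ : Finset (L →ₐ[K] E)).Nonempty := by
        rw [← Finset.card_pos, Finset.card_univ, card_emb]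
        exact Module.finrank_pos
      obtain ⟨φ₀, hφ₀⟩ := h2
      rw [Finset.prod_eq_zero hφ₀ (by simp)]
      simp
    · rw [Real.log_prod]
      · exact Finset.sum_congr rfl fun φ _ => by rw [map_sub]
      · intro φ _
        rw [norm_ne_zero_iff, map_ne_zero_iff φ φ.injective, sub_ne_zero]
        exact fun h => hij (hx h)
  simp only [h1]
  calc ∑ i, ∑ j, ∑ φ : L →ₐ[K] E, Real.log ‖φ (x i) - φ (x j)‖
      = ∑ φ : L →ₐ[K] E, ∑ i, ∑ j, Real.log ‖φ (x i) - φ (x j)‖ := by
        symm
        rw [Finset.sum_comm]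
        exact Finset.sum_congr rfl fun i _ => Finset.sum_comm
    _ ≤ ∑ _φ : L →ₐ[K] E, U := Finset.sum_le_sum fun φ _ => h φ
    _ = Module.finrank K L * U := by
        rw [Finset.sum_const, Finset.card_univ, card_emb, nsmul_eq_mul]

/-- A preperiodic point of degree at most `N` has the same properties after an embedding. -/
theorem DegLe.map {E L : Type} [Field E] [Algebra K E] [Field L] [Algebra K L] {N : ℕ} {x : L}
    (h : DegLe K N x) (φ : L →ₐ[K] E) : DegLe K N (φ x) := by
  obtain ⟨P, hP, hN, hx⟩ := h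
  exact ⟨P, hP, hN, by rw [Polynomial.aeval_algHom_apply, hx, map_zero]⟩

theorem fE_map {E L : Type} [Field E] [Algebra K E] [Field L] [Algebra K L] (F : (𝓞 K)[X])
    (b : 𝓞 K) (φ : L →ₐ[K] E) : (fE L F b).map (φ : L →+* E) = fE E F b := by
  rw [fE, fE, Polynomial.map_map, AlgHom.comp_algebraMap]

theorem PreE.map {E L : Type} [Field E] [Algebra K E] [Field L] [Algebra K L] {F : (𝓞 K)[X]}
    {b : 𝓞 K} {x : L} (h : PreE L F b x) (φ : L →ₐ[K] E) : PreE E F b (φ x) := by
  obtain ⟨m, n, hmn, he⟩ := h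
  refine ⟨m, n, hmn, ?_⟩
  have h1 : ∀ k : ℕ, (fun z => (fE E F b).eval z)^[k] (φ x) =
      φ ((fun z => (fE L F b).eval z)^[k] x) := by
    intro k
    rw [← fE_map F b φ]
    exact N.iterate_map (φ : L →+* E) (fE L F b) x k
  rw [h1, h1, he]

theorem PreE.bd {E : Type} [NormedField E] [Algebra K E] {F : (𝓞 K)[X]} {b : 𝓞 K} {x : E}
    (h : PreE E F b x) : Bd (fE E F b) x := by
  obtain ⟨R, hR⟩ := (h.range_finite.image fun z => ‖z‖).bddAbove
  exact ⟨R, fun n => hR ⟨_, ⟨n, rfl⟩, rfl⟩⟩

theorem fE_natDegree (E : Type) [Field E] [Algebra K E] (F : (𝓞 K)[X]) (b : 𝓞 K) (hb : b ≠ 0) :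
    (fE E F b).natDegree = F.natDegree := by
  rw [fE, natDegree_map, fp_natDegree F b hb]

theorem fE_leadingCoeff (E : Type) [Field E] [Algebra K E] (F : (𝓞 K)[X]) (b : 𝓞 K)
    (_hb : b ≠ 0) : (fE E F b).leadingCoeff =
      algebraMap K E (algebraMap (𝓞 K) K F.leadingCoeff / algebraMap (𝓞 K) K b) := by
  rw [fE, leadingCoeff_map, fp_leadingCoeff]

end Ext

end Pool.Agent.PQ
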