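import Pool.Agent.PQ.Defs

set_option autoImplicit false

/-!
# The product formula for the norms of the differences
-/

namespace Pool.Agent.PQ

open Polynomial NumberField IsDedekindDomain Pool.Agent.GPoly

section Glob

variable {K : Type} [Field K] [NumberField K]

/-- The product formula for the norms of the differences. -/
theorem glob (L : Type) [Field L] [Algebra K L] [FiniteDimensional K L] {T : ℕ} (x : Fin T → L)
    (hx : Function.Injective x) (P : Finset (HeightOneSpectrum (𝓞 K)))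
    (u : HeightOneSpectrum (𝓞 K) → ℝ) (w : (K →+* ℂ) → ℝ)
    (hu : ∀ v, ∑ i, ∑ j, Real.log (av v (Algebra.norm K (x i - x j))) ≤
      Module.finrank K L * u v)
    (h0 : ∀ v, v ∉ P → u v ≤ 0)
    (hw : ∀ σ : K →+* ℂ, ∑ i, ∑ j, Real.log ‖σ (Algebra.norm K (x i - x j))‖ ≤
      Module.finrank K L * w σ) :
    0 ≤ ∑ v ∈ P, u v + ∑ σ, w σ := by
  classical
  have hn : (0 : ℝ) < Module.finrank K L := by exact_mod_cast Module.finrank_pos
  have hsupp : ∀ i j, ∃ Q : Finset (HeightOneSpectrum (𝓞 K)),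
      ∀ v, i ≠ j → av v (Algebra.norm K (x i - x j)) ≠ 1 → v ∈ Q := by
    intro i j
    by_cases hij : i = j
    · exact ⟨∅, fun v h => absurd hij h⟩
    · have h1 : Algebra.norm K (x i - x j) ≠ 0 :=
        Algebra.norm_ne_zero_iff.2 (sub_ne_zero.2 fun h => hij (hx h))
      exact ⟨(av_support_finite _ h1).toFinset, fun v _ hv => by simpa using hv⟩
  choose Q hQ using hsupp
  set S : Finset (HeightOneSpectrum (𝓞 K)) :=
    P ∪ Finset.univ.biUnion (fun i => Finset.univ.biUnion fun j => Q i j) with hS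
  have hpf : ∀ i j, ∑ v ∈ S, Real.log (av v (Algebra.norm K (x i - x j))) +
      ∑ σ : K →+* ℂ, Real.log ‖σ (Algebra.norm K (x i - x j))‖ = 0 := by
    intro i j
    by_cases hij : i = j
    · subst hij
      simp
    · refine product_formula _ (Algebra.norm_ne_zero_iff.2 (sub_ne_zero.2 fun h => hij (hx h))) S
        fun v hv => ?_
      rw [hS, Finset.mem_union]
      right
      exact Finset.mem_biUnion.2 ⟨i, Finset.mem_univ _,
        Finset.mem_biUnion.2 ⟨j, Finset.mem_univ _, hQ i j v hij hv⟩⟩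
  have hsum : ∑ v ∈ S, ∑ i, ∑ j, Real.log (av v (Algebra.norm K (x i - x j))) +
      ∑ σ : K →+* ℂ, ∑ i, ∑ j, Real.log ‖σ (Algebra.norm K (x i - x j))‖ = 0 := by
    have h1 : ∑ v ∈ S, ∑ i, ∑ j, Real.log (av v (Algebra.norm K (x i - x j))) =
        ∑ i, ∑ j, ∑ v ∈ S, Real.log (av v (Algebra.norm K (x i - x j))) := by
      rw [Finset.sum_comm]
      exact Finset.sum_congr rfl fun i _ => Finset.sum_comm
    have h2 : ∑ σ : K →+* ℂ, ∑ i, ∑ j, Real.log ‖σ (Algebra.norm K (x i - x j))‖ =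
        ∑ i, ∑ j, ∑ σ : K →+* ℂ, Real.log ‖σ (Algebra.norm K (x i - x j))‖ := by
      rw [Finset.sum_comm]
      exact Finset.sum_congr rfl fun i _ => Finset.sum_comm
    rw [h1, h2, ← Finset.sum_add_distrib]
    refine Finset.sum_eq_zero fun i _ => ?_
    rw [← Finset.sum_add_distrib]
    exact Finset.sum_eq_zero fun j _ => hpf i j
  have h3 : ∑ v ∈ S, ∑ i, ∑ j, Real.log (av v (Algebra.norm K (x i - x j))) ≤
      Module.finrank K L * ∑ v ∈ P, u v := by
    calc _ ≤ ∑ v ∈ S, Module.finrank K L * u v := Finset.sum_le_sum fun v _ => hu v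
      _ = Module.finrank K L * ∑ v ∈ S, u v := by rw [Finset.mul_sum]
      _ ≤ _ := by
          refine mul_le_mul_of_nonneg_left ?_ hn.le
          rw [← Finset.sum_sdiff (Finset.subset_union_left : P ⊆ S)]
          have h4 : ∑ v ∈ S \ P, u v ≤ 0 :=
            Finset.sum_nonpos fun v hv => h0 v (Finset.mem_sdiff.1 hv).2
          linarith
  have h5 : ∑ σ : K →+* ℂ, ∑ i, ∑ j, Real.log ‖σ (Algebra.norm K (x i - x j))‖ ≤
      Module.finrank K L * ∑ σ, w σ := by
    rw [Finset.mul_sum]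
    exact Finset.sum_le_sum fun σ _ => hw σ
  have h6 : 0 ≤ (Module.finrank K L : ℝ) * (∑ v ∈ P, u v + ∑ σ, w σ) := by
    rw [mul_add]
    linarith
  exact nonneg_of_mul_nonneg_right h6 hn

end Glob

end Pool.Agent.PQ
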