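import Pool.Agent.PQ.LocC
import Pool.Agent.QPol.LocA

set_option autoImplicit false

/-!
# The local estimate at a prime of the first kind, abstract form
-/

namespace Pool.Agent.QPol

open Polynomial NumberField IsDedekindDomain Pool.Agent.GPoly Pool.Agent.PQ

/-- The local estimate at the first kind of defective primes, with the norm. -/
theorem absA (d N k : ℕ) (hd : 2 ≤ d) (hN : 1 ≤ N) : ∃ δ C : ℝ, 0 < δ ∧ 0 ≤ C ∧
    ∀ (Om : Type) [NormedField Om] [IsAlgClosed Om] [IsUltrametricDist Om] (g : Om[X]),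
    g.natDegree = d → (∀ i, ‖g.coeff i‖ ≤ 1) → ∀ p : Om, p ≠ 0 → ‖p‖ < 1 → ∀ e : ℕ, 2 ≤ e →
    ‖g.coeff e‖ = 1 → (∀ j, e < j → ‖g.coeff j‖ ≤ ‖p‖) → ‖g.leadingCoeff‖ < 1 →
    ‖p‖ ^ k ≤ ‖g.leadingCoeff‖ → ∀ (T : ℕ) (x : Fin T → Om), Function.Injective x →
    (∀ i, Pre (fun z => g.eval z) (x i)) → (∀ i, 1 < ‖x i‖ → 1 ≤ ‖p‖ * ‖x i‖ ^ N) →
    ∑ i, ∑ j, Real.log ‖x i - x j‖ ≤
      (T : ℝ) ^ 2 * (-Real.log ‖g.leadingCoeff‖ / (d - 1)) -
        (δ * (T : ℝ) ^ 2 - C * T) * (-Real.log ‖g.leadingCoeff‖) := by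
  have hdr : (2 : ℝ) ≤ d := by exact_mod_cast hd
  refine ⟨1 / (16 * (d : ℝ) ^ (2 * (k * N * (d + 1) ^ 2) + 4)),
    (2 * (k * N * (d + 1) ^ 2 : ℕ) + 8) * d, by positivity, by positivity, ?_⟩
  intro Om _ _ _ g hg hc p hp0 hp1 e he hce hc2 hl hk T x hinj hpre hx
  have hpp : 0 < ‖p‖ := norm_pos_iff.mpr hp0
  have hw : 0 < -Real.log ‖p‖ := by
    have := Real.log_neg hpp hp1
    linarith
  have hg0 : g ≠ 0 := by
    rintro rfl
    rw [natDegree_zero] at hg
    omega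
  have hl0 : 0 < ‖g.leadingCoeff‖ := norm_pos_iff.mpr (leadingCoeff_ne_zero.mpr hg0)
  have hled : ‖g.leadingCoeff‖ = ‖g.coeff d‖ := by rw [leadingCoeff, hg]
  have hed : e < d := by
    have h1 : e ≤ d := by
      by_contra hcon
      push Not at hcon
      rw [coeff_eq_zero_of_natDegree_lt (by omega), norm_zero] at hce
      exact zero_ne_one hce
    rcases h1.lt_or_eq with h2 | h2
    · exact h2
    · rw [hled, ← h2, hce] at hl
      exact absurd hl (lt_irrefl _)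
  have hlp : ‖g.leadingCoeff‖ ≤ ‖p‖ := by
    rw [hled]
    exact hc2 d hed
  have hα1 : -Real.log ‖p‖ ≤ -Real.log ‖g.leadingCoeff‖ := by
    have := Real.log_le_log hl0 hlp
    linarith
  have hα2 : -Real.log ‖g.leadingCoeff‖ ≤ k * -Real.log ‖p‖ := by
    have h1 := Real.log_le_log (pow_pos hpp k) hk
    rw [Real.log_pow] at h1
    linarith
  have hpabs : nabs Om p = Real.exp (-(-Real.log ‖p‖)) := by
    rw [neg_neg, Real.exp_log hpp]
    rfl
  have hlabs : nabs Om g.leadingCoeff = Real.exp (-(-Real.log ‖g.leadingCoeff‖)) := by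
    rw [neg_neg, Real.exp_log hl0]
    rfl
  -- bounded orbits
  have ha0 : g.leadingCoeff ≠ 0 := norm_pos_iff.mp hl0
  have ha1 : nabs Om g.leadingCoeff ≤ 1 := hl.le
  have hbt1 : nabs Om (g.leadingCoeff ^ (d - 2)) ≤ 1 := by
    rw [map_pow]
    exact pow_le_one₀ ((nabs Om).nonneg _) ha1
  have hbd : ∀ i n, nabs Om (g.leadingCoeff * (fun x => g.eval x)^[n] (x i)) ≤ 1 := by
    intro i n
    have hp' : Pre (qf (cj d g g.leadingCoeff) (g.leadingCoeff ^ (d - 2)))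
        (g.leadingCoeff * x i) := by
      obtain ⟨a, b, hab, h⟩ := hpre i
      refine ⟨a, b, hab, ?_⟩
      rw [cj_iter hd hg, cj_iter hd hg, h]
    have h1 := pre_bound (nabs Om) (nabs_na Om) hd (cj_natDegree d g g.leadingCoeff)
      (by rw [(cj_monic d g g.leadingCoeff).leadingCoeff, map_one])
      (cj_coeff_le d g hc g.leadingCoeff ha1) (pow_ne_zero _ ha0) hbt1 hp' n
    rwa [cj_iter hd hg] at h1
  have hx' : ∀ i, 1 < nabs Om (x i) → Real.exp (-Real.log ‖p‖ / N) ≤ nabs Om (x i) := by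
    intro i hi
    have h1 := hx i hi
    have hxp : 0 < ‖x i‖ := lt_trans one_pos hi
    have hNr : (0 : ℝ) < N := by exact_mod_cast hN
    have h2 := Real.log_le_log one_pos h1
    rw [Real.log_one, Real.log_mul hpp.ne' (pow_pos hxp N).ne', Real.log_pow] at h2
    change Real.exp (-Real.log ‖p‖ / N) ≤ ‖x i‖
    rw [← Real.le_log_iff_exp_le hxp, div_le_iff₀ hNr]
    linarith
  have hmain := loc_A_core (nabs_na Om) (gen_Om Om) hN he hed hg hc (-Real.log ‖p‖) hw p hpabs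
    hce (fun i hi => by
      rw [neg_neg, Real.exp_log hpp]
      exact hc2 i hi) (-Real.log ‖g.leadingCoeff‖) hlabs hα1 hα2 x hinj hbd hx'
    (k * N * (d + 1) ^ 2) rfl
  rw [energy_eq]
  refine hmain.trans_eq ?_
  ring

end Pool.Agent.QPol
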