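import Pool.Agent.PQ.Defs

/-! # Averaging over all maps, and the number of pairs of the same colour -/

set_option autoImplicit false

namespace Pool.Agent.PQ

open Finset

/-- the maps `κ → ι` with two prescribed values -/
theorem Avg.sum_pair {κ ι : Type*} [Fintype κ] [DecidableEq κ] [Fintype ι] [DecidableEq ι] (g : ι → ι → ℝ)
    {a b : κ} (hab : a ≠ b) :
    ∑ σ : κ → ι, g (σ a) (σ b) =
      (Fintype.card ι : ℝ) ^ (Fintype.card κ - 2) * ∑ i, ∑ j, g i j := by
  have hpt : ∀ i0 j0 : ι, ∑ σ : κ → ι, (if σ a = i0 then (1 : ℝ) else 0) * (if σ b = j0 then 1 else 0) =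
      (Fintype.card ι : ℝ) ^ (Fintype.card κ - 2) := by
    intro i0 j0
    have h1 : ∀ σ : κ → ι, (if σ a = i0 then (1 : ℝ) else 0) * (if σ b = j0 then 1 else 0) =
        ∏ c, (if c = a then (if σ c = i0 then (1 : ℝ) else 0) else if c = b then (if σ c = j0 then 1 else 0) else 1) := by
      intro σ
      rw [← Finset.mul_prod_erase _ _ (Finset.mem_univ a),
        ← Finset.mul_prod_erase _ _ (Finset.mem_erase.mpr ⟨hab.symm, Finset.mem_univ b⟩)]
      rw [if_pos rfl, if_neg hab.symm, if_pos rfl, Finset.prod_eq_one, mul_one]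
      intro c hc
      rw [Finset.mem_erase, Finset.mem_erase] at hc
      rw [if_neg hc.2.1, if_neg hc.1]
    rw [Finset.sum_congr rfl (fun σ _ => h1 σ)]
    have h2 := Finset.prod_univ_sum (fun _ : κ => (Finset.univ : Finset ι))
      (fun (c : κ) (i : ι) => (if c = a then (if i = i0 then (1 : ℝ) else 0) else if c = b then (if i = j0 then 1 else 0) else 1))
    rw [Fintype.piFinset_univ] at h2
    rw [← h2, ← Finset.mul_prod_erase _ _ (Finset.mem_univ a),
        ← Finset.mul_prod_erase _ _ (Finset.mem_erase.mpr ⟨hab.symm, Finset.mem_univ b⟩)]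
    have e1 : (∑ j : ι, if a = a then (if j = i0 then (1 : ℝ) else 0) else if a = b then (if j = j0 then 1 else 0) else 1) = 1 := by
      simp
    have e2 : (∑ j : ι, if b = a then (if j = i0 then (1 : ℝ) else 0) else if b = b then (if j = j0 then 1 else 0) else 1) = 1 := by
      simp [hab.symm]
    rw [e1, e2, one_mul, one_mul]
    have e3 : ∀ c ∈ ((Finset.univ : Finset κ).erase a).erase b,
        (∑ j : ι, if c = a then (if j = i0 then (1 : ℝ) else 0) else if c = b then (if j = j0 then 1 else 0) else 1) = (Fintype.card ι : ℝ) := by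
      intro c hc
      rw [Finset.mem_erase, Finset.mem_erase] at hc
      simp [hc.1, hc.2.1]
    rw [Finset.prod_congr rfl e3, Finset.prod_const, Finset.card_erase_of_mem (Finset.mem_erase.mpr ⟨hab.symm, Finset.mem_univ b⟩),
      Finset.card_erase_of_mem (Finset.mem_univ a), Finset.card_univ, Nat.sub_sub]
  have h3 : ∀ σ : κ → ι, g (σ a) (σ b) =
      ∑ i, ∑ j, g i j * ((if σ a = i then (1 : ℝ) else 0) * (if σ b = j then 1 else 0)) := by
    intro σ
    rw [Finset.sum_eq_single (σ a)]
    · rw [Finset.sum_eq_single (σ b)]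
      · simp
      · intro j _ hj
        have hj' : ¬ σ b = j := fun h => hj h.symm
        rw [if_neg hj']; ring
      · intro h; exact absurd (Finset.mem_univ _) h
    · intro i _ hi
      have hi' : ¬ σ a = i := fun h => hi h.symm
      rw [if_neg hi']
      simp
    · intro h; exact absurd (Finset.mem_univ _) h
  rw [Finset.sum_congr rfl (fun σ _ => h3 σ), Finset.sum_comm, Finset.mul_sum]
  refine Finset.sum_congr rfl fun i _ => ?_
  rw [Finset.sum_comm, Finset.mul_sum]
  refine Finset.sum_congr rfl fun j _ => ?_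
  rw [← Finset.mul_sum, hpt, mul_comm]

/-- Averaging over all maps. -/
theorem avg_maps {T n : ℕ} (hn : 2 ≤ n) (h : Fin T → Fin T → ℝ) (U : ℝ)
    (H : ∀ e : Fin n → Fin T, ∑ a, ∑ b ∈ Finset.univ.erase a, h (e a) (e b) ≤ U) :
    (n * (n - 1) : ℝ) * ∑ i, ∑ j, h i j ≤ (T : ℝ) ^ 2 * U := by
  rcases Nat.eq_zero_or_pos T with rfl | hT
  · simp
  have h1 : ∑ e : Fin n → Fin T, ∑ a, ∑ b ∈ Finset.univ.erase a, h (e a) (e b) ≤
      ∑ e : Fin n → Fin T, U := Finset.sum_le_sum fun e _ => H e
  have h2 : ∑ e : Fin n → Fin T, ∑ a, ∑ b ∈ Finset.univ.erase a, h (e a) (e b) =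
      (n * (n - 1) : ℝ) * ((T : ℝ) ^ (n - 2) * ∑ i, ∑ j, h i j) := by
    rw [Finset.sum_comm]
    have h3 : ∀ a : Fin n, ∑ e : Fin n → Fin T, ∑ b ∈ Finset.univ.erase a, h (e a) (e b) =
        ((n : ℝ) - 1) * ((T : ℝ) ^ (n - 2) * ∑ i, ∑ j, h i j) := by
      intro a
      rw [Finset.sum_comm, Finset.sum_congr rfl (fun b hb => Avg.sum_pair h (Finset.ne_of_mem_erase hb).symm),
        Finset.sum_const, Finset.card_erase_of_mem (Finset.mem_univ a), Finset.card_univ, nsmul_eq_mul,
        Fintype.card_fin, Fintype.card_fin, Nat.cast_sub (by omega), Nat.cast_one]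
    rw [Finset.sum_congr rfl (fun a _ => h3 a), Finset.sum_const, Finset.card_univ, nsmul_eq_mul,
      Fintype.card_fin]
    ring
  rw [h2, Finset.sum_const, nsmul_eq_mul, Finset.card_univ, Fintype.card_fun, Fintype.card_fin,
    Fintype.card_fin] at h1
  have hTpos : (0 : ℝ) < T := by exact_mod_cast hT
  have e2 : ((T ^ n : ℕ) : ℝ) = (T : ℝ) ^ (n - 2) * (T : ℝ) ^ 2 := by
    push_cast
    rw [← pow_add]; congr 1; omega
  rw [e2] at h1
  have hp : (0 : ℝ) < (T : ℝ) ^ (n - 2) := by positivity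
  have h4 : (T : ℝ) ^ (n - 2) * ((n * (n - 1) : ℝ) * ∑ i, ∑ j, h i j) ≤
      (T : ℝ) ^ (n - 2) * ((T : ℝ) ^ 2 * U) := by
    calc _ = (n * (n - 1) : ℝ) * ((T : ℝ) ^ (n - 2) * ∑ i, ∑ j, h i j) := by ring
      _ ≤ _ := h1
      _ = _ := by ring
  exact le_of_mul_le_mul_left h4 hp

/-- At most `N` colours: many pairs of the same colour. -/
theorem same_colour {T N : ℕ} {ι : Type} [DecidableEq ι] (hN : 1 ≤ N) (c : Fin T → ι)
    (hc : (Finset.univ.image c).card ≤ N) :
    (T : ℝ) ^ 2 / N - T ≤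
      ∑ i, ∑ j ∈ Finset.univ.erase i, if c i = c j then (1 : ℝ) else 0 := by
  have hN' : (0 : ℝ) < N := by exact_mod_cast hN
  have h1 : ∀ i, ∑ j ∈ Finset.univ.erase i, (if c i = c j then (1 : ℝ) else 0) =
      ((Finset.univ.filter fun j => c j = c i).card : ℝ) - 1 := by
    intro i
    have h2 : (if c i = c i then (1 : ℝ) else 0) + ∑ j ∈ Finset.univ.erase i, (if c i = c j then (1 : ℝ) else 0) =
        ∑ j, (if c i = c j then (1 : ℝ) else 0) :=
      Finset.add_sum_erase Finset.univ (fun j => if c i = c j then (1 : ℝ) else 0) (Finset.mem_univ i)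
    have h3 : (Finset.univ.filter fun j => c i = c j) = (Finset.univ.filter fun j => c j = c i) :=
      Finset.filter_congr fun j _ => ⟨fun h => h.symm, fun h => h.symm⟩
    have h4 : ∑ j, (if c i = c j then (1 : ℝ) else 0) =
        ((Finset.univ.filter fun j => c j = c i).card : ℝ) := by
      rw [← Finset.sum_filter, Finset.sum_const, nsmul_eq_mul, mul_one, h3]
    rw [if_pos rfl, h4] at h2
    linarith
  rw [Finset.sum_congr rfl (fun i _ => h1 i), Finset.sum_sub_distrib, Finset.sum_const,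
    Finset.card_univ, Fintype.card_fin, nsmul_eq_mul, mul_one]
  refine sub_le_sub_right ?_ _
  -- group by colours
  have h4 : ∑ i, ((Finset.univ.filter fun j => c j = c i).card : ℝ) =
      ∑ y ∈ Finset.univ.image c, ((Finset.univ.filter fun j => c j = y).card : ℝ) ^ 2 := by
    rw [← Finset.sum_fiberwise_of_maps_to (s := Finset.univ) (t := Finset.univ.image c) (g := c)
      (fun i _ => Finset.mem_image_of_mem _ (Finset.mem_univ i))]
    refine Finset.sum_congr rfl fun y _ => ?_
    rw [Finset.sum_congr rfl (g := fun _ => ((Finset.univ.filter fun j => c j = y).card : ℝ))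
      (fun i hi => by rw [(Finset.mem_filter.mp hi).2]), Finset.sum_const, nsmul_eq_mul, pow_two]
  rw [h4]
  have h5 : ∑ y ∈ Finset.univ.image c, ((Finset.univ.filter fun j => c j = y).card : ℝ) = T := by
    rw [← Nat.cast_sum, ← Finset.card_eq_sum_card_image, Finset.card_univ, Fintype.card_fin]
  have h6 := Finset.sum_mul_sq_le_sq_mul_sq (Finset.univ.image c) (fun _ => (1 : ℝ))
    (fun y => ((Finset.univ.filter fun j => c j = y).card : ℝ))
  simp only [one_mul, one_pow, Finset.sum_const, nsmul_eq_mul, mul_one] at h6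
  rw [h5] at h6
  have h7 : 0 ≤ ∑ y ∈ Finset.univ.image c, ((Finset.univ.filter fun j => c j = y).card : ℝ) ^ 2 :=
    Finset.sum_nonneg fun _ _ => sq_nonneg _
  have h8 : ((Finset.univ.image c).card : ℝ) ≤ N := by exact_mod_cast hc
  rw [div_le_iff₀ hN']
  nlinarith

end Pool.Agent.PQ
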