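import Pool.Agent.PQ.Defs

set_option autoImplicit false

/-!
# The nearest root and the coefficients
-/

namespace Pool.Agent.PQ

open Polynomial

namespace Root

variable {𝕜 : Type} [NormedField 𝕜]

/-- The sum of the absolute values of the first coefficients. -/
noncomputable def W (n : ℕ) (P : 𝕜[X]) (r : ℝ) : ℝ := ∑ i ∈ Finset.range n, ‖P.coeff i‖ * r ^ i

theorem W_nonneg (n : ℕ) (P : 𝕜[X]) {r : ℝ} (hr : 0 ≤ r) : 0 ≤ W n P r :=
  Finset.sum_nonneg fun _ _ => mul_nonneg (norm_nonneg _) (pow_nonneg hr _)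

theorem W_X_sub (n : ℕ) (P : 𝕜[X]) (u : 𝕜) {r : ℝ} (hr : 0 ≤ r) :
    W n ((X - C u) * P) r ≤ (r + ‖u‖) * W n P r := by
  cases n with
  | zero => simp [W]
  | succ n =>
    have h1 : W (n + 1) ((X - C u) * P) r ≤
        ∑ i ∈ Finset.range n, ‖P.coeff i‖ * r ^ (i + 1) +
          ∑ i ∈ Finset.range (n + 1), ‖u‖ * (‖P.coeff i‖ * r ^ i) := by
      unfold W
      rw [Finset.sum_range_succ' _ n, Finset.sum_range_succ' (fun i => ‖u‖ * (‖P.coeff i‖ * r ^ i)) n,
        ← add_assoc, ← Finset.sum_add_distrib]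
      refine add_le_add (Finset.sum_le_sum fun i _ => ?_) ?_
      · rw [sub_mul, coeff_sub, coeff_X_mul, coeff_C_mul]
        have h2 : ‖P.coeff i - u * P.coeff (i + 1)‖ ≤ ‖P.coeff i‖ + ‖u‖ * ‖P.coeff (i + 1)‖ := by
          refine (norm_sub_le _ _).trans ?_
          rw [norm_mul]
        calc ‖P.coeff i - u * P.coeff (i + 1)‖ * r ^ (i + 1)
            ≤ (‖P.coeff i‖ + ‖u‖ * ‖P.coeff (i + 1)‖) * r ^ (i + 1) :=
              mul_le_mul_of_nonneg_right h2 (pow_nonneg hr _)
          _ = _ := by ring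
      · rw [sub_mul, coeff_sub, mul_coeff_zero, coeff_X_zero, zero_mul, zero_sub, norm_neg,
          coeff_C_mul, norm_mul]
        simp
    have h3 : ∑ i ∈ Finset.range n, ‖P.coeff i‖ * r ^ (i + 1) ≤ r * W (n + 1) P r := by
      unfold W
      rw [Finset.sum_range_succ, mul_add, Finset.mul_sum]
      have h4 : 0 ≤ r * (‖P.coeff n‖ * r ^ n) :=
        mul_nonneg hr (mul_nonneg (norm_nonneg _) (pow_nonneg hr _))
      have h5 : ∑ i ∈ Finset.range n, ‖P.coeff i‖ * r ^ (i + 1) =
          ∑ i ∈ Finset.range n, r * (‖P.coeff i‖ * r ^ i) :=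
        Finset.sum_congr rfl fun i _ => by ring
      rw [h5]
      linarith
    rw [← Finset.mul_sum] at h1
    have h6 : ∑ i ∈ Finset.range (n + 1), ‖P.coeff i‖ * r ^ i = W (n + 1) P r := rfl
    rw [h6] at h1
    linarith

theorem W_prod (n : ℕ) (a : 𝕜) (s : Multiset 𝕜) {r : ℝ} (hr : 0 ≤ r) :
    W n (C a * (s.map fun u => X - C u).prod) r ≤ ‖a‖ * (s.map fun u => r + ‖u‖).prod := by
  induction s using Multiset.induction with
  | empty =>
    simp only [Multiset.map_zero, Multiset.prod_zero, mul_one]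
    cases n with
    | zero => simp [W]
    | succ n =>
      unfold W
      rw [Finset.sum_range_succ']
      simp [coeff_C_succ]
  | cons u s ih =>
    rw [Multiset.map_cons, Multiset.prod_cons, Multiset.map_cons, Multiset.prod_cons,
      show C a * ((X - C u) * (s.map fun u => X - C u).prod) =
        (X - C u) * (C a * (s.map fun u => X - C u).prod) by ring]
    refine (W_X_sub n _ u hr).trans ?_
    calc (r + ‖u‖) * W n (C a * (s.map fun u => X - C u).prod) r
        ≤ (r + ‖u‖) * (‖a‖ * (s.map fun u => r + ‖u‖).prod) :=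
          mul_le_mul_of_nonneg_left ih (add_nonneg hr (norm_nonneg _))
      _ = _ := by ring

/-- the factorisation of `f(x + X) - w` -/
theorem taylor_fact [IsAlgClosed 𝕜] (f : 𝕜[X]) (w x : 𝕜) :
    taylor x (f - C w) = C (f - C w).leadingCoeff *
      (((f - C w).roots.map fun z => z - x).map fun u => X - C u).prod := by
  have h := (IsAlgClosed.splits (f - C w)).eq_prod_roots
  conv_lhs => rw [h]
  rw [taylor_apply, mul_comp, C_comp, multiset_prod_comp, Multiset.map_map, Multiset.map_map]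
  congr 2
  refine Multiset.map_congr rfl fun z _ => ?_
  simp only [Function.comp_apply, sub_comp, X_comp, C_comp, C_sub]
  ring

theorem GG_le_W [IsAlgClosed 𝕜] (f : 𝕜[X]) (hf : 1 ≤ f.natDegree) (w x : 𝕜) {r : ℝ} (hr : 0 ≤ r) :
    GG f x r ≤ ‖f.leadingCoeff‖ *
      (((f - C w).roots.map fun z => z - x).map fun u => r + ‖u‖).prod := by
  have hl : (f - C w).leadingCoeff = f.leadingCoeff := by
    rw [leadingCoeff_sub_of_degree_lt]
    exact lt_of_le_of_lt degree_C_le (natDegree_pos_iff_degree_pos.1 hf)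
  have h1 := W_prod (f.natDegree + 1) (f - C w).leadingCoeff ((f - C w).roots.map fun z => z - x) hr
  rw [← taylor_fact, hl] at h1
  refine le_trans ?_ h1
  unfold GG W
  have h2 : ∀ i ∈ Finset.Icc 1 f.natDegree, ‖(taylor x f).coeff i‖ * r ^ i =
      ‖(taylor x (f - C w)).coeff i‖ * r ^ i := by
    intro i hi
    have h3 : (taylor x (f - C w)).coeff i = (taylor x f).coeff i := by
      rw [map_sub, taylor_C, coeff_sub, coeff_C, if_neg (by rw [Finset.mem_Icc] at hi; omega),
        sub_zero]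
    rw [h3]
  rw [Finset.sum_congr rfl h2]
  refine Finset.sum_le_sum_of_subset_of_nonneg (fun i hi => ?_) fun i _ _ =>
    mul_nonneg (norm_nonneg _) (pow_nonneg hr _)
  rw [Finset.mem_Icc] at hi
  rw [Finset.mem_range]
  omega

theorem card_roots_sub [IsAlgClosed 𝕜] (f : 𝕜[X]) (w : 𝕜) :
    (f - C w).roots.card = f.natDegree := by
  rw [← (IsAlgClosed.splits (f - C w)).natDegree_eq_card_roots, natDegree_sub_C]

theorem prod_le (s : Multiset 𝕜) {r : ℝ} (hr : 0 ≤ r) (h : ∀ u ∈ s, r ≤ ‖u‖) :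
    (s.map fun u => r + ‖u‖).prod ≤ 2 ^ s.card * (s.map fun u => ‖u‖).prod := by
  induction s using Multiset.induction with
  | empty => simp
  | cons u s ih =>
    have h1 := ih fun v hv => h v (Multiset.mem_cons_of_mem hv)
    have h2 := h u (Multiset.mem_cons_self u s)
    rw [Multiset.map_cons, Multiset.prod_cons, Multiset.map_cons, Multiset.prod_cons,
      Multiset.card_cons, pow_succ]
    have h3 : 0 ≤ (s.map fun u => r + ‖u‖).prod := by
      refine Multiset.prod_nonneg fun y hy => ?_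
      obtain ⟨v, -, rfl⟩ := Multiset.mem_map.1 hy
      exact add_nonneg hr (norm_nonneg _)
    calc (r + ‖u‖) * (s.map fun u => r + ‖u‖).prod
        ≤ (2 * ‖u‖) * (2 ^ s.card * (s.map fun u => ‖u‖).prod) :=
          mul_le_mul (by linarith) h1 h3 (by positivity)
      _ = _ := by ring

theorem prod_le_pow (s : Multiset 𝕜) {r : ℝ} (hr : 0 ≤ r) (hr1 : r ≤ 1) (h : ∀ u ∈ s, ‖u‖ ≤ 1) :
    (s.map fun u => r + ‖u‖).prod ≤ 2 ^ s.card := by
  induction s using Multiset.induction with
  | empty => simp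
  | cons u s ih =>
    have h1 := ih fun v hv => h v (Multiset.mem_cons_of_mem hv)
    have h2 := h u (Multiset.mem_cons_self u s)
    rw [Multiset.map_cons, Multiset.prod_cons, Multiset.card_cons, pow_succ]
    have h3 : 0 ≤ (s.map fun u => r + ‖u‖).prod := by
      refine Multiset.prod_nonneg fun y hy => ?_
      obtain ⟨v, -, rfl⟩ := Multiset.mem_map.1 hy
      exact add_nonneg hr (norm_nonneg _)
    calc (r + ‖u‖) * (s.map fun u => r + ‖u‖).prod ≤ 2 * 2 ^ s.card :=
          mul_le_mul (by linarith) h1 h3 (by norm_num)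
      _ = _ := by ring

theorem norm_mprod (s : Multiset 𝕜) : ‖s.prod‖ = (s.map fun u => ‖u‖).prod := by
  induction s using Multiset.induction with
  | empty => simp
  | cons u s ih => rw [Multiset.prod_cons, norm_mul, ih, Multiset.map_cons, Multiset.prod_cons]

end Root

open Root

/-- The roots of `f - w`: the nearest one, and the coefficients. -/
theorem GG_root {𝕜 : Type} [NormedField 𝕜] [IsAlgClosed 𝕜] (f : 𝕜[X]) (hf : 1 ≤ f.natDegree)
    (w x : 𝕜) :
    ∃ z ∈ (f - C w).roots, GG f x ‖z - x‖ ≤ 2 ^ f.natDegree * ‖f.eval x - w‖ := by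
  classical
  have hc := card_roots_sub f w
  have hne : (f - C w).roots.toFinset.Nonempty := by
    rw [Multiset.toFinset_nonempty, ← Multiset.card_pos]
    omega
  obtain ⟨z, hz, hmin⟩ := Finset.exists_min_image _ (fun z => ‖z - x‖) hne
  rw [Multiset.mem_toFinset] at hz
  refine ⟨z, hz, ?_⟩
  have h1 := GG_le_W f hf w x (norm_nonneg (z - x))
  set s := (f - C w).roots.map fun z => z - x with hs
  have h2 := prod_le s (norm_nonneg (z - x)) fun u hu => by
    rw [hs, Multiset.mem_map] at hu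
    obtain ⟨y, hy, rfl⟩ := hu
    exact hmin y (Multiset.mem_toFinset.2 hy)
  have hcs : s.card = f.natDegree := by rw [hs, Multiset.card_map, hc]
  have h3 : ‖f.eval x - w‖ = ‖f.leadingCoeff‖ * (s.map fun u => ‖u‖).prod := by
    have h4 := congrArg (fun P => P.eval 0) (taylor_fact f w x)
    rw [← hs] at h4
    simp only [taylor_eval, zero_add, eval_mul, eval_C, eval_sub, eval_multiset_prod,
      Multiset.map_map] at h4
    have hl : (f - C w).leadingCoeff = f.leadingCoeff := by
      rw [leadingCoeff_sub_of_degree_lt]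
      exact lt_of_le_of_lt degree_C_le (natDegree_pos_iff_degree_pos.1 hf)
    rw [h4, norm_mul, hl, norm_mprod, Multiset.map_map]
    congr 2
    refine Multiset.map_congr rfl fun u _ => ?_
    simp
  rw [hcs] at h2
  calc GG f x ‖z - x‖ ≤ ‖f.leadingCoeff‖ * (s.map fun u => ‖z - x‖ + ‖u‖).prod := h1
    _ ≤ ‖f.leadingCoeff‖ * (2 ^ f.natDegree * (s.map fun u => ‖u‖).prod) :=
        mul_le_mul_of_nonneg_left h2 (norm_nonneg _)
    _ = _ := by rw [h3]; ring

/-- If the roots of `f = f(x)` are at distance at most `1` from `x`. -/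
theorem GG_upper {𝕜 : Type} [NormedField 𝕜] [IsAlgClosed 𝕜] (f : 𝕜[X]) (hf : 1 ≤ f.natDegree)
    (x : 𝕜) (h : ∀ z, f.eval z = f.eval x → ‖z - x‖ ≤ 1) {r : ℝ} (hr : 0 ≤ r) (hr1 : r ≤ 1) :
    GG f x r ≤ 2 ^ f.natDegree * ‖f.leadingCoeff‖ * r := by
  have hc := card_roots_sub f (f.eval x)
  have hne : f - C (f.eval x) ≠ 0 := by
    intro h0
    have h1 := congrArg natDegree h0
    rw [natDegree_sub_C, natDegree_zero] at h1
    omega
  have h1 := GG_le_W f hf (f.eval x) x hr
  set s := (f - C (f.eval x)).roots.map fun z => z - x with hs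
  have hcs : s.card = f.natDegree := by rw [hs, Multiset.card_map, hc]
  have h0 : (0 : 𝕜) ∈ s := by
    rw [hs, Multiset.mem_map]
    refine ⟨x, ?_, sub_self x⟩
    rw [mem_roots hne, IsRoot.def, eval_sub, eval_C, sub_self]
  have hle : ∀ u ∈ s, ‖u‖ ≤ 1 := by
    intro u hu
    rw [hs, Multiset.mem_map] at hu
    obtain ⟨y, hy, rfl⟩ := hu
    rw [mem_roots hne, IsRoot.def, eval_sub, eval_C, sub_eq_zero] at hy
    exact h y hy
  obtain ⟨t, ht⟩ := Multiset.exists_cons_of_mem h0
  have h2 : (s.map fun u => r + ‖u‖).prod ≤ r * 2 ^ f.natDegree := by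
    rw [ht, Multiset.map_cons, Multiset.prod_cons, norm_zero, add_zero]
    refine mul_le_mul_of_nonneg_left ?_ hr
    have h3 := prod_le_pow t hr hr1 fun u hu => hle u (by rw [ht]; exact Multiset.mem_cons_of_mem hu)
    refine h3.trans (pow_le_pow_right₀ (by norm_num) ?_)
    rw [← hcs, ht, Multiset.card_cons]
    omega
  calc GG f x r ≤ ‖f.leadingCoeff‖ * (s.map fun u => r + ‖u‖).prod := h1
    _ ≤ ‖f.leadingCoeff‖ * (r * 2 ^ f.natDegree) := mul_le_mul_of_nonneg_left h2 (norm_nonneg _)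
    _ = _ := by ring

end Pool.Agent.PQ
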