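import Pool.Agent.PQ.G
import Pool.Agent.PQ.Root

set_option autoImplicit false

/-!
# Covering the points with bounded orbit by few small sets
-/

namespace Pool.Agent.PQ

open Polynomial

/-- A finite set with at most `d` elements is enumerated by `Fin d`. -/
private theorem cov_enum {α : Type*} [Nonempty α] {d : ℕ} (S : Finset α) (hS : S.card ≤ d) :
    ∃ g : Fin d → α, ∀ z ∈ S, ∃ i, g i = z := by
  classical
  refine ⟨fun i => if h : (i : ℕ) < S.card then (S.equivFin.symm ⟨i, h⟩ : α) else Classical.arbitrary α,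
    fun z hz => ?_⟩
  have h1 : ((S.equivFin ⟨z, hz⟩ : Fin S.card) : ℕ) < S.card := (S.equivFin ⟨z, hz⟩).isLt
  refine ⟨⟨S.equivFin ⟨z, hz⟩, lt_of_lt_of_le h1 hS⟩, ?_⟩
  simp only [Fin.eta, Equiv.symm_apply_apply]
  rw [dif_pos h1]

theorem cover (d : ℕ) (hd : 2 ≤ d) (j : ℕ) : ∃ Kj : ℝ, 1 ≤ Kj ∧
    ∀ (𝕜 : Type) [NormedField 𝕜] [IsAlgClosed 𝕜] (f : 𝕜[X]), Nrm d f →
    1 ≤ ‖f.leadingCoeff‖ → ∃ c : 𝕜 → Fin (d ^ j), ∀ x y, Bd f x → Bd f y → c x = c y →
      ‖x - y‖ ≤ Kj * RR f j x ∧ RR f j x ≤ Kj * RR f j y := by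
  classical
  induction j with
  | zero =>
    refine ⟨1, le_rfl, fun 𝕜 _ _ f hf _ => ⟨fun _ => ⟨0, by simp⟩, fun x y hx hy _ => ?_⟩⟩
    show ‖x - y‖ ≤ 1 * 1 ∧ (1 : ℝ) ≤ 1 * 1
    rw [one_mul]
    exact ⟨hf.diam x y hx hy, le_rfl⟩
  | succ j ih =>
    obtain ⟨K, hK, ih⟩ := ih
    obtain ⟨H, hH⟩ : ∃ H : ℝ, H = 2 ^ d * K := ⟨_, rfl⟩
    have h2d : (1 : ℝ) ≤ 2 ^ d := one_le_pow₀ (by norm_num)
    have hH1 : 1 ≤ H := by
      rw [hH]
      exact one_le_mul_of_one_le_of_one_le h2d hK
    obtain ⟨Q, hQ⟩ : ∃ Q : ℝ, Q = (4 * H) ^ d * K := ⟨_, rfl⟩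
    have h4H : (1 : ℝ) ≤ 4 * H := by linarith
    have hQ1 : 1 ≤ Q := by
      rw [hQ]
      exact one_le_mul_of_one_le_of_one_le (one_le_pow₀ h4H) hK
    refine ⟨H * (1 + Q), by nlinarith, fun 𝕜 _ _ f hf ha => ?_⟩
    obtain ⟨c, hc⟩ := ih 𝕜 f hf ha
    have hfd : 1 ≤ f.natDegree := by
      rw [hf.deg]
      omega
    -- representatives
    have hw : ∀ k : Fin (d ^ j), ∃ w : 𝕜, ∀ y, Bd f y → c y = k → Bd f w ∧ c w = k := by
      intro k
      by_cases h : ∃ y, Bd f y ∧ c y = k
      · obtain ⟨y, hy, hyk⟩ := h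
        exact ⟨y, fun _ _ _ => ⟨hy, hyk⟩⟩
      · exact ⟨0, fun y hy hyk => absurd ⟨y, hy, hyk⟩ h⟩
    choose w hw using hw
    -- the roots
    have hg : ∀ k : Fin (d ^ j), ∃ g : Fin d → 𝕜, ∀ z ∈ (f - C (w k)).roots, ∃ i, g i = z := by
      intro k
      obtain ⟨g, hg⟩ := cov_enum (d := d) (f - C (w k)).roots.toFinset (by
        refine (Multiset.toFinset_card_le _).trans ((card_roots' _).trans ?_)
        rw [natDegree_sub_C, hf.deg])
      exact ⟨g, fun z hz => hg z (Multiset.mem_toFinset.2 hz)⟩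
    choose g hg using hg
    have hi : ∀ x : 𝕜, ∃ i : Fin d, GG f x ‖g (c (f.eval x)) i - x‖ ≤
        2 ^ d * ‖f.eval x - w (c (f.eval x))‖ := by
      intro x
      obtain ⟨z, hz, hz1⟩ := GG_root f hfd (w (c (f.eval x))) x
      obtain ⟨i, hi⟩ := hg _ z hz
      refine ⟨i, ?_⟩
      rw [hi, ← hf.deg]
      exact hz1
    choose i hi using hi
    refine ⟨fun x => Fin.cast (pow_succ d j).symm (finProdFinEquiv (c (f.eval x), i x)), ?_⟩
    -- the distance to the root
    have hroot : ∀ x, Bd f x → ‖g (c (f.eval x)) (i x) - x‖ ≤ H * RR f (j + 1) x := by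
      intro x hx
      have h1 := hw (c (f.eval x)) _ hx.map rfl
      have h2 := (hc _ _ hx.map h1.1 h1.2.symm).1
      have hR := RR_nonneg f hfd (j + 1) x
      refine le_of_GG_le f hfd x (norm_nonneg _) (by positivity) ?_
      calc GG f x ‖g (c (f.eval x)) (i x) - x‖ ≤ 2 ^ d * ‖f.eval x - w (c (f.eval x))‖ := hi x
        _ ≤ 2 ^ d * (K * RR f j (f.eval x)) := by gcongr
        _ = H * GG f x (RR f (j + 1) x) := by
          rw [hH, GG_RR f hfd]
          ring
        _ ≤ GG f x (H * RR f (j + 1) x) := mul_GG_le f x hH1 hR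
    intro x y hx hy hxy
    have hxy' : (c (f.eval x), i x) = (c (f.eval y), i y) :=
      finProdFinEquiv.injective (Fin.cast_injective _ hxy)
    have hc1 : c (f.eval x) = c (f.eval y) := congrArg Prod.fst hxy'
    have hc2 : i x = i y := congrArg Prod.snd hxy'
    have hdist : ‖x - y‖ ≤ H * (RR f (j + 1) x + RR f (j + 1) y) := by
      have h1 := hroot x hx
      have h2 := hroot y hy
      rw [← hc1, ← hc2] at h2
      calc ‖x - y‖ = ‖(g (c (f.eval x)) (i x) - y) - (g (c (f.eval x)) (i x) - x)‖ := by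
            congr 1
            ring
        _ ≤ ‖g (c (f.eval x)) (i x) - y‖ + ‖g (c (f.eval x)) (i x) - x‖ := norm_sub_le _ _
        _ ≤ H * RR f (j + 1) y + H * RR f (j + 1) x := add_le_add h2 h1
        _ = _ := by ring
    -- comparison of the radii
    have key : ∀ x y, Bd f x → Bd f y → c (f.eval x) = c (f.eval y) →
        ‖x - y‖ ≤ H * (RR f (j + 1) x + RR f (j + 1) y) →
        RR f (j + 1) x ≤ Q * RR f (j + 1) y := by
      intro x y hx hy hcc hd'
      have hRx := RR_nonneg f hfd (j + 1) x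
      have hRy := RR_nonneg f hfd (j + 1) y
      rcases le_total (RR f (j + 1) x) (RR f (j + 1) y) with h | h
      · calc RR f (j + 1) x ≤ RR f (j + 1) y := h
          _ = 1 * RR f (j + 1) y := (one_mul _).symm
          _ ≤ Q * RR f (j + 1) y := mul_le_mul_of_nonneg_right hQ1 hRy
      · have h3 : ‖x - y‖ ≤ 2 * H * RR f (j + 1) x := by
          refine hd'.trans ?_
          nlinarith
        have h4 : 2 * H * RR f (j + 1) x ≤ Q * RR f (j + 1) y := by
          refine le_of_GG_le f hfd y (by positivity) (by positivity) ?_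
          calc GG f y (2 * H * RR f (j + 1) x)
              ≤ GG f x (2 * H * RR f (j + 1) x + ‖x - y‖) := GG_shift f x y (by positivity)
            _ ≤ GG f x (4 * H * RR f (j + 1) x) :=
                GG_mono f x (by positivity) (by linarith)
            _ ≤ (4 * H) ^ d * GG f x (RR f (j + 1) x) := by
                have := GG_mul_le f x h4H hRx
                rwa [hf.deg] at this
            _ = (4 * H) ^ d * RR f j (f.eval x) := by rw [GG_RR f hfd]
            _ ≤ (4 * H) ^ d * (K * RR f j (f.eval y)) := by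
                have := (hc _ _ hx.map hy.map hcc).2
                gcongr
            _ = Q * GG f y (RR f (j + 1) y) := by
                rw [hQ, GG_RR f hfd]
                ring
            _ ≤ GG f y (Q * RR f (j + 1) y) := mul_GG_le f y hQ1 hRy
        calc RR f (j + 1) x = 1 * RR f (j + 1) x := (one_mul _).symm
          _ ≤ 2 * H * RR f (j + 1) x := mul_le_mul_of_nonneg_right (by linarith) hRx
          _ ≤ _ := h4
    have hRx := RR_nonneg f hfd (j + 1) x
    have hRy := RR_nonneg f hfd (j + 1) y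
    have k1 := key x y hx hy hc1 hdist
    have k2 := key y x hy hx hc1.symm (by
      rw [norm_sub_rev, add_comm]
      exact hdist)
    constructor
    · calc ‖x - y‖ ≤ H * (RR f (j + 1) x + RR f (j + 1) y) := hdist
        _ ≤ H * (RR f (j + 1) x + Q * RR f (j + 1) x) := by gcongr
        _ = _ := by ring
    · refine k1.trans (mul_le_mul_of_nonneg_right ?_ hRy)
      nlinarith

end Pool.Agent.PQ
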