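import Pool.Agent.PQ.DensA2

set_option autoImplicit false

/-!
# Almost all pairs are good
-/

namespace Pool.Agent.PQ

open Finset DensA

/-- a pair as a function on `Option (Fin (d + 1))` -/
def DensA.toFun (d : ℕ) (p : (Fin (d + 1) → ℤ) × ℤ) : Option (Fin (d + 1)) → ℤ :=
  fun o => o.elim p.2 p.1

theorem DensA.toFun_injective (d : ℕ) : Function.Injective (DensA.toFun d) := by
  rintro ⟨c, b⟩ ⟨c', b'⟩ h
  have h1 : b = b' := congrFun h none
  have h2 : c = c' := funext fun i => congrFun h (some i)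
  rw [h1, h2]

open scoped Classical in
/-- All but `O(H ^ (d + 2 - 1 / 20))` of the pairs of height at most `H` are good. -/
theorem count_bad (d : ℕ) (hd : 2 ≤ d) : ∃ C : ℕ, ∀ H : ℕ, 1 ≤ H →
    ({p : (Fin (d + 1) → ℤ) × ℤ | (∀ i, |p.1 i| ≤ H) ∧ |p.2| ≤ H ∧ p.1 (Fin.last d) ≠ 0 ∧
      p.2 ≠ 0 ∧ ¬ Good d H p.1 p.2}.ncard : ℝ) ≤ C * (H : ℝ) ^ ((d : ℝ) + 2 - 1 / 20) := by
  refine ⟨63 * 3 ^ d, fun H hH => ?_⟩
  have hH0 : (0 : ℝ) < H := by exact_mod_cast hH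
  have hH1 : (1 : ℝ) ≤ H := by exact_mod_cast hH
  set y : ℝ := (H : ℝ) ^ (1 / 20 : ℝ) with hy
  set z : ℝ := (H : ℝ) ^ (3 / 4 : ℝ) with hz
  have hy1 : 1 ≤ y := Real.one_le_rpow hH1 (by norm_num)
  have hz1 : 1 ≤ z := Real.one_le_rpow hH1 (by norm_num)
  set jl : Option (Fin (d + 1)) := some (Fin.last d) with hjl
  set jm : Option (Fin (d + 1)) := some (Fin.ofNat (d + 1) (d - 1)) with hjm
  have hne : jl ≠ jm := by
    rw [hjl, hjm]
    intro h
    have h1 := congrArg Fin.val (Option.some.inj h)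
    rw [Fin.val_last, Fin.val_ofNat, Nat.mod_eq_of_lt (by omega)] at h1
    omega
  set S := box H with hS
  set B1 : Finset (ℤ × ℤ) := (S.filter fun x : ℤ => (x.natAbs : ℝ) < z) ×ˢ S with hB1
  set B2 : Finset (ℤ × ℤ) := (S.filter fun x : ℤ => x ≠ 0 ∧ ∃ s : ℕ, s ^ 2 ∣ x.natAbs ∧
    y < (s : ℝ)) ×ˢ S with hB2
  set B3 : Finset (ℤ × ℤ) := (S ×ˢ S).filter fun p : ℤ × ℤ => p.1 ≠ 0 ∧
      y < (Nat.gcd p.1.natAbs p.2.natAbs : ℝ) with hB3
  set P : Finset (Option (Fin (d + 1)) → ℤ) := Fintype.piFinset fun _ => S with hP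
  set E : Finset (ℤ × ℤ) → Option (Fin (d + 1)) → Finset (Option (Fin (d + 1)) → ℤ) :=
    fun B k => P.filter fun c => (c jl, c k) ∈ B with hE
  have hsub : (DensA.toFun d) '' {p : (Fin (d + 1) → ℤ) × ℤ | (∀ i, |p.1 i| ≤ H) ∧ |p.2| ≤ H ∧
      p.1 (Fin.last d) ≠ 0 ∧ p.2 ≠ 0 ∧ ¬ Good d H p.1 p.2} ⊆
      ((E B1 none ∪ E B2 none ∪ E B3 none ∪ E B3 jm : Finset _) : Set _) := by
    rintro _ ⟨⟨c, b⟩, ⟨h1, h2, h3, h4, h5⟩, rfl⟩
    simp only at h1 h2 h3 h4 h5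
    have hmP : DensA.toFun d (c, b) ∈ P := by
      rw [hP, Fintype.mem_piFinset]
      rintro (_ | i)
      · exact mem_box.2 h2
      · exact mem_box.2 (h1 i)
    have hcl : DensA.toFun d (c, b) jl = c (Fin.last d) := rfl
    have hcm : DensA.toFun d (c, b) jm = c (Fin.ofNat (d + 1) (d - 1)) := rfl
    have hcn : DensA.toFun d (c, b) none = b := rfl
    have hlS : c (Fin.last d) ∈ S := mem_box.2 (h1 _)
    have hmS : c (Fin.ofNat (d + 1) (d - 1)) ∈ S := mem_box.2 (h1 _)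
    have hbS : b ∈ S := mem_box.2 h2
    rw [mem_coe, mem_union, mem_union, mem_union]
    by_contra hn
    push Not at hn
    obtain ⟨⟨⟨n1, n2⟩, n3⟩, n4⟩ := hn
    apply h5
    refine good_of d H hH c b ?_ ?_ ?_ ?_
    · by_contra h
      push Not at h
      apply n1
      rw [hE]
      simp only [mem_filter, hcl, hcn]
      exact ⟨hmP, mem_product.2 ⟨mem_filter.2 ⟨hlS, h⟩, hbS⟩⟩
    · intro s hs
      by_contra h
      push Not at h
      apply n2
      rw [hE]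
      simp only [mem_filter, hcl, hcn]
      exact ⟨hmP, mem_product.2 ⟨mem_filter.2 ⟨hlS, h3, s, hs, h⟩, hbS⟩⟩
    · by_contra h
      push Not at h
      apply n3
      rw [hE]
      simp only [mem_filter, hcl, hcn]
      exact ⟨hmP, mem_filter.2 ⟨mem_product.2 ⟨hlS, hbS⟩, h3, h⟩⟩
    · by_contra h
      push Not at h
      apply n4
      rw [hE]
      simp only [mem_filter, hcl, hcm]
      exact ⟨hmP, mem_filter.2 ⟨mem_product.2 ⟨hlS, hmS⟩, h3, h⟩⟩
  have hcard : {p : (Fin (d + 1) → ℤ) × ℤ | (∀ i, |p.1 i| ≤ H) ∧ |p.2| ≤ H ∧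
      p.1 (Fin.last d) ≠ 0 ∧ p.2 ≠ 0 ∧ ¬ Good d H p.1 p.2}.ncard ≤
      (E B1 none).card + (E B2 none).card + (E B3 none).card + (E B3 jm).card := by
    rw [← Set.ncard_image_of_injective _ (DensA.toFun_injective d)]
    refine (Set.ncard_le_ncard hsub (Finset.finite_toSet _)).trans ?_
    rw [Set.ncard_coe_finset]
    refine (card_union_le _ _).trans (Nat.add_le_add_right ?_ _)
    refine (card_union_le _ _).trans (Nat.add_le_add_right ?_ _)
    exact card_union_le _ _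
  have hcd : Fintype.card (Option (Fin (d + 1))) - 2 = d := by
    rw [Fintype.card_option, Fintype.card_fin]
    rfl
  have hSc : ((S.card : ℕ) : ℝ) ≤ 3 * H := card_box_le hH
  have hbd : ∀ (B : Finset (ℤ × ℤ)) (k : Option (Fin (d + 1))), jl ≠ k →
      ((E B k).card : ℝ) ≤ (B.card : ℝ) * (3 * H) ^ d := by
    intro B k hk
    have h1 := card_two S hk B
    rw [hcd] at h1
    have h2 : ((E B k).card : ℝ) ≤ (B.card : ℝ) * ((S.card : ℕ) : ℝ) ^ d := by exact_mod_cast h1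
    refine h2.trans ?_
    gcongr
  have hc1 : ((B1.card : ℕ) : ℝ) ≤ 9 * ((H : ℝ) ^ 2 / y) := by
    rw [hB1, card_product]
    push_cast
    have h1 := card_small (H := H) hz1
    have h2 : z * y ≤ H := by
      rw [hz, hy, ← Real.rpow_add hH0]
      calc (H : ℝ) ^ (3 / 4 + 1 / 20 : ℝ) ≤ (H : ℝ) ^ (1 : ℝ) :=
            Real.rpow_le_rpow_of_exponent_le hH1 (by norm_num)
        _ = H := Real.rpow_one _
    have h3 : z ≤ H / y := by
      rw [le_div_iff₀ (by linarith)]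
      exact h2
    calc _ ≤ (3 * z) * (3 * (H : ℝ)) := mul_le_mul h1 hSc (Nat.cast_nonneg _) (by linarith)
      _ ≤ (3 * (H / y)) * (3 * (H : ℝ)) := by gcongr
      _ = _ := by ring
  have hc2 : ((B2.card : ℕ) : ℝ) ≤ 18 * ((H : ℝ) ^ 2 / y) := by
    rw [hB2, card_product]
    push_cast
    have h1 := card_sq hH hy1
    calc _ ≤ (6 * (H : ℝ) / y) * (3 * (H : ℝ)) :=
          mul_le_mul h1 hSc (Nat.cast_nonneg _) (by positivity)
      _ = _ := by ring
  have hc3 : ((B3.card : ℕ) : ℝ) ≤ 18 * ((H : ℝ) ^ 2 / y) := by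
    have h1 := card_gcd hH hy1
    refine h1.trans (le_of_eq ?_)
    ring
  have hn1 : jl ≠ none := by rw [hjl]; exact Option.some_ne_none _
  have hfin : ({p : (Fin (d + 1) → ℤ) × ℤ | (∀ i, |p.1 i| ≤ H) ∧ |p.2| ≤ H ∧
      p.1 (Fin.last d) ≠ 0 ∧ p.2 ≠ 0 ∧ ¬ Good d H p.1 p.2}.ncard : ℝ) ≤
      ((E B1 none).card : ℝ) + (E B2 none).card + (E B3 none).card + (E B3 jm).card := by
    exact_mod_cast hcard
  have k1 := hbd B1 none hn1
  have k2 := hbd B2 none hn1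
  have k3 := hbd B3 none hn1
  have k4 := hbd B3 jm hne
  have hT : (0 : ℝ) ≤ (3 * (H : ℝ)) ^ d := by positivity
  have l1 := mul_le_mul_of_nonneg_right hc1 hT
  have l2 := mul_le_mul_of_nonneg_right hc2 hT
  have l3 := mul_le_mul_of_nonneg_right hc3 hT
  have hpow : (H : ℝ) ^ 2 / y * (3 * (H : ℝ)) ^ d =
      3 ^ d * (H : ℝ) ^ ((d : ℝ) + 2 - 1 / 20) := by
    rw [show (d : ℝ) + 2 - 1 / 20 = ((d + 2 : ℕ) : ℝ) - 1 / 20 by push_cast; ring,
      Real.rpow_sub hH0, Real.rpow_natCast, ← hy, mul_pow, pow_add]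
    ring
  calc _ ≤ 63 * ((H : ℝ) ^ 2 / y * (3 * (H : ℝ)) ^ d) := by
        refine hfin.trans ?_
        linarith
    _ = _ := by
        rw [hpow]
        push_cast
        ring

end Pool.Agent.PQ
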