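import Mathlib

set_option autoImplicit false

/-!
# Integers with a large squarefree part which is coprime to two other integers
-/

namespace Pool.Agent.PQ

/-- The leading coefficient has a large squarefree part `J` which is coprime to its cofactor, to `b`
and to the coefficient of `X ^ (d - 1)`. -/
def Good (d H : ℕ) (c : Fin (d + 1) → ℤ) (b : ℤ) : Prop :=
  ∃ J : ℕ, Squarefree J ∧ (∃ m : ℤ, c (Fin.last d) = J * m ∧ IsCoprime (J : ℤ) m) ∧
    IsCoprime (J : ℤ) b ∧ IsCoprime (J : ℤ) (c (Fin.ofNat (d + 1) (d - 1))) ∧ H ^ 2 ≤ J ^ 4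

namespace DensA

/-- The part `J` of `a` and the square `s ^ 2` dividing `a`. -/
theorem exists_part (a b e : ℕ) (ha : a ≠ 0) : ∃ J s : ℕ, Squarefree J ∧
    (∃ m, a = J * m ∧ J.Coprime m) ∧ J.Coprime b ∧ J.Coprime e ∧ s ^ 2 ∣ a ∧
    a ≤ s ^ 3 * J * Nat.gcd a b * Nat.gcd a e := by
  classical
  obtain ⟨t, s, hst, ht⟩ := Nat.sq_mul_squarefree a
  set S := a.primeFactors.filter fun p => ¬ p ^ 2 ∣ a ∧ ¬ p ∣ b ∧ ¬ p ∣ e with hS
  have hS1 : ∀ p, p ∈ S ↔ p.Prime ∧ p ∣ a ∧ ¬ p ^ 2 ∣ a ∧ ¬ p ∣ b ∧ ¬ p ∣ e := by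
    intro p
    rw [hS, Finset.mem_filter, Nat.mem_primeFactors]
    tauto
  have ht0 : t ≠ 0 := ht.ne_zero
  have hs0 : s ≠ 0 := by
    rintro rfl
    apply ha
    rw [← hst]
    simp
  have hSt : S ⊆ t.primeFactors := by
    intro p hp
    obtain ⟨h1, h2, h3, -, -⟩ := (hS1 p).1 hp
    rw [Nat.mem_primeFactors]
    refine ⟨h1, ?_, ht0⟩
    rw [← hst] at h2 h3
    rcases h1.dvd_mul.1 h2 with h | h
    · exact absurd (Dvd.dvd.mul_right (pow_dvd_pow_of_dvd (h1.dvd_of_dvd_pow h) 2) t) h3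
    · exact h
  set J := ∏ p ∈ S, p with hJ
  have hJt : J ∣ t := by
    have h := Finset.prod_dvd_prod_of_subset S t.primeFactors (fun p => p) hSt
    rwa [Nat.prod_primeFactors_of_squarefree ht] at h
  have hJsq : Squarefree J := ht.squarefree_of_dvd hJt
  have hJa : J ∣ a := hJt.trans (hst ▸ Dvd.intro_left _ rfl)
  have hpJ : ∀ p, p.Prime → (p ∣ J ↔ p ∈ S) := by
    intro p hp
    constructor
    · intro h
      obtain ⟨q, hq, hpq⟩ := (hp.prime.dvd_finset_prod_iff _).1 h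
      have hq1 := ((hS1 q).1 hq).1
      rw [(Nat.prime_dvd_prime_iff_eq hp hq1).1 hpq]
      exact hq
    · intro h
      exact Finset.dvd_prod_of_mem (fun p => p) h
  refine ⟨J, s, hJsq, ?_, ?_, ?_, ?_, ?_⟩
  · obtain ⟨m, hm⟩ := hJa
    refine ⟨m, hm, Nat.coprime_of_dvd fun p hp h1 h2 => ?_⟩
    obtain ⟨-, -, h3, -, -⟩ := (hS1 p).1 ((hpJ p hp).1 h1)
    exact h3 (by rw [hm, pow_two]; exact mul_dvd_mul h1 h2)
  · exact Nat.coprime_of_dvd fun p hp h1 h2 => ((hS1 p).1 ((hpJ p hp).1 h1)).2.2.2.1 h2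
  · exact Nat.coprime_of_dvd fun p hp h1 h2 => ((hS1 p).1 ((hpJ p hp).1 h1)).2.2.2.2 h2
  · exact hst ▸ Dvd.intro _ rfl
  · have hg1 : 0 < Nat.gcd a b := Nat.gcd_pos_of_pos_left _ (Nat.pos_of_ne_zero ha)
    have hg2 : 0 < Nat.gcd a e := Nat.gcd_pos_of_pos_left _ (Nat.pos_of_ne_zero ha)
    have hJ0 : 0 < J := Nat.pos_of_ne_zero hJsq.ne_zero
    have hdvd : t ∣ s * J * Nat.gcd a b * Nat.gcd a e := by
      rw [← Nat.prod_primeFactors_of_squarefree ht]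
      refine Finset.prod_primes_dvd _ (fun p hp => (Nat.prime_of_mem_primeFactors hp).prime)
        fun p hp => ?_
      have hp1 := Nat.prime_of_mem_primeFactors hp
      have hpt := Nat.dvd_of_mem_primeFactors hp
      have hpa : p ∣ a := hpt.trans (hst ▸ Dvd.intro_left _ rfl)
      by_cases h1 : p ^ 2 ∣ a
      · have hps : p ∣ s := by
          by_contra hn
          have hc : (p ^ 2).Coprime (s ^ 2) :=
            Nat.Coprime.pow 2 2 ((Nat.Prime.coprime_iff_not_dvd hp1).2 hn)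
          rw [← hst] at h1
          have h2 : p ^ 2 ∣ t := hc.dvd_of_dvd_mul_left h1
          rw [pow_two] at h2
          exact hp1.one_lt.ne' (Nat.isUnit_iff.1 (ht p h2))
        exact ((hps.mul_right J).mul_right _).mul_right _
      by_cases h2 : p ∣ b
      · exact (Dvd.dvd.mul_left (Nat.dvd_gcd hpa h2) _).mul_right _
      by_cases h3 : p ∣ e
      · exact Dvd.dvd.mul_left (Nat.dvd_gcd hpa h3) _
      · have h4 : p ∣ J := (hpJ p hp1).2 ((hS1 p).2 ⟨hp1, hpa, h1, h2, h3⟩)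
        exact ((Dvd.dvd.mul_left h4 s).mul_right _).mul_right _
    have hle : t ≤ s * J * Nat.gcd a b * Nat.gcd a e := by
      refine Nat.le_of_dvd ?_ hdvd
      have := Nat.pos_of_ne_zero hs0
      positivity
    calc a = s ^ 2 * t := hst.symm
      _ ≤ s ^ 2 * (s * J * Nat.gcd a b * Nat.gcd a e) := Nat.mul_le_mul_left _ hle
      _ = _ := by ring

/-- Sufficient conditions for a pair to be good. -/
theorem good_of (d H : ℕ) (hH : 1 ≤ H) (c : Fin (d + 1) → ℤ) (b : ℤ)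
    (h1 : (H : ℝ) ^ (3 / 4 : ℝ) ≤ (c (Fin.last d)).natAbs)
    (h2 : ∀ s : ℕ, s ^ 2 ∣ (c (Fin.last d)).natAbs → (s : ℝ) ≤ (H : ℝ) ^ (1 / 20 : ℝ))
    (h3 : (Nat.gcd (c (Fin.last d)).natAbs b.natAbs : ℝ) ≤ (H : ℝ) ^ (1 / 20 : ℝ))
    (h4 : (Nat.gcd (c (Fin.last d)).natAbs (c (Fin.ofNat (d + 1) (d - 1))).natAbs : ℝ) ≤
      (H : ℝ) ^ (1 / 20 : ℝ)) : Good d H c b := by
  have hH0 : (0 : ℝ) < H := by exact_mod_cast hH
  have ha : (c (Fin.last d)).natAbs ≠ 0 := by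
    intro h
    rw [h] at h1
    have := Real.rpow_pos_of_pos hH0 (3 / 4 : ℝ)
    push_cast at h1
    linarith
  obtain ⟨J, s, hJ, ⟨m, hm, hc⟩, hb, he, hs, hle⟩ := exists_part (c (Fin.last d)).natAbs b.natAbs
    (c (Fin.ofNat (d + 1) (d - 1))).natAbs ha
  refine ⟨J, hJ, ?_, ?_, ?_, ?_⟩
  · refine ⟨(c (Fin.last d)).sign * m, ?_, ?_⟩
    · conv_lhs => rw [← Int.sign_mul_natAbs (c (Fin.last d)), hm]
      push_cast
      ring
    · rw [Int.isCoprime_iff_gcd_eq_one, Int.gcd_eq_natAbs, Int.natAbs_mul, Int.natAbs_natCast,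
        Int.natAbs_natCast, Int.natAbs_sign_of_ne_zero (fun h => ha (by rw [h]; rfl)), one_mul]
      exact hc
  · rw [Int.isCoprime_iff_gcd_eq_one, Int.gcd_eq_natAbs, Int.natAbs_natCast]
    exact hb
  · rw [Int.isCoprime_iff_gcd_eq_one, Int.gcd_eq_natAbs, Int.natAbs_natCast]
    exact he
  · set y : ℝ := (H : ℝ) ^ (1 / 20 : ℝ) with hy
    have hy0 : 0 < y := Real.rpow_pos_of_pos hH0 _
    have hs1 := h2 s hs
    have hs0 : (0 : ℝ) ≤ s := Nat.cast_nonneg s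
    have hJ0 : (0 : ℝ) ≤ J := Nat.cast_nonneg J
    have h5 : (((c (Fin.last d)).natAbs : ℕ) : ℝ) ≤ y ^ 3 * J * y * y := by
      have h6 : (((c (Fin.last d)).natAbs : ℕ) : ℝ) ≤ (s : ℝ) ^ 3 * J *
          (Nat.gcd (c (Fin.last d)).natAbs b.natAbs : ℝ) *
          (Nat.gcd (c (Fin.last d)).natAbs (c (Fin.ofNat (d + 1) (d - 1))).natAbs : ℝ) := by
        exact_mod_cast hle
      refine h6.trans ?_
      gcongr
    have h7 : (H : ℝ) ^ (3 / 4 : ℝ) = y ^ 15 := by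
      rw [hy, ← Real.rpow_natCast, ← Real.rpow_mul hH0.le]
      norm_num
    have h8 : y ^ 10 ≤ J := by
      have h9 : y ^ 5 * y ^ 10 ≤ y ^ 5 * J := by
        calc y ^ 5 * y ^ 10 = (H : ℝ) ^ (3 / 4 : ℝ) := by rw [h7]; ring
          _ ≤ y ^ 3 * J * y * y := h1.trans h5
          _ = y ^ 5 * J := by ring
      exact le_of_mul_le_mul_left h9 (by positivity)
    have h10 : (H : ℝ) ^ 2 = (y ^ 10) ^ 4 := by
      rw [hy, ← Real.rpow_natCast, ← Real.rpow_natCast, ← Real.rpow_natCast,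
        ← Real.rpow_mul hH0.le, ← Real.rpow_mul hH0.le]
      norm_num
    have h11 : (H : ℝ) ^ 2 ≤ (J : ℝ) ^ 4 := by
      rw [h10]
      gcongr
    exact_mod_cast h11

end DensA

end Pool.Agent.PQ
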