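import Pool.Agent.PQ.DensA1

set_option autoImplicit false

/-!
# Counting integers with large square divisors and pairs with large common divisors
-/

namespace Pool.Agent.PQ.DensA

open Finset

/-- The integers of absolute value at most `H`. -/
noncomputable def box (H : ℕ) : Finset ℤ := Icc (-(H : ℤ)) H

theorem mem_box {H : ℕ} {x : ℤ} : x ∈ box H ↔ |x| ≤ H := by
  rw [box, mem_Icc, abs_le]

theorem card_box (H : ℕ) : (box H).card = 2 * H + 1 := by
  rw [box, Int.card_Icc]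
  omega

theorem card_box_le {H : ℕ} (hH : 1 ≤ H) : ((box H).card : ℝ) ≤ 3 * H := by
  rw [card_box]
  have : (1 : ℝ) ≤ H := by exact_mod_cast hH
  push_cast
  linarith

/-- the multiples of `g` -/
theorem card_mult {H g : ℕ} (hg : 1 ≤ g) (hgH : g ≤ H) :
    (((box H).filter fun x => (g : ℤ) ∣ x).card : ℝ) ≤ 3 * (H / g) := by
  have h1 : ((box H).filter fun x => (g : ℤ) ∣ x) ⊆ (box (H / g)).image fun k => (g : ℤ) * k := by
    intro x hx
    rw [mem_filter, mem_box] at hx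
    obtain ⟨k, rfl⟩ := hx.2
    rw [mem_image]
    refine ⟨k, ?_, rfl⟩
    rw [mem_box]
    have h2 : (g : ℤ) * |k| ≤ H := by
      have := hx.1
      rwa [abs_mul, Nat.abs_cast] at this
    have h3 : g * k.natAbs ≤ H := by
      have h4 : ((g * k.natAbs : ℕ) : ℤ) ≤ H := by
        push_cast
        exact h2
      exact_mod_cast h4
    have h5 : k.natAbs ≤ H / g := by
      rw [Nat.le_div_iff_mul_le (by omega), mul_comm]
      exact h3
    rw [Int.abs_eq_natAbs]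
    exact_mod_cast h5
  have h2 := (card_le_card h1).trans card_image_le
  rw [card_box] at h2
  have hg0 : (0 : ℝ) < g := by exact_mod_cast hg
  have h3 : ((H / g : ℕ) : ℝ) ≤ (H : ℝ) / g := Nat.cast_div_le
  have h4 : (1 : ℝ) ≤ (H : ℝ) / g := by
    rw [le_div_iff₀ hg0, one_mul]
    exact_mod_cast hgH
  have h5 : (((box H).filter fun x => (g : ℤ) ∣ x).card : ℝ) ≤ 2 * ((H / g : ℕ) : ℝ) + 1 := by
    exact_mod_cast h2
  linarith

theorem sum_inv {y : ℝ} (hy : 1 ≤ y) (n : ℕ) :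
    ∑ g ∈ Ioo ⌊y⌋₊ n, ((g : ℝ) ^ 2)⁻¹ ≤ 2 / y := by
  refine (sum_Ioo_inv_sq_le ⌊y⌋₊ n).trans ?_
  have h1 : y < (⌊y⌋₊ : ℝ) + 1 := Nat.lt_floor_add_one y
  have h2 : 0 < y := by linarith
  gcongr

open scoped Classical in
/-- pairs with a large common divisor -/
theorem card_gcd {H : ℕ} (hH : 1 ≤ H) {y : ℝ} (hy : 1 ≤ y) :
    ((((box H) ×ˢ (box H)).filter fun p : ℤ × ℤ => p.1 ≠ 0 ∧
      y < (Nat.gcd p.1.natAbs p.2.natAbs : ℝ)).card : ℝ) ≤ 18 * (H : ℝ) ^ 2 / y := by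
  have h1 : (((box H) ×ˢ (box H)).filter fun p : ℤ × ℤ => p.1 ≠ 0 ∧
      y < (Nat.gcd p.1.natAbs p.2.natAbs : ℝ)) ⊆ (Ioo ⌊y⌋₊ (H + 1)).biUnion fun g =>
        ((box H).filter fun x => (g : ℤ) ∣ x) ×ˢ ((box H).filter fun x => (g : ℤ) ∣ x) := by
    rintro ⟨a, b⟩ hp
    rw [mem_filter, mem_product] at hp
    obtain ⟨⟨ha, hb⟩, ha0, hlt⟩ := hp
    rw [mem_biUnion]
    refine ⟨Nat.gcd a.natAbs b.natAbs, ?_, ?_⟩
    · rw [mem_Ioo]
      constructor
      · exact (Nat.floor_lt (by linarith)).2 hlt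
      · have h2 : Nat.gcd a.natAbs b.natAbs ≤ a.natAbs :=
          Nat.le_of_dvd (Int.natAbs_pos.2 ha0) (Nat.gcd_dvd_left _ _)
        rw [mem_box, Int.abs_eq_natAbs] at ha
        have h3 : a.natAbs ≤ H := by exact_mod_cast ha
        omega
    · rw [mem_product, mem_filter, mem_filter]
      refine ⟨⟨ha, ?_⟩, ⟨hb, ?_⟩⟩
      · exact Int.natCast_dvd.2 (Nat.gcd_dvd_left _ _)
      · exact Int.natCast_dvd.2 (Nat.gcd_dvd_right _ _)
  have h2 := (card_le_card h1).trans card_biUnion_le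
  have h3 : ((((box H) ×ˢ (box H)).filter fun p : ℤ × ℤ => p.1 ≠ 0 ∧
      y < (Nat.gcd p.1.natAbs p.2.natAbs : ℝ)).card : ℝ) ≤
      ∑ g ∈ Ioo ⌊y⌋₊ (H + 1), ((((box H).filter fun x => (g : ℤ) ∣ x) ×ˢ
        ((box H).filter fun x => (g : ℤ) ∣ x)).card : ℝ) := by
    exact_mod_cast h2
  refine h3.trans ?_
  have h4 : ∀ g ∈ Ioo ⌊y⌋₊ (H + 1), ((((box H).filter fun x => (g : ℤ) ∣ x) ×ˢ
        ((box H).filter fun x => (g : ℤ) ∣ x)).card : ℝ) ≤ 9 * (H : ℝ) ^ 2 * ((g : ℝ) ^ 2)⁻¹ := by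
    intro g hg
    rw [mem_Ioo] at hg
    have hg1 : 1 ≤ g := by omega
    have h5 := card_mult hg1 (show g ≤ H by omega)
    rw [card_product]
    push_cast
    have h6 : (0 : ℝ) ≤ (((box H).filter fun x => (g : ℤ) ∣ x).card : ℝ) := Nat.cast_nonneg _
    have hg0 : (g : ℝ) ≠ 0 := by
      have : (0 : ℝ) < g := by exact_mod_cast hg1
      exact this.ne'
    calc (((box H).filter fun x => (g : ℤ) ∣ x).card : ℝ) *
          (((box H).filter fun x => (g : ℤ) ∣ x).card : ℝ)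
        ≤ (3 * ((H : ℝ) / g)) * (3 * ((H : ℝ) / g)) := mul_le_mul h5 h5 h6 (h6.trans h5)
      _ = 9 * (H : ℝ) ^ 2 * ((g : ℝ) ^ 2)⁻¹ := by
        field_simp
        ring
  refine (sum_le_sum h4).trans ?_
  rw [← mul_sum]
  calc 9 * (H : ℝ) ^ 2 * ∑ g ∈ Ioo ⌊y⌋₊ (H + 1), ((g : ℝ) ^ 2)⁻¹ ≤ 9 * (H : ℝ) ^ 2 * (2 / y) :=
        mul_le_mul_of_nonneg_left (sum_inv hy _) (by positivity)
    _ = 18 * (H : ℝ) ^ 2 / y := by ring

open scoped Classical in
/-- integers with a large square divisor -/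
theorem card_sq {H : ℕ} (hH : 1 ≤ H) {y : ℝ} (hy : 1 ≤ y) :
    (((box H).filter fun x : ℤ => x ≠ 0 ∧ ∃ s : ℕ, s ^ 2 ∣ x.natAbs ∧ y < (s : ℝ)).card : ℝ) ≤
      6 * (H : ℝ) / y := by
  have h1 : ((box H).filter fun x : ℤ => x ≠ 0 ∧ ∃ s : ℕ, s ^ 2 ∣ x.natAbs ∧ y < (s : ℝ)) ⊆
      (Ioo ⌊y⌋₊ (H + 1)).biUnion fun s =>
        if s ^ 2 ≤ H then ((box H).filter fun x => ((s ^ 2 : ℕ) : ℤ) ∣ x) else ∅ := by
    intro x hx
    rw [mem_filter] at hx
    obtain ⟨hx1, hx0, s, hs, hys⟩ := hx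
    have h2 : x.natAbs ≤ H := by
      rw [mem_box, Int.abs_eq_natAbs] at hx1
      exact_mod_cast hx1
    have h3 : s ^ 2 ≤ H := (Nat.le_of_dvd (Int.natAbs_pos.2 hx0) hs).trans h2
    rw [mem_biUnion]
    refine ⟨s, ?_, ?_⟩
    · rw [mem_Ioo]
      constructor
      · exact (Nat.floor_lt (by linarith)).2 hys
      · have h4 : s ≤ s ^ 2 := Nat.le_self_pow (by norm_num) s
        omega
    · rw [if_pos h3, mem_filter]
      exact ⟨hx1, Int.natCast_dvd.2 hs⟩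
  have h2 := (card_le_card h1).trans card_biUnion_le
  have h3 : (((box H).filter fun x : ℤ => x ≠ 0 ∧ ∃ s : ℕ, s ^ 2 ∣ x.natAbs ∧
      y < (s : ℝ)).card : ℝ) ≤ ∑ s ∈ Ioo ⌊y⌋₊ (H + 1),
        ((if s ^ 2 ≤ H then ((box H).filter fun x => ((s ^ 2 : ℕ) : ℤ) ∣ x) else ∅).card : ℝ) := by
    exact_mod_cast h2
  refine h3.trans ?_
  have h4 : ∀ s ∈ Ioo ⌊y⌋₊ (H + 1),
      ((if s ^ 2 ≤ H then ((box H).filter fun x => ((s ^ 2 : ℕ) : ℤ) ∣ x) else ∅).card : ℝ) ≤
        3 * (H : ℝ) * ((s : ℝ) ^ 2)⁻¹ := by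
    intro s hs
    rw [mem_Ioo] at hs
    have hs1 : 1 ≤ s := by omega
    split_ifs with h
    · have h5 := card_mult (show 1 ≤ s ^ 2 from Nat.one_le_pow _ _ hs1) h
      refine h5.trans (le_of_eq ?_)
      push_cast
      ring
    · rw [card_empty]
      push_cast
      positivity
  refine (sum_le_sum h4).trans ?_
  rw [← mul_sum]
  calc 3 * (H : ℝ) * ∑ g ∈ Ioo ⌊y⌋₊ (H + 1), ((g : ℝ) ^ 2)⁻¹ ≤ 3 * (H : ℝ) * (2 / y) :=
        mul_le_mul_of_nonneg_left (sum_inv hy _) (by positivity)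
    _ = 6 * (H : ℝ) / y := by ring

open scoped Classical in
/-- small integers -/
theorem card_small {H : ℕ} {z : ℝ} (hz : 1 ≤ z) :
    (((box H).filter fun x : ℤ => (x.natAbs : ℝ) < z).card : ℝ) ≤ 3 * z := by
  have h1 : ((box H).filter fun x : ℤ => (x.natAbs : ℝ) < z) ⊆ box ⌊z⌋₊ := by
    intro x hx
    rw [mem_filter] at hx
    rw [mem_box, Int.abs_eq_natAbs]
    exact_mod_cast Nat.le_floor hx.2.le
  have h2 := card_le_card h1
  rw [card_box] at h2
  have h3 : ((⌊z⌋₊ : ℕ) : ℝ) ≤ z := Nat.floor_le (by linarith)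
  have h4 : (((box H).filter fun x : ℤ => (x.natAbs : ℝ) < z).card : ℝ) ≤ 2 * (⌊z⌋₊ : ℝ) + 1 := by
    exact_mod_cast h2
  linarith

/-- functions with a condition on two values -/
theorem card_two {ι : Type} [Fintype ι] [DecidableEq ι] (S : Finset ℤ) {j k : ι} (hjk : j ≠ k)
    (B : Finset (ℤ × ℤ)) :
    ((Fintype.piFinset fun _ : ι => S).filter fun c => (c j, c k) ∈ B).card ≤
      B.card * S.card ^ (Fintype.card ι - 2) := by
  have h1 : ((Fintype.piFinset fun _ : ι => S).filter fun c => (c j, c k) ∈ B) ⊆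
      B.biUnion fun p => Fintype.piFinset fun i : ι => if i = j then {p.1} else
        if i = k then {p.2} else S := by
    intro c hc
    rw [mem_filter, Fintype.mem_piFinset] at hc
    rw [mem_biUnion]
    refine ⟨(c j, c k), hc.2, ?_⟩
    rw [Fintype.mem_piFinset]
    intro i
    split_ifs with h h'
    · rw [h]
      exact mem_singleton_self _
    · rw [h']
      exact mem_singleton_self _
    · exact hc.1 i
  refine (card_le_card h1).trans (card_biUnion_le.trans ?_)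
  rw [← smul_eq_mul, ← sum_const]
  refine sum_le_sum fun p _ => ?_
  rw [Fintype.card_piFinset]
  have h2 : ∀ i : ι, ((if i = j then {p.1} else if i = k then {p.2} else S : Finset ℤ)).card =
      if i ∈ (univ.erase j).erase k then S.card else 1 := by
    intro i
    by_cases h : i = j
    · simp [h]
    · by_cases h' : i = k
      · subst h'
        simp [h]
      · simp [h, h']
  rw [prod_congr rfl fun i _ => h2 i, prod_ite_mem, univ_inter, prod_const, card_erase_of_mem,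
    card_erase_of_mem (mem_univ _), card_univ]
  · rfl
  · rw [mem_erase]
    exact ⟨hjk.symm, mem_univ _⟩

end Pool.Agent.PQ.DensA
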