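import Pool.Agent.PQ.Ext

set_option autoImplicit false

/-!
# The generic and the harmless bounds over an extension of a number field
-/

namespace Pool.Agent.PQ

open Polynomial NumberField IsDedekindDomain Pool.Agent.GPoly

namespace GenAux

theorem sum_le {T : ℕ} (g : Fin T → Fin T → ℝ) (U : ℝ) (h0 : ∀ i, g i i = 0)
    (h : ∀ i j, i ≠ j → g i j ≤ U) : ∑ i, ∑ j, g i j ≤ (T * (T - 1) : ℝ) * U := by
  have h1 : ∀ i, ∑ j, g i j ≤ (T - 1 : ℝ) * U := by
    intro i
    rw [← Finset.add_sum_erase _ _ (Finset.mem_univ i), h0, zero_add]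
    calc ∑ j ∈ Finset.univ.erase i, g i j ≤ ∑ _j ∈ Finset.univ.erase i, U :=
          Finset.sum_le_sum fun j hj => h i j (Finset.ne_of_mem_erase hj).symm
      _ = (T - 1 : ℝ) * U := by
          have hT : 1 ≤ T := by
            have := i.2
            omega
          rw [Finset.sum_const, Finset.card_erase_of_mem (Finset.mem_univ i), Finset.card_univ,
            Fintype.card_fin, nsmul_eq_mul, Nat.cast_sub hT, Nat.cast_one]
  calc ∑ i, ∑ j, g i j ≤ ∑ _i : Fin T, (T - 1 : ℝ) * U := Finset.sum_le_sum fun i _ => h1 i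
    _ = (T * (T - 1) : ℝ) * U := by
        rw [Finset.sum_const, Finset.card_univ, Fintype.card_fin, nsmul_eq_mul]
        ring

theorem En_image {L : Type*} [Field L] [DecidableEq L] (abv : AbsoluteValue L ℝ) {T : ℕ}
    (x : Fin T → L) (hx : Function.Injective x) :
    ∑ i, ∑ j, Real.log (abv (x i - x j)) = En abv (Finset.univ.image x) := by
  have h1 : ∑ i, ∑ j, Real.log (abv (x i - x j)) =
      ∑ a ∈ Finset.univ.image x, ∑ b ∈ Finset.univ.image x, Real.log (abv (a - b)) := by
    rw [Finset.sum_image (fun i _ j _ h => hx h)]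
    refine Finset.sum_congr rfl fun i _ => ?_
    rw [Finset.sum_image (fun i _ j _ h => hx h)]
  rw [h1, ← Finset.sum_product' (f := fun a b => Real.log (abv (a - b)))]
  unfold En
  symm
  refine Finset.sum_subset ?_ ?_
  · intro p hp
    rw [Finset.mem_offDiag] at hp
    exact Finset.mem_product.2 ⟨hp.1, hp.2.1⟩
  · rintro ⟨a, b⟩ hp hp'
    have hab : a = b := by
      by_contra hne
      exact hp' (Finset.mem_offDiag.2
        ⟨(Finset.mem_product.1 hp).1, (Finset.mem_product.1 hp).2, hne⟩)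
    subst hab
    simp

/-- The escape lemma in the harmless case. -/
theorem escape_harmless {L : Type*} [Field L] (abv : AbsoluteValue L ℝ)
    (hna : IsNonarchimedean abv) (F : L[X]) (b : L) (d : ℕ) (hd : 2 ≤ d) (hF : F.natDegree = d)
    (ρ : ℝ) (hρ : 1 ≤ ρ) (hlead : abv F.leadingCoeff * ρ ^ (d - 1) = 1)
    (hcoef : ∀ j, abv (F.coeff j) * ρ ^ (j - 1) ≤ 1) (hb : abv b = 1) (x : L)
    (hx : Pre (fun z => F.eval z / b) x) : abv x ≤ ρ := by
  by_contra hcon
  rw [not_le] at hcon
  have hρ0 : 0 < ρ := by linarith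
  have hlc : F.leadingCoeff = F.coeff d := by rw [leadingCoeff, hF]
  have step : ∀ z : L, ρ < abv z → abv z < abv (F.eval z / b) := by
    intro z hz
    obtain ⟨t, ht⟩ : ∃ t : ℝ, abv z = ρ * t := ⟨abv z / ρ, by field_simp⟩
    have ht1 : 1 < t := by
      rw [ht] at hz
      nlinarith
    have hz1 : 1 < abv z := by linarith
    have hz0 : 0 < abv z := by linarith
    have key1 : ∀ j, abv (F.coeff j) * abv z ^ j ≤ t ^ (j - 1) * abv z := by
      intro j
      rcases Nat.eq_zero_or_pos j with rfl | hj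
      · have := hcoef 0
        simp only [Nat.zero_sub, pow_zero, mul_one, one_mul] at this ⊢
        linarith
      · have e : abv z ^ j = ρ ^ (j - 1) * t ^ (j - 1) * abv z := by
          rw [← mul_pow, ← ht, ← pow_succ]
          congr 1
          omega
        rw [e]
        have h1 := hcoef j
        have h2 : 0 ≤ t ^ (j - 1) * abv z := by positivity
        calc abv (F.coeff j) * (ρ ^ (j - 1) * t ^ (j - 1) * abv z)
            = (abv (F.coeff j) * ρ ^ (j - 1)) * (t ^ (j - 1) * abv z) := by ring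
          _ ≤ 1 * (t ^ (j - 1) * abv z) := mul_le_mul_of_nonneg_right h1 h2
          _ = t ^ (j - 1) * abv z := one_mul _
    have key2 : abv (F.coeff d) * abv z ^ d = t ^ (d - 1) * abv z := by
      have e : abv z ^ d = ρ ^ (d - 1) * t ^ (d - 1) * abv z := by
        rw [← mul_pow, ← ht, ← pow_succ]
        congr 1
        omega
      rw [e, ← hlc]
      calc abv F.leadingCoeff * (ρ ^ (d - 1) * t ^ (d - 1) * abv z)
          = (abv F.leadingCoeff * ρ ^ (d - 1)) * (t ^ (d - 1) * abv z) := by ring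
        _ = t ^ (d - 1) * abv z := by rw [hlead, one_mul]
    have ev : abv (F.eval z) = t ^ (d - 1) * abv z := by
      rw [eval_eq_sum_range, hF]
      have key := IsNonarchimedean.apply_sum_eq_of_lt (f := abv) hna
        (fun a => (abv.map_neg a).symm) (s := Finset.range (d + 1))
        (l := fun i => F.coeff i * z ^ i) (k := d) (Finset.mem_range.mpr (Nat.lt_succ_self d)) ?_
      · rw [key, map_mul, map_pow, key2]
      · intro j hj hne
        have hjd : j < d := by
          have := Finset.mem_range.mp hj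
          omega
        simp only [map_mul, map_pow]
        rw [key2]
        refine (key1 j).trans_lt ?_
        exact mul_lt_mul_of_pos_right (pow_lt_pow_right₀ ht1 (by omega)) hz0
    rw [map_div₀, hb, div_one, ev]
    have h3 : 1 < t ^ (d - 1) := one_lt_pow₀ ht1 (by omega)
    nlinarith
  have large : ∀ n : ℕ, ρ < abv ((fun z => F.eval z / b)^[n] x) := by
    intro n
    induction n with
    | zero => simpa using hcon
    | succ n ih =>
      rw [Function.iterate_succ_apply']
      exact ih.trans (step _ ih)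
  have mono : StrictMono (fun n : ℕ => abv ((fun z => F.eval z / b)^[n] x)) := by
    refine strictMono_nat_of_lt_succ fun n => ?_
    simp only [Function.iterate_succ_apply']
    exact step _ (large n)
  obtain ⟨m, n, hmn, h⟩ := hx
  have := mono hmn
  simp only at this
  rw [h] at this
  exact lt_irrefl _ this

end GenAux

variable {K : Type} [Field K] [NumberField K]

namespace GenAux

/-- The polynomial `F` over an extension. -/
noncomputable def GE (E : Type) [Field E] [Algebra K E] (F : (𝓞 K)[X]) : E[X] :=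
  (F.map (algebraMap (𝓞 K) K)).map (algebraMap K E)

theorem fE_eval (E : Type) [Field E] [Algebra K E] (F : (𝓞 K)[X]) (b : 𝓞 K) (z : E) :
    (fE E F b).eval z = (GE E F).eval z / algebraMap K E (algebraMap (𝓞 K) K b) := by
  rw [fE, fp, Polynomial.map_mul, map_C, eval_mul, eval_C, map_inv₀, div_eq_inv_mul, GE]

theorem pre_GE {E : Type} [Field E] [Algebra K E] {F : (𝓞 K)[X]} {b : 𝓞 K} {x : E}
    (h : PreE E F b x) :
    Pre (fun z => (GE E F).eval z / algebraMap K E (algebraMap (𝓞 K) K b)) x := by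
  have e : (fun z => (fE E F b).eval z) =
      fun z => (GE E F).eval z / algebraMap K E (algebraMap (𝓞 K) K b) :=
    funext (fE_eval E F b)
  rw [PreE, e] at h
  exact h

theorem GE_natDegree (E : Type) [Field E] [Algebra K E] (F : (𝓞 K)[X]) :
    (GE E F).natDegree = F.natDegree := by
  rw [GE, natDegree_map, map_natDegree']

theorem GE_coeff (E : Type) [Field E] [Algebra K E] (F : (𝓞 K)[X]) (i : ℕ) :
    (GE E F).coeff i = algebraMap K E (algebraMap (𝓞 K) K (F.coeff i)) := by
  rw [GE, coeff_map, coeff_map]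

theorem GE_leadingCoeff (E : Type) [Field E] [Algebra K E] (F : (𝓞 K)[X]) :
    (GE E F).leadingCoeff = algebraMap K E (algebraMap (𝓞 K) K F.leadingCoeff) := by
  rw [leadingCoeff, GE_natDegree, GE_coeff, leadingCoeff]

theorem nna (Om : Type) [NormedField Om] [IsUltrametricDist Om] :
    IsNonarchimedean (NormedField.toAbsoluteValue Om) :=
  IsUltrametricDist.isNonarchimedean_norm

theorem lead_ne {d : ℕ} (hd : 2 ≤ d) {F : (𝓞 K)[X]} (hF : F.natDegree = d) :
    F.leadingCoeff ≠ 0 := by
  intro h0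
  rw [leadingCoeff_eq_zero] at h0
  rw [h0, natDegree_zero] at hF
  omega

end GenAux

open GenAux

theorem generic_Om (d : ℕ) (hd : 2 ≤ d) (F : (𝓞 K)[X]) (b : 𝓞 K) (hb : b ≠ 0)
    (hF : F.natDegree = d) (v : HeightOneSpectrum (𝓞 K)) (Om : Type) [NormedField Om]
    [IsUltrametricDist Om] [Algebra K Om] (h : ∀ x : K, ‖algebraMap K Om x‖ = av v x) {T : ℕ}
    (x : Fin T → Om) (hx : Function.Injective x) (hp : ∀ i, PreE Om F b (x i)) :
    ∑ i, ∑ j, Real.log ‖x i - x j‖ ≤
      (T * (T - 1) : ℝ) * ((wt v F.leadingCoeff - wt v b) / (d - 1)) +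
        2 * sg d T * (wt v F.leadingCoeff + wt v b) := by
  classical
  have ha0 := lead_ne hd hF
  have hb' : algebraMap K Om (algebraMap (𝓞 K) K b) ≠ 0 := by
    rw [_root_.map_ne_zero]
    exact (map_ne_zero_iff _ (RingOfIntegers.coe_injective)).mpr hb
  have hesc : ∀ z, PreE Om F b z →
      NormedField.toAbsoluteValue Om z ≤ Real.exp (wt v F.leadingCoeff) := by
    intro z hz
    have h1 := escape (NormedField.toAbsoluteValue Om) (nna Om) (GE Om F)
      (algebraMap K Om (algebraMap (𝓞 K) K b)) d hd (by rw [GE_natDegree, hF])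
      (fun i => by
        rw [GE_coeff]
        exact (h _).le.trans (av_int_le_one v _)) hb'
      ((h _).le.trans (av_int_le_one v _)) z (pre_GE hz)
    rw [GE_leadingCoeff] at h1
    have h2 : NormedField.toAbsoluteValue Om
        (algebraMap K Om (algebraMap (𝓞 K) K F.leadingCoeff)) =
          Real.exp (-wt v F.leadingCoeff) := (h _).trans (exp_neg_wt v _ ha0).symm
    rw [h2, ← Real.exp_neg, neg_neg] at h1
    exact h1
  have hcard : (Finset.univ.image x).card = T := by
    rw [Finset.card_image_of_injective _ hx, Finset.card_univ, Fintype.card_fin]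
  have h1 := vander_bound (NormedField.toAbsoluteValue Om) (nna Om) (fE Om F b) d hd
    (by rw [fE_natDegree Om F b hb, hF]) (fun z => PreE Om F b z) (fun z hz => Pre.map hz)
    (wt v F.leadingCoeff) hesc (Finset.univ.image x) (by
      intro z hz
      obtain ⟨i, _, rfl⟩ := Finset.mem_image.1 hz
      exact hp i)
  rw [hcard, ← En_image _ x hx] at h1
  have hlog : -Real.log (NormedField.toAbsoluteValue Om (fE Om F b).leadingCoeff) =
      wt v F.leadingCoeff - wt v b := by
    rw [fE_leadingCoeff Om F b hb]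
    have h2 : NormedField.toAbsoluteValue Om
        (algebraMap K Om (algebraMap (𝓞 K) K F.leadingCoeff / algebraMap (𝓞 K) K b)) =
          av v (algebraMap (𝓞 K) K F.leadingCoeff / algebraMap (𝓞 K) K b) := h _
    rw [h2, map_div₀, Real.log_div (av_int_pos v _ ha0).ne' (av_int_pos v _ hb).ne', wt, wt]
    ring
  rw [hlog] at h1
  have hd1 : (1 : ℝ) ≤ (d : ℝ) - 1 := by
    have : (2 : ℝ) ≤ d := by exact_mod_cast hd
    linarith
  have hwa := wt_nonneg v F.leadingCoeff
  have hwb := wt_nonneg v b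
  have h3 : -(wt v b) ≤ (wt v F.leadingCoeff - wt v b) / (d - 1) := by
    rw [le_div_iff₀ (by linarith)]
    nlinarith
  refine (show ∑ i, ∑ j, Real.log ‖x i - x j‖ ≤ _ from h1).trans ?_
  have hs : (0 : ℝ) ≤ 2 * sg d T := by positivity
  nlinarith [mul_le_mul_of_nonneg_left (show wt v F.leadingCoeff -
    (wt v F.leadingCoeff - wt v b) / (d - 1) ≤ wt v F.leadingCoeff + wt v b by linarith) hs]

theorem harmless_Om (d : ℕ) (hd : 2 ≤ d) (F : (𝓞 K)[X]) (b : 𝓞 K) (hb : b ≠ 0)
    (hF : F.natDegree = d) (v : HeightOneSpectrum (𝓞 K)) (hv : Harmless F b v) (Om : Type)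
    [NormedField Om] [IsUltrametricDist Om] [Algebra K Om]
    (h : ∀ x : K, ‖algebraMap K Om x‖ = av v x) {T : ℕ} (x : Fin T → Om)
    (hx : Function.Injective x) (hp : ∀ i, PreE Om F b (x i)) :
    ∑ i, ∑ j, Real.log ‖x i - x j‖ ≤
      (T * (T - 1) : ℝ) * ((wt v F.leadingCoeff - wt v b) / (d - 1)) := by
  have ha0 := lead_ne hd hF
  obtain ⟨hbv, hco⟩ := hv
  have hwb : wt v b = 0 := wt_eq_zero v b hbv
  have hwa := wt_nonneg v F.leadingCoeff
  have hd1 : (1 : ℝ) ≤ (d : ℝ) - 1 := by
    have : (2 : ℝ) ≤ d := by exact_mod_cast hd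
    linarith
  have hdc : ((d - 1 : ℕ) : ℝ) = (d : ℝ) - 1 := by
    rw [Nat.cast_sub (by omega), Nat.cast_one]
  have hquot : 0 ≤ wt v F.leadingCoeff / ((d : ℝ) - 1) := div_nonneg hwa (by linarith)
  have hρ1 : 1 ≤ Real.exp (wt v F.leadingCoeff / ((d : ℝ) - 1)) := Real.one_le_exp hquot
  have hρ0 := Real.exp_pos (wt v F.leadingCoeff / ((d : ℝ) - 1))
  have hρd : Real.exp (wt v F.leadingCoeff / ((d : ℝ) - 1)) ^ (d - 1) =
      Real.exp (wt v F.leadingCoeff) := by
    rw [← Real.exp_nat_mul, hdc]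
    congr 1
    field_simp
  have hav : ∀ y : 𝓞 K, NormedField.toAbsoluteValue Om
      (algebraMap K Om (algebraMap (𝓞 K) K y)) = av v (algebraMap (𝓞 K) K y) := fun y => h _
  have hlead : av v (algebraMap (𝓞 K) K F.leadingCoeff) *
      Real.exp (wt v F.leadingCoeff / ((d : ℝ) - 1)) ^ (d - 1) = 1 := by
    rw [hρd, ← exp_neg_wt v _ ha0, ← Real.exp_add, neg_add_cancel, Real.exp_zero]
  have hcoef : ∀ j, av v (algebraMap (𝓞 K) K (F.coeff j)) *
      Real.exp (wt v F.leadingCoeff / ((d : ℝ) - 1)) ^ (j - 1) ≤ 1 := by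
    intro j
    by_cases hj : 2 ≤ j
    · have h1 := hco j hj
      rw [hF] at h1
      have h2 : av v (algebraMap (𝓞 K) K (F.coeff j)) ^ (d - 1) ≤
          av v (algebraMap (𝓞 K) K F.leadingCoeff) ^ (j - 1) := by
        rw [← map_pow, ← map_pow, ← map_pow, ← map_pow, av_eq, av_eq, NNReal.coe_le_coe,
          (WithZeroMulInt.toNNReal_strictMono
            (NumberField.HeightOneSpectrum.one_lt_absNorm_nnreal v)).le_iff_le,
          v.valuation_of_algebraMap, v.valuation_of_algebraMap, map_pow, map_pow]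
        exact h1
      have h3 : (av v (algebraMap (𝓞 K) K (F.coeff j)) *
          Real.exp (wt v F.leadingCoeff / ((d : ℝ) - 1)) ^ (j - 1)) ^ (d - 1) ≤ 1 := by
        rw [mul_pow, ← pow_mul, mul_comm (j - 1), pow_mul]
        calc av v (algebraMap (𝓞 K) K (F.coeff j)) ^ (d - 1) *
              (Real.exp (wt v F.leadingCoeff / ((d : ℝ) - 1)) ^ (d - 1)) ^ (j - 1)
            ≤ av v (algebraMap (𝓞 K) K F.leadingCoeff) ^ (j - 1) *
              (Real.exp (wt v F.leadingCoeff / ((d : ℝ) - 1)) ^ (d - 1)) ^ (j - 1) :=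
              mul_le_mul_of_nonneg_right h2 (by positivity)
          _ = 1 := by rw [← mul_pow, hlead, one_pow]
      exact (pow_le_one_iff_of_nonneg
        (mul_nonneg ((av v).nonneg _) (by positivity)) (by omega)).1 h3
    · have e : j - 1 = 0 := by omega
      rw [e, pow_zero, mul_one]
      exact av_int_le_one v _
  have hesc : ∀ i, ‖x i‖ ≤ Real.exp (wt v F.leadingCoeff / ((d : ℝ) - 1)) := by
    intro i
    refine escape_harmless (NormedField.toAbsoluteValue Om) (nna Om) (GE Om F)
      (algebraMap K Om (algebraMap (𝓞 K) K b)) d hd (by rw [GE_natDegree, hF])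
      (Real.exp (wt v F.leadingCoeff / ((d : ℝ) - 1))) hρ1 ?_ ?_ ?_ (x i) (pre_GE (hp i))
    · rw [GE_leadingCoeff, hav, hlead]
    · intro j
      rw [GE_coeff, hav]
      exact hcoef j
    · rw [hav]
      exact (av_int_eq_one v b).2 hbv
  rw [hwb, sub_zero]
  refine sum_le _ _ (fun i => by simp) ?_
  intro i j hij
  have hpos : 0 < ‖x i - x j‖ := norm_pos_iff.2 (sub_ne_zero.2 fun e => hij (hx e))
  rw [Real.log_le_iff_le_exp hpos]
  have h4 : ‖x i - x j‖ ≤ max ‖x i‖ ‖x j‖ := by
    have h5 : ‖x i + -(x j)‖ ≤ max ‖x i‖ ‖-(x j)‖ :=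
      IsUltrametricDist.isNonarchimedean_norm (R := Om) (x i) (-(x j))
    rwa [← sub_eq_add_neg, norm_neg] at h5
  exact h4.trans (max_le (hesc i) (hesc j))

end Pool.Agent.PQ
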