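import Pool.Agent.PQ.Spr

/-!
PQ / Norml (helper39): the points with bounded orbit are bounded; affine conjugation to the normalised situation.
-/

set_option autoImplicit false

namespace Pool.Agent.PQ

open Polynomial

namespace Norml

/-- Points far away are moved further away. -/
theorem escape {𝕜 : Type} [NormedField 𝕜] (f : 𝕜[X]) (hf : 2 ≤ f.natDegree) :
    ∃ R : ℝ, 1 ≤ R ∧ ∀ x : 𝕜, R < ‖x‖ → 2 * ‖x‖ ≤ ‖f.eval x‖ := by
  have hf0 : f ≠ 0 := by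
    rintro rfl
    simp at hf
  have ha : 0 < ‖f.leadingCoeff‖ := norm_pos_iff.2 (leadingCoeff_ne_zero.2 hf0)
  obtain ⟨S, hS⟩ : ∃ S : ℝ, S = ∑ i ∈ Finset.range f.natDegree, ‖f.coeff i‖ := ⟨_, rfl⟩
  refine ⟨max 1 ((S + 2) / ‖f.leadingCoeff‖), le_max_left _ _, fun x hx => ?_⟩
  have h1 : 1 ≤ ‖x‖ := (le_max_left _ _).trans hx.le
  have h2 : S + 2 ≤ ‖x‖ * ‖f.leadingCoeff‖ := by
    rw [← div_le_iff₀ ha]
    exact (le_max_right _ _).trans hx.le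
  obtain ⟨n, hn⟩ : ∃ n, f.natDegree = n + 1 := ⟨f.natDegree - 1, by omega⟩
  have e : f.eval x = f.leadingCoeff * x ^ f.natDegree +
      ∑ i ∈ Finset.range f.natDegree, f.coeff i * x ^ i := by
    rw [eval_eq_sum_range, Finset.sum_range_succ, add_comm]
    rfl
  have h3 : ‖∑ i ∈ Finset.range f.natDegree, f.coeff i * x ^ i‖ ≤ S * ‖x‖ ^ n := by
    refine (norm_sum_le _ _).trans ?_
    rw [hS, Finset.sum_mul]
    refine Finset.sum_le_sum fun i hi => ?_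
    rw [norm_mul, norm_pow]
    refine mul_le_mul_of_nonneg_left (pow_le_pow_right₀ h1 ?_) (norm_nonneg _)
    have := Finset.mem_range.1 hi
    omega
  have h4 : ‖f.leadingCoeff * x ^ f.natDegree‖ = ‖x‖ * ‖f.leadingCoeff‖ * ‖x‖ ^ n := by
    rw [norm_mul, norm_pow, hn, pow_succ]
    ring
  have h5 : ‖f.leadingCoeff * x ^ f.natDegree‖ -
      ‖∑ i ∈ Finset.range f.natDegree, f.coeff i * x ^ i‖ ≤ ‖f.eval x‖ := by
    have h6 := norm_sub_norm_le (f.leadingCoeff * x ^ f.natDegree)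
      (-∑ i ∈ Finset.range f.natDegree, f.coeff i * x ^ i)
    rwa [norm_neg, sub_neg_eq_add, ← e] at h6
  have h6 : ‖x‖ ≤ ‖x‖ ^ n := by
    calc ‖x‖ = ‖x‖ ^ 1 := (pow_one _).symm
      _ ≤ ‖x‖ ^ n := pow_le_pow_right₀ h1 (by omega)
  have h7 : 0 ≤ ‖x‖ ^ n := by positivity
  nlinarith [mul_le_mul_of_nonneg_right h2 h7]

theorem iterate_large {𝕜 : Type} [NormedField 𝕜] (f : 𝕜[X]) {R : ℝ}
    (h : ∀ x : 𝕜, R < ‖x‖ → 2 * ‖x‖ ≤ ‖f.eval x‖) (x : 𝕜) (hx : R < ‖x‖) (n : ℕ) :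
    2 ^ n * ‖x‖ ≤ ‖(fun z => f.eval z)^[n] x‖ := by
  induction n with
  | zero => simp
  | succ n ih =>
    rw [Function.iterate_succ_apply']
    have h1 : R < ‖(fun z => f.eval z)^[n] x‖ := by
      have h2 : (1 : ℝ) ≤ 2 ^ n := one_le_pow₀ (by norm_num)
      have h3 : ‖x‖ ≤ 2 ^ n * ‖x‖ := le_mul_of_one_le_left (norm_nonneg _) h2
      linarith
    have h2 := h _ h1
    rw [pow_succ]
    linarith

theorem iterate_conj {𝕜 : Type} [NormedField 𝕜] (f g : 𝕜[X]) (u p : 𝕜)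
    (h : ∀ y, u * g.eval y + p = f.eval (u * y + p)) (y : 𝕜) (n : ℕ) :
    u * (fun z => g.eval z)^[n] y + p = (fun z => f.eval z)^[n] (u * y + p) := by
  induction n with
  | zero => rfl
  | succ n ih =>
    rw [Function.iterate_succ_apply', Function.iterate_succ_apply', h, ih]

theorem bd_conj {𝕜 : Type} [NormedField 𝕜] (f g : 𝕜[X]) (u p : 𝕜) (hu : u ≠ 0)
    (h : ∀ y, u * g.eval y + p = f.eval (u * y + p)) (y : 𝕜) : Bd g y ↔ Bd f (u * y + p) := by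
  have hu' : 0 < ‖u‖ := norm_pos_iff.2 hu
  constructor
  · rintro ⟨R, hR⟩
    refine ⟨‖u‖ * R + ‖p‖, fun n => ?_⟩
    rw [← iterate_conj f g u p h]
    refine (norm_add_le _ _).trans ?_
    rw [norm_mul]
    have := mul_le_mul_of_nonneg_left (hR n) hu'.le
    linarith
  · rintro ⟨R, hR⟩
    refine ⟨(R + ‖p‖) / ‖u‖, fun n => ?_⟩
    rw [le_div_iff₀ hu']
    have h1 := hR n
    rw [← iterate_conj f g u p h] at h1
    have h2 := norm_sub_norm_le (u * (fun z => g.eval z)^[n] y) (-p)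
    rw [sub_neg_eq_add, norm_neg, norm_mul] at h2
    linarith

end Norml

open Norml

theorem bd_bounded {𝕜 : Type} [NormedField 𝕜] (f : 𝕜[X]) (hf : 2 ≤ f.natDegree) :
    ∃ R : ℝ, ∀ x, Bd f x → ‖x‖ ≤ R := by
  obtain ⟨R, hR1, hR⟩ := escape f hf
  refine ⟨R, fun x ⟨C, hC⟩ => ?_⟩
  by_contra hx
  rw [not_le] at hx
  have hx0 : 1 < ‖x‖ := lt_of_le_of_lt hR1 hx
  obtain ⟨n, hn⟩ := pow_unbounded_of_one_lt C (by norm_num : (1 : ℝ) < 2)
  have h1 := iterate_large f hR x hx n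
  have h2 := hC n
  have h3 : (2 : ℝ) ^ n ≤ 2 ^ n * ‖x‖ := le_mul_of_one_le_right (by positivity) hx0.le
  linarith

/-- Affine conjugation to the normalised situation. -/
theorem normalise (d : ℕ) (hd : 2 ≤ d) {𝕜 : Type} [NormedField 𝕜] [IsAlgClosed 𝕜] (hS : Spr 𝕜) (f : 𝕜[X])
    (hf : f.natDegree = d) (h2 : ∃ x y, x ≠ y ∧ Bd f x ∧ Bd f y) :
    ∃ (g : 𝕜[X]) (u p : 𝕜), u ≠ 0 ∧ Nrm d g ∧
      ‖g.leadingCoeff‖ = ‖f.leadingCoeff‖ * ‖u‖ ^ (d - 1) ∧ ∀ y, Bd g y ↔ Bd f (u * y + p) := by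
  obtain ⟨R, hR⟩ := bd_bounded f (by omega)
  obtain ⟨D, hD⟩ : ∃ D : Set ℝ, D = {t : ℝ | ∃ x y, Bd f x ∧ Bd f y ∧ t = ‖x - y‖} := ⟨_, rfl⟩
  obtain ⟨x₁, y₁, hxy, hx₁, hy₁⟩ := h2
  have hbdd : BddAbove D := by
    refine ⟨2 * R, ?_⟩
    rw [hD]
    rintro t ⟨x, y, hx, hy, rfl⟩
    have h1 := norm_sub_le x y
    have h3 := hR x hx
    have h4 := hR y hy
    linarith
  obtain ⟨δ, hδ⟩ : ∃ δ : ℝ, δ = sSup D := ⟨_, rfl⟩
  have hle : ∀ x y, Bd f x → Bd f y → ‖x - y‖ ≤ δ := by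
    intro x y hx hy
    rw [hδ]
    exact le_csSup hbdd (by rw [hD]; exact ⟨x, y, hx, hy, rfl⟩)
  have hδ0 : 0 < δ := lt_of_lt_of_le (norm_pos_iff.2 (sub_ne_zero.2 hxy)) (hle _ _ hx₁ hy₁)
  obtain ⟨x₀, y₀, hx₀, hy₀, h0⟩ : ∃ x y, Bd f x ∧ Bd f y ∧ δ / 2 < ‖x - y‖ := by
    have h1 : δ / 2 < sSup D := by
      rw [← hδ]
      linarith
    have hne : D.Nonempty := by
      rw [hD]
      exact ⟨_, x₁, y₁, hx₁, hy₁, rfl⟩
    obtain ⟨t, ht, h3⟩ := exists_lt_of_lt_csSup hne h1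
    rw [hD] at ht
    obtain ⟨x, y, hx, hy, rfl⟩ := ht
    exact ⟨x, y, hx, hy, h3⟩
  obtain ⟨u, hu3, hu4⟩ := exists_norm hS (r := 2 * δ) (by linarith)
  have hu1 : δ ≤ ‖u‖ := by linarith
  have hu2 : ‖u‖ ≤ 8 * δ := by linarith
  have hu0 : 0 < ‖u‖ := lt_of_lt_of_le hδ0 hu1
  have hune : u ≠ 0 := norm_pos_iff.1 hu0
  obtain ⟨L, hL⟩ : ∃ L : 𝕜[X], L = C u * X + C x₀ := ⟨_, rfl⟩
  have hLd : L.natDegree = 1 := by
    rw [hL]
    exact natDegree_linear hune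
  have hLl : L.leadingCoeff = u := by
    rw [hL]
    exact leadingCoeff_linear hune
  obtain ⟨h, hh⟩ : ∃ h : 𝕜[X], h = f.comp L - C x₀ := ⟨_, rfl⟩
  have hcd : (f.comp L).natDegree = d := by
    rw [natDegree_comp, hLd, mul_one, hf]
  have hhd : h.natDegree = d := by
    rw [hh, natDegree_sub_C, hcd]
  have hhl : h.leadingCoeff = f.leadingCoeff * u ^ d := by
    have h1 : h.leadingCoeff = (f.comp L).leadingCoeff := by
      rw [leadingCoeff, leadingCoeff, hhd, hcd, hh, coeff_sub, coeff_C, if_neg (by omega), sub_zero]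
    rw [h1, leadingCoeff_comp (by rw [hLd]; exact one_ne_zero), hLl, hf]
  obtain ⟨g, hg⟩ : ∃ g : 𝕜[X], g = C u⁻¹ * h := ⟨_, rfl⟩
  have hgd : g.natDegree = d := by
    rw [hg, natDegree_C_mul (inv_ne_zero hune), hhd]
  have hgl : g.leadingCoeff = u⁻¹ * (f.leadingCoeff * u ^ d) := by
    rw [hg, leadingCoeff_mul, leadingCoeff_C, hhl]
  have hconj : ∀ y, u * g.eval y + x₀ = f.eval (u * y + x₀) := by
    intro y
    rw [hg, hh, hL]
    simp only [eval_mul, eval_C, eval_sub, eval_comp, eval_add, eval_X]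
    field_simp
    ring
  have hbd := bd_conj f g u x₀ hune hconj
  have hd' : ∃ n, d = n + 1 := ⟨d - 1, by omega⟩
  refine ⟨g, u, x₀, hune, ⟨hgd, ?_, ?_, ?_⟩, ?_, hbd⟩
  · rw [hbd, mul_zero, zero_add]
    exact hx₀
  · intro x y hx hy
    have h1 := hle _ _ ((hbd x).1 hx) ((hbd y).1 hy)
    have h3 : u * x + x₀ - (u * y + x₀) = u * (x - y) := by ring
    rw [h3, norm_mul] at h1
    by_contra hlt
    rw [not_le] at hlt
    have h4 : ‖u‖ * 1 < ‖u‖ * ‖x - y‖ := mul_lt_mul_of_pos_left hlt hu0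
    linarith
  · refine ⟨0, (y₀ - x₀) / u, ?_, ?_, ?_⟩
    · rw [hbd, mul_zero, zero_add]
      exact hx₀
    · rw [hbd, mul_div_cancel₀ _ hune, sub_add_cancel]
      exact hy₀
    · rw [zero_sub, norm_neg, norm_div, div_le_div_iff₀ (by norm_num) hu0, norm_sub_rev]
      linarith
  · obtain ⟨n, hn⟩ := hd'
    rw [hgl, norm_mul, norm_mul, norm_inv, norm_pow, hn, Nat.add_sub_cancel, pow_succ]
    field_simp

end Pool.Agent.PQ
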