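import Pool.Agent.PQ.Large
import Pool.Agent.PQ.Norml

set_option autoImplicit false

/-!
# Lemma E: the energy of points with few colours
-/

namespace Pool.Agent.PQ

open Polynomial

/-- The grid: few colours and small distances for the points of the unit disc. -/
theorem grid (N : ℕ) (hN : 1 ≤ N) (Lam : ℝ) : ∃ (M T₀ : ℕ) (c : ℂ → Fin M), ∀ T : ℕ, T₀ ≤ T →
    ∀ x : Fin T → ℂ, Function.Injective x → (∀ i, ‖x i‖ ≤ 1) → (∀ i j, ‖x i - x j‖ ≤ 1) →
    (Finset.univ.image fun i => c (x i)).card ≤ N →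
    ∑ i, ∑ j, Real.log ‖x i - x j‖ ≤ -(Lam * (T : ℝ) ^ 2) := by
  classical
  set ε : ℝ := Real.exp (-(2 * N * |Lam| + 1)) / 2 with hε
  have hε0 : 0 < ε := by positivity
  obtain ⟨t, -, ht⟩ := (isCompact_closedBall (0 : ℂ) 1).finite_cover_balls hε0
  obtain ⟨htf, htc⟩ := ht
  haveI : Fintype t := htf.fintype
  have hne : (0 : ℕ) < Fintype.card t := by
    have h0 : (0 : ℂ) ∈ ⋃ x ∈ t, Metric.ball x ε := htc (by simp)
    rw [Set.mem_iUnion₂] at h0
    obtain ⟨y, hy, -⟩ := h0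
    exact Fintype.card_pos_iff.2 ⟨⟨y, hy⟩⟩
  haveI : Nonempty t := Fintype.card_pos_iff.1 hne
  have hex : ∀ z : ℂ, ∃ y : t, ‖z‖ ≤ 1 → ‖z - y‖ < ε := by
    intro z
    by_cases hz : ‖z‖ ≤ 1
    · have h0 : z ∈ ⋃ x ∈ t, Metric.ball x ε := htc (by simpa using hz)
      rw [Set.mem_iUnion₂] at h0
      obtain ⟨y, hy, hzy⟩ := h0
      exact ⟨⟨y, hy⟩, fun _ => by simpa [Complex.dist_eq] using hzy⟩
    · exact ⟨Classical.arbitrary t, fun h => absurd h hz⟩
  choose y hy using hex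
  refine ⟨Fintype.card t, 2 * N, fun z => Fintype.equivFin t (y z), ?_⟩
  intro T hT x hx h1 h2 hc
  have hlog : Real.log (2 * ε) = -(2 * N * |Lam| + 1) := by
    rw [hε, mul_div_cancel₀ _ (two_ne_zero), Real.log_exp]
  have hpair : ∀ i, ∀ j ∈ Finset.univ.erase i, Real.log ‖x i - x j‖ ≤
      (if (Fintype.equivFin t (y (x i))) = Fintype.equivFin t (y (x j)) then (1 : ℝ) else 0) *
        -(2 * N * |Lam| + 1) := by
    intro i j hj
    have hij : x i - x j ≠ 0 := sub_ne_zero.2 fun h => (Finset.ne_of_mem_erase hj) (hx h).symm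
    have hpos : 0 < ‖x i - x j‖ := norm_pos_iff.2 hij
    split_ifs with h
    · have h3 : y (x i) = y (x j) := (Fintype.equivFin t).injective h
      have h4 := hy (x i) (h1 i)
      have h5 := hy (x j) (h1 j)
      rw [← h3] at h5
      have h6 : ‖x i - x j‖ ≤ 2 * ε := by
        calc ‖x i - x j‖ = ‖(x i - y (x i)) - (x j - y (x i))‖ := by ring_nf
          _ ≤ ‖x i - y (x i)‖ + ‖x j - y (x i)‖ := norm_sub_le _ _
          _ ≤ 2 * ε := by linarith
      rw [one_mul, ← hlog]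
      exact Real.log_le_log hpos h6
    · rw [zero_mul]
      exact Real.log_nonpos hpos.le (h2 i j)
  have hsum : ∑ i, ∑ j, Real.log ‖x i - x j‖ ≤
      (∑ i, ∑ j ∈ Finset.univ.erase i,
        if (Fintype.equivFin t (y (x i))) = Fintype.equivFin t (y (x j)) then (1 : ℝ) else 0) *
        -(2 * N * |Lam| + 1) := by
    rw [Finset.sum_mul]
    refine Finset.sum_le_sum fun i _ => ?_
    rw [← Finset.add_sum_erase _ _ (Finset.mem_univ i), sub_self, norm_zero, Real.log_zero,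
      zero_add, Finset.sum_mul]
    exact Finset.sum_le_sum (hpair i)
  have hsc := same_colour hN (fun i => Fintype.equivFin t (y (x i))) hc
  have hN0 : (0 : ℝ) < N := by exact_mod_cast hN
  have hT' : (2 * N : ℝ) ≤ T := by exact_mod_cast hT
  have hT0 : (0 : ℝ) ≤ T := Nat.cast_nonneg _
  have h7 : (T : ℝ) ^ 2 / (2 * N) ≤ (T : ℝ) ^ 2 / N - T := by
    rw [div_le_iff₀ (by positivity)]
    have h8 : ((T : ℝ) ^ 2 / N - T) * (2 * N) = 2 * (T : ℝ) ^ 2 - T * (2 * N) := by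
      field_simp
    rw [h8]
    nlinarith
  refine hsum.trans ?_
  have hA : 0 ≤ |Lam| := abs_nonneg _
  have h9 : Lam ≤ |Lam| := le_abs_self _
  have h10 := h7.trans hsc
  have h11 : (0 : ℝ) ≤ 2 * N * |Lam| + 1 := by positivity
  have h12 := mul_le_mul_of_nonneg_right h10 h11
  have h13 : (T : ℝ) ^ 2 / (2 * N) * (2 * N * |Lam| + 1) =
      (T : ℝ) ^ 2 * |Lam| + (T : ℝ) ^ 2 / (2 * N) := by
    field_simp
  have h14 : 0 ≤ (T : ℝ) ^ 2 / (2 * N) := by positivity
  have h15 : Lam * (T : ℝ) ^ 2 ≤ (T : ℝ) ^ 2 * |Lam| := by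
    rw [mul_comm]
    exact mul_le_mul_of_nonneg_left h9 (sq_nonneg _)
  linarith

/-- Affine changes of variables: the energies. -/
theorem energy_affine {𝕜 : Type} [NormedField 𝕜] {T : ℕ} (x y : Fin T → 𝕜) (u p : 𝕜) (hu : u ≠ 0)
    (hx : Function.Injective x) (hxy : ∀ i, x i = u * y i + p) :
    ∑ i, ∑ j, Real.log ‖x i - x j‖ =
      ∑ i, ∑ j, Real.log ‖y i - y j‖ + (T * (T - 1) : ℝ) * Real.log ‖u‖ := by
  have h1 : ∀ i, ∑ j, Real.log ‖x i - x j‖ =
      ∑ j, Real.log ‖y i - y j‖ + ((T : ℝ) - 1) * Real.log ‖u‖ := by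
    intro i
    rw [← Finset.add_sum_erase _ _ (Finset.mem_univ i),
      ← Finset.add_sum_erase _ (fun j => Real.log ‖y i - y j‖) (Finset.mem_univ i)]
    have h2 : ∀ j ∈ Finset.univ.erase i, Real.log ‖x i - x j‖ =
        Real.log ‖y i - y j‖ + Real.log ‖u‖ := by
      intro j hj
      have h4 : x i - x j = u * (y i - y j) := by
        rw [hxy, hxy]
        ring
      have hij : y i - y j ≠ 0 := by
        intro h5
        rw [h5, mul_zero] at h4
        exact (Finset.ne_of_mem_erase hj) (hx (sub_eq_zero.1 h4)).symm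
      rw [h4, norm_mul, Real.log_mul (norm_ne_zero_iff.2 hu) (norm_ne_zero_iff.2 hij)]
      ring
    rw [Finset.sum_congr rfl h2, Finset.sum_add_distrib, Finset.sum_const,
      Finset.card_erase_of_mem (Finset.mem_univ i), Finset.card_univ, Fintype.card_fin,
      nsmul_eq_mul, sub_self, sub_self, norm_zero, Real.log_zero]
    have hT : 1 ≤ T := by
      have := i.2
      omega
    rw [Nat.cast_sub hT, Nat.cast_one]
    ring
  rw [Finset.sum_congr rfl fun i _ => h1 i, Finset.sum_add_distrib, Finset.sum_const,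
    Finset.card_univ, Fintype.card_fin, nsmul_eq_mul]
  ring

/-- The reduction to the normalised situation. -/
theorem reduce (d N : ℕ) (hd : 2 ≤ d) {𝕜 : Type} [NormedField 𝕜] [IsAlgClosed 𝕜] (hS : Spr 𝕜)
    (f : 𝕜[X]) (hf : f.natDegree = d) (h2 : ∃ x y, x ≠ y ∧ Bd f x ∧ Bd f y) (M T₀ : ℕ) (Lam : ℝ)
    (H : ∀ g : 𝕜[X], Nrm d g → ∃ c : 𝕜 → Fin M, ∀ T : ℕ, T₀ ≤ T → ∀ x : Fin T → 𝕜,
      Function.Injective x → (∀ i, Bd g (x i)) → (Finset.univ.image fun i => c (x i)).card ≤ N →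
      ∑ i, ∑ j, Real.log ‖x i - x j‖ ≤
        (T * (T - 1) : ℝ) * (-(Real.log ‖g.leadingCoeff‖) / (d - 1)) - Lam * (T : ℝ) ^ 2) :
    ∃ c : 𝕜 → Fin M, ∀ T : ℕ, T₀ ≤ T → ∀ x : Fin T → 𝕜,
      Function.Injective x → (∀ i, Bd f (x i)) → (Finset.univ.image fun i => c (x i)).card ≤ N →
      ∑ i, ∑ j, Real.log ‖x i - x j‖ ≤
        (T * (T - 1) : ℝ) * (-(Real.log ‖f.leadingCoeff‖) / (d - 1)) - Lam * (T : ℝ) ^ 2 := by
  obtain ⟨g, u, p, hu, hg, hgl, hgB⟩ := normalise d hd hS f hf h2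
  obtain ⟨c, hc⟩ := H g hg
  have hf0 : f ≠ 0 := by
    rintro rfl
    rw [natDegree_zero] at hf
    omega
  have hl0 : ‖f.leadingCoeff‖ ≠ 0 := norm_ne_zero_iff.2 (leadingCoeff_ne_zero.2 hf0)
  have hu0 : ‖u‖ ≠ 0 := norm_ne_zero_iff.2 hu
  have hd1 : ((d : ℝ) - 1) ≠ 0 := by
    have : (2 : ℝ) ≤ d := by exact_mod_cast hd
    linarith
  refine ⟨fun z => c (u⁻¹ * (z - p)), fun T hT x hx hB hcol => ?_⟩
  set y : Fin T → 𝕜 := fun i => u⁻¹ * (x i - p) with hy
  have hxy : ∀ i, x i = u * y i + p := by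
    intro i
    simp only [hy]
    rw [mul_inv_cancel_left₀ hu]
    ring
  have hyi : Function.Injective y := by
    intro i j hij
    apply hx
    rw [hxy i, hxy j, hij]
  have h1 := hc T hT y hyi (fun i => by
    rw [hgB, ← hxy i]
    exact hB i) hcol
  rw [energy_affine x y u p hu hx hxy]
  have h3 : -(Real.log ‖g.leadingCoeff‖) / ((d : ℝ) - 1) =
      -(Real.log ‖f.leadingCoeff‖) / (d - 1) - Real.log ‖u‖ := by
    rw [hgl, Real.log_mul hl0 (pow_ne_zero _ hu0), Real.log_pow, Nat.cast_sub (by omega),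
      Nat.cast_one]
    field_simp
    ring
  rw [h3] at h1
  linarith

/-- Lemma E. -/
theorem lemma_E (d N : ℕ) (hd : 2 ≤ d) (hN : 1 ≤ N) : ∃ (M T₀ : ℕ) (C₀ : ℝ), 0 ≤ C₀ ∧
    ∀ (𝕜 : Type) [NormedField 𝕜] [IsAlgClosed 𝕜], Spr 𝕜 → ∀ f : 𝕜[X], f.natDegree = d →
    ∃ c : 𝕜 → Fin M, ∀ T : ℕ, T₀ ≤ T → ∀ x : Fin T → 𝕜,
      Function.Injective x → (∀ i, Bd f (x i)) → (Finset.univ.image fun i => c (x i)).card ≤ N →
      ∑ i, ∑ j, Real.log ‖x i - x j‖ ≤
        (T * (T - 1) : ℝ) * (-(Real.log ‖f.leadingCoeff‖) / (d - 1)) + C₀ * (T : ℝ) ^ 2 := by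
  obtain ⟨M, T₀, L₀, h⟩ := large d N hd hN 0
  have hd1 : (0 : ℝ) < (d : ℝ) - 1 := by
    have : (2 : ℝ) ≤ d := by exact_mod_cast hd
    linarith
  refine ⟨M + 1, max T₀ 2, |L₀| / (d - 1), by positivity, ?_⟩
  intro 𝕜 _ _ hS f hf
  by_cases h2 : ∃ x y, x ≠ y ∧ Bd f x ∧ Bd f y
  · have key := reduce d N hd hS f hf h2 (M + 1) (max T₀ 2) (-(|L₀| / (d - 1))) ?_
    · obtain ⟨c, hc⟩ := key
      refine ⟨c, fun T hT x hx hB hcol => ?_⟩
      have := hc T hT x hx hB hcol
      linarith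
    · intro g hg
      by_cases hL : L₀ ≤ Real.log ‖g.leadingCoeff‖ ∧ 0 ≤ Real.log ‖g.leadingCoeff‖
      · obtain ⟨c, hc⟩ := h 𝕜 hS g hg hL.1
        refine ⟨fun z => Fin.castSucc (c z), fun T hT x hx hB hcol => ?_⟩
        have h3 : (Finset.univ.image fun i => c (x i)).card ≤ N := by
          refine le_trans (le_of_eq ?_) hcol
          have : (Finset.univ.image fun i => Fin.castSucc (c (x i))) =
              (Finset.univ.image fun i => c (x i)).image Fin.castSucc := by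
            rw [Finset.image_image]
            rfl
          rw [this, Finset.card_image_of_injective _ (Fin.castSucc_injective _)]
        have h4 := hc T ((le_max_left _ _).trans hT) x hx hB h3
        have hT0 : (0 : ℝ) ≤ T := Nat.cast_nonneg _
        have h5 : 0 ≤ Real.log ‖g.leadingCoeff‖ / ((d : ℝ) - 1) := div_nonneg hL.2 hd1.le
        have h6 : 0 ≤ |L₀| / ((d : ℝ) - 1) := by positivity
        have h7 : 0 ≤ |L₀| / ((d : ℝ) - 1) * (T : ℝ) ^ 2 := by positivity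
        have h8 : -(Real.log ‖g.leadingCoeff‖) / ((d : ℝ) - 1) =
            -(Real.log ‖g.leadingCoeff‖ / (d - 1)) := neg_div _ _
        rw [h8]
        nlinarith [mul_nonneg hT0 h5]
      · refine ⟨fun _ => 0, fun T hT x hx hB hcol => ?_⟩
        have hT0 : (0 : ℝ) ≤ T := Nat.cast_nonneg _
        have hT2 : (2 : ℝ) ≤ T := by exact_mod_cast (le_max_right _ _).trans hT
        have h3 : ∑ i, ∑ j, Real.log ‖x i - x j‖ ≤ 0 :=
          Finset.sum_nonpos fun i _ => Finset.sum_nonpos fun j _ =>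
            Real.log_nonpos (norm_nonneg _) (hg.diam _ _ (hB i) (hB j))
        have h4 : Real.log ‖g.leadingCoeff‖ ≤ |L₀| := by
          rcases not_and_or.1 hL with h5 | h5
          · exact (not_le.1 h5).le.trans (le_abs_self _)
          · exact (not_le.1 h5).le.trans (abs_nonneg _)
        have h5 : -(|L₀| / ((d : ℝ) - 1)) ≤ -(Real.log ‖g.leadingCoeff‖) / ((d : ℝ) - 1) := by
          rw [neg_div]
          exact neg_le_neg (div_le_div_of_nonneg_right h4 hd1.le)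
        have h6 : 0 ≤ |L₀| / ((d : ℝ) - 1) := by positivity
        have h7 : (0 : ℝ) ≤ T * (T - 1) := by nlinarith
        have h8 := mul_le_mul_of_nonneg_left h5 h7
        nlinarith
  · refine ⟨fun _ => 0, fun T hT x hx hB hcol => ?_⟩
    exfalso
    have hT2 : 2 ≤ T := (le_max_right _ _).trans hT
    refine h2 ⟨x ⟨0, by omega⟩, x ⟨1, by omega⟩, ?_, hB _, hB _⟩
    intro h3
    have := hx h3
    simp [Fin.ext_iff] at this

theorem lemma_EC (d N : ℕ) (hd : 2 ≤ d) (hN : 1 ≤ N) (Lam : ℝ) : ∃ M T₀ : ℕ,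
    ∀ f : ℂ[X], f.natDegree = d → ∃ c : ℂ → Fin M, ∀ T : ℕ, T₀ ≤ T → ∀ x : Fin T → ℂ,
      Function.Injective x → (∀ i, Bd f (x i)) → (Finset.univ.image fun i => c (x i)).card ≤ N →
      ∑ i, ∑ j, Real.log ‖x i - x j‖ ≤
        (T * (T - 1) : ℝ) * (-(Real.log ‖f.leadingCoeff‖) / (d - 1)) - Lam * (T : ℝ) ^ 2 := by
  obtain ⟨M, T₀, L₀, h⟩ := large d N hd hN Lam
  have hd1 : (0 : ℝ) < (d : ℝ) - 1 := by
    have : (2 : ℝ) ≤ d := by exact_mod_cast hd
    linarith
  obtain ⟨M', T₁, c', hc'⟩ := grid N hN (|L₀| / (d - 1) + |Lam|)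
  refine ⟨max M M' + 1, max (max T₀ T₁) 2, ?_⟩
  intro f hf
  by_cases h2 : ∃ x y, x ≠ y ∧ Bd f x ∧ Bd f y
  · refine reduce d N hd spr_complex f hf h2 (max M M' + 1) (max (max T₀ T₁) 2) Lam ?_
    intro g hg
    by_cases hL : L₀ ≤ Real.log ‖g.leadingCoeff‖ ∧ 0 ≤ Real.log ‖g.leadingCoeff‖
    · obtain ⟨c, hc⟩ := h ℂ spr_complex g hg hL.1
      have hMM : M ≤ max M M' + 1 := (le_max_left _ _).trans (Nat.le_succ _)
      refine ⟨fun z => Fin.castLE hMM (c z), fun T hT x hx hB hcol => ?_⟩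
      have h3 : (Finset.univ.image fun i => c (x i)).card ≤ N := by
        refine le_trans (le_of_eq ?_) hcol
        have : (Finset.univ.image fun i => Fin.castLE hMM (c (x i))) =
            (Finset.univ.image fun i => c (x i)).image (Fin.castLE hMM) := by
          rw [Finset.image_image]
          rfl
        rw [this, Finset.card_image_of_injective _ (Fin.castLE_injective _)]
      have h4 := hc T (((le_max_left _ _).trans (le_max_left _ _)).trans hT) x hx hB h3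
      have hT0 : (0 : ℝ) ≤ T := Nat.cast_nonneg _
      have h5 : 0 ≤ Real.log ‖g.leadingCoeff‖ / ((d : ℝ) - 1) := div_nonneg hL.2 hd1.le
      have h8 : -(Real.log ‖g.leadingCoeff‖) / ((d : ℝ) - 1) =
          -(Real.log ‖g.leadingCoeff‖ / (d - 1)) := neg_div _ _
      rw [h8]
      nlinarith [mul_nonneg hT0 h5]
    · have hMM : M' ≤ max M M' + 1 := (le_max_right _ _).trans (Nat.le_succ _)
      refine ⟨fun z => Fin.castLE hMM (c' z), fun T hT x hx hB hcol => ?_⟩
      have h3 : (Finset.univ.image fun i => c' (x i)).card ≤ N := by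
        refine le_trans (le_of_eq ?_) hcol
        have : (Finset.univ.image fun i => Fin.castLE hMM (c' (x i))) =
            (Finset.univ.image fun i => c' (x i)).image (Fin.castLE hMM) := by
          rw [Finset.image_image]
          rfl
        rw [this, Finset.card_image_of_injective _ (Fin.castLE_injective _)]
      have h4 := hc' T (((le_max_right _ _).trans (le_max_left _ _)).trans hT) x hx (fun i => by
        have := hg.diam _ _ (hB i) hg.zero
        rwa [sub_zero] at this) (fun i j => hg.diam _ _ (hB i) (hB j)) h3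
      have hT0 : (0 : ℝ) ≤ T := Nat.cast_nonneg _
      have hT2 : (2 : ℝ) ≤ T := by exact_mod_cast (le_max_right _ _).trans hT
      have h5 : Real.log ‖g.leadingCoeff‖ ≤ |L₀| := by
        rcases not_and_or.1 hL with h5 | h5
        · exact (not_le.1 h5).le.trans (le_abs_self _)
        · exact (not_le.1 h5).le.trans (abs_nonneg _)
      have h6 : -(|L₀| / ((d : ℝ) - 1)) ≤ -(Real.log ‖g.leadingCoeff‖) / ((d : ℝ) - 1) := by
        rw [neg_div]
        exact neg_le_neg (div_le_div_of_nonneg_right h5 hd1.le)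
      have h7 : (0 : ℝ) ≤ T * (T - 1) := by nlinarith
      have h8 := mul_le_mul_of_nonneg_left h6 h7
      have h9 : 0 ≤ |L₀| / ((d : ℝ) - 1) := by positivity
      have h10 : Lam * (T : ℝ) ^ 2 ≤ |Lam| * (T : ℝ) ^ 2 :=
        mul_le_mul_of_nonneg_right (le_abs_self _) (sq_nonneg _)
      nlinarith
  · refine ⟨fun _ => 0, fun T hT x hx hB hcol => ?_⟩
    exfalso
    have hT2 : 2 ≤ T := (le_max_right _ _).trans hT
    refine h2 ⟨x ⟨0, by omega⟩, x ⟨1, by omega⟩, ?_, hB _, hB _⟩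
    intro h3
    have := hx h3
    simp [Fin.ext_iff] at this

end Pool.Agent.PQ
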