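import Mathlib
import Pool.Agent.PQ.Defs

set_option autoImplicit false

/-!
# Elements of degree at most `N`: the gap above absolute value one
-/

namespace Pool.Agent.PQ

open Polynomial NumberField IsDedekindDomain Pool.Agent.GPoly

namespace LemL

/-- A finite sum which vanishes, in an ultrametric normed group: if some term is not zero, two
terms have the same norm, which is not zero. -/
theorem two_max {Om : Type} [NormedField Om] [IsUltrametricDist Om] (s : Finset ℕ)
    (a : ℕ → Om) (h0 : ∑ i ∈ s, a i = 0) (i₀ : ℕ) (hi₀ : i₀ ∈ s) (hne : a i₀ ≠ 0) :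
    ∃ i ∈ s, ∃ j ∈ s, i < j ∧ ‖a i‖ = ‖a j‖ ∧ a i ≠ 0 := by
  obtain ⟨m, hm, hmax⟩ := Finset.exists_max_image s (fun i => ‖a i‖) ⟨i₀, hi₀⟩
  have hm0 : a m ≠ 0 := by
    intro h
    have := hmax i₀ hi₀
    simp only [h, norm_zero] at this
    exact hne (norm_le_zero_iff.1 this)
  by_contra hcon
  push Not at hcon
  have hlt : ∀ i ∈ s.erase m, ‖a i‖ < ‖a m‖ := by
    intro i hi
    have him := Finset.mem_erase.1 hi
    rcases lt_or_eq_of_le (hmax i him.2) with h | h
    · exact h
    · exfalso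
      rcases lt_or_gt_of_ne him.1 with h1 | h1
      · have h2 := hcon i him.2 m hm h1 h
        rw [h2, norm_zero] at h
        exact hm0 (norm_eq_zero.1 h.symm)
      · exact hm0 (hcon m hm i him.2 h1 h.symm)
  have hsum : a m = -∑ i ∈ s.erase m, a i := by
    have := Finset.add_sum_erase s a hm
    rw [h0] at this
    exact eq_neg_of_add_eq_zero_left this
  rcases (s.erase m).eq_empty_or_nonempty with he | he
  · rw [he, Finset.sum_empty, neg_zero] at hsum
    exact hm0 hsum
  · obtain ⟨i, hi, hle⟩ := IsUltrametricDist.exists_norm_finsetSum_le (s.erase m) a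
    have h1 : ‖a m‖ ≤ ‖a i‖ := by
      rw [hsum, norm_neg]
      exact hle
    exact absurd (hlt i (hi he)) (not_lt.2 h1)

end LemL

variable {K : Type} [Field K] [NumberField K]

/-- An element of degree at most `N` is not slightly larger than one in absolute value. -/
theorem lem_L (v : HeightOneSpectrum (𝓞 K)) (Om : Type) [NormedField Om]
    [IsUltrametricDist Om] [Algebra K Om] (h : ∀ x : K, ‖algebraMap K Om x‖ = av v x)
    (N : ℕ) (hN : 1 ≤ N) (x : Om) (hx : DegLe K N x) (h1 : 1 < ‖x‖) :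
    Real.exp (lq v / N) ≤ ‖x‖ := by
  obtain ⟨P, hP0, hPN, hPx⟩ := hx
  have hx0 : x ≠ 0 := by
    rintro rfl
    simp only [norm_zero] at h1
    linarith
  rw [aeval_eq_sum_range] at hPx
  obtain ⟨i, hi, j, hj, hij, heq, hne⟩ := LemL.two_max (Finset.range (P.natDegree + 1))
    (fun i => P.coeff i • x ^ i) hPx P.natDegree (Finset.mem_range.2 (Nat.lt_succ_self _))
    (by
      simp only [ne_eq, smul_eq_zero, not_or]
      exact ⟨by simpa using hP0, pow_ne_zero _ hx0⟩)
  have hci : P.coeff i ≠ 0 := by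
    intro h2
    apply hne
    simp [h2]
  have hxn : 0 < ‖x‖ := norm_pos_iff.2 hx0
  simp only [Algebra.smul_def, norm_mul, norm_pow, h] at heq
  have hpi : 0 < av v (P.coeff i) := (av v).pos hci
  have hcj : P.coeff j ≠ 0 := by
    intro h2
    rw [h2, map_zero, zero_mul] at heq
    exact absurd heq (mul_pos hpi (pow_pos hxn i)).ne'
  have hpj : 0 < av v (P.coeff j) := (av v).pos hcj
  -- the ratio
  obtain ⟨n, hn⟩ := av_disc v (P.coeff i / P.coeff j) (div_ne_zero hci hcj)
  have hpow : ‖x‖ ^ (j - i) = Real.exp (-(n * lq v)) := by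
    rw [← hn, map_div₀]
    rw [eq_div_iff hpj.ne']
    have e : ‖x‖ ^ j = ‖x‖ ^ (j - i) * ‖x‖ ^ i := by
      rw [← pow_add]
      congr 1
      omega
    rw [e] at heq
    have hxi : ‖x‖ ^ i ≠ 0 := (pow_pos hxn i).ne'
    have : (‖x‖ ^ (j - i) * av v (P.coeff j)) * ‖x‖ ^ i = av v (P.coeff i) * ‖x‖ ^ i := by
      rw [heq]
      ring
    exact mul_right_cancel₀ hxi this
  have hji : 1 ≤ j - i := by omega
  have hjN : j - i ≤ N := by
    have := Finset.mem_range.1 hj
    omega
  have hgt : 1 < Real.exp (-(n * lq v)) := by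
    rw [← hpow]
    exact one_lt_pow₀ h1 (by omega)
  have hq := lq_pos v
  have hn1 : (1 : ℝ) ≤ -(n : ℝ) := by
    have h2 : 0 < -((n : ℝ) * lq v) := by
      have := Real.exp_lt_exp.1 (by rwa [Real.exp_zero] : Real.exp 0 < Real.exp (-(n * lq v)))
      exact this
    have h3 : 0 < -(n : ℝ) := by
      have : 0 < (-(n : ℝ)) * lq v := by linarith
      by_contra h6
      have := mul_nonpos_of_nonpos_of_nonneg (not_lt.1 h6) hq.le
      linarith
    have h4 : (0 : ℤ) < -n := by exact_mod_cast h3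
    have h5 : (1 : ℤ) ≤ -n := h4
    exact_mod_cast h5
  -- conclusion
  have hlog : Real.log ‖x‖ * ((j - i : ℕ) : ℝ) = -(n * lq v) := by
    have := congrArg Real.log hpow
    rw [Real.log_pow, Real.log_exp] at this
    linarith
  have hlx : 0 < Real.log ‖x‖ := Real.log_pos h1
  rw [← Real.le_log_iff_exp_le hxn]
  have hN0 : (0 : ℝ) < N := by exact_mod_cast hN
  rw [div_le_iff₀ hN0]
  have hjN' : ((j - i : ℕ) : ℝ) ≤ N := by exact_mod_cast hjN
  calc lq v ≤ -(n * lq v) := by nlinarith
    _ = Real.log ‖x‖ * ((j - i : ℕ) : ℝ) := hlog.symm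
    _ ≤ Real.log ‖x‖ * N := by
        exact mul_le_mul_of_nonneg_left hjN' hlx.le

end Pool.Agent.PQ
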