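import Pool.Agent.PQ.AbsA
import Pool.Agent.PQ.LemL
import Pool.Agent.PQ.Ext

set_option autoImplicit false

/-!
# The local estimate at a defective prime of the first kind
-/


namespace Pool.Agent.PQ

open Polynomial NumberField IsDedekindDomain Pool.Agent.GPoly Pool.Agent.QPol

variable {K : Type} [Field K] [NumberField K]

namespace LocA

/-- The absolute value of an element of degree at most `N`. -/
theorem deg_val (v : HeightOneSpectrum (𝓞 K)) (Om : Type) [NormedField Om]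
    [IsUltrametricDist Om] [Algebra K Om] (h : ∀ x : K, ‖algebraMap K Om x‖ = av v x)
    (N : ℕ) (x : Om) (hx : DegLe K N x) (hx0 : x ≠ 0) :
    ∃ (q : ℕ) (n : ℤ), 1 ≤ q ∧ q ≤ N ∧ q * Real.log ‖x‖ = n * lq v := by
  obtain ⟨P, hP0, hPN, hPx⟩ := hx
  rw [aeval_eq_sum_range] at hPx
  obtain ⟨i, hi, j, hj, hij, heq, hne⟩ := LemL.two_max (Finset.range (P.natDegree + 1))
    (fun i => P.coeff i • x ^ i) hPx P.natDegree (Finset.mem_range.2 (Nat.lt_succ_self _))
    (by
      simp only [ne_eq, smul_eq_zero, not_or]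
      exact ⟨by simpa using hP0, pow_ne_zero _ hx0⟩)
  have hci : P.coeff i ≠ 0 := by
    intro h2
    apply hne
    simp [h2]
  have hxn : 0 < ‖x‖ := norm_pos_iff.2 hx0
  simp only [Algebra.smul_def, norm_mul, norm_pow, h] at heq
  have hpi : 0 < av v (P.coeff i) := (av v).pos hci
  have hcj : P.coeff j ≠ 0 := by
    intro h2
    rw [h2, map_zero, zero_mul] at heq
    exact absurd heq (mul_pos hpi (pow_pos hxn i)).ne'
  have hpj : 0 < av v (P.coeff j) := (av v).pos hcj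
  obtain ⟨n, hn⟩ := av_disc v (P.coeff i / P.coeff j) (div_ne_zero hci hcj)
  refine ⟨j - i, -n, by omega, ?_, ?_⟩
  · have := Finset.mem_range.1 hj
    omega
  · have h1 := congrArg Real.log heq
    rw [Real.log_mul hpi.ne' (pow_pos hxn i).ne', Real.log_mul hpj.ne' (pow_pos hxn j).ne',
      Real.log_pow, Real.log_pow] at h1
    have h2 := congrArg Real.log hn
    rw [map_div₀, Real.log_div hpi.ne' hpj.ne', Real.log_exp] at h2
    rw [Nat.cast_sub hij.le]
    push_cast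
    linarith

/-- The weights are multiples of `log N(v)`. -/
theorem wt_disc (v : HeightOneSpectrum (𝓞 K)) (x : 𝓞 K) (hx : x ≠ 0) :
    ∃ n : ℤ, wt v x = n * lq v := by
  obtain ⟨n, hn⟩ := av_disc v (algebraMap (𝓞 K) K x)
    ((map_ne_zero_iff _ (RingOfIntegers.coe_injective)).mpr hx)
  refine ⟨n, ?_⟩
  rw [wt, hn, Real.log_exp, neg_neg]

/-- A harmless prime in terms of the weights. -/
theorem harmless_of (v : HeightOneSpectrum (𝓞 K)) (x y : 𝓞 K) (m n : ℕ) (hx : x ≠ 0) (hy : y ≠ 0)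
    (h : (n : ℝ) * wt v y ≤ m * wt v x) :
    v.intValuation x ^ m ≤ v.intValuation y ^ n := by
  have hsm := WithZeroMulInt.toNNReal_strictMono
    (NumberField.HeightOneSpectrum.one_lt_absNorm_nnreal v)
  rw [← hsm.le_iff_le, map_pow, map_pow, ← NNReal.coe_le_coe, NNReal.coe_pow, NNReal.coe_pow]
  have e : ∀ z : 𝓞 K, ((WithZeroMulInt.toNNReal (NumberField.HeightOneSpectrum.absNorm_ne_zero v)
      (v.intValuation z) : NNReal) : ℝ) = av v (algebraMap (𝓞 K) K z) := by
    intro z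
    rw [av_eq, HeightOneSpectrum.valuation_of_algebraMap]
  have e1 := e x
  have e2 := e y
  rw [← exp_neg_wt v x hx] at e1
  rw [← exp_neg_wt v y hy] at e2
  refine le_of_eq_of_le (congrArg (· ^ m) e1) (le_of_le_of_eq ?_ (congrArg (· ^ n) e2).symm)
  rw [← Real.exp_nat_mul, ← Real.exp_nat_mul, Real.exp_le_exp]
  linarith

/-- The radius of the largest disc around zero which is mapped into itself. -/
theorem exists_radius (d : ℕ) (hd : 2 ≤ d) (F : (𝓞 K)[X]) (hF : F.natDegree = d)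
    (v : HeightOneSpectrum (𝓞 K)) (b : 𝓞 K) (hb : b ∉ v.asIdeal) (hh : ¬ Harmless F b v) :
    ∃ e : ℕ, 2 ≤ e ∧ e < d ∧ F.coeff e ≠ 0 ∧
      (∀ j, 2 ≤ j → F.coeff j ≠ 0 → ((j : ℝ) - 1) * (wt v (F.coeff e) / ((e : ℝ) - 1)) ≤
        wt v (F.coeff j)) ∧
      ∀ j, e < j → F.coeff j ≠ 0 → ((j : ℝ) - 1) * (wt v (F.coeff e) / ((e : ℝ) - 1)) +
        lq v / (d - 1) ≤ wt v (F.coeff j) := by
  classical
  have ha0 : F.leadingCoeff ≠ 0 := by
    intro h0
    rw [leadingCoeff_eq_zero] at h0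
    rw [h0, natDegree_zero] at hF
    omega
  have hlead : F.coeff d = F.leadingCoeff := by rw [leadingCoeff, hF]
  set S : Finset ℕ := (Finset.Icc 2 d).filter fun j => F.coeff j ≠ 0 with hS
  have hdS : d ∈ S := by
    rw [hS, Finset.mem_filter, Finset.mem_Icc, hlead]
    exact ⟨⟨hd, le_rfl⟩, ha0⟩
  set ρ : ℕ → ℝ := fun j => wt v (F.coeff j) / ((j : ℝ) - 1) with hρ
  obtain ⟨m, hm, hmin⟩ := Finset.exists_min_image S ρ ⟨d, hdS⟩
  set S' : Finset ℕ := S.filter fun j => ρ j = ρ m with hS'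
  obtain ⟨e, he, hmax⟩ := Finset.exists_max_image S' (fun j => j) ⟨m, by
    rw [hS', Finset.mem_filter]
    exact ⟨hm, rfl⟩⟩
  rw [hS', Finset.mem_filter] at he
  obtain ⟨heS, heρ⟩ := he
  have heS' := heS
  rw [hS, Finset.mem_filter, Finset.mem_Icc] at heS'
  obtain ⟨⟨he2, hed⟩, he0⟩ := heS'
  have hle : ∀ j, 2 ≤ j → F.coeff j ≠ 0 → j ∈ S := by
    intro j hj hj0
    rw [hS, Finset.mem_filter, Finset.mem_Icc]
    refine ⟨⟨hj, ?_⟩, hj0⟩
    rw [← hF]
    exact le_natDegree_of_ne_zero hj0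
  have hpos : ∀ j : ℕ, 2 ≤ j → (0 : ℝ) < (j : ℝ) - 1 := by
    intro j hj
    have : (2 : ℝ) ≤ j := by exact_mod_cast hj
    linarith
  have h1 : ∀ j, 2 ≤ j → F.coeff j ≠ 0 → ((j : ℝ) - 1) * ρ e ≤ wt v (F.coeff j) := by
    intro j hj hj0
    have h2 := hmin j (hle j hj hj0)
    rw [← heρ] at h2
    have h3 := mul_le_mul_of_nonneg_left h2 (hpos j hj).le
    have h4 : ((j : ℝ) - 1) * ρ j = wt v (F.coeff j) := mul_div_cancel₀ _ (hpos j hj).ne'
    rwa [h4] at h3
  have hned : e ≠ d := by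
    rintro rfl
    apply hh
    refine ⟨hb, fun j hj => ?_⟩
    by_cases hj0 : F.coeff j = 0
    · rw [hj0, map_zero, hF, zero_pow (by omega)]
      exact zero_le
    · refine harmless_of v _ _ _ _ hj0 ha0 ?_
      have h2 := h1 j hj hj0
      have h3 : ρ e = wt v F.leadingCoeff / ((e : ℝ) - 1) := by
        simp only [hρ, hlead]
      rw [h3, ← mul_div_assoc, div_le_iff₀ (hpos e he2)] at h2
      rw [hF, Nat.cast_sub (by omega), Nat.cast_sub (by omega), Nat.cast_one]
      linarith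
  refine ⟨e, he2, lt_of_le_of_ne hed hned, he0, h1, ?_⟩
  intro j hj hj0
  have hj2 : 2 ≤ j := by omega
  have h2 := h1 j hj2 hj0
  have hne : ((j : ℝ) - 1) * ρ e ≠ wt v (F.coeff j) := by
    intro h3
    have h4 : ρ j = ρ e := by
      simp only [hρ] at h3 ⊢
      rw [div_eq_iff (hpos j hj2).ne', ← h3]
      ring
    have h5 : j ∈ S' := by
      rw [hS', Finset.mem_filter]
      exact ⟨hle j hj2 hj0, h4.trans heρ⟩
    have := hmax j h5
    omega
  have h3 : ((j : ℝ) - 1) * ρ e < wt v (F.coeff j) := lt_of_le_of_ne h2 hne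
  obtain ⟨n, hn⟩ := wt_disc v _ hj0
  obtain ⟨n', hn'⟩ := wt_disc v _ he0
  have hq := lq_pos v
  have he1 := hpos e he2
  have hd1 := hpos d hd
  have hρe : ρ e = n' * lq v / ((e : ℝ) - 1) := by simp only [hρ, hn']
  have h4 : (0 : ℝ) < n * ((e : ℝ) - 1) - ((j : ℝ) - 1) * n' := by
    rw [hρe, hn, ← mul_div_assoc, div_lt_iff₀ he1] at h3
    have : 0 < (n * ((e : ℝ) - 1) - ((j : ℝ) - 1) * n') * lq v := by nlinarith
    exact (mul_pos_iff_of_pos_right hq).mp this
  have h5 : (0 : ℤ) < n * ((e : ℤ) - 1) - ((j : ℤ) - 1) * n' := by exact_mod_cast h4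
  have h6 : (1 : ℤ) ≤ n * ((e : ℤ) - 1) - ((j : ℤ) - 1) * n' := h5
  have h7 : (1 : ℝ) ≤ n * ((e : ℝ) - 1) - ((j : ℝ) - 1) * n' := by exact_mod_cast h6
  have h8 : lq v / (d - 1) ≤ lq v / (e - 1) := by
    refine div_le_div_of_nonneg_left hq.le he1 ?_
    have : (e : ℝ) ≤ d := by exact_mod_cast hed
    linarith
  have h9 : ((j : ℝ) - 1) * (wt v (F.coeff e) / ((e : ℝ) - 1)) + lq v / (e - 1) ≤
      wt v (F.coeff j) := by
    rw [hn, hn', ← mul_div_assoc, ← add_div, div_le_iff₀ he1]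
    nlinarith
  linarith

/-- An element of a given size. -/
theorem exists_unif (v : HeightOneSpectrum (𝓞 K)) (Om : Type) [NormedField Om] [IsAlgClosed Om]
    [Algebra K Om] (h : ∀ x : K, ‖algebraMap K Om x‖ = av v x) (n : ℕ) (hn : 1 ≤ n) :
    ∃ p : Om, ‖p‖ = Real.exp (-(lq v / n)) := by
  obtain ⟨π, hπ⟩ := v.valuation_exists_uniformizer K
  obtain ⟨p, hp⟩ := IsAlgClosed.exists_pow_nat_eq (algebraMap K Om π) (by omega : 0 < n)
  refine ⟨p, ?_⟩
  have h1 : ‖p‖ ^ n = Real.exp (-(lq v)) := by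
    rw [← norm_pow, hp, h, av_eq, hπ]
    have := av_exp v (-1)
    rw [show ((-1 : ℤ) : ℝ) * lq v = -lq v by push_cast; ring] at this
    exact this
  have hn0 : (0 : ℝ) < n := by exact_mod_cast hn
  have h2 : (Real.exp (-(lq v / n))) ^ n = Real.exp (-(lq v)) := by
    rw [← Real.exp_nat_mul]
    congr 1
    field_simp
  exact (pow_left_inj₀ (norm_nonneg _) (Real.exp_pos _).le (by omega : n ≠ 0)).1
    (h1.trans h2.symm)

end LocA

set_option maxHeartbeats 4000000 in
/-- the defect at a prime of the first kind -/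
theorem loc_A (d N k : ℕ) (hd : 2 ≤ d) (hN : 1 ≤ N) : ∃ δ C : ℝ, 0 < δ ∧ 0 ≤ C ∧
    ∀ (K : Type) [Field K] [NumberField K] (F : (𝓞 K)[X]) (b : 𝓞 K), b ≠ 0 →
    F.natDegree = d → ∀ v : HeightOneSpectrum (𝓞 K), DefA k F b v →
    ∀ (Om : Type) [NormedField Om] [IsAlgClosed Om] [IsUltrametricDist Om] [Algebra K Om],
    (∀ x : K, ‖algebraMap K Om x‖ = av v x) →
    ∀ (T : ℕ) (x : Fin T → Om), Function.Injective x → (∀ i, PreE Om F b (x i)) →
    (∀ i, DegLe K N (x i)) →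
    ∑ i, ∑ j, Real.log ‖x i - x j‖ ≤
      (T : ℝ) ^ 2 * ((wt v F.leadingCoeff - wt v b) / (d - 1)) -
        (δ * (T : ℝ) ^ 2 - C * T) * (wt v F.leadingCoeff + wt v b) := by
  obtain ⟨δ, C, hδ, hC, hmain⟩ := absA d N (k * (d - 1)) hd hN
  have hd1 : (0 : ℝ) < (d : ℝ) - 1 := by
    have : (2 : ℝ) ≤ d := by exact_mod_cast hd
    linarith
  have hk1 : (0 : ℝ) < (k : ℝ) + 1 := by positivity
  refine ⟨δ / ((k + 1) * (d - 1)), C, by positivity, hC, ?_⟩
  intro K _ _ F b hb hF v hv Om _ _ _ _ h T x hx hp hdeg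
  obtain ⟨hbv, hav, hak, hh⟩ := hv
  obtain ⟨e, he2, hed, he0, hle, hlt⟩ := LocA.exists_radius d hd F hF v b hbv hh
  have ha0 : F.leadingCoeff ≠ 0 := by
    intro h0
    rw [leadingCoeff_eq_zero] at h0
    rw [h0, natDegree_zero] at hF
    omega
  have hlead : F.coeff d = F.leadingCoeff := by rw [leadingCoeff, hF]
  have hwb : wt v b = 0 := wt_eq_zero v b hbv
  set w := lq v with hw
  have hw0 : 0 < w := lq_pos v
  set A := wt v F.leadingCoeff with hA
  set σ := wt v (F.coeff e) / ((e : ℝ) - 1) with hσ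
  have he1 : (0 : ℝ) < (e : ℝ) - 1 := by
    have : (2 : ℝ) ≤ e := by exact_mod_cast he2
    linarith
  have hσ0 : 0 ≤ σ := div_nonneg (wt_nonneg v _) he1.le
  have hA1 : ((d : ℝ) - 1) * σ + w / (d - 1) ≤ A := by
    have := hlt d hed (by rwa [hlead])
    rwa [hlead] at this
  have hAk : A ≤ k * w := by
    obtain ⟨n, hn⟩ := LocA.wt_disc v _ ha0
    by_contra hcon
    rw [not_le] at hcon
    apply hak
    rw [av_int_le_pow, ← exp_neg_wt v _ ha0, Real.exp_le_exp]
    have hn' : A = n * w := hn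
    rw [← hA, hn', ← hw]
    rw [hn'] at hcon
    have h1 : (k : ℝ) < n := lt_of_mul_lt_mul_right hcon hw0.le
    have h2 : ((k : ℤ) : ℝ) < n := by exact_mod_cast h1
    have h3 : (k : ℤ) + 1 ≤ n := by exact_mod_cast h2
    have h4 : ((k : ℝ) + 1) ≤ n := by exact_mod_cast h3
    push_cast
    nlinarith
  -- the scaling factor
  have hnc : ∀ c : 𝓞 K, c ≠ 0 → ‖algebraMap K Om (algebraMap (𝓞 K) K c)‖ =
      Real.exp (-wt v c) := by
    intro c hc
    rw [h, exp_neg_wt v c hc]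
  have hnb : ‖algebraMap K Om (algebraMap (𝓞 K) K b)‖ = 1 := by
    rw [hnc b hb, hwb, neg_zero, Real.exp_zero]
  obtain ⟨l, hl⟩ := IsAlgClosed.exists_pow_nat_eq
    (algebraMap K Om (algebraMap (𝓞 K) K (F.coeff e)))⁻¹ (by omega : 0 < e - 1)
  have hlσ : ‖l‖ = Real.exp σ := by
    have h1 : ‖l‖ ^ (e - 1) = Real.exp (wt v (F.coeff e)) := by
      rw [← norm_pow, hl, norm_inv, hnc _ he0, ← Real.exp_neg, neg_neg]
    have h2 : Real.exp σ ^ (e - 1) = Real.exp (wt v (F.coeff e)) := by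
      rw [← Real.exp_nat_mul, Nat.cast_sub (by omega), Nat.cast_one, hσ,
        mul_div_cancel₀ _ he1.ne']
    exact (pow_left_inj₀ (norm_nonneg _) (Real.exp_pos _).le (by omega : e - 1 ≠ 0)).1
      (h1.trans h2.symm)
  have hl0 : l ≠ 0 := by
    intro h0
    rw [h0, norm_zero] at hlσ
    exact (Real.exp_pos σ).ne hlσ
  obtain ⟨p, hp'⟩ := LocA.exists_unif v Om h (d - 1) (by omega)
  have hpn : ‖p‖ = Real.exp (-(w / (d - 1))) := by
    rw [hp', Nat.cast_sub (by omega), Nat.cast_one]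
  have hp0 : p ≠ 0 := by
    intro h0
    rw [h0, norm_zero] at hpn
    exact (Real.exp_pos _).ne hpn
  have hwd : 0 < w / (d - 1) := div_pos hw0 hd1
  -- the polynomial `g`
  set f : Om[X] := fE Om F b with hf
  set g : Om[X] := Polynomial.C l⁻¹ * f.comp (Polynomial.C l * X) with hg
  have hfdeg : f.natDegree = d := by rw [hf, fE_natDegree Om F b hb, hF]
  have hfc : ∀ j, f.coeff j = algebraMap K Om (algebraMap (𝓞 K) K (F.coeff j)) /
      algebraMap K Om (algebraMap (𝓞 K) K b) := by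
    intro j
    rw [hf, fE, coeff_map, fp, coeff_C_mul, coeff_map, map_mul, map_inv₀, div_eq_inv_mul]
  have hgc : ∀ j, g.coeff j = l⁻¹ * (f.coeff j * l ^ j) := by
    intro j
    rw [hg, coeff_C_mul, comp_C_mul_X_coeff]
  have hgn : ∀ j, F.coeff j ≠ 0 →
      ‖g.coeff j‖ = Real.exp (-wt v (F.coeff j) + ((j : ℝ) - 1) * σ) := by
    intro j hj
    rw [hgc, hfc, norm_mul, norm_mul, norm_div, norm_inv, norm_pow, hnb, hnc _ hj, hlσ, div_one,
      ← Real.exp_nat_mul, ← Real.exp_neg, ← Real.exp_add, ← Real.exp_add]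
    congr 1
    ring
  have hgz : ∀ j, F.coeff j = 0 → g.coeff j = 0 := by
    intro j hj
    rw [hgc, hfc, hj]
    simp
  have hgdeg : g.natDegree = d := by
    rw [hg, natDegree_C_mul (inv_ne_zero hl0), natDegree_comp, hfdeg,
      natDegree_C_mul_X _ hl0, mul_one]
  have hglead : ‖g.leadingCoeff‖ = Real.exp (-(A - ((d : ℝ) - 1) * σ)) := by
    rw [leadingCoeff, hgdeg, hgn d (by rwa [hlead]), hlead]
    congr 1
    ring
  have hg1 : ∀ i, ‖g.coeff i‖ ≤ 1 := by
    intro j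
    by_cases hj : F.coeff j = 0
    · rw [hgz j hj, norm_zero]
      exact zero_le_one
    · rw [hgn j hj]
      refine Real.exp_le_one_iff.2 ?_
      rcases Nat.lt_or_ge j 2 with h2 | h2
      · have h3 : ((j : ℝ) - 1) ≤ 0 := by
          have : (j : ℝ) ≤ 1 := by exact_mod_cast (by omega : j ≤ 1)
          linarith
        have h4 := wt_nonneg v (F.coeff j)
        have h5 := mul_nonpos_of_nonpos_of_nonneg h3 hσ0
        linarith
      · have := hle j h2 hj
        linarith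
  have hge : ‖g.coeff e‖ = 1 := by
    rw [hgn e he0, hσ, mul_div_cancel₀ _ he1.ne', neg_add_cancel, Real.exp_zero]
  have hgj : ∀ j, e < j → ‖g.coeff j‖ ≤ ‖p‖ := by
    intro j hj
    by_cases hj0 : F.coeff j = 0
    · rw [hgz j hj0, norm_zero]
      exact norm_nonneg _
    · rw [hgn j hj0, hpn, Real.exp_le_exp]
      have := hlt j hj hj0
      linarith
  have hglt : ‖g.leadingCoeff‖ < 1 := by
    rw [hglead]
    refine Real.exp_lt_one_iff.2 ?_
    linarith
  have hgk : ‖p‖ ^ (k * (d - 1)) ≤ ‖g.leadingCoeff‖ := by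
    rw [hglead, hpn, ← Real.exp_nat_mul, Real.exp_le_exp, Nat.cast_mul,
      Nat.cast_sub (by omega), Nat.cast_one]
    have h1 : (k : ℝ) * ((d : ℝ) - 1) * (w / (d - 1)) = k * w := by
      field_simp
    have h2 : 0 ≤ ((d : ℝ) - 1) * σ := by positivity
    nlinarith
  -- the points
  set y : Fin T → Om := fun i => l⁻¹ * x i with hy
  have hyi : Function.Injective y := fun i j hij => hx (mul_left_cancel₀ (inv_ne_zero hl0) hij)
  have hgev : ∀ z : Om, g.eval (l⁻¹ * z) = l⁻¹ * f.eval z := by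
    intro z
    rw [hg, eval_mul, eval_C, eval_comp, eval_mul, eval_C, eval_X, mul_inv_cancel_left₀ hl0]
  have hiter : ∀ (n : ℕ) (z : Om), (fun u => g.eval u)^[n] (l⁻¹ * z) =
      l⁻¹ * (fun u => f.eval u)^[n] z := by
    intro n
    induction n with
    | zero => intro z; rfl
    | succ n ih =>
      intro z
      rw [Function.iterate_succ_apply, Function.iterate_succ_apply, hgev, ih]
  have hyp : ∀ i, Pre (fun z => g.eval z) (y i) := by
    intro i
    obtain ⟨m, n, hmn, h1⟩ := hp i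
    refine ⟨m, n, hmn, ?_⟩
    simp only [hy]
    rw [hiter, hiter]
    exact congrArg (fun u => l⁻¹ * u) h1
  have hyn : ∀ i, 1 < ‖y i‖ → 1 ≤ ‖p‖ * ‖y i‖ ^ N := by
    intro i h1
    have hy0 : y i ≠ 0 := by
      intro h0
      rw [h0, norm_zero] at h1
      linarith
    have hx0 : x i ≠ 0 := by
      intro h0
      apply hy0
      simp only [hy, h0, mul_zero]
    have hlog : Real.log ‖y i‖ = Real.log ‖x i‖ - σ := by
      simp only [hy]
      rw [norm_mul, norm_inv, Real.log_mul (inv_ne_zero (norm_ne_zero_iff.2 hl0))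
        (norm_ne_zero_iff.2 hx0), Real.log_inv, hlσ, Real.log_exp]
      ring
    obtain ⟨q, n, hq1, hqN, hqn⟩ := LocA.deg_val v Om h N (x i) (hdeg i) hx0
    obtain ⟨n', hn'⟩ := LocA.wt_disc v _ he0
    have hpos : 0 < Real.log ‖y i‖ := Real.log_pos h1
    have hq0 : (0 : ℝ) < q := by exact_mod_cast hq1
    have h3 : q * ((e : ℝ) - 1) * Real.log ‖y i‖ = (n * ((e : ℝ) - 1) - n' * q) * w := by
      rw [hlog, hσ, hn', ← hw]
      have h4 : (q : ℝ) * ((e : ℝ) - 1) * (Real.log ‖x i‖ - n' * w / ((e : ℝ) - 1)) =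
          (q * Real.log ‖x i‖) * ((e : ℝ) - 1) - q * n' * w := by
        field_simp
      rw [h4, hqn]
      ring
    have h5 : 0 < (n * ((e : ℝ) - 1) - n' * q) * w := by
      rw [← h3]
      positivity
    have h6 : 0 < n * ((e : ℝ) - 1) - n' * q := (mul_pos_iff_of_pos_right hw0).mp h5
    have h7 : (0 : ℤ) < n * ((e : ℤ) - 1) - n' * q := by exact_mod_cast h6
    have h8 : (1 : ℤ) ≤ n * ((e : ℤ) - 1) - n' * q := h7
    have h9 : (1 : ℝ) ≤ n * ((e : ℝ) - 1) - n' * q := by exact_mod_cast h8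
    have h10 : w ≤ q * ((e : ℝ) - 1) * Real.log ‖y i‖ := by
      rw [h3]
      nlinarith
    have h11 : q * ((e : ℝ) - 1) * Real.log ‖y i‖ ≤ N * ((d : ℝ) - 1) * Real.log ‖y i‖ := by
      refine mul_le_mul_of_nonneg_right ?_ hpos.le
      have : (q : ℝ) ≤ N := by exact_mod_cast hqN
      have : (e : ℝ) ≤ d := by exact_mod_cast hed.le
      exact mul_le_mul (by assumption) (by linarith) he1.le (by positivity)
    have h12 : w / (d - 1) ≤ N * Real.log ‖y i‖ := by
      rw [div_le_iff₀ hd1]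
      linarith
    have hyp0 : 0 < ‖y i‖ := norm_pos_iff.2 hy0
    have h13 : ‖p‖ * ‖y i‖ ^ N = Real.exp (-(w / (d - 1)) + N * Real.log ‖y i‖) := by
      rw [Real.exp_add, ← hpn, Real.exp_nat_mul, Real.exp_log hyp0]
    rw [h13]
    refine Real.one_le_exp ?_
    linarith
  have key := hmain Om g hgdeg hg1 p hp0 (by
    rw [hpn]
    refine Real.exp_lt_one_iff.2 ?_
    linarith) e he2 hge hgj hglt hgk T y hyi hyp hyn
  rw [hglead, Real.log_exp, neg_neg] at key
  -- the energies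
  have hen : ∑ i, ∑ j, Real.log ‖x i - x j‖ =
      ∑ i, ∑ j, Real.log ‖y i - y j‖ + (T * (T - 1) : ℝ) * σ := by
    have h1 : ∀ i, ∑ j, Real.log ‖x i - x j‖ =
        ∑ j, Real.log ‖y i - y j‖ + ((T : ℝ) - 1) * σ := by
      intro i
      rw [← Finset.add_sum_erase _ _ (Finset.mem_univ i),
        ← Finset.add_sum_erase _ (fun j => Real.log ‖y i - y j‖) (Finset.mem_univ i)]
      have h2 : ∀ j ∈ Finset.univ.erase i, Real.log ‖x i - x j‖ =
          Real.log ‖y i - y j‖ + σ := by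
        intro j hj
        have hij : x i - x j ≠ 0 := sub_ne_zero.2 fun h3 =>
          (Finset.ne_of_mem_erase hj) (hx h3).symm
        have h4 : y i - y j = l⁻¹ * (x i - x j) := by
          simp only [hy]
          ring
        rw [h4, norm_mul, norm_inv, Real.log_mul (inv_ne_zero (norm_ne_zero_iff.2 hl0))
          (norm_ne_zero_iff.2 hij), Real.log_inv, hlσ, Real.log_exp]
        ring
      rw [Finset.sum_congr rfl h2, Finset.sum_add_distrib, Finset.sum_const,
        Finset.card_erase_of_mem (Finset.mem_univ i), Finset.card_univ, Fintype.card_fin,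
        nsmul_eq_mul, sub_self, sub_self, norm_zero, Real.log_zero]
      have hT : 1 ≤ T := by
        have := i.2
        omega
      rw [Nat.cast_sub hT, Nat.cast_one]
      ring
    rw [Finset.sum_congr rfl fun i _ => h1 i, Finset.sum_add_distrib, Finset.sum_const,
      Finset.card_univ, Fintype.card_fin, nsmul_eq_mul]
    ring
  rw [hen, hwb, sub_zero, add_zero]
  set a' := A - ((d : ℝ) - 1) * σ with ha'
  have hT0 : (0 : ℝ) ≤ T := Nat.cast_nonneg _
  have ha1 : w / (d - 1) ≤ a' := by linarith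
  have ha2 : a' ≤ A := by
    have : 0 ≤ ((d : ℝ) - 1) * σ := by positivity
    linarith
  have h1 : (T : ℝ) ^ 2 * (a' / (d - 1)) = (T : ℝ) ^ 2 * (A / (d - 1)) - (T : ℝ) ^ 2 * σ := by
    rw [ha']
    field_simp
  have h2 : A ≤ (k + 1) * (d - 1) * a' := by
    have h3 : (k : ℝ) * w ≤ (k + 1) * w := by nlinarith
    have h4 : w ≤ (d - 1) * a' := by
      rw [div_le_iff₀ hd1] at ha1
      linarith
    nlinarith
  have h3 : δ / ((k + 1) * (d - 1)) * (T : ℝ) ^ 2 * A ≤ δ * (T : ℝ) ^ 2 * a' := by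
    have h4 : 0 ≤ δ / ((k + 1) * (d - 1)) * (T : ℝ) ^ 2 := by positivity
    have h5 := mul_le_mul_of_nonneg_left h2 h4
    have h6 : δ / ((k + 1) * (d - 1)) * (T : ℝ) ^ 2 * ((k + 1) * (d - 1) * a') =
        δ * (T : ℝ) ^ 2 * a' := by
      field_simp
    linarith
  have h4 : C * T * a' ≤ C * T * A := mul_le_mul_of_nonneg_left ha2 (by positivity)
  have h5 : 0 ≤ T * σ := by positivity
  nlinarith

end Pool.Agent.PQ
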