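import Pool.Agent.PQ.Defs

set_option autoImplicit false
set_option linter.unusedSectionVars false

/-!
# Residues of elements of bounded degree, and roots with a given residue
-/

namespace Pool.Agent.PQ

open Polynomial NumberField IsDedekindDomain Pool.Agent.GPoly

namespace LemR

section ultra

variable {Om : Type} [NormedField Om] [IsUltrametricDist Om]

theorem add_lt {a b : Om} (ha : ‖a‖ < 1) (hb : ‖b‖ < 1) : ‖a + b‖ < 1 :=
  (IsUltrametricDist.norm_add_le_max a b).trans_lt (max_lt ha hb)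

theorem sub_lt {a b : Om} (ha : ‖a‖ < 1) (hb : ‖b‖ < 1) : ‖a - b‖ < 1 := by
  rw [sub_eq_add_neg]
  exact add_lt ha (by rwa [norm_neg])

theorem mul_lt {a b : Om} (ha : ‖a‖ ≤ 1) (hb : ‖b‖ < 1) : ‖a * b‖ < 1 := by
  rw [norm_mul]
  calc ‖a‖ * ‖b‖ ≤ 1 * ‖b‖ := mul_le_mul_of_nonneg_right ha (norm_nonneg _)
    _ < 1 := by rwa [one_mul]

theorem pow_le {x : Om} (hx : ‖x‖ ≤ 1) (n : ℕ) : ‖x ^ n‖ ≤ 1 := by
  rw [norm_pow]
  exact pow_le_one₀ (norm_nonneg _) hx

theorem sum_lt {ι : Type} (s : Finset ι) (f : ι → Om) (h : ∀ i ∈ s, ‖f i‖ < 1) :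
    ‖∑ i ∈ s, f i‖ < 1 := by
  classical
  induction s using Finset.induction_on with
  | empty => simp
  | insert a s ha ih =>
    rw [Finset.sum_insert ha]
    exact add_lt (h a (Finset.mem_insert_self _ _))
      (ih fun i hi => h i (Finset.mem_insert_of_mem hi))

theorem sum_le {ι : Type} (s : Finset ι) (f : ι → Om) {c : ℝ} (hc : 0 ≤ c)
    (h : ∀ i ∈ s, ‖f i‖ ≤ c) : ‖∑ i ∈ s, f i‖ ≤ c := by
  classical
  induction s using Finset.induction_on with
  | empty => simpa using hc
  | insert a s ha ih =>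
    rw [Finset.sum_insert ha]
    exact (IsUltrametricDist.norm_add_le_max _ _).trans
      (max_le (h a (Finset.mem_insert_self _ _))
        (ih fun i hi => h i (Finset.mem_insert_of_mem hi)))

theorem eval_lt (P : Om[X]) (hP : ∀ i, ‖P.coeff i‖ < 1) {x : Om} (hx : ‖x‖ ≤ 1) :
    ‖P.eval x‖ < 1 := by
  rw [eval_eq_sum_range]
  refine sum_lt _ _ fun i _ => ?_
  rw [mul_comm]
  exact mul_lt (pow_le hx i) (hP i)

theorem eval_le (P : Om[X]) (hP : ∀ i, ‖P.coeff i‖ ≤ 1) {x : Om} (hx : ‖x‖ ≤ 1) :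
    ‖P.eval x‖ ≤ 1 := by
  rw [eval_eq_sum_range]
  refine sum_le _ _ zero_le_one fun i _ => ?_
  rw [norm_mul]
  exact mul_le_one₀ (hP i) (norm_nonneg _) (pow_le hx i)

theorem eval_sub_le (P : Om[X]) (hP : ∀ i, ‖P.coeff i‖ ≤ 1) {x y : Om} (hx : ‖x‖ ≤ 1)
    (hy : ‖y‖ ≤ 1) : ‖P.eval x - P.eval y‖ ≤ ‖x - y‖ := by
  rw [eval_eq_sum_range, eval_eq_sum_range, ← Finset.sum_sub_distrib]
  refine sum_le _ _ (norm_nonneg _) fun i _ => ?_
  rw [← mul_sub, ← geom_sum₂_mul, norm_mul, norm_mul, ← mul_assoc]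
  have h1 : ‖∑ j ∈ Finset.range i, x ^ j * y ^ (i - 1 - j)‖ ≤ 1 := by
    refine sum_le _ _ zero_le_one fun j _ => ?_
    rw [norm_mul]
    exact mul_le_one₀ (pow_le hx j) (norm_nonneg _) (pow_le hy _)
  calc ‖P.coeff i‖ * ‖∑ j ∈ Finset.range i, x ^ j * y ^ (i - 1 - j)‖ * ‖x - y‖
      ≤ 1 * ‖x - y‖ := mul_le_mul_of_nonneg_right
        (mul_le_one₀ (hP i) (norm_nonneg _) h1) (norm_nonneg _)
    _ = ‖x - y‖ := one_mul _

end ultra

variable {K : Type} [Field K] [NumberField K]

/-- Elements which are integral at `v` are approximated by integers. -/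
theorem approx (v : HeightOneSpectrum (𝓞 K)) (q : K) (hq : av v q ≤ 1) :
    ∃ a : 𝓞 K, av v (q - algebraMap (𝓞 K) K a) < 1 := by
  obtain ⟨n, m, hm, rfl⟩ := IsFractionRing.div_surjective (A := 𝓞 K) q
  have hm0 : m ≠ 0 := nonZeroDivisors.ne_zero hm
  have hmK : algebraMap (𝓞 K) K m ≠ 0 := by
    rw [Ne, map_eq_zero_iff _ (IsFractionRing.injective (𝓞 K) K)]
    exact hm0
  have hlq := lq_pos v
  obtain ⟨j, hj⟩ := av_disc v _ hmK
  have hj0 : 0 ≤ j := by
    by_contra hneg
    push Not at hneg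
    have h1 := av_int_le_one v m
    rw [hj] at h1
    have h2 : (0 : ℝ) < -(j * lq v) := by
      have : (j : ℝ) < 0 := by exact_mod_cast hneg
      nlinarith
    exact absurd h1 (not_le.2 (Real.one_lt_exp_iff.2 h2))
  lift j to ℕ using hj0 with i
  have hj' : av v (algebraMap (𝓞 K) K m) = Real.exp (-(i * lq v)) := by
    rw [hj]
    norm_cast
  have hmi : m ∈ v.asIdeal ^ i := (av_int_le_pow v m i).2 hj'.le
  have hmi' : m ∉ v.asIdeal ^ (i + 1) := by
    rw [av_int_le_pow, hj', Real.exp_le_exp, not_le]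
    push_cast
    linarith
  have hmpos : 0 < av v (algebraMap (𝓞 K) K m) := (av v).pos hmK
  have hni : n ∈ v.asIdeal ^ i := by
    rw [av_int_le_pow, ← hj']
    rw [map_div₀, div_le_one hmpos] at hq
    exact hq
  obtain ⟨a, e, he, hae⟩ := Ideal.exists_mul_add_mem_pow_succ v.ne_bot m n hmi hmi' hni
  refine ⟨a, ?_⟩
  have h1 : algebraMap (𝓞 K) K n / algebraMap (𝓞 K) K m - algebraMap (𝓞 K) K a =
      algebraMap (𝓞 K) K e / algebraMap (𝓞 K) K m := by
    rw [← hae, map_add, map_mul]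
    field_simp
    ring
  rw [h1, map_div₀, div_lt_one hmpos, hj']
  refine ((av_int_le_pow v e (i + 1)).1 he).trans_lt ?_
  rw [Real.exp_lt_exp]
  push_cast
  linarith

section

variable (v : HeightOneSpectrum (𝓞 K)) (Om : Type) [NormedField Om]
  [IsUltrametricDist Om] [Algebra K Om] (h : ∀ x : K, ‖algebraMap K Om x‖ = av v x)

/-- the integers of `K` in `Om` -/
noncomputable def phi : 𝓞 K →+* Om := (algebraMap K Om).comp (algebraMap (𝓞 K) K)

include h

theorem phi_le (a : 𝓞 K) : ‖phi Om a‖ ≤ 1 := by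
  show ‖algebraMap K Om (algebraMap (𝓞 K) K a)‖ ≤ 1
  rw [h]
  exact av_int_le_one v a

theorem phi_lt (a : 𝓞 K) : ‖phi Om a‖ < 1 ↔ a ∈ v.asIdeal := by
  show ‖algebraMap K Om (algebraMap (𝓞 K) K a)‖ < 1 ↔ _
  rw [h]
  exact av_int_lt_one v a

theorem phi_eq (a : 𝓞 K) : ‖phi Om a‖ = 1 ↔ a ∉ v.asIdeal := by
  show ‖algebraMap K Om (algebraMap (𝓞 K) K a)‖ = 1 ↔ _
  rw [h]
  exact av_int_eq_one v a

theorem map_lt (P : (𝓞 K)[X]) (hP : P.map (Ideal.Quotient.mk v.asIdeal) = 0) {x : Om}
    (hx : ‖x‖ ≤ 1) : ‖(P.map (phi Om)).eval x‖ < 1 := by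
  refine eval_lt _ (fun i => ?_) hx
  rw [coeff_map, phi_lt v Om h]
  have := congrArg (fun Q => Q.coeff i) hP
  simp only [coeff_map, coeff_zero] at this
  exact Ideal.Quotient.eq_zero_iff_mem.1 this

theorem map_le (P : (𝓞 K)[X]) {x : Om} (hx : ‖x‖ ≤ 1) : ‖(P.map (phi Om)).eval x‖ ≤ 1 :=
  eval_le _ (fun i => by rw [coeff_map]; exact phi_le v Om h _) hx

/-- an element of degree at most `N` is a root of a small value polynomial over the integers -/
theorem exists_int_poly (N : ℕ) (x : Om) (hx : DegLe K N x) (hx1 : ‖x‖ ≤ 1) :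
    ∃ P : (𝓞 K)[X], P.natDegree ≤ N ∧ P.map (Ideal.Quotient.mk v.asIdeal) ≠ 0 ∧
      ‖(P.map (phi Om)).eval x‖ < 1 := by
  classical
  obtain ⟨P, hP0, hPN, hPx⟩ := hx
  obtain ⟨i₀, hi₀, hmax⟩ := Finset.exists_max_image P.support (fun i => av v (P.coeff i))
    (nonempty_support_iff.2 hP0)
  set c := P.coeff i₀ with hc
  have hc0 : c ≠ 0 := mem_support_iff.1 hi₀
  have hcpos : 0 < av v c := (av v).pos hc0
  have hcoef : ∀ i, av v (P.coeff i / c) ≤ 1 := by
    intro i
    rw [map_div₀, div_le_one hcpos]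
    by_cases hi : i ∈ P.support
    · exact hmax i hi
    · rw [notMem_support_iff.1 hi, map_zero]
      exact hcpos.le
  choose a ha using fun i => approx v (P.coeff i / c) (hcoef i)
  have hi₀N : i₀ ≤ N := (le_natDegree_of_mem_supp _ hi₀).trans hPN
  refine ⟨∑ i ∈ Finset.range (N + 1), monomial i (a i), ?_, ?_, ?_⟩
  · refine natDegree_sum_le_of_forall_le _ _ fun i hi => ?_
    exact (natDegree_monomial_le _).trans (by have := Finset.mem_range.1 hi; omega)
  · intro h0
    have h1 := congrArg (fun Q => Q.coeff i₀) h0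
    simp only [coeff_map, finsetSum_coeff, coeff_monomial, coeff_zero] at h1
    rw [Finset.sum_ite_eq' (Finset.range (N + 1)) i₀ a,
      if_pos (Finset.mem_range.2 (by omega)), Ideal.Quotient.eq_zero_iff_mem,
      ← av_int_lt_one] at h1
    have h2 := ha i₀
    rw [← hc, div_self hc0] at h2
    have h3 : av v (1 : K) < 1 := by
      have h4 : (1 : K) = (1 - algebraMap (𝓞 K) K (a i₀)) + algebraMap (𝓞 K) K (a i₀) := by ring
      rw [h4]
      exact ((av_nonarch v) _ _).trans_lt (max_lt h2 h1)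
    rw [map_one] at h3
    exact lt_irrefl _ h3
  · have h1 : (∑ i ∈ Finset.range (N + 1), algebraMap K Om (P.coeff i / c) * x ^ i) = 0 := by
      have h2 : aeval x P = ∑ i ∈ Finset.range (N + 1), algebraMap K Om (P.coeff i) * x ^ i := by
        rw [aeval_eq_sum_range' (Nat.lt_succ_of_le hPN)]
        refine Finset.sum_congr rfl fun i _ => ?_
        rw [Algebra.smul_def]
      have h3 : (∑ i ∈ Finset.range (N + 1), algebraMap K Om (P.coeff i / c) * x ^ i) =
          algebraMap K Om c⁻¹ * aeval x P := by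
        rw [h2, Finset.mul_sum]
        refine Finset.sum_congr rfl fun i _ => ?_
        rw [div_eq_mul_inv, map_mul]
        ring
      rw [h3, hPx, mul_zero]
    have h2 : ((∑ i ∈ Finset.range (N + 1), monomial i (a i) : (𝓞 K)[X]).map (phi Om)).eval x =
        -∑ i ∈ Finset.range (N + 1),
          algebraMap K Om (P.coeff i / c - algebraMap (𝓞 K) K (a i)) * x ^ i := by
      have h3 : ∀ i, algebraMap K Om (P.coeff i / c - algebraMap (𝓞 K) K (a i)) * x ^ i =
          algebraMap K Om (P.coeff i / c) * x ^ i - phi Om (a i) * x ^ i := by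
        intro i
        rw [map_sub]
        show _ = _ - algebraMap K Om (algebraMap (𝓞 K) K (a i)) * x ^ i
        ring
      simp only [h3]
      rw [Finset.sum_sub_distrib, h1, zero_sub, neg_neg, Polynomial.map_sum, eval_finsetSum]
      refine Finset.sum_congr rfl fun i _ => ?_
      rw [map_monomial, eval_monomial]
    rw [h2, norm_neg]
    refine sum_lt _ _ fun i _ => ?_
    rw [mul_comm]
    refine mul_lt (pow_le hx1 i) ?_
    rw [h]
    exact ha i

end

end LemR

variable {K : Type} [Field K] [NumberField K]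

open LemR in
/-- The residue of an element of degree at most `N` has degree at most `N`. -/
theorem res_deg (v : HeightOneSpectrum (𝓞 K)) (Om : Type) [NormedField Om]
    [IsUltrametricDist Om] [Algebra K Om] (h : ∀ x : K, ‖algebraMap K Om x‖ = av v x)
    (N : ℕ) (H : (𝓞 K)[X]) (hirr : Irreducible (H.map (Ideal.Quotient.mk v.asIdeal)))
    (hdeg : N < (H.map (Ideal.Quotient.mk v.asIdeal)).natDegree) (y : Om) (hy : ‖y‖ ≤ 1)
    (hHy : ‖(H.map ((algebraMap K Om).comp (algebraMap (𝓞 K) K))).eval y‖ < 1) (x : Om)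
    (hx : DegLe K N x) (hx1 : ‖x‖ ≤ 1) : ‖x - y‖ = 1 := by
  have hle : ‖x - y‖ ≤ 1 := by
    rw [sub_eq_add_neg]
    exact (IsUltrametricDist.norm_add_le_max _ _).trans (max_le hx1 (by rwa [norm_neg]))
  by_contra hne
  have hlt : ‖x - y‖ < 1 := lt_of_le_of_ne hle hne
  obtain ⟨P, hPN, hP0, hPx⟩ := exists_int_poly v Om h N x hx hx1
  have hPy : ‖(P.map (phi Om)).eval y‖ < 1 := by
    have h1 : ‖(P.map (phi Om)).eval x - (P.map (phi Om)).eval y‖ < 1 :=
      (eval_sub_le _ (fun i => by rw [coeff_map]; exact phi_le v Om h _) hx1 hy).trans_lt hlt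
    have h2 := sub_lt hPx h1
    rwa [sub_sub_cancel] at h2
  let _ : Field (𝓞 K ⧸ v.asIdeal) := Ideal.Quotient.field v.asIdeal
  have hcop : IsCoprime (H.map (Ideal.Quotient.mk v.asIdeal))
      (P.map (Ideal.Quotient.mk v.asIdeal)) := by
    rcases hirr.isCoprime_or_dvd (P.map (Ideal.Quotient.mk v.asIdeal)) with h1 | h1
    · exact h1
    · exfalso
      have h2 := natDegree_le_of_dvd h1 hP0
      have h3 : (P.map (Ideal.Quotient.mk v.asIdeal)).natDegree ≤ N :=
        natDegree_map_le.trans hPN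
      omega
  obtain ⟨u, w, huw⟩ := hcop
  obtain ⟨U, rfl⟩ := map_surjective _ Ideal.Quotient.mk_surjective u
  obtain ⟨W, rfl⟩ := map_surjective _ Ideal.Quotient.mk_surjective w
  have hE : (U * H + W * P - 1).map (Ideal.Quotient.mk v.asIdeal) = 0 := by
    rw [Polynomial.map_sub, Polynomial.map_add, Polynomial.map_mul, Polynomial.map_mul,
      Polynomial.map_one, huw, sub_self]
  have h1 := map_lt v Om h _ hE hy
  rw [Polynomial.map_sub, Polynomial.map_add, Polynomial.map_mul, Polynomial.map_mul,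
    Polynomial.map_one, eval_sub, eval_add, eval_mul, eval_mul, eval_one] at h1
  have h2 := mul_lt (map_le v Om h U hy) hHy
  have h3 := mul_lt (map_le v Om h W hy) hPy
  have h4 := sub_lt (add_lt h2 h3) h1
  have h5 : (eval y (U.map (phi Om)) *
      (H.map ((algebraMap K Om).comp (algebraMap (𝓞 K) K))).eval y +
      eval y (W.map (phi Om)) * eval y (P.map (phi Om)) -
      (eval y (U.map (phi Om)) * eval y (H.map (phi Om)) +
      eval y (W.map (phi Om)) * eval y (P.map (phi Om)) - 1)) = 1 := by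
    show (eval y (U.map (phi Om)) * (H.map (phi Om)).eval y +
      eval y (W.map (phi Om)) * eval y (P.map (phi Om)) -
      (eval y (U.map (phi Om)) * eval y (H.map (phi Om)) +
      eval y (W.map (phi Om)) * eval y (P.map (phi Om)) - 1)) = 1
    ring
  rw [h5, norm_one] at h4
  exact lt_irrefl _ h4

open LemR in
/-- A root of `F` which reduces to a root of the irreducible factor `h` of `F` modulo `v`. -/
theorem exists_root (v : HeightOneSpectrum (𝓞 K)) (Om : Type) [NormedField Om] [IsAlgClosed Om]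
    [IsUltrametricDist Om] [Algebra K Om] (h : ∀ x : K, ‖algebraMap K Om x‖ = av v x)
    (F : (𝓞 K)[X]) (ha : F.leadingCoeff ∉ v.asIdeal) (H : (𝓞 K)[X])
    (hirr : Irreducible (H.map (Ideal.Quotient.mk v.asIdeal)))
    (hdvd : H.map (Ideal.Quotient.mk v.asIdeal) ∣ F.map (Ideal.Quotient.mk v.asIdeal)) :
    ∃ y : Om, ‖y‖ ≤ 1 ∧ (F.map ((algebraMap K Om).comp (algebraMap (𝓞 K) K))).eval y = 0 ∧
      ‖(H.map ((algebraMap K Om).comp (algebraMap (𝓞 K) K))).eval y‖ < 1 := by
  classical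
  change ∃ y : Om, ‖y‖ ≤ 1 ∧ (F.map (phi Om)).eval y = 0 ∧ ‖(H.map (phi Om)).eval y‖ < 1
  -- roots of polynomials with a unit as leading coefficient
  have hroot : ∀ G : (𝓞 K)[X], G.leadingCoeff ∉ v.asIdeal → ∀ z : Om,
      (G.map (phi Om)).eval z = 0 → ‖z‖ ≤ 1 := by
    intro G hG z hz
    by_contra hcon
    push Not at hcon
    have hz0 : z ≠ 0 := by
      rintro rfl
      rw [norm_zero] at hcon
      linarith
    have hlc : ‖phi Om G.leadingCoeff‖ = 1 := (phi_eq v Om h _).2 hG
    rw [eval_map, eval₂_eq_sum_range, Finset.sum_range_succ] at hz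
    -- divide by the top power
    have h1 : ‖∑ i ∈ Finset.range G.natDegree, phi Om (G.coeff i) * z ^ i‖ <
        ‖z‖ ^ G.natDegree := by
      have hpos : 0 < ‖z‖ ^ G.natDegree := pow_pos (by linarith) _
      have h2 : ‖∑ i ∈ Finset.range G.natDegree,
          (phi Om (G.coeff i) * z ^ i) / z ^ G.natDegree‖ < 1 := by
        refine sum_lt _ _ fun i hi => ?_
        rw [norm_div, norm_mul, norm_pow, norm_pow, div_lt_one hpos]
        calc ‖phi Om (G.coeff i)‖ * ‖z‖ ^ i ≤ 1 * ‖z‖ ^ i :=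
              mul_le_mul_of_nonneg_right (phi_le v Om h _) (pow_nonneg (norm_nonneg _) _)
          _ = ‖z‖ ^ i := one_mul _
          _ < ‖z‖ ^ G.natDegree := pow_lt_pow_right₀ hcon (Finset.mem_range.1 hi)
      rw [← Finset.sum_div, norm_div, norm_pow, div_lt_one hpos] at h2
      exact h2
    have h2 : phi Om (G.coeff G.natDegree) * z ^ G.natDegree =
        -∑ i ∈ Finset.range G.natDegree, phi Om (G.coeff i) * z ^ i := by
      rw [eq_neg_iff_add_eq_zero, add_comm]
      exact hz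
    have h3 := congrArg norm h2
    rw [norm_neg, norm_mul, norm_pow] at h3
    have h4 : ‖phi Om (G.coeff G.natDegree)‖ = 1 := hlc
    rw [h4, one_mul] at h3
    rw [← h3] at h1
    exact lt_irrefl _ h1
  -- a lift of `h` with a unit as leading coefficient
  obtain ⟨H₁, hH₁, hH₁d⟩ := exists_natDegree_eq_of_mem_lifts
    (mem_lifts_of_surjective Ideal.Quotient.mk_surjective
      (H.map (Ideal.Quotient.mk v.asIdeal)))
  let _ : Field (𝓞 K ⧸ v.asIdeal) := Ideal.Quotient.field v.asIdeal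
  have hdeg : 0 < (H.map (Ideal.Quotient.mk v.asIdeal)).natDegree := hirr.natDegree_pos
  have hlc : H₁.leadingCoeff ∉ v.asIdeal := by
    rw [← Ideal.Quotient.eq_zero_iff_mem, leadingCoeff, ← coeff_map, hH₁, hH₁d]
    exact leadingCoeff_ne_zero.2 hirr.ne_zero
  have hlcO : phi Om H₁.leadingCoeff ≠ 0 := by
    intro h0
    have := (phi_eq v Om h _).2 hlc
    rw [h0, norm_zero] at this
    exact zero_ne_one this
  have hd1 : (H₁.map (phi Om)).degree ≠ 0 := by
    rw [degree_map_eq_of_leadingCoeff_ne_zero _ hlcO]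
    intro h0
    have h2 : H₁.natDegree = 0 := natDegree_eq_of_degree_eq_some h0
    omega
  obtain ⟨z, hz⟩ := IsAlgClosed.exists_root _ hd1
  have hz0 : (H₁.map (phi Om)).eval z = 0 := hz
  have hz1 : ‖z‖ ≤ 1 := hroot H₁ hlc z hz0
  have hHz : ‖(H.map (phi Om)).eval z‖ < 1 := by
    have h1 : (H - H₁).map (Ideal.Quotient.mk v.asIdeal) = 0 := by
      rw [Polynomial.map_sub, hH₁, sub_self]
    have h2 := map_lt v Om h _ h1 hz1
    rwa [Polynomial.map_sub, eval_sub, hz0, sub_zero] at h2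
  -- `F` is small at `z`
  obtain ⟨q, hq⟩ := hdvd
  obtain ⟨Q, rfl⟩ := map_surjective _ Ideal.Quotient.mk_surjective q
  have hFz : ‖(F.map (phi Om)).eval z‖ < 1 := by
    have h1 : (F - Q * H).map (Ideal.Quotient.mk v.asIdeal) = 0 := by
      rw [Polynomial.map_sub, Polynomial.map_mul, hq, mul_comm, sub_self]
    have h2 := map_lt v Om h _ h1 hz1
    rw [Polynomial.map_sub, Polynomial.map_mul, eval_sub, eval_mul] at h2
    have h3 := add_lt h2 (mul_lt (map_le v Om h Q hz1) hHz)
    rwa [sub_add_cancel] at h3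
  -- a root of `F` close to `z`
  have hFlc : ‖phi Om F.leadingCoeff‖ = 1 := (phi_eq v Om h _).2 ha
  have hFlc0 : phi Om F.leadingCoeff ≠ 0 := by
    intro h0
    rw [h0, norm_zero] at hFlc
    exact zero_ne_one hFlc
  have hFne : F.map (phi Om) ≠ 0 := by
    intro h0
    apply hFlc0
    have := congrArg (fun P => P.coeff F.natDegree) h0
    simpa [coeff_map] using this
  have hsplit := (IsAlgClosed.splits (F.map (phi Om))).eq_prod_roots
  have hev : ‖(F.map (phi Om)).eval z‖ =
      (((F.map (phi Om)).roots).map fun y => ‖z - y‖).prod := by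
    conv_lhs => rw [hsplit]
    rw [eval_mul, eval_C, norm_mul, leadingCoeff_map_of_leadingCoeff_ne_zero _ hFlc0, hFlc,
      one_mul, eval_multiset_prod, Multiset.map_map]
    have h1 : ∀ s : Multiset Om, ‖(s.map ((fun p => eval z p) ∘ fun a => X - C a)).prod‖ =
        (s.map fun y => ‖z - y‖).prod := by
      intro s
      induction s using Multiset.induction_on with
      | empty => simp
      | cons a s ih =>
        rw [Multiset.map_cons, Multiset.map_cons, Multiset.prod_cons, Multiset.prod_cons,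
          norm_mul, ih]
        simp
    exact h1 _
  obtain ⟨y, hy, hyz⟩ : ∃ y ∈ (F.map (phi Om)).roots, ‖z - y‖ < 1 := by
    by_contra hcon
    push Not at hcon
    have h1 : 1 ≤ (((F.map (phi Om)).roots).map fun y => ‖z - y‖).prod := by
      have h2 : ∀ s : Multiset Om, (∀ y ∈ s, 1 ≤ ‖z - y‖) → 1 ≤ (s.map fun y => ‖z - y‖).prod := by
        intro s
        induction s using Multiset.induction_on with
        | empty => intro _; simp
        | cons a s ih =>
          intro hs
          rw [Multiset.map_cons, Multiset.prod_cons]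
          exact one_le_mul_of_one_le_of_one_le (hs a (Multiset.mem_cons_self _ _))
            (ih fun y hy => hs y (Multiset.mem_cons_of_mem hy))
      exact h2 _ hcon
    rw [hev] at hFz
    linarith
  have hy0 : (F.map (phi Om)).eval y = 0 := (mem_roots hFne).1 hy
  have hy1 : ‖y‖ ≤ 1 := hroot F ha y hy0
  refine ⟨y, hy1, hy0, ?_⟩
  have h1 : ‖(H.map (phi Om)).eval z - (H.map (phi Om)).eval y‖ < 1 :=
    (eval_sub_le _ (fun i => by rw [coeff_map]; exact phi_le v Om h _) hz1 hy1).trans_lt hyz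
  have h2 := sub_lt hHz h1
  rwa [sub_sub_cancel] at h2

end Pool.Agent.PQ
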