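import Pool.Agent.PQ.LocC
import Pool.Agent.PQ.LemR

set_option autoImplicit false

/-!
# The defect at a prime of the second kind
-/

namespace Pool.Agent.PQ

open Polynomial NumberField IsDedekindDomain Pool.Agent.GPoly Pool.Agent.QPol

/-- the defect at a prime of the second kind -/
theorem loc_B (d N : ℕ) (hd : 2 ≤ d) (hN : 1 ≤ N) : ∃ δ C : ℝ, 0 < δ ∧ 0 ≤ C ∧
    ∀ (K : Type) [Field K] [NumberField K] (F : (𝓞 K)[X]) (b : 𝓞 K), b ≠ 0 →
    F.natDegree = d → ∀ v : HeightOneSpectrum (𝓞 K), DefB N F b v →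
    ∀ (Om : Type) [NormedField Om] [IsAlgClosed Om] [IsUltrametricDist Om] [Algebra K Om],
    (∀ x : K, ‖algebraMap K Om x‖ = av v x) →
    ∀ (T : ℕ) (x : Fin T → Om), Function.Injective x → (∀ i, PreE Om F b (x i)) →
    (∀ i, DegLe K N (x i)) →
    ∑ i, ∑ j, Real.log ‖x i - x j‖ ≤
      (T : ℝ) ^ 2 * ((wt v F.leadingCoeff - wt v b) / (d - 1)) -
        (δ * (T : ℝ) ^ 2 - C * T) * (wt v F.leadingCoeff + wt v b) := by
  have _ := hN
  have hdr : (2 : ℝ) ≤ d := by exact_mod_cast hd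
  refine ⟨1 / (8 * d ^ 2), 5, by positivity, by norm_num, ?_⟩
  intro K _ _ F b hb hF v hdef Om _ _ _ _ h T x hinj hpre hdeg
  obtain ⟨ha, hbv, g, hirr, hgN, hgF⟩ := hdef
  obtain ⟨H, hH⟩ := Polynomial.map_surjective (Ideal.Quotient.mk v.asIdeal)
    Ideal.Quotient.mk_surjective g
  obtain ⟨y, hy1, hyF, hyH⟩ := exists_root v Om h F ha H (by rwa [hH]) (by rwa [hH])
  set F' := F.map (toOm K Om) with hF'
  set b' := toOm K Om b with hb'
  have hinj' := toOm_inj (K := K) Om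
  have hF'd : F'.natDegree = d := by rw [hF', natDegree_map_eq_of_injective hinj', hF]
  have hlead : nabs Om F'.leadingCoeff = 1 := by
    rw [hF', leadingCoeff_map_of_injective hinj', nabs_apply]
    exact (h _).trans ((av_int_eq_one v _).mpr ha)
  have hc : ∀ i, nabs Om (F'.coeff i) ≤ 1 := by
    intro i
    rw [hF', coeff_map]
    exact norm_toOm_le v Om h _
  have hb0 : b' ≠ 0 := (map_ne_zero_iff _ hinj').mpr hb
  have hb1 : nabs Om b' ≤ 1 := norm_toOm_le v Om h _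
  have hbl : -Real.log (nabs Om b') = wt v b := by
    rw [nabs_apply, hb', norm_toOm v Om h b hb, Real.log_exp, neg_neg]
  have hpre' : ∀ i, Pre (qf F' b') (x i) := by
    intro i
    have h1 := hpre i
    rw [PreE, fE_eval] at h1
    exact h1
  have hx : ∀ i n, nabs Om ((qf F' b')^[n] (x i)) ≤ 1 := fun i n =>
    pre_bound (nabs Om) (nabs_na Om) hd hF'd hlead hc hb0 hb1 (hpre' i) n
  have hxy : ∀ i, nabs Om (x i - y) = 1 := fun i =>
    res_deg v Om h N H (by rwa [hH]) (by rwa [hH]) y hy1 hyH (x i) (hdeg i) (hx i 0)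
  have hmain := loc_B_core (nabs_na Om) (gen_Om Om) hd hF'd hlead hc hb0 hb1 x hinj hx y hyF hxy
  rw [hbl] at hmain
  rw [energy_eq, wt_eq_zero v _ ha, zero_sub, zero_add]
  refine hmain.trans_eq ?_
  ring

end Pool.Agent.PQ
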