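import Pool.Agent.PQ.Glob

set_option autoImplicit false

/-!
# Theorem Q: the sum of the local bounds
-/

namespace Pool.Agent.PQ

open Polynomial NumberField IsDedekindDomain Pool.Agent.GPoly

variable {K : Type} [Field K] [NumberField K]

/-- The sum over the places of the local bounds. -/
theorem ineq_Q (F : (𝓞 K)[X]) (b : 𝓞 K) (hb : b ≠ 0) (d k s : ℕ) (hd : 2 ≤ d)
    (hF : F.natDegree = d) (I I₀ I' J : Ideal (𝓞 K))
    (hII : I * I₀ * I' = Ideal.span {F.leadingCoeff * b})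
    (hs : {v : HeightOneSpectrum (𝓞 K) | v.asIdeal ∣ I'}.ncard ≤ s)
    (hJ : J ∣ Ideal.span {F.leadingCoeff * b})
    (hnorm : Ideal.absNorm I ≤ Ideal.absNorm J ^ k)
    (L : Type) [Field L] [Algebra K L] [FiniteDimensional K L] {T : ℕ} (x : Fin T → L)
    (hx : Function.Injective x) (δ C₀ C₁ Lam : ℝ) (hC₀ : 0 ≤ C₀)
    (hT : (C₁ + 1) * T + 2 * sg d T * k ≤ δ * (T : ℝ) ^ 2)
    (h1 : ∀ v : HeightOneSpectrum (𝓞 K), v.asIdeal ∣ J →
      ∑ i, ∑ j, Real.log (av v (Algebra.norm K (x i - x j))) ≤ Module.finrank K L *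
        ((T : ℝ) ^ 2 * ((wt v F.leadingCoeff - wt v b) / (d - 1)) -
          (δ * (T : ℝ) ^ 2 - C₁ * T) * (wt v F.leadingCoeff + wt v b)))
    (h2 : ∀ v : HeightOneSpectrum (𝓞 K), v.asIdeal ∣ I' →
      ∑ i, ∑ j, Real.log (av v (Algebra.norm K (x i - x j))) ≤ Module.finrank K L *
        ((T * (T - 1) : ℝ) * ((wt v F.leadingCoeff - wt v b) / (d - 1)) + C₀ * (T : ℝ) ^ 2))
    (h3 : ∀ v : HeightOneSpectrum (𝓞 K), v.asIdeal ∣ I₀ →
      ∑ i, ∑ j, Real.log (av v (Algebra.norm K (x i - x j))) ≤ Module.finrank K L *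
        ((T * (T - 1) : ℝ) * ((wt v F.leadingCoeff - wt v b) / (d - 1))))
    (h4 : ∀ v : HeightOneSpectrum (𝓞 K),
      ∑ i, ∑ j, Real.log (av v (Algebra.norm K (x i - x j))) ≤ Module.finrank K L *
        ((T * (T - 1) : ℝ) * ((wt v F.leadingCoeff - wt v b) / (d - 1)) +
          2 * sg d T * (wt v F.leadingCoeff + wt v b)))
    (h5 : ∀ σ : K →+* ℂ,
      ∑ i, ∑ j, Real.log ‖σ (Algebra.norm K (x i - x j))‖ ≤ Module.finrank K L *
        ((T * (T - 1) : ℝ) * (-(Real.log ‖σ (algebraMap (𝓞 K) K F.leadingCoeff /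
          algebraMap (𝓞 K) K b)‖) / (d - 1)) - Lam * (T : ℝ) ^ 2)) :
    Module.finrank ℚ K * (Lam * (T : ℝ) ^ 2) ≤ s * (C₀ * (T : ℝ) ^ 2) := by
  classical
  have ha0 : F.leadingCoeff ≠ 0 := by
    intro h0
    rw [leadingCoeff_eq_zero] at h0
    rw [h0, natDegree_zero] at hF
    omega
  have hab : F.leadingCoeff * b ≠ 0 := mul_ne_zero ha0 hb
  have hspan : Ideal.span {F.leadingCoeff * b} ≠ 0 := by
    rw [Ne, Ideal.zero_eq_bot, Ideal.span_singleton_eq_bot]
    exact hab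
  have hI'0 : I' ≠ 0 := by
    rintro rfl
    rw [mul_zero] at hII
    exact hspan hII.symm
  have hI₀0 : I₀ ≠ 0 := by
    rintro rfl
    rw [mul_zero, zero_mul] at hII
    exact hspan hII.symm
  have hI0 : I ≠ 0 := by
    rintro rfl
    rw [zero_mul, zero_mul] at hII
    exact hspan hII.symm
  have hQd : I₀ * I' ∣ Ideal.span {F.leadingCoeff * b} :=
    ⟨I, by rw [← hII, mul_assoc, mul_comm]⟩
  have hfin := Ideal.finite_factors hI'0
  have hfinP := Ideal.finite_factors hspan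
  obtain ⟨P₀, hP₀⟩ : ∃ P₀ : Finset (HeightOneSpectrum (𝓞 K)),
      ∀ v : HeightOneSpectrum (𝓞 K), F.leadingCoeff * b ∈ v.asIdeal → v ∈ P₀ := by
    refine ⟨hfinP.toFinset, fun v hv => ?_⟩
    rw [Set.Finite.mem_toFinset]
    exact Ideal.dvd_span_singleton.2 hv
  set w : HeightOneSpectrum (𝓞 K) → ℝ := fun v => wt v F.leadingCoeff + wt v b with hw
  have hww : ∀ v, w v = wt v (F.leadingCoeff * b) := fun v => (wt_mul v _ _ ha0 hb).symm
  have hw0 : ∀ v, 0 ≤ w v := fun v => add_nonneg (wt_nonneg v _) (wt_nonneg v _)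
  set g : HeightOneSpectrum (𝓞 K) → ℝ := fun v => (wt v F.leadingCoeff - wt v b) / (d - 1)
    with hg
  have hd1 : (1 : ℝ) ≤ (d : ℝ) - 1 := by
    have : (2 : ℝ) ≤ d := by exact_mod_cast hd
    linarith
  have hgw : ∀ v, g v ≤ w v := by
    intro v
    have ha := wt_nonneg v F.leadingCoeff
    have hb' := wt_nonneg v b
    simp only [hg, hw]
    rw [div_le_iff₀ (by linarith)]
    nlinarith
  -- the local bounds
  set e : HeightOneSpectrum (𝓞 K) → ℝ := fun v =>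
    if v.asIdeal ∣ J then -((δ * (T : ℝ) ^ 2 - (C₁ + 1) * T) * w v)
    else if v.asIdeal ∣ I' then C₀ * (T : ℝ) ^ 2
    else if v.asIdeal ∣ I₀ then 0 else 2 * sg d T * w v with he
  set u : HeightOneSpectrum (𝓞 K) → ℝ := fun v => (T * (T - 1) : ℝ) * g v + e v with hu
  have hT0 : (0 : ℝ) ≤ T := Nat.cast_nonneg _
  have hn : (0 : ℝ) ≤ Module.finrank K L := Nat.cast_nonneg _
  have hfu : ∀ v, ∑ i, ∑ j, Real.log (av v (Algebra.norm K (x i - x j))) ≤
      Module.finrank K L * u v := by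
    intro v
    simp only [hu, he]
    split_ifs with c1 c2 c3
    · refine (h1 v c1).trans (mul_le_mul_of_nonneg_left ?_ hn)
      have h6 := mul_le_mul_of_nonneg_left (hgw v) hT0
      simp only [hg, hw] at h6 ⊢
      nlinarith
    · exact h2 v c2
    · simpa using h3 v c3
    · exact h4 v
  have hd1' : ((d : ℝ) - 1) ≠ 0 := by linarith
  have hout : ∀ v, v ∉ P₀ → wt v F.leadingCoeff = 0 ∧ wt v b = 0 := by
    intro v hv
    have h6 : F.leadingCoeff * b ∉ v.asIdeal := fun h => hv (hP₀ v h)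
    exact ⟨wt_eq_zero v _ fun h => h6 (Ideal.mul_mem_right _ _ h),
      wt_eq_zero v _ fun h => h6 (Ideal.mul_mem_left _ _ h)⟩
  have hJP : ∀ v, v.asIdeal ∣ Ideal.span {F.leadingCoeff * b} → v ∈ P₀ := fun v hv =>
    hP₀ v (Ideal.dvd_span_singleton.1 hv)
  have hu0 : ∀ v, v ∉ P₀ → u v ≤ 0 := by
    intro v hv
    obtain ⟨h6, h7⟩ := hout v hv
    have h8 : ¬ v.asIdeal ∣ I' := fun h => hv (hJP v (h.trans ((Dvd.intro_left _ rfl).trans hQd)))
    simp only [hu, he, hg, hw, h6, h7]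
    rw [if_neg h8]
    split_ifs <;> simp
  have hglob := glob L x hx P₀ u (fun σ => (T * (T - 1) : ℝ) * (-(Real.log
    ‖σ (algebraMap (𝓞 K) K F.leadingCoeff / algebraMap (𝓞 K) K b)‖) / (d - 1)) -
      Lam * (T : ℝ) ^ 2) hfu hu0 h5
  -- the product formula for `a / b`
  have haK : algebraMap (𝓞 K) K F.leadingCoeff ≠ 0 :=
    (map_ne_zero_iff _ (RingOfIntegers.coe_injective)).mpr ha0
  have hbK : algebraMap (𝓞 K) K b ≠ 0 :=
    (map_ne_zero_iff _ (RingOfIntegers.coe_injective)).mpr hb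
  have hgl : ∀ v, Real.log (av v (algebraMap (𝓞 K) K F.leadingCoeff / algebraMap (𝓞 K) K b)) =
      -((d - 1) * g v) := by
    intro v
    rw [map_div₀, Real.log_div ((av v).ne_zero haK) ((av v).ne_zero hbK)]
    simp only [hg, wt]
    field_simp
    ring
  have hpf := product_formula (algebraMap (𝓞 K) K F.leadingCoeff / algebraMap (𝓞 K) K b)
    (div_ne_zero haK hbK) P₀ (by
      intro v hv
      by_contra hc
      obtain ⟨h6, h7⟩ := hout v hc
      apply hv
      have h8 := hgl v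
      simp only [hg, h6, h7, sub_zero, zero_div, mul_zero, neg_zero] at h8
      exact Real.eq_one_of_pos_of_log_eq_zero ((av v).pos (div_ne_zero haK hbK)) h8)
  rw [Finset.sum_congr rfl fun v _ => hgl v, Finset.sum_neg_distrib, ← Finset.mul_sum] at hpf
  rw [Finset.sum_add_distrib, ← Finset.mul_sum, Finset.sum_sub_distrib, ← Finset.mul_sum,
    Finset.sum_const, Finset.card_univ, NumberField.Embeddings.card, nsmul_eq_mul] at hglob
  have hsig : ∑ σ : K →+* ℂ, -(Real.log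
      ‖σ (algebraMap (𝓞 K) K F.leadingCoeff / algebraMap (𝓞 K) K b)‖) / (d - 1) =
      -(∑ v ∈ P₀, g v) := by
    rw [← Finset.sum_div, Finset.sum_neg_distrib, div_eq_iff hd1']
    linarith
  rw [hsig] at hglob
  -- the error terms
  have hNI : (0 : ℝ) < Ideal.absNorm I := by
    have : 0 < Ideal.absNorm I := Nat.pos_of_ne_zero (by rwa [Ne, Ideal.absNorm_eq_zero_iff])
    exact_mod_cast this
  have hQ0 : I₀ * I' ≠ 0 := mul_ne_zero hI₀0 hI'0
  have hNQ : (0 : ℝ) < Ideal.absNorm (I₀ * I') := by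
    have : 0 < Ideal.absNorm (I₀ * I') :=
      Nat.pos_of_ne_zero (by rwa [Ne, Ideal.absNorm_eq_zero_iff])
    exact_mod_cast this
  have k1 : Real.log (Ideal.absNorm J) ≤ ∑ v ∈ P₀ with v.asIdeal ∣ J, w v := by
    have := log_absNorm_le _ hab J hJ P₀ hP₀
    simpa only [hww, wt] using this
  have k2 : Real.log (Ideal.absNorm (I₀ * I')) ≤ ∑ v ∈ P₀ with v.asIdeal ∣ I₀ * I', w v := by
    have := log_absNorm_le _ hab (I₀ * I') hQd P₀ hP₀
    simpa only [hww, wt] using this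
  have k3 : ∑ v ∈ P₀, w v =
      Real.log (Ideal.absNorm I) + Real.log (Ideal.absNorm (I₀ * I')) := by
    rw [← Real.log_mul hNI.ne' hNQ.ne', ← Nat.cast_mul, ← map_mul, ← mul_assoc, hII]
    have := sum_log_av_int _ hab P₀ hP₀
    simpa only [hww, wt] using this
  have k4 : ∑ v ∈ P₀ with ¬ v.asIdeal ∣ I₀ * I', w v ≤ Real.log (Ideal.absNorm I) := by
    have := Finset.sum_filter_add_sum_filter_not P₀ (fun v => v.asIdeal ∣ I₀ * I') w
    linarith
  have k5 : Real.log (Ideal.absNorm I) ≤ k * Real.log (Ideal.absNorm J) := by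
    have h7 : (Ideal.absNorm I : ℝ) ≤ (Ideal.absNorm J : ℝ) ^ k := by exact_mod_cast hnorm
    calc Real.log (Ideal.absNorm I) ≤ Real.log ((Ideal.absNorm J : ℝ) ^ k) :=
          Real.log_le_log hNI h7
      _ = k * Real.log (Ideal.absNorm J) := Real.log_pow _ _
  have k6 : ∑ v ∈ P₀, e v ≤ -((δ * (T : ℝ) ^ 2 - (C₁ + 1) * T) *
      ∑ v ∈ P₀ with v.asIdeal ∣ J, w v) + s * (C₀ * (T : ℝ) ^ 2) +
      2 * sg d T * ∑ v ∈ P₀ with ¬ v.asIdeal ∣ I₀ * I', w v := by
    have h6 : ∀ v ∈ P₀, e v ≤ (if v.asIdeal ∣ J then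
        -((δ * (T : ℝ) ^ 2 - (C₁ + 1) * T) * w v) else 0) +
        (if v.asIdeal ∣ I' then C₀ * (T : ℝ) ^ 2 else 0) +
        (if ¬ v.asIdeal ∣ I₀ * I' then 2 * sg d T * w v else 0) := by
      intro v _
      have e1 : 0 ≤ C₀ * (T : ℝ) ^ 2 := by positivity
      have e2 : 0 ≤ 2 * sg d T * w v := mul_nonneg (by positivity) (hw0 v)
      have e3 : (v.asIdeal ∣ I₀ * I') → v.asIdeal ∣ I₀ ∨ v.asIdeal ∣ I' := fun h =>
        v.prime.dvd_or_dvd h
      simp only [he]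
      split_ifs with c1 c2 c3 c4 c5 c6 c7 c8 <;> first | linarith | skip
      all_goals
        exfalso
        tauto
    refine (Finset.sum_le_sum h6).trans ?_
    rw [Finset.sum_add_distrib, Finset.sum_add_distrib, ← Finset.sum_filter,
      ← Finset.sum_filter, ← Finset.sum_filter, Finset.sum_neg_distrib, ← Finset.mul_sum,
      Finset.sum_const, nsmul_eq_mul, ← Finset.mul_sum]
    have h7 : ((P₀.filter fun v => v.asIdeal ∣ I').card : ℝ) ≤ s := by
      have h8 : (P₀.filter fun v => v.asIdeal ∣ I').card ≤ s := by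
        refine le_trans ?_ hs
        rw [Set.ncard_eq_toFinset_card _ hfin]
        refine Finset.card_le_card fun v hv => ?_
        rw [Set.Finite.mem_toFinset]
        exact (Finset.mem_filter.1 hv).2
      exact_mod_cast h8
    have h8 := mul_le_mul_of_nonneg_right h7 (show 0 ≤ C₀ * (T : ℝ) ^ 2 by positivity)
    linarith
  have hsg : (0 : ℝ) ≤ 2 * sg d T := by positivity
  have hk0 : (0 : ℝ) ≤ k := Nat.cast_nonneg _
  have hlJ : 0 ≤ ∑ v ∈ P₀ with v.asIdeal ∣ J, w v := Finset.sum_nonneg fun v _ => hw0 v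
  have k7 : 2 * sg d T * ∑ v ∈ P₀ with ¬ v.asIdeal ∣ I₀ * I', w v ≤
      2 * sg d T * k * ∑ v ∈ P₀ with v.asIdeal ∣ J, w v := by
    have := mul_le_mul_of_nonneg_left k1 hk0
    rw [mul_assoc (2 * (sg d T : ℝ))]
    exact mul_le_mul_of_nonneg_left (by linarith) hsg
  have k8 : ((C₁ + 1) * T + 2 * sg d T * k) * ∑ v ∈ P₀ with v.asIdeal ∣ J, w v ≤
      δ * (T : ℝ) ^ 2 * ∑ v ∈ P₀ with v.asIdeal ∣ J, w v :=
    mul_le_mul_of_nonneg_right hT hlJ
  nlinarith

end Pool.Agent.PQ
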