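import Pool.Agent.PQ.MainA
import Pool.Agent.PQ.MainB
import Pool.Agent.PQ.LemE
import Pool.Agent.PQ.Gen
import Pool.Agent.PQ.LocA
import Pool.Agent.PQ.LocB

set_option autoImplicit false

/-!
# Theorem Q: the proof
-/

namespace Pool.Agent.PQ

open Polynomial NumberField IsDedekindDomain Pool.Agent.GPoly

/-- The choice of the number of points. -/
theorem exists_T (d k : ℕ) (hd : 2 ≤ d) (δ C₁ : ℝ) (hδ : 0 < δ) (T₁ : ℕ) : ∃ T : ℕ, T₁ ≤ T ∧
    1 ≤ T ∧ (C₁ + 1) * T + 2 * sg d T * k ≤ δ * (T : ℝ) ^ 2 := by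
  have hd1 : (1 : ℝ) < d := by exact_mod_cast (by omega : 1 < d)
  obtain ⟨j, hj⟩ := pow_unbounded_of_one_lt (4 * k / δ) hd1
  obtain ⟨T, hT⟩ := exists_nat_ge ((C₁ + 1 + 2 * k * (j * (d - 1))) * 2 / δ)
  refine ⟨max T (max T₁ 1), (le_max_left _ _).trans (le_max_right _ _),
    (le_max_right _ _).trans (le_max_right _ _), ?_⟩
  set S := max T (max T₁ 1) with hS
  have hTS : (T : ℝ) ≤ S := by exact_mod_cast le_max_left _ _
  have hdj : (0 : ℝ) < (d : ℝ) ^ j := by positivity
  have h1 : (4 * k : ℝ) ≤ δ * (d : ℝ) ^ j := by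
    rw [div_lt_iff₀ hδ] at hj
    linarith
  have h2 : (C₁ + 1 + 2 * k * (j * (d - 1))) * 2 ≤ δ * S := by
    rw [div_le_iff₀ hδ] at hT
    nlinarith
  have h3 := sg_le d hd j S
  have hk : (0 : ℝ) ≤ k := Nat.cast_nonneg _
  have h4 : 2 * (sg d S : ℝ) * k ≤ 2 * k * (S * (j * (d - 1)) + (S : ℝ) ^ 2 / (d : ℝ) ^ j) := by
    nlinarith
  have h5 : 2 * (k : ℝ) * ((S : ℝ) ^ 2 / (d : ℝ) ^ j) ≤ δ / 2 * (S : ℝ) ^ 2 := by
    rw [← mul_div_assoc, div_le_iff₀ hdj]
    nlinarith [sq_nonneg (S : ℝ)]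
  have hS0 : (0 : ℝ) ≤ S := Nat.cast_nonneg _
  nlinarith

theorem main_Q (D N d k s : ℕ) (hN : 1 ≤ N) (hd : 2 ≤ d) : ∃ C : ℕ,
    ∀ (K : Type) [Field K] [NumberField K], Module.finrank ℚ K ≤ D →
    ∀ (F : (𝓞 K)[X]) (b : 𝓞 K), F.natDegree = d → b ≠ 0 →
    ∀ I I₀ I' J : Ideal (𝓞 K), I * I₀ * I' = Ideal.span {F.leadingCoeff * b} →
    (∀ v : HeightOneSpectrum (𝓞 K), v.asIdeal ∣ I₀ → Harmless F b v) →
    {v : HeightOneSpectrum (𝓞 K) | v.asIdeal ∣ I'}.ncard ≤ s →
    J ∣ Ideal.span {F.leadingCoeff * b} →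
    (∀ v : HeightOneSpectrum (𝓞 K), v.asIdeal ∣ J → DefA k F b v ∨ DefB N F b v) →
    Ideal.absNorm I ≤ Ideal.absNorm J ^ k →
    {x : AlgebraicClosure K | (minpoly K x).natDegree ≤ N ∧
      PreE (AlgebraicClosure K) F b x}.encard ≤ C := by
  obtain ⟨M₁, T₁, C₀, hC₀, hE⟩ := lemma_E d N hd hN
  obtain ⟨M₂, T₂, hEC⟩ := lemma_EC d N hd hN (s * C₀ + 1)
  obtain ⟨δA, CA, hδA, hCA, hA⟩ := loc_A d N k hd hN
  obtain ⟨δB, CB, hδB, hCB, hB⟩ := loc_B d N hd hN
  obtain ⟨T, hT, hT1, hTT⟩ := exists_T d k hd (min δA δB) (max CA CB) (lt_min hδA hδB) (max T₁ T₂)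
  refine ⟨T * ((2 ^ M₂) ^ D * (2 ^ M₁) ^ s), ?_⟩
  intro K _ _ hK F b hF hb I I₀ I' J hII hI₀ hs hJ hdef hnorm
  classical
  have ha0 : F.leadingCoeff ≠ 0 := by
    intro h0
    rw [leadingCoeff_eq_zero] at h0
    rw [h0, natDegree_zero] at hF
    omega
  have hab : F.leadingCoeff * b ≠ 0 := mul_ne_zero ha0 hb
  have hspan : Ideal.span {F.leadingCoeff * b} ≠ 0 := by
    rw [Ne, Ideal.zero_eq_bot, Ideal.span_singleton_eq_bot]
    exact hab
  have hI'0 : I' ≠ 0 := by
    rintro rfl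
    rw [mul_zero] at hII
    exact hspan hII.symm
  have hfin := Ideal.finite_factors hI'0
  -- the fields `Om v`
  choose Om i1 i2 i3 i4 hOm using fun v : HeightOneSpectrum (𝓞 K) => exists_Om v
  have hfd : ∀ (E : Type) [Field E] [Algebra K E], (fE E F b).natDegree = d := fun E _ _ => by
    rw [fE_natDegree E F b hb, hF]
  have hγ : ∀ v, -(Real.log ‖(fE (Om v) F b).leadingCoeff‖) / ((d : ℝ) - 1) =
      (wt v F.leadingCoeff - wt v b) / (d - 1) := by
    intro v
    rw [fE_leadingCoeff (Om v) F b hb, hOm, map_div₀, Real.log_div (av_int_pos v _ ha0).ne'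
      (av_int_pos v _ hb).ne', wt, wt]
    congr 1
    ring
  -- the colours
  have hcf : ∀ v : HeightOneSpectrum (𝓞 K), ∃ A : AlgebraicClosure K → Finset (Fin M₁),
      ∀ (L : IntermediateField K (AlgebraicClosure K)) [FiniteDimensional K L] (T : ℕ), T₁ ≤ T →
      ∀ x : Fin T → L, Function.Injective x →
      (∀ i, (minpoly K (x i : AlgebraicClosure K)).natDegree ≤ N) →
      (∀ i, PreE (AlgebraicClosure K) F b (x i : AlgebraicClosure K)) →
      (∀ i j, A (x i : AlgebraicClosure K) = A (x j : AlgebraicClosure K)) →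
      ∑ i, ∑ j, Real.log ‖algebraMap K (Om v) (Algebra.norm K (x i - x j))‖ ≤
        Module.finrank K L * ((T * (T - 1) : ℝ) *
          ((wt v F.leadingCoeff - wt v b) / (d - 1)) + C₀ * (T : ℝ) ^ 2) := by
    intro v
    obtain ⟨c, hc⟩ := hE (Om v) (exists_one_lt v (Om v) (hOm v)) (fE (Om v) F b) (hfd _)
    refine colour_sum (Om v) F b (N := N) (fun T => (T * (T - 1) : ℝ) *
      ((wt v F.leadingCoeff - wt v b) / (d - 1)) + C₀ * (T : ℝ) ^ 2) c ?_
    intro T hT x hx hbd hcol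
    have := hc T hT x hx hbd hcol
    rwa [hγ v] at this
  have hci : ∀ σ : K →+* ℂ, ∃ A : AlgebraicClosure K → Finset (Fin M₂),
      ∀ (L : IntermediateField K (AlgebraicClosure K)) [FiniteDimensional K L] (T : ℕ), T₂ ≤ T →
      ∀ x : Fin T → L, Function.Injective x →
      (∀ i, (minpoly K (x i : AlgebraicClosure K)).natDegree ≤ N) →
      (∀ i, PreE (AlgebraicClosure K) F b (x i : AlgebraicClosure K)) →
      (∀ i j, A (x i : AlgebraicClosure K) = A (x j : AlgebraicClosure K)) →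
      ∑ i, ∑ j, Real.log ‖σ (Algebra.norm K (x i - x j))‖ ≤
        Module.finrank K L * ((T * (T - 1) : ℝ) * (-(Real.log ‖σ (algebraMap (𝓞 K) K
          F.leadingCoeff / algebraMap (𝓞 K) K b)‖) / (d - 1)) - (s * C₀ + 1) * (T : ℝ) ^ 2) := by
    intro σ
    letI : Algebra K ℂ := σ.toAlgebra
    obtain ⟨c, hc⟩ := hEC (fE ℂ F b) (hfd _)
    refine colour_sum ℂ F b (N := N) (fun T => (T * (T - 1) : ℝ) * (-(Real.log
      ‖σ (algebraMap (𝓞 K) K F.leadingCoeff / algebraMap (𝓞 K) K b)‖) / (d - 1)) -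
        (s * C₀ + 1) * (T : ℝ) ^ 2) c ?_
    intro T hT x hx hbd hcol
    have h1 := hc T hT x hx hbd hcol
    have h2 := fE_leadingCoeff ℂ F b hb
    rw [h2] at h1
    exact h1
  choose A hA' using hcf
  choose B hB' using hci
  set E : Finset (HeightOneSpectrum (𝓞 K)) := hfin.toFinset with hEdef
  have hEs : E.card ≤ s := by
    rw [hEdef, ← Set.ncard_eq_toFinset_card _ hfin]
    exact hs
  by_contra hcon
  rw [not_le] at hcon
  obtain ⟨S, hS1, hS2⟩ : ∃ S : Finset (AlgebraicClosure K),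
      (∀ x ∈ S, (minpoly K x).natDegree ≤ N ∧ PreE (AlgebraicClosure K) F b x) ∧
      T * ((2 ^ M₂) ^ D * (2 ^ M₁) ^ s) < S.card := by
    have h1 : ((T * ((2 ^ M₂) ^ D * (2 ^ M₁) ^ s) + 1 : ℕ) : ℕ∞) ≤
        {x : AlgebraicClosure K | (minpoly K x).natDegree ≤ N ∧
          PreE (AlgebraicClosure K) F b x}.encard := by
      rw [Nat.cast_add, Nat.cast_one]
      exact Order.add_one_le_of_lt hcon
    obtain ⟨t, ht1, ht2⟩ := Set.exists_subset_encard_eq h1
    have ht3 : t.Finite := Set.finite_of_encard_eq_coe ht2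
    refine ⟨ht3.toFinset, fun x hx => ht1 ((Set.Finite.mem_toFinset ht3).1 hx), ?_⟩
    rw [ht3.encard_eq_coe_toFinset_card] at ht2
    have : ht3.toFinset.card = T * ((2 ^ M₂) ^ D * (2 ^ M₁) ^ s) + 1 := by exact_mod_cast ht2
    omega
  let col : AlgebraicClosure K → ((K →+* ℂ) → Finset (Fin M₂)) × (E → Finset (Fin M₁)) :=
    fun x => (fun σ => B σ x, fun v => A v x)
  have hcard : (Finset.univ : Finset (((K →+* ℂ) → Finset (Fin M₂)) ×
      (E → Finset (Fin M₁)))).card * T < S.card := by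
    refine lt_of_le_of_lt ?_ hS2
    rw [mul_comm]
    refine Nat.mul_le_mul_left _ ?_
    rw [Finset.card_univ, Fintype.card_prod, Fintype.card_fun, Fintype.card_fun,
      Fintype.card_finset, Fintype.card_finset, Fintype.card_fin, Fintype.card_fin,
      NumberField.Embeddings.card, Fintype.card_coe]
    exact Nat.mul_le_mul (Nat.pow_le_pow_right (by positivity) hK)
      (Nat.pow_le_pow_right (by positivity) hEs)
  obtain ⟨y, -, hy⟩ := Finset.exists_lt_card_fiber_of_mul_lt_card_of_maps_to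
    (f := col) (fun x _ => Finset.mem_univ _) hcard
  obtain ⟨R, hR1, hR2⟩ := Finset.exists_subset_card_eq hy.le
  let ee : Fin T ≃ R := (Finset.equivFinOfCardEq hR2).symm
  -- the field `L`
  set L : IntermediateField K (AlgebraicClosure K) := IntermediateField.adjoin K (R : Set _)
    with hL
  haveI : FiniteDimensional K L := by
    refine IntermediateField.finiteDimensional_adjoin fun x _ => ?_
    exact Algebra.IsIntegral.isIntegral x
  let x : Fin T → L := fun i => ⟨ee i, IntermediateField.subset_adjoin K _ (ee i).2⟩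
  have hxv : ∀ i, (x i : AlgebraicClosure K) = ee i := fun i => rfl
  have hx : Function.Injective x := fun i j h =>
    ee.injective (Subtype.ext (congrArg (fun z : L => (z : AlgebraicClosure K)) h))
  have hmem : ∀ i, (x i : AlgebraicClosure K) ∈ S ∧ col (x i) = y := fun i =>
    Finset.mem_filter.1 (hR1 (ee i).2)
  have hxN : ∀ i, (minpoly K (x i : AlgebraicClosure K)).natDegree ≤ N := fun i =>
    (hS1 _ (hmem i).1).1
  have hxP : ∀ i, PreE (AlgebraicClosure K) F b (x i : AlgebraicClosure K) := fun i =>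
    (hS1 _ (hmem i).1).2
  have hcolB : ∀ σ i j, B σ (x i : AlgebraicClosure K) = B σ (x j : AlgebraicClosure K) := by
    intro σ i j
    have h1 := (hmem i).2.trans (hmem j).2.symm
    exact congrFun (congrArg Prod.fst h1) σ
  have hcolA : ∀ v, v.asIdeal ∣ I' → ∀ i j,
      A v (x i : AlgebraicClosure K) = A v (x j : AlgebraicClosure K) := by
    intro v hv i j
    have h1 := (hmem i).2.trans (hmem j).2.symm
    have hvE : v ∈ E := by
      rw [hEdef, Set.Finite.mem_toFinset]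
      exact hv
    exact congrFun (congrArg Prod.snd h1) ⟨v, hvE⟩
  have hxL : ∀ i, PreE L F b (x i) := fun i => PreE.of_map L.val (hxP i)
  have hxD : ∀ i, DegLe K N (x i) := by
    intro i
    refine ⟨minpoly K (x i : AlgebraicClosure K),
      minpoly.ne_zero (Algebra.IsIntegral.isIntegral _), hxN i, ?_⟩
    have h3 := minpoly.aeval K (x i : AlgebraicClosure K)
    have h4 : aeval (L.val (x i)) (minpoly K (x i : AlgebraicClosure K)) = 0 := h3
    rw [aeval_algHom_apply] at h4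
    exact L.val.toRingHom.injective (by simpa using h4)
  have hinj : ∀ (E : Type) [Field E] [Algebra K E] (φ : L →ₐ[K] E),
      Function.Injective fun i => φ (x i) := fun E _ _ φ i j h =>
    hx (φ.toRingHom.injective h)
  have hT0 : (0 : ℝ) ≤ T := Nat.cast_nonneg _
  have key := ineq_Q F b hb d k s hd hF I I₀ I' J hII hs hJ hnorm L x hx (min δA δB) C₀
    (max CA CB) (s * C₀ + 1) hC₀ hTT ?_ ?_ ?_ ?_ ?_
  · have h1 : (1 : ℝ) ≤ Module.finrank ℚ K := by
      exact_mod_cast (Module.finrank_pos : 0 < Module.finrank ℚ K)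
    have h2 : (1 : ℝ) ≤ T := by exact_mod_cast hT1
    have h3 : 0 ≤ s * C₀ := by positivity
    have h4 : (s * C₀ + 1) * (T : ℝ) ^ 2 ≤
        Module.finrank ℚ K * ((s * C₀ + 1) * (T : ℝ) ^ 2) :=
      le_mul_of_one_le_left (by positivity) h1
    have h5 : 0 < (T : ℝ) ^ 2 := by positivity
    nlinarith
  · intro v hv
    have h1 : ∀ φ : L →ₐ[K] Om v, ∑ i, ∑ j, Real.log ‖φ (x i) - φ (x j)‖ ≤
        (T : ℝ) ^ 2 * ((wt v F.leadingCoeff - wt v b) / (d - 1)) -
          (min δA δB * (T : ℝ) ^ 2 - max CA CB * T) * (wt v F.leadingCoeff + wt v b) := by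
      intro φ
      have hw : 0 ≤ wt v F.leadingCoeff + wt v b := add_nonneg (wt_nonneg v _) (wt_nonneg v _)
      have hsq := sq_nonneg (T : ℝ)
      rcases hdef v hv with h | h
      · refine (hA K F b hb hF v h (Om v) (hOm v) T (fun i => φ (x i)) (hinj _ φ)
          (fun i => (hxL i).map φ) (fun i => (hxD i).map φ)).trans ?_
        refine sub_le_sub_left (mul_le_mul_of_nonneg_right (sub_le_sub
          (mul_le_mul_of_nonneg_right (min_le_left _ _) hsq)
          (mul_le_mul_of_nonneg_right (le_max_left _ _) hT0)) hw) _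
      · refine (hB K F b hb hF v h (Om v) (hOm v) T (fun i => φ (x i)) (hinj _ φ)
          (fun i => (hxL i).map φ) (fun i => (hxD i).map φ)).trans ?_
        refine sub_le_sub_left (mul_le_mul_of_nonneg_right (sub_le_sub
          (mul_le_mul_of_nonneg_right (min_le_right _ _) hsq)
          (mul_le_mul_of_nonneg_right (le_max_right _ _) hT0)) hw) _
    have h2 := local_sum (Om v) L x hx _ h1
    simpa only [hOm v] using h2
  · intro v hv
    have h2 := hA' v L T ((le_max_left _ _).trans hT) x hx hxN hxP (hcolA v hv)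
    simpa only [hOm v] using h2
  · intro v hv
    have h1 : ∀ φ : L →ₐ[K] Om v, ∑ i, ∑ j, Real.log ‖φ (x i) - φ (x j)‖ ≤
        (T * (T - 1) : ℝ) * ((wt v F.leadingCoeff - wt v b) / (d - 1)) := fun φ =>
      harmless_Om d hd F b hb hF v (hI₀ v hv) (Om v) (hOm v) (fun i => φ (x i)) (hinj _ φ)
        (fun i => (hxL i).map φ)
    have h2 := local_sum (Om v) L x hx _ h1
    simpa only [hOm v] using h2
  · intro v
    have h1 : ∀ φ : L →ₐ[K] Om v, ∑ i, ∑ j, Real.log ‖φ (x i) - φ (x j)‖ ≤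
        (T * (T - 1) : ℝ) * ((wt v F.leadingCoeff - wt v b) / (d - 1)) +
          2 * sg d T * (wt v F.leadingCoeff + wt v b) := fun φ =>
      generic_Om d hd F b hb hF v (Om v) (hOm v) (fun i => φ (x i)) (hinj _ φ)
        (fun i => (hxL i).map φ)
    have h2 := local_sum (Om v) L x hx _ h1
    simpa only [hOm v] using h2
  · intro σ
    exact hB' σ L T ((le_max_right _ _).trans hT) x hx hxN hxP (hcolB σ)

end Pool.Agent.PQ
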