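import Pool.Agent.PQ.DensA
import Pool.Agent.PQ.DensC
import Pool.Agent.PQ.Main

set_option autoImplicit false

/-!
# Density one
-/

namespace Pool.Agent.PQ

open Polynomial NumberField IsDedekindDomain Pool.Agent.GPoly

namespace DensB

/-- The polynomial over the integers of `ℚ` with the coefficients `c`. -/
noncomputable def poly (d : ℕ) (c : Fin (d + 1) → ℤ) : (𝓞 ℚ)[X] :=
  ∑ i : Fin (d + 1), C ((c i : ℤ) : 𝓞 ℚ) * X ^ (i : ℕ)

theorem poly_coeff (d : ℕ) (c : Fin (d + 1) → ℤ) (j : Fin (d + 1)) :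
    (poly d c).coeff j = ((c j : ℤ) : 𝓞 ℚ) := by
  rw [poly, finsetSum_coeff, Finset.sum_eq_single j]
  · rw [coeff_C_mul, coeff_X_pow, if_pos rfl, mul_one]
  · intro i _ hij
    rw [coeff_C_mul, coeff_X_pow, if_neg (fun h => hij (Fin.ext h.symm)), mul_zero]
  · intro h
    exact absurd (Finset.mem_univ j) h

theorem poly_natDegree (d : ℕ) (c : Fin (d + 1) → ℤ) (hc : c (Fin.last d) ≠ 0) :
    (poly d c).natDegree = d := by
  refine natDegree_eq_of_le_of_coeff_ne_zero ?_ ?_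
  · refine natDegree_sum_le_of_forall_le _ _ fun i _ => ?_
    exact (natDegree_C_mul_X_pow_le _ _).trans (by omega)
  · have h := poly_coeff d c (Fin.last d)
    rw [Fin.val_last] at h
    rw [h]
    exact_mod_cast hc

theorem poly_leadingCoeff (d : ℕ) (c : Fin (d + 1) → ℤ) (hc : c (Fin.last d) ≠ 0) :
    (poly d c).leadingCoeff = ((c (Fin.last d) : ℤ) : 𝓞 ℚ) := by
  rw [leadingCoeff, poly_natDegree d c hc]
  have h := poly_coeff d c (Fin.last d)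
  rwa [Fin.val_last] at h

theorem eval_fE (d : ℕ) (c : Fin (d + 1) → ℤ) (b : ℤ) (z : AlgebraicClosure ℚ) :
    (fE (AlgebraicClosure ℚ) (poly d c) (b : 𝓞 ℚ)).eval z =
      (∑ i, (c i : AlgebraicClosure ℚ) * z ^ (i : ℕ)) / (b : AlgebraicClosure ℚ) := by
  rw [fE, fp, poly, div_eq_inv_mul]
  simp [Polynomial.eval_finsetSum, Polynomial.map_sum]

theorem not_dvd_one {K : Type} [Field K] [NumberField K] (v : HeightOneSpectrum (𝓞 K)) :
    ¬ v.asIdeal ∣ 1 := fun h => v.isPrime.ne_top (by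
      rw [← Ideal.isUnit_iff]
      exact isUnit_of_dvd_one h)

end DensB

/-- Good pairs satisfy the hypotheses of Theorem Q over `ℚ`, with `k = 4`. -/
theorem good_bound (N d : ℕ) (hN : 1 ≤ N) (hd : 3 ≤ d) : ∃ C : ℕ, ∀ (H : ℕ)
    (c : Fin (d + 1) → ℤ) (b : ℤ), (∀ i, |c i| ≤ H) → |b| ≤ H → c (Fin.last d) ≠ 0 → b ≠ 0 →
    Good d H c b →
    {x : AlgebraicClosure ℚ | (minpoly ℚ x).natDegree ≤ N ∧
      Pre (fun z => (∑ i, (c i : AlgebraicClosure ℚ) * z ^ (i : ℕ)) /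
        (b : AlgebraicClosure ℚ)) x}.encard ≤ C := by
  obtain ⟨C, hC⟩ := main_Q 1 N d 4 0 hN (by omega)
  refine ⟨C, fun H c b hcH hbH hc0 hb0 hgood => ?_⟩
  obtain ⟨J, hJ, ⟨m, hcm, hJm⟩, hJb, hJe, hHJ⟩ := hgood
  set F := DensB.poly d c with hF
  have hdeg : F.natDegree = d := DensB.poly_natDegree d c hc0
  have hlead : F.leadingCoeff = ((c (Fin.last d) : ℤ) : 𝓞 ℚ) := DensB.poly_leadingCoeff d c hc0
  have hlead' : F.leadingCoeff = (J : 𝓞 ℚ) * (m : 𝓞 ℚ) := by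
    rw [hlead, hcm]; push_cast; rfl
  have hcoef : F.coeff (F.natDegree - 1) = ((c (Fin.ofNat (d + 1) (d - 1)) : ℤ) : 𝓞 ℚ) := by
    have h := DensB.poly_coeff d c (Fin.ofNat (d + 1) (d - 1))
    rw [Fin.val_ofNat, Nat.mod_eq_of_lt (by omega)] at h
    rw [hdeg]; exact h
  have hres := hC ℚ (by rw [Module.finrank_self]) F (b : 𝓞 ℚ) hdeg (by exact_mod_cast hb0)
    (Ideal.span {F.leadingCoeff * (b : 𝓞 ℚ)}) 1 1 (Ideal.span {(J : 𝓞 ℚ)})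
    (by rw [mul_one, mul_one])
    (fun v hv => absurd hv (DensB.not_dvd_one v))
    (by
      have h0 : {v : HeightOneSpectrum (𝓞 ℚ) | v.asIdeal ∣ 1} = ∅ := by
        ext v
        simp only [Set.mem_ofPred_eq, Set.mem_empty_iff_false, iff_false]
        exact DensB.not_dvd_one v
      rw [h0, Set.ncard_empty])
    (by
      rw [hlead', mul_assoc, Ideal.dvd_span_singleton]
      exact Ideal.mul_mem_right _ _ (Ideal.mem_span_singleton_self _))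
    (fun v hv => Or.inl (defA_of_good 4 (by norm_num) F (by omega) b m _ J hJ hlead' hJm hJb
      hcoef hJe v hv))
    (by
      have h1 : F.leadingCoeff * (b : 𝓞 ℚ) = ((c (Fin.last d) * b : ℤ) : 𝓞 ℚ) := by
        rw [hlead]; push_cast; rfl
      rw [h1, absNorm_intCast, absNorm_natCast, Int.natAbs_mul]
      have h2 : (c (Fin.last d)).natAbs ≤ H := by
        have := hcH (Fin.last d)
        zify; exact this
      have h3 : b.natAbs ≤ H := by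
        zify; exact hbH
      calc (c (Fin.last d)).natAbs * b.natAbs ≤ H * H := Nat.mul_le_mul h2 h3
        _ = H ^ 2 := (pow_two H).symm
        _ ≤ J ^ 4 := hHJ)
  have hfun : (fun z => (fE (AlgebraicClosure ℚ) F (b : 𝓞 ℚ)).eval z) =
      fun z => (∑ i, (c i : AlgebraicClosure ℚ) * z ^ (i : ℕ)) / (b : AlgebraicClosure ℚ) :=
    funext fun z => DensB.eval_fE d c b z
  rw [← hfun]
  exact hres

/-- Density one. -/
theorem density (N d : ℕ) (hN : 1 ≤ N) (hd : 3 ≤ d) : ∃ C : ℕ, ∀ H : ℕ, 1 ≤ H →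
    ({p : (Fin (d + 1) → ℤ) × ℤ | (∀ i, |p.1 i| ≤ H) ∧ |p.2| ≤ H ∧ p.1 (Fin.last d) ≠ 0 ∧
      p.2 ≠ 0 ∧ ¬ {x : AlgebraicClosure ℚ | (minpoly ℚ x).natDegree ≤ N ∧
        Pre (fun z => (∑ i, (p.1 i : AlgebraicClosure ℚ) * z ^ (i : ℕ)) /
          (p.2 : AlgebraicClosure ℚ)) x}.encard ≤ C}.ncard : ℝ) ≤
      C * (H : ℝ) ^ ((d : ℝ) + 2 - 1 / 20) := by
  obtain ⟨C₁, h₁⟩ := good_bound N d hN hd
  obtain ⟨C₂, h₂⟩ := count_bad d (by omega)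
  refine ⟨max C₁ C₂, fun H hH => ?_⟩
  have hfin : {p : (Fin (d + 1) → ℤ) × ℤ | (∀ i, |p.1 i| ≤ H) ∧ |p.2| ≤ H ∧
      p.1 (Fin.last d) ≠ 0 ∧ p.2 ≠ 0 ∧ ¬ Good d H p.1 p.2}.Finite := by
    refine Set.Finite.subset (Set.Finite.prod
      (Set.Finite.pi' (fun _ : Fin (d + 1) => Set.finite_Icc (-(H : ℤ)) H))
      (Set.finite_Icc (-(H : ℤ)) H)) ?_
    rintro ⟨c, b⟩ ⟨h1, h2, -⟩
    exact ⟨fun i => abs_le.1 (h1 i), abs_le.1 h2⟩
  have hsub : {p : (Fin (d + 1) → ℤ) × ℤ | (∀ i, |p.1 i| ≤ H) ∧ |p.2| ≤ H ∧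
      p.1 (Fin.last d) ≠ 0 ∧ p.2 ≠ 0 ∧ ¬ {x : AlgebraicClosure ℚ | (minpoly ℚ x).natDegree ≤ N ∧
        Pre (fun z => (∑ i, (p.1 i : AlgebraicClosure ℚ) * z ^ (i : ℕ)) /
          (p.2 : AlgebraicClosure ℚ)) x}.encard ≤ (max C₁ C₂ : ℕ)} ⊆
      {p : (Fin (d + 1) → ℤ) × ℤ | (∀ i, |p.1 i| ≤ H) ∧ |p.2| ≤ H ∧
      p.1 (Fin.last d) ≠ 0 ∧ p.2 ≠ 0 ∧ ¬ Good d H p.1 p.2} := by
    rintro ⟨c, b⟩ ⟨h1, h2, h3, h4, h5⟩
    refine ⟨h1, h2, h3, h4, fun hg => h5 ?_⟩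
    refine (h₁ H c b h1 h2 h3 h4 hg).trans ?_
    exact_mod_cast le_max_left C₁ C₂
  have hle := Set.ncard_le_ncard hsub hfin
  calc _ ≤ (({p : (Fin (d + 1) → ℤ) × ℤ | (∀ i, |p.1 i| ≤ H) ∧ |p.2| ≤ H ∧
        p.1 (Fin.last d) ≠ 0 ∧ p.2 ≠ 0 ∧ ¬ Good d H p.1 p.2}.ncard : ℕ) : ℝ) := by
        exact_mod_cast hle
    _ ≤ C₂ * (H : ℝ) ^ ((d : ℝ) + 2 - 1 / 20) := h₂ H hH
    _ ≤ _ := by
        apply mul_le_mul_of_nonneg_right _ (by positivity)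
        exact_mod_cast le_max_right C₁ C₂

end Pool.Agent.PQ
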