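import Pool.Agent.PQ.Defs

set_option autoImplicit false

/-!
# Theorem Q for a leading coefficient without high powers outside few primes
-/

namespace Pool.Agent.PQ

open Polynomial NumberField IsDedekindDomain Pool.Agent.GPoly

/-- The statement of Theorem Q for given parameters. -/
def StatQ (D N d k s : ℕ) : Prop := ∃ C : ℕ,
    ∀ (K : Type) [Field K] [NumberField K], Module.finrank ℚ K ≤ D →
    ∀ (F : (𝓞 K)[X]) (b : 𝓞 K), F.natDegree = d → b ≠ 0 →
    ∀ I I₀ I' J : Ideal (𝓞 K), I * I₀ * I' = Ideal.span {F.leadingCoeff * b} →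
    (∀ v : HeightOneSpectrum (𝓞 K), v.asIdeal ∣ I₀ → Harmless F b v) →
    {v : HeightOneSpectrum (𝓞 K) | v.asIdeal ∣ I'}.ncard ≤ s →
    J ∣ Ideal.span {F.leadingCoeff * b} →
    (∀ v : HeightOneSpectrum (𝓞 K), v.asIdeal ∣ J → DefA k F b v ∨ DefB N F b v) →
    Ideal.absNorm I ≤ Ideal.absNorm J ^ k →
    {x : AlgebraicClosure K | (minpoly K x).natDegree ≤ N ∧
      PreE (AlgebraicClosure K) F b x}.encard ≤ C

namespace Sqf

open UniqueFactorizationMonoid

/-- Splitting a nonzero ideal into three parts according to a partition of the primes. -/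
theorem split_three {R : Type*} [CommRing R] [IsDedekindDomain R] (M : Ideal R) (hM : M ≠ ⊥)
    (p q : HeightOneSpectrum R → Prop) : ∃ A B E : Ideal R, A * B * E = M ∧
      (∀ v : HeightOneSpectrum R, v.asIdeal ∣ E → v.asIdeal ∣ M ∧ p v) ∧
      (∀ v : HeightOneSpectrum R, v.asIdeal ∣ B → v.asIdeal ∣ M ∧ ¬ p v ∧ q v) ∧
      (∀ v : HeightOneSpectrum R, v.asIdeal ∣ A → v.asIdeal ∣ M ∧ ¬ p v ∧ ¬ q v) := by
  classical
  set nf := normalizedFactors M with hnf
  have key : ∀ (s : Multiset (Ideal R)), s ≤ nf → ∀ v : HeightOneSpectrum R,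
      v.asIdeal ∣ s.prod → v.asIdeal ∈ s := by
    intro s hs v hv
    obtain ⟨P, hP, hvP⟩ := Prime.exists_mem_multiset_dvd v.prime hv
    have hPn : P ∈ nf := Multiset.mem_of_le hs hP
    have hPi : Irreducible P := irreducible_of_normalized_factor P hPn
    have : v.asIdeal = P := by
      have h1 : Associated v.asIdeal P := v.irreducible.associated_of_dvd hPi hvP
      exact associated_iff_eq.1 h1
    rw [this]; exact hP
  set P : Ideal R → Prop := fun I => ∃ v : HeightOneSpectrum R, v.asIdeal = I ∧ p v with hPdef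
  set Q : Ideal R → Prop := fun I => ∃ v : HeightOneSpectrum R, v.asIdeal = I ∧ q v with hQdef
  have hPv : ∀ v : HeightOneSpectrum R, P v.asIdeal ↔ p v := by
    intro v
    constructor
    · rintro ⟨w, hw, hpw⟩
      have : w = v := HeightOneSpectrum.ext hw
      rwa [← this]
    · intro h; exact ⟨v, rfl, h⟩
  have hQv : ∀ v : HeightOneSpectrum R, Q v.asIdeal ↔ q v := by
    intro v
    constructor
    · rintro ⟨w, hw, hpw⟩
      have : w = v := HeightOneSpectrum.ext hw
      rwa [← this]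
    · intro h; exact ⟨v, rfl, h⟩
  have hmem : ∀ v : HeightOneSpectrum R, v.asIdeal ∈ nf → v.asIdeal ∣ M := fun v hv =>
    dvd_of_mem_normalizedFactors hv
  have h3 : nf.prod = M := Ideal.prod_normalizedFactors_eq_self hM
  refine ⟨((nf.filter fun I => ¬ P I).filter fun I => ¬ Q I).prod,
    ((nf.filter fun I => ¬ P I).filter Q).prod, (nf.filter P).prod, ?_, ?_, ?_, ?_⟩
  · rw [← Multiset.prod_add, ← Multiset.prod_add]
    conv_rhs => rw [← h3]
    congr 1
    rw [add_comm (Multiset.filter _ _) (Multiset.filter Q _), Multiset.filter_add_not, add_comm,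
      Multiset.filter_add_not]
  · intro v hv
    have := key _ (Multiset.filter_le _ _) v hv
    rw [Multiset.mem_filter] at this
    exact ⟨hmem v this.1, (hPv v).1 this.2⟩
  · intro v hv
    have := key _ ((Multiset.filter_le _ _).trans (Multiset.filter_le _ _)) v hv
    rw [Multiset.mem_filter, Multiset.mem_filter] at this
    exact ⟨hmem v this.1.1, fun h => this.1.2 ((hPv v).2 h), (hQv v).1 this.2⟩
  · intro v hv
    have := key _ ((Multiset.filter_le _ _).trans (Multiset.filter_le _ _)) v hv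
    rw [Multiset.mem_filter, Multiset.mem_filter] at this
    exact ⟨hmem v this.1.1, fun h => this.1.2 ((hPv v).2 h), fun h => this.2 ((hQv v).2 h)⟩

/-- The primes dividing a nonzero ideal are finite in number. -/
theorem finite_dvd {R : Type*} [CommRing R] [IsDedekindDomain R] (M : Ideal R) (hM : M ≠ ⊥) :
    {v : HeightOneSpectrum R | v.asIdeal ∣ M}.Finite := Ideal.finite_factors hM

/-- An ideal without prime divisors is the unit ideal. -/
theorem eq_one_of_no_prime {R : Type*} [CommRing R] [IsDedekindDomain R] (M : Ideal R)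
    (hM : M ≠ ⊥) (h : ∀ v : HeightOneSpectrum R, ¬ v.asIdeal ∣ M) : M = 1 := by
  by_contra h1
  have hnu : ¬ IsUnit M := by
    rw [Ideal.isUnit_iff]; rwa [Ideal.one_eq_top] at h1
  obtain ⟨P, hP, hPM⟩ := WfDvdMonoid.exists_irreducible_factor hnu hM
  have hPp : Prime P := hP.prime
  exact h ⟨P, Ideal.isPrime_of_prime hPp, hPp.ne_zero⟩ hPM

end Sqf

/-- Theorem Q when the leading coefficient is not divisible by a `k + 1`-st power outside `s`
primes, which contain the primes dividing the denominator. -/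
theorem main_sqf_of (D N d k s : ℕ) (hd : 2 ≤ d) (hQ : StatQ D N d k s) : ∃ C : ℕ,
    ∀ (K : Type) [Field K] [NumberField K], Module.finrank ℚ K ≤ D →
    ∀ (F : (𝓞 K)[X]) (b : 𝓞 K), F.natDegree = d → b ≠ 0 →
    {v : HeightOneSpectrum (𝓞 K) | b ∈ v.asIdeal ∨
      F.leadingCoeff ∈ v.asIdeal ^ (k + 1)}.ncard ≤ s →
    {x : AlgebraicClosure K | (minpoly K x).natDegree ≤ N ∧
      PreE (AlgebraicClosure K) F b x}.encard ≤ C := by
  obtain ⟨C, hC⟩ := hQ
  refine ⟨C, fun K _ _ hK F b hF hb hs => ?_⟩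
  have ha : F.leadingCoeff ≠ 0 := by
    intro h0
    rw [leadingCoeff_eq_zero] at h0
    rw [h0, natDegree_zero] at hF
    omega
  have hM : (Ideal.span {F.leadingCoeff * b} : Ideal (𝓞 K)) ≠ ⊥ := by
    rw [Ne, Ideal.span_singleton_eq_bot]
    exact mul_ne_zero ha hb
  set M : Ideal (𝓞 K) := Ideal.span {F.leadingCoeff * b} with hMdef
  obtain ⟨A, B, E, hABE, hE, hB, hA⟩ := Sqf.split_three M hM
    (fun v => b ∈ v.asIdeal ∨ F.leadingCoeff ∈ v.asIdeal ^ (k + 1)) (fun v => Harmless F b v)
  have hdM : ∀ v : HeightOneSpectrum (𝓞 K), v.asIdeal ∣ M →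
      F.leadingCoeff ∈ v.asIdeal ∨ b ∈ v.asIdeal := by
    intro v hv
    rw [hMdef, Ideal.dvd_span_singleton] at hv
    exact v.isPrime.mem_or_mem hv
  have hpow : ∀ v : HeightOneSpectrum (𝓞 K), F.leadingCoeff ∈ v.asIdeal ^ (k + 1) →
      F.leadingCoeff ∈ v.asIdeal := fun v hv => Ideal.pow_le_self (Nat.succ_ne_zero k) hv
  have hfin : {v : HeightOneSpectrum (𝓞 K) | b ∈ v.asIdeal ∨
      F.leadingCoeff ∈ v.asIdeal ^ (k + 1)}.Finite := by
    refine (Sqf.finite_dvd M hM).subset ?_
    intro v hv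
    change v.asIdeal ∣ M
    rw [hMdef, Ideal.dvd_span_singleton]
    rcases hv with hv | hv
    · exact v.asIdeal.mul_mem_left _ hv
    · exact v.asIdeal.mul_mem_right _ (hpow v hv)
  have hA0 : A ≠ ⊥ := by
    rintro rfl
    apply hM
    rw [← hABE, Ideal.bot_mul, Ideal.bot_mul]
  refine hC K hK F b hF hb A B E A hABE (fun v hv => (hB v hv).2.2) ?_
    (Dvd.intro _ ((mul_assoc _ _ _).symm.trans hABE)) ?_ ?_
  · exact (Set.ncard_le_ncard (fun v hv => (hE v hv).2) hfin).trans hs
  · intro v hv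
    obtain ⟨h1, h2, h3⟩ := hA v hv
    left
    have hbv : b ∉ v.asIdeal := fun h => h2 (Or.inl h)
    refine ⟨hbv, ?_, fun h => h2 (Or.inr h), h3⟩
    rcases hdM v h1 with h | h
    · exact h
    · exact absurd h hbv
  · rcases Nat.eq_zero_or_pos k with rfl | hk
    · have : A = 1 := by
        refine Sqf.eq_one_of_no_prime A hA0 fun v hv => ?_
        obtain ⟨h1, h2, h3⟩ := hA v hv
        apply h2
        rcases hdM v h1 with h | h
        · right; simpa using h
        · exact Or.inl h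
      rw [this]; simp
    · exact Nat.le_self_pow hk.ne' _

end Pool.Agent.PQ
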