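import Pool.Agent.PQ.Main
import Pool.Agent.PQ.Sqf

set_option autoImplicit false

/-!
# Theorem Q with two ideals
-/

namespace Pool.Agent.PQ

open Polynomial NumberField IsDedekindDomain Pool.Agent.GPoly

/-- Theorem Q: `(a b) = I M`, all but `s` primes which divide `M` are harmless or defective, and
`N(I) ≤ N(J) ^ k`, where `J` divides `(a b)` and has only defective prime divisors. -/
theorem main_R (D N d k s : ℕ) (hN : 1 ≤ N) (hd : 2 ≤ d) : ∃ C : ℕ,
    ∀ (K : Type) [Field K] [NumberField K], Module.finrank ℚ K ≤ D →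
    ∀ (F : (𝓞 K)[X]) (b : 𝓞 K), F.natDegree = d → b ≠ 0 →
    ∀ I M J : Ideal (𝓞 K), I * M = Ideal.span {F.leadingCoeff * b} →
    {v : HeightOneSpectrum (𝓞 K) | v.asIdeal ∣ M ∧ ¬ Harmless F b v ∧
      ¬ (DefA k F b v ∨ DefB N F b v)}.ncard ≤ s →
    J ∣ Ideal.span {F.leadingCoeff * b} →
    (∀ v : HeightOneSpectrum (𝓞 K), v.asIdeal ∣ J → DefA k F b v ∨ DefB N F b v) →
    Ideal.absNorm I ≤ Ideal.absNorm J ^ k →
    {x : AlgebraicClosure K | (minpoly K x).natDegree ≤ N ∧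
      PreE (AlgebraicClosure K) F b x}.encard ≤ C := by
  obtain ⟨C, hC⟩ := main_Q D N d (k + 1) s hN hd
  refine ⟨C, fun K _ _ hK F b hF hb I M J hIM hs hJ hdef hnorm => ?_⟩
  have ha0 : F.leadingCoeff ≠ 0 := by
    intro h0
    rw [leadingCoeff_eq_zero] at h0
    rw [h0, natDegree_zero] at hF
    omega
  have hab : F.leadingCoeff * b ≠ 0 := mul_ne_zero ha0 hb
  have hspan : Ideal.span {F.leadingCoeff * b} ≠ 0 := by
    rw [Ne, Ideal.zero_eq_bot, Ideal.span_singleton_eq_bot]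
    exact hab
  have hM0 : M ≠ ⊥ := by
    rintro rfl
    rw [← Ideal.zero_eq_bot, mul_zero] at hIM
    exact hspan hIM.symm
  obtain ⟨A, B, E, hABE, hE, hB, hA⟩ := Sqf.split_three M hM0
    (fun v => ¬ Harmless F b v ∧ ¬ (DefA k F b v ∨ DefB N F b v)) (fun v => Harmless F b v)
  have hmono : ∀ v, DefA k F b v → DefA (k + 1) F b v := fun v h =>
    ⟨h.1, h.2.1, fun h1 => h.2.2.1 (Ideal.pow_le_pow_right (by omega) h1), h.2.2.2⟩
  have hAdef : ∀ v : HeightOneSpectrum (𝓞 K), v.asIdeal ∣ A → DefA k F b v ∨ DefB N F b v := by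
    intro v hv
    obtain ⟨-, h1, h2⟩ := hA v hv
    by_contra h3
    exact h1 ⟨h2, h3⟩
  have hAd : A ∣ Ideal.span {F.leadingCoeff * b} :=
    ⟨I * (B * E), by rw [← hIM, ← hABE]; ring⟩
  have hJ0 : J ≠ ⊥ := by
    rintro rfl
    exact hspan (zero_dvd_iff.1 (by rwa [← Ideal.zero_eq_bot] at hJ))
  have hA0 : A ≠ ⊥ := by
    rintro rfl
    exact hspan (zero_dvd_iff.1 (by rwa [← Ideal.zero_eq_bot] at hAd))
  -- the least common multiple of `J` and `A`
  have hfinM := Ideal.finite_factors (show M ≠ 0 from hM0)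
  refine hC K hK F b hF hb (I * A) B E (J ⊓ A) (by rw [← hIM, ← hABE]; ring)
    (fun v hv => (hB v hv).2.2) ?_ ?_ ?_ ?_
  · refine le_trans (Set.ncard_le_ncard ?_ ?_) hs
    · intro v hv
      exact ⟨(hE v hv).1, (hE v hv).2⟩
    · exact hfinM.subset fun v hv => hv.1
  · rw [Ideal.dvd_iff_le] at hJ hAd ⊢
    exact le_inf hJ hAd
  · intro v hv
    have h1 : v.asIdeal ∣ J ∨ v.asIdeal ∣ A := by
      refine v.prime.dvd_or_dvd ?_
      rw [Ideal.dvd_iff_le] at hv ⊢
      exact Ideal.mul_le_inf.trans hv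
    have h2 : DefA k F b v ∨ DefB N F b v := by
      rcases h1 with h | h
      · exact hdef v h
      · exact hAdef v h
    exact h2.imp (hmono v) id
  · have hinf0 : J ⊓ A ≠ ⊥ := by
      intro h
      have h1 : J * A ≤ ⊥ := by
        rw [← h]
        exact Ideal.mul_le_inf
      rcases mul_eq_zero.1 (le_bot_iff.1 h1) with h2 | h2
      · exact hJ0 h2
      · exact hA0 h2
    have hpos : 0 < Ideal.absNorm (J ⊓ A) :=
      Nat.pos_of_ne_zero (by rwa [Ne, Ideal.absNorm_eq_zero_iff])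
    have h1 : Ideal.absNorm J ≤ Ideal.absNorm (J ⊓ A) :=
      Nat.le_of_dvd hpos (Ideal.absNorm_dvd_absNorm_of_le inf_le_left)
    have h2 : Ideal.absNorm A ≤ Ideal.absNorm (J ⊓ A) :=
      Nat.le_of_dvd hpos (Ideal.absNorm_dvd_absNorm_of_le inf_le_right)
    rw [map_mul, pow_succ]
    exact Nat.mul_le_mul (hnorm.trans (Nat.pow_le_pow_left h1 k)) h2

end Pool.Agent.PQ
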