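import Pool.Agent.PQ.Defs

set_option autoImplicit false

/-!
# The functions `G_x` and the radii `R_j(x)`
-/

namespace Pool.Agent.PQ

open Polynomial

section G

variable {𝕜 : Type} [NormedField 𝕜]

theorem GG_nonneg (f : 𝕜[X]) (x : 𝕜) {r : ℝ} (hr : 0 ≤ r) : 0 ≤ GG f x r :=
  Finset.sum_nonneg fun i _ => mul_nonneg (norm_nonneg _) (pow_nonneg hr i)

theorem GG_mono (f : 𝕜[X]) (x : 𝕜) {r r' : ℝ} (hr : 0 ≤ r) (h : r ≤ r') :
    GG f x r ≤ GG f x r' :=
  Finset.sum_le_sum fun i _ => mul_le_mul_of_nonneg_left (pow_le_pow_left₀ hr h i) (norm_nonneg _)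

theorem G.coeff_taylor_natDegree (f : 𝕜[X]) (x : 𝕜) :
    (taylor x f).coeff f.natDegree = f.leadingCoeff := by
  have h := Polynomial.leadingCoeff_taylor x f
  rw [Polynomial.leadingCoeff, Polynomial.natDegree_taylor] at h
  exact h

theorem lead_le_GG (f : 𝕜[X]) (hf : 1 ≤ f.natDegree) (x : 𝕜) {r : ℝ} (hr : 0 ≤ r) :
    ‖f.leadingCoeff‖ * r ^ f.natDegree ≤ GG f x r := by
  have h := Finset.single_le_sum (s := Finset.Icc 1 f.natDegree)
    (f := fun i => ‖(taylor x f).coeff i‖ * r ^ i)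
    (fun i _ => mul_nonneg (norm_nonneg _) (pow_nonneg hr i))
    (Finset.mem_Icc.mpr ⟨hf, le_refl _⟩)
  have h2 : ‖(taylor x f).coeff f.natDegree‖ * r ^ f.natDegree ≤ GG f x r := h
  rwa [G.coeff_taylor_natDegree] at h2

theorem G.lead_pos (f : 𝕜[X]) (hf : 1 ≤ f.natDegree) : 0 < ‖f.leadingCoeff‖ := by
  rw [norm_pos_iff]
  intro h
  rw [Polynomial.leadingCoeff_eq_zero] at h
  rw [h, Polynomial.natDegree_zero] at hf
  omega

theorem G.GG_lt (f : 𝕜[X]) (hf : 1 ≤ f.natDegree) (x : 𝕜) {r r' : ℝ} (hr : 0 ≤ r)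
    (h : r < r') : GG f x r < GG f x r' := by
  refine Finset.sum_lt_sum
    (fun i _ => mul_le_mul_of_nonneg_left (pow_le_pow_left₀ hr h.le i) (norm_nonneg _))
    ⟨f.natDegree, Finset.mem_Icc.mpr ⟨hf, le_refl _⟩, ?_⟩
  rw [G.coeff_taylor_natDegree]
  exact mul_lt_mul_of_pos_left (pow_lt_pow_left₀ h hr (by omega)) (G.lead_pos f hf)

/-- strict monotonicity -/
theorem le_of_GG_le (f : 𝕜[X]) (hf : 1 ≤ f.natDegree) (x : 𝕜) {r r' : ℝ} (hr : 0 ≤ r)
    (hr' : 0 ≤ r') (h : GG f x r ≤ GG f x r') : r ≤ r' := by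
  by_contra hlt
  push Not at hlt
  exact absurd (G.GG_lt f hf x hr' hlt) (not_lt.mpr h)

theorem mul_GG_le (f : 𝕜[X]) (x : 𝕜) {t r : ℝ} (ht : 1 ≤ t) (hr : 0 ≤ r) :
    t * GG f x r ≤ GG f x (t * r) := by
  unfold GG
  rw [Finset.mul_sum]
  refine Finset.sum_le_sum fun i hi => ?_
  have hi1 : i ≠ 0 := by
    have := (Finset.mem_Icc.mp hi).1
    omega
  have h1 : t ≤ t ^ i := le_self_pow₀ ht hi1
  have h2 : 0 ≤ ‖(taylor x f).coeff i‖ * r ^ i := mul_nonneg (norm_nonneg _) (pow_nonneg hr i)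
  calc t * (‖(taylor x f).coeff i‖ * r ^ i) ≤ t ^ i * (‖(taylor x f).coeff i‖ * r ^ i) :=
        mul_le_mul_of_nonneg_right h1 h2
    _ = ‖(taylor x f).coeff i‖ * (t * r) ^ i := by rw [mul_pow]; ring

theorem GG_mul_le (f : 𝕜[X]) (x : 𝕜) {t r : ℝ} (ht : 1 ≤ t) (hr : 0 ≤ r) :
    GG f x (t * r) ≤ t ^ f.natDegree * GG f x r := by
  unfold GG
  rw [Finset.mul_sum]
  refine Finset.sum_le_sum fun i hi => ?_
  have h1 : t ^ i ≤ t ^ f.natDegree := pow_le_pow_right₀ ht (Finset.mem_Icc.mp hi).2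
  have h2 : 0 ≤ ‖(taylor x f).coeff i‖ * r ^ i := mul_nonneg (norm_nonneg _) (pow_nonneg hr i)
  calc ‖(taylor x f).coeff i‖ * (t * r) ^ i = t ^ i * (‖(taylor x f).coeff i‖ * r ^ i) := by
        rw [mul_pow]; ring
    _ ≤ t ^ f.natDegree * (‖(taylor x f).coeff i‖ * r ^ i) := mul_le_mul_of_nonneg_right h1 h2

theorem G.range_succ_sum {M : Type*} [AddCommMonoid M] (n : ℕ) (g : ℕ → M) :
    ∑ i ∈ Finset.range (n + 1), g i = g 0 + ∑ i ∈ Finset.Icc 1 n, g i := by
  rw [Finset.range_eq_Ico, Finset.sum_eq_sum_Ico_succ_bot (by omega)]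
  rfl

theorem norm_eval_sub_le (f : 𝕜[X]) (x z : 𝕜) : ‖f.eval z - f.eval x‖ ≤ GG f x ‖z - x‖ := by
  have h1 : f.eval z = (taylor x f).eval (z - x) := by
    rw [Polynomial.taylor_eval, sub_add_cancel]
  have h2 : f.eval x = (taylor x f).coeff 0 := by
    rw [Polynomial.taylor_coeff_zero]
  rw [h1, h2, Polynomial.eval_eq_sum_range, Polynomial.natDegree_taylor,
    G.range_succ_sum, pow_zero, mul_one, add_sub_cancel_left]
  refine (norm_sum_le _ _).trans (Finset.sum_le_sum fun i _ => ?_)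
  rw [norm_mul, norm_pow]

theorem GG_shift (f : 𝕜[X]) (x y : 𝕜) {r : ℝ} (hr : 0 ≤ r) :
    GG f y r ≤ GG f x (r + ‖x - y‖) := by
  set δ := ‖x - y‖ with hδ
  have hδ0 : 0 ≤ δ := norm_nonneg _
  have hc : ∀ i, ‖(taylor y f).coeff i‖ ≤
      ∑ j ∈ Finset.range (f.natDegree + 1),
        (j.choose i : ℝ) * ‖(taylor x f).coeff j‖ * δ ^ (j - i) := by
    intro i
    have h1 : taylor y f = taylor (y - x) (taylor x f) := by
      rw [Polynomial.taylor_taylor]
      rw [sub_add_cancel]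
    rw [h1, Polynomial.taylor_coeff, Polynomial.hasseDeriv_apply, Polynomial.sum_over_range]
    · rw [Polynomial.natDegree_taylor, Polynomial.eval_finsetSum]
      refine (norm_sum_le _ _).trans (Finset.sum_le_sum fun j _ => ?_)
      rw [Polynomial.eval_monomial, norm_mul, norm_mul, norm_pow, norm_sub_rev y x]
      refine mul_le_mul_of_nonneg_right ?_ (pow_nonneg hδ0 _)
      refine mul_le_mul_of_nonneg_right ?_ (norm_nonneg _)
      have := Nat.norm_cast_le (α := 𝕜) (j.choose i)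
      rwa [norm_one, mul_one] at this
    · intro n
      rw [mul_zero, Polynomial.monomial_zero_right]
  calc GG f y r = ∑ i ∈ Finset.Icc 1 f.natDegree, ‖(taylor y f).coeff i‖ * r ^ i := rfl
    _ ≤ ∑ i ∈ Finset.Icc 1 f.natDegree, (∑ j ∈ Finset.range (f.natDegree + 1),
        (j.choose i : ℝ) * ‖(taylor x f).coeff j‖ * δ ^ (j - i)) * r ^ i :=
        Finset.sum_le_sum fun i _ => mul_le_mul_of_nonneg_right (hc i) (pow_nonneg hr i)
    _ = ∑ j ∈ Finset.range (f.natDegree + 1), ‖(taylor x f).coeff j‖ *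
        ∑ i ∈ Finset.Icc 1 f.natDegree, (j.choose i : ℝ) * δ ^ (j - i) * r ^ i := by
        simp_rw [Finset.sum_mul, Finset.mul_sum]
        rw [Finset.sum_comm]
        refine Finset.sum_congr rfl fun j _ => Finset.sum_congr rfl fun i _ => ?_
        ring
    _ ≤ ∑ j ∈ Finset.Icc 1 f.natDegree, ‖(taylor x f).coeff j‖ * (r + δ) ^ j := by
        rw [G.range_succ_sum]
        have h0 : ∑ i ∈ Finset.Icc 1 f.natDegree,
            ((Nat.choose 0 i : ℕ) : ℝ) * δ ^ (0 - i) * r ^ i = 0 := by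
          refine Finset.sum_eq_zero fun i hi => ?_
          have hi1 : 0 < i := (Finset.mem_Icc.mp hi).1
          rw [Nat.choose_eq_zero_of_lt hi1, Nat.cast_zero, zero_mul, zero_mul]
        rw [h0, mul_zero, zero_add]
        refine Finset.sum_le_sum fun j hj => ?_
        refine mul_le_mul_of_nonneg_left ?_ (norm_nonneg _)
        rw [add_pow]
        have hjd := (Finset.mem_Icc.mp hj).2
        calc ∑ i ∈ Finset.Icc 1 f.natDegree, (j.choose i : ℝ) * δ ^ (j - i) * r ^ i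
            ≤ ∑ i ∈ Finset.range (f.natDegree + 1), (j.choose i : ℝ) * δ ^ (j - i) * r ^ i := by
              refine Finset.sum_le_sum_of_subset_of_nonneg ?_ fun i _ _ => by positivity
              intro i hi
              rw [Finset.mem_range]
              have := (Finset.mem_Icc.mp hi).2
              omega
          _ = ∑ i ∈ Finset.range (j + 1), (j.choose i : ℝ) * δ ^ (j - i) * r ^ i := by
              symm
              refine Finset.sum_subset (Finset.range_mono (by omega)) fun i _ hi => ?_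
              rw [Finset.mem_range, not_lt] at hi
              rw [Nat.choose_eq_zero_of_lt (by omega), Nat.cast_zero, zero_mul, zero_mul]
          _ = ∑ m ∈ Finset.range (j + 1), r ^ m * δ ^ (j - m) * (j.choose m : ℝ) :=
              Finset.sum_congr rfl fun i _ => by ring
          _ ≤ _ := le_refl _
    _ = GG f x (r + δ) := rfl

theorem G.GG_zero (f : 𝕜[X]) (x : 𝕜) : GG f x 0 = 0 := by
  refine Finset.sum_eq_zero fun i hi => ?_
  have hi1 := (Finset.mem_Icc.mp hi).1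
  rw [zero_pow (by omega), mul_zero]

theorem G.continuous_GG (f : 𝕜[X]) (x : 𝕜) : Continuous (GG f x) := by
  unfold GG
  fun_prop

theorem inv_spec (f : 𝕜[X]) (hf : 1 ≤ f.natDegree) (x : 𝕜) {t : ℝ} (ht : 0 ≤ t) :
    0 ≤ inv f x t ∧ GG f x (inv f x t) = t := by
  have hA := G.lead_pos f hf
  set R : ℝ := max 1 (t / ‖f.leadingCoeff‖) with hR
  have hR1 : 1 ≤ R := le_max_left _ _
  have hGR : t ≤ GG f x R := by
    have h1 : t ≤ ‖f.leadingCoeff‖ * R := by
      have := le_max_right 1 (t / ‖f.leadingCoeff‖)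
      rw [← hR, div_le_iff₀ hA] at this
      linarith
    have h2 : R ≤ R ^ f.natDegree := le_self_pow₀ hR1 (by omega)
    calc t ≤ ‖f.leadingCoeff‖ * R := h1
      _ ≤ ‖f.leadingCoeff‖ * R ^ f.natDegree := mul_le_mul_of_nonneg_left h2 hA.le
      _ ≤ GG f x R := lead_le_GG f hf x (by linarith)
  have hiv := intermediate_value_Icc (show (0 : ℝ) ≤ R by linarith)
    (G.continuous_GG f x).continuousOn
  have htm : t ∈ Set.Icc (GG f x 0) (GG f x R) := ⟨by rw [G.GG_zero]; exact ht, hGR⟩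
  obtain ⟨r, hr, hrt⟩ := hiv htm
  have hS : {s : ℝ | 0 ≤ s ∧ GG f x s ≤ t} = Set.Icc 0 r := by
    ext s
    simp only [Set.mem_ofPred_eq, Set.mem_Icc]
    refine and_congr_right fun hs => ⟨fun h => ?_, fun h => ?_⟩
    · exact le_of_GG_le f hf x hs hr.1 (by rw [hrt]; exact h)
    · rw [← hrt]
      exact GG_mono f x hs h
  have hinv : inv f x t = r := by
    unfold inv
    rw [hS, csSup_Icc hr.1]
  rw [hinv]
  exact ⟨hr.1, hrt⟩

theorem RR_nonneg (f : 𝕜[X]) (hf : 1 ≤ f.natDegree) (j : ℕ) (x : 𝕜) : 0 ≤ RR f j x := by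
  induction j generalizing x with
  | zero => exact zero_le_one
  | succ j ih => exact (inv_spec f hf x (ih (f.eval x))).1

theorem GG_RR (f : 𝕜[X]) (hf : 1 ≤ f.natDegree) (j : ℕ) (x : 𝕜) :
    GG f x (RR f (j + 1) x) = RR f j (f.eval x) :=
  (inv_spec f hf x (RR_nonneg f hf j (f.eval x))).2

theorem RR_pos (f : 𝕜[X]) (hf : 1 ≤ f.natDegree) (j : ℕ) (x : 𝕜) : 0 < RR f j x := by
  induction j generalizing x with
  | zero => exact zero_lt_one
  | succ j ih =>
    refine lt_of_le_of_ne (RR_nonneg f hf (j + 1) x) fun h => ?_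
    have h1 := GG_RR f hf j x
    rw [← h, G.GG_zero] at h1
    exact absurd h1 (ih (f.eval x)).ne

theorem RR_le_one (f : 𝕜[X]) (hf : 1 ≤ f.natDegree) (ha : 1 ≤ ‖f.leadingCoeff‖) (j : ℕ) (x : 𝕜) :
    RR f j x ≤ 1 := by
  induction j generalizing x with
  | zero => exact le_refl _
  | succ j ih =>
    have h0 := RR_nonneg f hf (j + 1) x
    have h1 := lead_le_GG f hf x h0
    rw [GG_RR f hf j x] at h1
    have h2 : RR f (j + 1) x ^ f.natDegree ≤ 1 := by
      have h3 : 1 * RR f (j + 1) x ^ f.natDegree ≤ ‖f.leadingCoeff‖ * RR f (j + 1) x ^ f.natDegree :=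
        mul_le_mul_of_nonneg_right ha (pow_nonneg h0 _)
      have h4 := ih (f.eval x)
      linarith
    by_contra hlt
    push Not at hlt
    exact absurd (one_lt_pow₀ hlt (by omega)) (not_lt.mpr h2)

theorem RR_anti (f : 𝕜[X]) (hf : 1 ≤ f.natDegree) (ha : 1 ≤ ‖f.leadingCoeff‖) (j : ℕ) (x : 𝕜) :
    RR f (j + 1) x ≤ RR f j x := by
  induction j generalizing x with
  | zero => exact RR_le_one f hf ha 1 x
  | succ j ih =>
    refine le_of_GG_le f hf x (RR_nonneg f hf _ x) (RR_nonneg f hf _ x) ?_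
    rw [GG_RR f hf (j + 1) x, GG_RR f hf j x]
    exact ih (f.eval x)

theorem RR_follow (f : 𝕜[X]) (hf : 1 ≤ f.natDegree) (ha : 1 ≤ ‖f.leadingCoeff‖) (j : ℕ) (x z : 𝕜)
    (hz : ‖z - x‖ ≤ RR f j x) (i : ℕ) (hi : i ≤ j) :
    ‖(fun y => f.eval y)^[i] z - (fun y => f.eval y)^[i] x‖ ≤ 1 := by
  induction i generalizing j x z with
  | zero => exact hz.trans (RR_le_one f hf ha j x)
  | succ i ih =>
    obtain ⟨j, rfl⟩ : ∃ j', j = j' + 1 := ⟨j - 1, by omega⟩
    rw [Function.iterate_succ_apply, Function.iterate_succ_apply]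
    refine ih j (f.eval x) (f.eval z) ?_ (by omega)
    calc ‖f.eval z - f.eval x‖ ≤ GG f x ‖z - x‖ := norm_eval_sub_le f x z
      _ ≤ GG f x (RR f (j + 1) x) := GG_mono f x (norm_nonneg _) hz
      _ = RR f j (f.eval x) := GG_RR f hf j x

theorem Bd.map {f : 𝕜[X]} {x : 𝕜} (h : Bd f x) : Bd f (f.eval x) := by
  obtain ⟨R, hR⟩ := h
  refine ⟨R, fun n => ?_⟩
  have := hR (n + 1)
  rwa [Function.iterate_succ_apply] at this

theorem Bd.of_eval {f : 𝕜[X]} {x : 𝕜} (h : Bd f (f.eval x)) : Bd f x := by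
  obtain ⟨R, hR⟩ := h
  refine ⟨max ‖x‖ R, fun n => ?_⟩
  cases n with
  | zero => exact le_max_left _ _
  | succ n =>
    rw [Function.iterate_succ_apply]
    exact (hR n).trans (le_max_right _ _)

theorem Bd.iter {f : 𝕜[X]} {x : 𝕜} (h : Bd f x) (n : ℕ) :
    Bd f ((fun z => f.eval z)^[n] x) := by
  obtain ⟨R, hR⟩ := h
  refine ⟨R, fun m => ?_⟩
  have := hR (m + n)
  rwa [Function.iterate_add_apply] at this

end G

end Pool.Agent.PQ
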