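import Pool.Agent.PQ.G
import Pool.Agent.PQ.Root

set_option autoImplicit false

/-!
# The gap between consecutive radii

`gap`: `log R_j(x) - log R_{j+1}(x) ≥ log |A| / (d (d - 1) ^ j) - C` for large leading
coefficients `A` in the normalised situation; `RR_lower`: `R_j(x) ≥ (2 ^ d |A|) ^ (-j)`.
-/

namespace Pool.Agent.PQ

open Polynomial

namespace Gap

variable {𝕜 : Type} [NormedField 𝕜]

/-- The expansion of `f` around `x`. -/
theorem eval_sub_eq (f : 𝕜[X]) (x y : 𝕜) :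
    f.eval y - f.eval x =
      ∑ i ∈ Finset.Icc 1 f.natDegree, (taylor x f).coeff i * (y - x) ^ i := by
  have h : f.eval y =
      ∑ i ∈ Finset.range (f.natDegree + 1), (taylor x f).coeff i * (y - x) ^ i := by
    have h1 : (taylor x f).eval (y - x) = f.eval y := by
      rw [taylor_eval, sub_add_cancel]
    rw [← h1, Polynomial.eval_eq_sum_range, natDegree_taylor]
  have h2 : ∑ i ∈ Finset.Icc 1 f.natDegree, (taylor x f).coeff i * (y - x) ^ i =
      ∑ i ∈ Finset.range f.natDegree, (taylor x f).coeff (i + 1) * (y - x) ^ (i + 1) := by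
    have h3 : Finset.Icc 1 f.natDegree = Finset.Ico 1 (f.natDegree + 1) := by
      ext i; simp only [Finset.mem_Icc, Finset.mem_Ico]; omega
    rw [h3, Finset.sum_Ico_eq_sum_range, Nat.add_sub_cancel]
    exact Finset.sum_congr rfl fun i _ => by rw [add_comm 1 i]
  rw [h2, h, Finset.sum_range_succ', taylor_coeff_zero]
  simp

/-- One of the middle coefficients at `x` is not small. -/
theorem exists_coeff (d : ℕ) (hd : 2 ≤ d) (f : 𝕜[X]) (hf : Nrm d f)
    (ha : 2 * 32 ^ d < ‖f.leadingCoeff‖) (x : 𝕜) (hx : Bd f x) :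
    ∃ i, 1 ≤ i ∧ i ≤ d - 1 ∧
      ‖f.leadingCoeff‖ / (2 * d * 32 ^ d) ≤ ‖(taylor x f).coeff i‖ := by
  by_contra hcon
  push Not at hcon
  have hdeg := hf.deg
  set A : ℝ := ‖f.leadingCoeff‖ with hA
  have hd0 : (0 : ℝ) < d := by exact_mod_cast (by omega : 0 < d)
  have h32 : (0 : ℝ) < 32 ^ d := by positivity
  have hA0 : 0 < A := lt_trans (by positivity) ha
  obtain ⟨y, hy, hyx⟩ : ∃ y, Bd f y ∧ 1 / 32 ≤ ‖y - x‖ := by
    obtain ⟨p, q, hp, hq, hpq⟩ := hf.sep
    by_cases h : 1 / 32 ≤ ‖p - x‖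
    · exact ⟨p, hp, h⟩
    · refine ⟨q, hq, ?_⟩
      have h1 : ‖p - q‖ ≤ ‖p - x‖ + ‖q - x‖ := by
        have : p - q = (p - x) - (q - x) := by ring
        rw [this]; exact norm_sub_le _ _
      push Not at h
      linarith
  have hyx1 : ‖y - x‖ ≤ 1 := hf.diam y x hy hx
  have hfyx : ‖f.eval y - f.eval x‖ ≤ 1 := hf.diam _ _ hy.map hx.map
  have hsplit : Finset.Icc 1 f.natDegree = insert d (Finset.Icc 1 (d - 1)) := by
    ext i; simp only [Finset.mem_Icc, Finset.mem_insert, hdeg]; omega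
  have hnot : d ∉ Finset.Icc 1 (d - 1) := by simp only [Finset.mem_Icc]; omega
  have hcd : (taylor x f).coeff d = f.leadingCoeff := by
    rw [← hdeg]; exact coeff_taylor_natDegree x f
  have heq := eval_sub_eq f x y
  rw [hsplit, Finset.sum_insert hnot, hcd] at heq
  have hsum : ‖∑ i ∈ Finset.Icc 1 (d - 1), (taylor x f).coeff i * (y - x) ^ i‖ ≤
      A / (2 * 32 ^ d) := by
    calc ‖∑ i ∈ Finset.Icc 1 (d - 1), (taylor x f).coeff i * (y - x) ^ i‖
        ≤ ∑ i ∈ Finset.Icc 1 (d - 1), A / (2 * d * 32 ^ d) := by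
          refine norm_sum_le_of_le _ fun i hi => ?_
          rw [Finset.mem_Icc] at hi
          rw [norm_mul, norm_pow]
          have h1 := (hcon i hi.1 hi.2).le
          have h2 : ‖y - x‖ ^ i ≤ 1 := pow_le_one₀ (norm_nonneg _) hyx1
          calc ‖(taylor x f).coeff i‖ * ‖y - x‖ ^ i ≤ ‖(taylor x f).coeff i‖ * 1 :=
                mul_le_mul_of_nonneg_left h2 (norm_nonneg _)
            _ ≤ _ := by rw [mul_one]; exact h1
      _ = ((d - 1 : ℕ) : ℝ) * (A / (2 * d * 32 ^ d)) := by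
          rw [Finset.sum_const, Nat.card_Icc, nsmul_eq_mul]
          congr 2
      _ ≤ (d : ℝ) * (A / (2 * d * 32 ^ d)) := by
          apply mul_le_mul_of_nonneg_right _ (by positivity)
          exact_mod_cast Nat.sub_le d 1
      _ = A / (2 * 32 ^ d) := by field_simp
  have hmain : A / 32 ^ d ≤ ‖f.leadingCoeff * (y - x) ^ d‖ := by
    rw [norm_mul, norm_pow, ← hA]
    have h1 : (1 / 32 : ℝ) ^ d ≤ ‖y - x‖ ^ d := pow_le_pow_left₀ (by norm_num) hyx d
    calc A / 32 ^ d = A * (1 / 32) ^ d := by rw [one_div, inv_pow]; rfl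
      _ ≤ A * ‖y - x‖ ^ d := mul_le_mul_of_nonneg_left h1 hA0.le
  have h3 : ‖f.leadingCoeff * (y - x) ^ d‖ ≤ 1 + A / (2 * 32 ^ d) := by
    have h4 : f.leadingCoeff * (y - x) ^ d = (f.eval y - f.eval x) -
        ∑ i ∈ Finset.Icc 1 (d - 1), (taylor x f).coeff i * (y - x) ^ i := by
      rw [heq]; ring
    rw [h4]
    exact (norm_sub_le _ _).trans (add_le_add hfyx hsum)
  have h5 : A / 32 ^ d = 2 * (A / (2 * 32 ^ d)) := by field_simp
  have h6 : 1 < A / (2 * 32 ^ d) := by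
    rw [lt_div_iff₀ (by positivity), one_mul]; exact ha
  linarith

/-- The growth of `G_x` is at most that of `r ^ (d - 1)`. -/
theorem GG_le (d : ℕ) (hd : 2 ≤ d) (f : 𝕜[X]) (hf : Nrm d f)
    (ha : 2 * 32 ^ d < ‖f.leadingCoeff‖) (x : 𝕜) (hx : Bd f x) {r r' : ℝ} (hr : 0 < r)
    (hrr : r ≤ r') (hr1 : r' ≤ 1) :
    GG f x r' ≤ (1 + 2 * d * 32 ^ d) * (r' / r) ^ (d - 1) * GG f x r := by
  have hdeg := hf.deg
  set A : ℝ := ‖f.leadingCoeff‖ with hA
  have hd0 : (0 : ℝ) < d := by exact_mod_cast (by omega : 0 < d)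
  have h32 : (0 : ℝ) < 32 ^ d := by positivity
  have hA0 : 0 < A := lt_trans (by positivity) ha
  have hr' : 0 < r' := lt_of_lt_of_le hr hrr
  have hq : 1 ≤ r' / r := by rw [one_le_div hr]; exact hrr
  obtain ⟨i₀, hi1, hid, hi₀⟩ := exists_coeff d hd f hf ha x hx
  have hterm : ∀ i, 1 ≤ i → i ≤ d - 1 → ‖(taylor x f).coeff i‖ * r' ^ i ≤
      (r' / r) ^ (d - 1) * (‖(taylor x f).coeff i‖ * r ^ i) := by
    intro i _ hi
    have h1 : r' ^ i = (r' / r) ^ i * r ^ i := by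
      rw [div_pow, div_mul_cancel₀ _ (by positivity)]
    rw [h1]
    have h2 : (r' / r) ^ i ≤ (r' / r) ^ (d - 1) := pow_le_pow_right₀ hq hi
    calc ‖(taylor x f).coeff i‖ * ((r' / r) ^ i * r ^ i)
        = (r' / r) ^ i * (‖(taylor x f).coeff i‖ * r ^ i) := by ring
      _ ≤ _ := mul_le_mul_of_nonneg_right h2 (by positivity)
  have hsplit : Finset.Icc 1 f.natDegree = insert d (Finset.Icc 1 (d - 1)) := by
    ext i; simp only [Finset.mem_Icc, Finset.mem_insert, hdeg]; omega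
  have hnot : d ∉ Finset.Icc 1 (d - 1) := by simp only [Finset.mem_Icc]; omega
  have hcd : (taylor x f).coeff d = f.leadingCoeff := by
    rw [← hdeg]; exact coeff_taylor_natDegree x f
  have hle : ∑ i ∈ Finset.Icc 1 (d - 1), ‖(taylor x f).coeff i‖ * r ^ i ≤ GG f x r := by
    rw [GG, hsplit, Finset.sum_insert hnot]
    have : 0 ≤ ‖(taylor x f).coeff d‖ * r ^ d := by positivity
    linarith
  have hsingle : ‖(taylor x f).coeff i₀‖ * r ^ i₀ ≤ GG f x r := by
    refine le_trans ?_ hle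
    exact Finset.single_le_sum (f := fun i => ‖(taylor x f).coeff i‖ * r ^ i)
      (fun i _ => by positivity) (Finset.mem_Icc.2 ⟨hi1, hid⟩)
  have hlow : ∑ i ∈ Finset.Icc 1 (d - 1), ‖(taylor x f).coeff i‖ * r' ^ i ≤
      (r' / r) ^ (d - 1) * GG f x r := by
    calc ∑ i ∈ Finset.Icc 1 (d - 1), ‖(taylor x f).coeff i‖ * r' ^ i
        ≤ ∑ i ∈ Finset.Icc 1 (d - 1), (r' / r) ^ (d - 1) *
            (‖(taylor x f).coeff i‖ * r ^ i) :=
          Finset.sum_le_sum fun i hi => by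
            rw [Finset.mem_Icc] at hi
            exact hterm i hi.1 hi.2
      _ = (r' / r) ^ (d - 1) * ∑ i ∈ Finset.Icc 1 (d - 1), ‖(taylor x f).coeff i‖ * r ^ i := by
          rw [Finset.mul_sum]
      _ ≤ _ := mul_le_mul_of_nonneg_left hle (by positivity)
  have htop : ‖(taylor x f).coeff d‖ * r' ^ d ≤
      2 * d * 32 ^ d * ((r' / r) ^ (d - 1) * GG f x r) := by
    have h1 : A ≤ 2 * d * 32 ^ d * ‖(taylor x f).coeff i₀‖ := by
      rw [div_le_iff₀ (by positivity)] at hi₀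
      linarith
    have h2 : r' ^ d ≤ r' ^ i₀ := pow_le_pow_of_le_one hr'.le hr1 (by omega)
    rw [hcd]
    calc A * r' ^ d ≤ (2 * d * 32 ^ d * ‖(taylor x f).coeff i₀‖) * r' ^ i₀ :=
          mul_le_mul h1 h2 (by positivity) (by positivity)
      _ = 2 * d * 32 ^ d * (‖(taylor x f).coeff i₀‖ * r' ^ i₀) := by ring
      _ ≤ 2 * d * 32 ^ d * ((r' / r) ^ (d - 1) * (‖(taylor x f).coeff i₀‖ * r ^ i₀)) :=
          mul_le_mul_of_nonneg_left (hterm i₀ hi1 hid) (by positivity)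
      _ ≤ _ := mul_le_mul_of_nonneg_left
          (mul_le_mul_of_nonneg_left hsingle (by positivity)) (by positivity)
  have hGG : GG f x r' = ‖(taylor x f).coeff d‖ * r' ^ d +
      ∑ i ∈ Finset.Icc 1 (d - 1), ‖(taylor x f).coeff i‖ * r' ^ i := by
    rw [GG, hsplit, Finset.sum_insert hnot]
  rw [hGG]
  calc ‖(taylor x f).coeff d‖ * r' ^ d +
      ∑ i ∈ Finset.Icc 1 (d - 1), ‖(taylor x f).coeff i‖ * r' ^ i
      ≤ 2 * d * 32 ^ d * ((r' / r) ^ (d - 1) * GG f x r) + (r' / r) ^ (d - 1) * GG f x r :=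
        add_le_add htop hlow
    _ = _ := by ring

end Gap

theorem gap (d : ℕ) (hd : 2 ≤ d) (j : ℕ) : ∃ C : ℝ,
    ∀ (𝕜 : Type) [NormedField 𝕜] [IsAlgClosed 𝕜] (f : 𝕜[X]), Nrm d f →
    2 * 32 ^ d < ‖f.leadingCoeff‖ → ∀ x, Bd f x →
    Real.log ‖f.leadingCoeff‖ / (d * ((d : ℝ) - 1) ^ j) - C ≤
      Real.log (RR f j x) - Real.log (RR f (j + 1) x) := by
  have hd0 : (0 : ℝ) < d := by exact_mod_cast (by omega : 0 < d)
  have hd1 : (0 : ℝ) < (d : ℝ) - 1 := by
    have : (2 : ℝ) ≤ d := by exact_mod_cast hd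
    linarith
  induction j with
  | zero =>
    refine ⟨0, fun 𝕜 _ _ f hf ha x hx => ?_⟩
    have hdeg := hf.deg
    have hf1 : 1 ≤ f.natDegree := by omega
    have h32 : (0 : ℝ) < 32 ^ d := by positivity
    have hA0 : 0 < ‖f.leadingCoeff‖ := lt_trans (by positivity) ha
    have hpos := RR_pos f hf1 1 x
    have h1 : ‖f.leadingCoeff‖ * RR f 1 x ^ d ≤ 1 := by
      have h := lead_le_GG f hf1 x hpos.le
      rw [GG_RR f hf1 0 x, hdeg] at h
      exact h
    have h2 : Real.log (‖f.leadingCoeff‖ * RR f 1 x ^ d) ≤ 0 :=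
      Real.log_nonpos (by positivity) h1
    rw [Real.log_mul hA0.ne' (by positivity), Real.log_pow] at h2
    have h3 : Real.log (RR f 0 x) = 0 := by
      show Real.log 1 = 0
      exact Real.log_one
    rw [h3, pow_zero, mul_one, sub_zero, zero_sub, zero_add, div_le_iff₀ hd0]
    linarith
  | succ j ih =>
    obtain ⟨C, hC⟩ := ih
    refine ⟨(C + Real.log (1 + 2 * d * 32 ^ d)) / (d - 1), fun 𝕜 _ _ f hf ha x hx => ?_⟩
    have hdeg := hf.deg
    have hf1 : 1 ≤ f.natDegree := by omega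
    have h32 : (1 : ℝ) ≤ 32 ^ d := one_le_pow₀ (by norm_num)
    have hA1 : 1 ≤ ‖f.leadingCoeff‖ := by linarith
    have hA0 : 0 < ‖f.leadingCoeff‖ := by linarith
    have hr := RR_pos f hf1 (j + 1 + 1) x
    have hr' := RR_pos f hf1 (j + 1) x
    have hrr := RR_anti f hf1 hA1 (j + 1) x
    have hr1 := RR_le_one f hf1 hA1 (j + 1) x
    have h1 := Gap.GG_le d hd f hf ha x hx hr hrr hr1
    rw [GG_RR f hf1 j x, GG_RR f hf1 (j + 1) x] at h1
    have h2 := hC 𝕜 f hf ha (f.eval x) hx.map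
    have hp := RR_pos f hf1 j (f.eval x)
    have hp' := RR_pos f hf1 (j + 1) (f.eval x)
    have h3 := Real.log_le_log hp h1
    rw [Real.log_mul (by positivity) hp'.ne', Real.log_mul (by positivity) (by positivity),
      Real.log_pow, Real.log_div hr'.ne' hr.ne'] at h3
    have hcast : ((d - 1 : ℕ) : ℝ) = (d : ℝ) - 1 := by
      rw [Nat.cast_sub (by omega), Nat.cast_one]
    rw [hcast] at h3
    have h4 : Real.log ‖f.leadingCoeff‖ / (d * ((d : ℝ) - 1) ^ (j + 1)) =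
        Real.log ‖f.leadingCoeff‖ / (d * ((d : ℝ) - 1) ^ j) / (d - 1) := by
      rw [div_div, pow_succ, mul_assoc]
    rw [h4, ← sub_div, div_le_iff₀ hd1]
    linarith

theorem RR_lower (d : ℕ) (hd : 2 ≤ d) (𝕜 : Type) [NormedField 𝕜] [IsAlgClosed 𝕜] (f : 𝕜[X])
    (hf : Nrm d f) (ha : 1 ≤ ‖f.leadingCoeff‖) (j : ℕ) (x : 𝕜) (hx : Bd f x) :
    -(j * (Real.log ‖f.leadingCoeff‖ + d * Real.log 2)) ≤ Real.log (RR f j x) := by
  have hdeg := hf.deg
  have hf1 : 1 ≤ f.natDegree := by omega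
  have hA0 : 0 < ‖f.leadingCoeff‖ := by linarith
  induction j generalizing x with
  | zero =>
    have h3 : Real.log (RR f 0 x) = 0 := by
      show Real.log 1 = 0
      exact Real.log_one
    rw [h3]; simp
  | succ j ih =>
    have h1 := ih (f.eval x) hx.map
    have hr := RR_pos f hf1 (j + 1) x
    have hr1 := RR_le_one f hf1 ha (j + 1) x
    have h2 : GG f x (RR f (j + 1) x) ≤
        2 ^ f.natDegree * ‖f.leadingCoeff‖ * RR f (j + 1) x :=
      GG_upper f hf1 x (fun z hz => hf.diam z x (Bd.of_eval (by rw [hz]; exact hx.map)) hx)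
        hr.le hr1
    rw [GG_RR f hf1 j x, hdeg] at h2
    have hp := RR_pos f hf1 j (f.eval x)
    have h3 := Real.log_le_log hp h2
    rw [Real.log_mul (by positivity) hr.ne', Real.log_mul (by positivity) hA0.ne',
      Real.log_pow] at h3
    push_cast
    linarith

end Pool.Agent.PQ
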