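import Mathlib
import Pool.Agent.PQ.Defs
import Pool.Agent.RDF.Det
import Pool.Agent.RDF.Had

set_option autoImplicit false

/-!
# The Hadamard inequality for the iterates of a polynomial
-/

namespace Pool.Agent.PQ

open Polynomial NumberField IsDedekindDomain Pool.Agent.GPoly

private theorem had_form_one {R : Type*} [CommRing R] (d : ℕ) (p : R × R) :
    RDF.form d (1 : R[X]) p = p.2 ^ d := by
  rw [RDF.form, Finset.sum_range_succ', Finset.sum_eq_zero]
  · simp
  · intro i _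
    rw [Polynomial.coeff_one, if_neg (Nat.succ_ne_zero i), zero_mul, zero_mul]

private theorem had_form_self {R : Type*} [CommRing R] (d : ℕ) (f : R[X]) (hf : f.natDegree = d)
    (x : R) : RDF.form d f (x, 1) = f.eval x := by
  rw [RDF.form, Polynomial.eval_eq_sum_range, hf]
  refine Finset.sum_congr rfl fun i _ => ?_
  rw [one_pow, mul_one]

private theorem had_iter {R : Type*} [CommRing R] (d : ℕ) (f : R[X]) (hf : f.natDegree = d)
    (x : R) (k : ℕ) :
    (RDF.lift d f 1)^[k] (x, 1) = ((fun y => f.eval y)^[k] x, 1) := by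
  induction k with
  | zero => rfl
  | succ k ih =>
    rw [Function.iterate_succ_apply', Function.iterate_succ_apply', ih, RDF.lift,
      had_form_self d f hf, had_form_one, one_pow]

private theorem had_sum_sum {n : ℕ} (h : Fin n → Fin n → ℝ) (hs : ∀ a b, h a b = h b a)
    (h0 : ∀ a, h a a = 0) : ∑ a, ∑ b, h a b = 2 * ∑ a, ∑ b ∈ Finset.Ioi a, h a b := by
  have h1 := Finset.sum_sum_Ioi_add_eq_sum_sum_off_diag h
  have h2 : ∀ a : Fin n, ∑ b ∈ ({a}ᶜ : Finset (Fin n)), h b a = ∑ b, h a b := by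
    intro a
    rw [← Finset.sum_add_sum_compl {a} fun b => h a b, Finset.sum_singleton, h0, zero_add]
    exact Finset.sum_congr rfl fun b _ => hs b a
  have h3 : ∀ a : Fin n, ∑ b ∈ Finset.Ioi a, (h b a + h a b) =
      2 * ∑ b ∈ Finset.Ioi a, h a b := by
    intro a
    rw [Finset.mul_sum]
    refine Finset.sum_congr rfl fun b _ => ?_
    rw [hs b a]
    ring
  rw [Finset.sum_congr rfl fun a _ => h3 a, Finset.sum_congr rfl fun a _ => h2 a,
    ← Finset.mul_sum] at h1
  exact h1.symm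

/-- The Hadamard inequality for `d ^ m` points whose orbits are bounded by `2` up to time `m`. -/
theorem had (d m : ℕ) (hd : 2 ≤ d) : ∃ C : ℝ, ∀ (𝕜 : Type) [NormedField 𝕜] (f : 𝕜[X]),
    f.natDegree = d → ∀ z : Fin (d ^ m) → 𝕜, Function.Injective z →
    (∀ a, ∀ i, i < m → ‖(fun y => f.eval y)^[i] (z a)‖ ≤ 2) →
    ∑ a, ∑ b, Real.log ‖z a - z b‖ ≤
      -(Real.log ‖f.leadingCoeff‖ / (d - 1)) *
        ((d : ℝ) ^ m * ((d : ℝ) ^ m - 1) - m * (d - 1) * (d : ℝ) ^ m) + C := by
  refine ⟨2 * (Real.log ((d ^ m).factorial : ℝ) +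
    (d : ℝ) ^ m * (((d : ℝ) - 1) * (m * Real.log 2))), ?_⟩
  intro 𝕜 _ f hf z hz hb
  have hd1 : 1 ≤ d := by omega
  set abv : AbsoluteValue 𝕜 ℝ := IsAbsoluteValue.toAbsoluteValue (norm : 𝕜 → ℝ) with habv
  have habv1 : ∀ x, abv x = ‖x‖ := fun _ => rfl
  have hlc : f.leadingCoeff ≠ 0 := by
    intro h
    rw [Polynomial.leadingCoeff_eq_zero] at h
    rw [h, Polynomial.natDegree_zero] at hf
    omega
  obtain ⟨ε, hε, hdet⟩ := RDF.det_mat d m hd1 f 1 hf.le (by rw [Polynomial.natDegree_one]; omega)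
  have hres : resultant f 1 d d = f.leadingCoeff ^ d := by
    rw [Polynomial.resultant_one_right, ← hf]
    rfl
  have hw : ∀ i j, RDF.wedge ((z i, (1 : 𝕜))) (z j, 1) = z i - z j := by
    intro i j
    rw [RDF.wedge, mul_one, mul_one]
  have hdet1 := hdet fun i => (z i, 1)
  rw [hres] at hdet1
  simp only [hw] at hdet1
  have hε0 : ε ≠ 0 := by
    rcases hε with h | h
    · rw [h]
      exact one_ne_zero
    · rw [h]
      exact neg_ne_zero.2 one_ne_zero
  have hεn : ‖ε‖ = 1 := by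
    rcases hε with h | h
    · rw [h, norm_one]
    · rw [h, norm_neg, norm_one]
  have hne : ∀ i j, j ∈ Finset.Ioi i → z i - z j ≠ 0 := by
    intro i j hj
    rw [Finset.mem_Ioi] at hj
    exact sub_ne_zero.2 fun h => hj.ne (hz h)
  have hprod : ∏ i, ∏ j ∈ Finset.Ioi i, (z i - z j) ≠ 0 :=
    Finset.prod_ne_zero_iff.2 fun i _ => Finset.prod_ne_zero_iff.2 fun j hj => hne i j hj
  have h0 : (RDF.mat d m f 1 fun i => (z i, 1)).det ≠ 0 := by
    rw [hdet1]
    exact mul_ne_zero (mul_ne_zero hε0 (pow_ne_zero _ (pow_ne_zero _ hlc))) hprod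
  have hle := RDF.log_det_le_arch abv d m hd1 f 1 (fun i => (z i, 1)) (by
    intro i k
    rw [had_iter d f hf]
    intro h
    exact one_ne_zero (congrArg Prod.snd h)) h0
  have hlog : Real.log (abv (RDF.mat d m f 1 fun i => (z i, 1)).det) =
      (d * RDF.rr d m : ℝ) * Real.log ‖f.leadingCoeff‖ +
        ∑ i, ∑ j ∈ Finset.Ioi i, Real.log ‖z i - z j‖ := by
    rw [hdet1, habv1, norm_mul, norm_mul, hεn, one_mul, norm_pow, norm_pow, ← pow_mul,
      Real.log_mul (pow_ne_zero _ (norm_ne_zero_iff.2 hlc)) (norm_ne_zero_iff.2 hprod),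
      Real.log_pow, norm_prod, Real.log_prod]
    · push_cast
      congr 1
      refine Finset.sum_congr rfl fun i _ => ?_
      rw [norm_prod, Real.log_prod]
      exact fun j hj => norm_ne_zero_iff.2 (hne i j hj)
    · intro i _
      exact norm_ne_zero_iff.2 (Finset.prod_ne_zero_iff.2 fun j hj => hne i j hj)
  have hUU : ∀ i : Fin (d ^ m), RDF.UU abv d m f 1 (z i, 1) ≤
      ((d : ℝ) - 1) * (m * Real.log 2) := by
    intro i
    have h1 : (0 : ℝ) ≤ (d : ℝ) - 1 := by
      have : (1 : ℝ) ≤ d := by exact_mod_cast hd1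
      linarith
    rw [RDF.UU]
    refine mul_le_mul_of_nonneg_left ?_ h1
    have h2 : ∀ k ∈ Finset.range m, Real.log (RDF.nrm abv ((RDF.lift d f 1)^[k] (z i, 1))) ≤
        Real.log 2 := by
      intro k hk
      rw [had_iter d f hf]
      have h3 : RDF.nrm abv ((fun y => f.eval y)^[k] (z i), (1 : 𝕜)) ≤ 2 := by
        rw [RDF.nrm]
        refine max_le (hb i k (Finset.mem_range.1 hk)) ?_
        change abv 1 ≤ 2
        rw [habv1, norm_one]
        norm_num
      have h4 : 0 < RDF.nrm abv ((fun y => f.eval y)^[k] (z i), (1 : 𝕜)) := by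
        rw [RDF.nrm]
        refine lt_max_of_lt_right ?_
        change 0 < abv 1
        rw [habv1, norm_one]
        norm_num
      exact Real.log_le_log h4 h3
    refine (Finset.sum_le_sum h2).trans (le_of_eq ?_)
    rw [Finset.sum_const, Finset.card_range, nsmul_eq_mul]
  have hsum := Finset.sum_le_sum fun i (_ : i ∈ Finset.univ) => hUU i
  rw [Finset.sum_const, Finset.card_univ, Fintype.card_fin, nsmul_eq_mul] at hsum
  push_cast at hsum
  rw [hlog] at hle
  rw [had_sum_sum (fun a b => Real.log ‖z a - z b‖) (fun a b => by rw [norm_sub_rev])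
    (fun a => by rw [sub_self, norm_zero, Real.log_zero])]
  have hrr := RDF.rr_closed d m hd1
  have hrr' : 2 * (d : ℝ) * ((d : ℝ) - 1) * RDF.rr d m + m * ((d : ℝ) - 1) * (d : ℝ) ^ m =
      (d : ℝ) ^ m * ((d : ℝ) ^ m - 1) := by
    have h1 : 1 ≤ d ^ m := Nat.one_le_pow _ _ hd1
    have h2 : ((2 * d * (d - 1) * RDF.rr d m + m * (d - 1) * d ^ m : ℕ) : ℝ) =
        ((d ^ m * (d ^ m - 1) : ℕ) : ℝ) := by
      rw [hrr]
    push_cast [Nat.cast_sub hd1, Nat.cast_sub h1] at h2
    exact h2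
  have hd0 : (d : ℝ) - 1 ≠ 0 := by
    have : (2 : ℝ) ≤ d := by exact_mod_cast hd
    intro h
    linarith
  have hkey : Real.log ‖f.leadingCoeff‖ / ((d : ℝ) - 1) *
      ((d : ℝ) ^ m * ((d : ℝ) ^ m - 1) - m * (d - 1) * (d : ℝ) ^ m) =
      2 * ((d * RDF.rr d m : ℝ) * Real.log ‖f.leadingCoeff‖) := by
    rw [← hrr']
    field_simp
    ring
  rw [neg_mul, hkey]
  linarith

end Pool.Agent.PQ
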