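import Pool.Agent.PQ.Defs

/-! # Spreading of points in an algebraically closed normed field -/

set_option autoImplicit false

namespace Pool.Agent.PQ

open Finset Polynomial

theorem spr_complex : Spr ℂ := ⟨2, by norm_num⟩

theorem spr_ultra {𝕜 : Type} [NormedField 𝕜] [IsAlgClosed 𝕜] [IsUltrametricDist 𝕜]
    (h : ∃ c : 𝕜, 1 < ‖c‖) : Spr 𝕜 := h

/-- A new point of norm at most one, at distance one from finitely many points of the unit ball. -/
theorem exists_far {𝕜 : Type} [NormedField 𝕜] [IsAlgClosed 𝕜] [IsUltrametricDist 𝕜]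
    (U : Finset 𝕜) (hU : ∀ u ∈ U, ‖u‖ ≤ 1) : ∃ t : 𝕜, ‖t‖ ≤ 1 ∧ ∀ u ∈ U, ‖t - u‖ = 1 := by
  classical
  rcases U.eq_empty_or_nonempty with rfl | hne
  · exact ⟨0, by simp, by simp⟩
  obtain ⟨t, ht⟩ : ∃ t : 𝕜, ∏ u ∈ U, (t - u) = 1 := by
    have hdeg : (∏ u ∈ U, (X - C u) - 1 : 𝕜[X]).degree ≠ 0 := by
      have h1 : (∏ u ∈ U, (X - C u) : 𝕜[X]).degree = U.card := by
        rw [degree_prod]
        simp
      have h2 : (1 : 𝕜[X]).degree < (∏ u ∈ U, (X - C u) : 𝕜[X]).degree := by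
        rw [h1, degree_one]
        exact_mod_cast hne.card_pos
      rw [degree_sub_eq_left_of_degree_lt h2, h1]
      exact_mod_cast hne.card_pos.ne'
    obtain ⟨t, ht⟩ := IsAlgClosed.exists_root _ hdeg
    refine ⟨t, ?_⟩
    have h3 : eval t (∏ u ∈ U, (X - C u) - 1 : 𝕜[X]) = 0 := ht
    rw [eval_sub, eval_prod, eval_one] at h3
    simp only [eval_sub, eval_X, eval_C] at h3
    exact sub_eq_zero.mp h3
  have hn : ∏ u ∈ U, ‖t - u‖ = 1 := by rw [← norm_prod, ht, norm_one]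
  have ht1 : ‖t‖ ≤ 1 := by
    by_contra h
    have h := not_le.mp h
    have h4 : ∀ u ∈ U, 1 < ‖t - u‖ := by
      intro u hu
      have h5 : ‖u‖ < ‖t‖ := lt_of_le_of_lt (hU u hu) h
      rw [sub_eq_add_neg, IsUltrametricDist.norm_add_eq_max_of_norm_ne_norm (by rw [norm_neg]; exact h5.ne'),
        norm_neg, max_eq_left h5.le]
      exact h
    have h6 : ∏ u ∈ U, (1 : ℝ) < ∏ u ∈ U, ‖t - u‖ :=
      Finset.prod_lt_prod_of_nonempty (fun _ _ => one_pos) h4 hne
    rw [Finset.prod_const_one] at h6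
    linarith
  refine ⟨t, ht1, fun u hu => ?_⟩
  have hle : ∀ w ∈ U, ‖t - w‖ ≤ 1 := fun w hw =>
    by
      rw [sub_eq_add_neg]
      exact le_trans (IsUltrametricDist.norm_add_le_max _ _) (max_le ht1 (by rw [norm_neg]; exact hU w hw))
  refine le_antisymm (hle u hu) ?_
  rw [← hn, ← Finset.mul_prod_erase _ _ hu]
  calc ‖t - u‖ * ∏ x ∈ U.erase u, ‖t - x‖ ≤ ‖t - u‖ * 1 :=
        mul_le_mul_of_nonneg_left
          (Finset.prod_le_one (fun _ _ => norm_nonneg _) (fun x hx => hle x (Finset.mem_of_mem_erase hx)))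
          (norm_nonneg _)
    _ = ‖t - u‖ := mul_one _

/-- In an algebraically closed normed field there are `n` points of norm at most one with mutual
distances at least `2 ^ (-n)`. -/
theorem Spr.exists_sep {Ω : Type} [NormedField Ω] [IsAlgClosed Ω] (n : ℕ) :
    ∃ t : Fin n → Ω, (∀ k, ‖t k‖ ≤ 1) ∧ ∀ k l, k ≠ l → (1 / 2 : ℝ) ^ n ≤ ‖t k - t l‖ := by
  rcases Nat.eq_zero_or_pos n with rfl | hn
  · exact ⟨fun _ => 0, fun k => k.elim0, fun k => k.elim0⟩
  -- choose `N ∈ {n, n+1}` with `1/2 ≤ ‖N‖`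
  obtain ⟨N, hN1, hN2, hN⟩ : ∃ N : ℕ, n ≤ N + 1 ∧ N ≤ n ∧ (1 / 2 : ℝ) ≤ ‖((N : Ω) + 1)‖ := by
    by_cases h : (1 / 2 : ℝ) ≤ ‖(n : Ω) + 1‖
    · exact ⟨n, by omega, le_refl _, h⟩
    · refine ⟨n - 1, by omega, by omega, ?_⟩
      push Not at h
      have e1 : ((n - 1 : ℕ) : Ω) + 1 = (n : Ω) := by
        have : ((n - 1 : ℕ) : Ω) = (n : Ω) - 1 := by
          rw [Nat.cast_sub hn, Nat.cast_one]
        rw [this]; ring
      rw [e1]
      have h1 : (1 : Ω) = ((n : Ω) + 1) - (n : Ω) := by ring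
      have h2 : (1 : ℝ) ≤ ‖(n : Ω) + 1‖ + ‖(n : Ω)‖ := by
        calc (1 : ℝ) = ‖(1 : Ω)‖ := norm_one.symm
          _ = ‖((n : Ω) + 1) - (n : Ω)‖ := by rw [← h1]
          _ ≤ _ := norm_sub_le _ _
      linarith
  have hN0 : ((N : Ω) + 1) ≠ 0 := by
    intro h
    rw [h, norm_zero] at hN
    linarith
  have : NeZero ((N + 1 : ℕ) : Ω) := ⟨by push_cast; exact hN0⟩
  obtain ⟨μ, hμ⟩ : ∃ μ : Ω, IsPrimitiveRoot μ (N + 1) := by
    obtain ⟨μ, hμ⟩ := IsAlgClosed.exists_root (cyclotomic (N + 1) Ω)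
      (degree_cyclotomic_pos (N + 1) Ω (Nat.succ_pos N)).ne'
    exact ⟨μ, isRoot_cyclotomic_iff.mp hμ⟩
  have hμ1 : ‖μ‖ = 1 := by
    have h := congrArg norm hμ.pow_eq_one
    rw [norm_pow, norm_one] at h
    exact (pow_eq_one_iff_of_nonneg (norm_nonneg _) (Nat.succ_ne_zero N)).mp h
  have hpw : ∀ k : ℕ, ‖μ ^ k‖ = 1 := fun k => by rw [norm_pow, hμ1, one_pow]
  have hle2 : ∀ k : ℕ, ‖1 - μ ^ k‖ ≤ 2 := fun k => by
    calc ‖1 - μ ^ k‖ ≤ ‖(1 : Ω)‖ + ‖μ ^ k‖ := norm_sub_le _ _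
      _ = 2 := by rw [norm_one, hpw]; norm_num
  have hprod := hμ.prod_one_sub_pow_eq_order
  have hkey : ∀ k ∈ range N, (1 / 2 : ℝ) ^ n ≤ ‖1 - μ ^ (k + 1)‖ := by
    intro k hk
    have h1 := congrArg norm hprod
    rw [norm_prod] at h1
    rw [← Finset.mul_prod_erase _ _ hk] at h1
    have h2 : ∏ x ∈ (range N).erase k, ‖1 - μ ^ (x + 1)‖ ≤ 2 ^ (N - 1) := by
      calc ∏ x ∈ (range N).erase k, ‖1 - μ ^ (x + 1)‖ ≤ ∏ x ∈ (range N).erase k, (2 : ℝ) :=
            Finset.prod_le_prod (fun _ _ => norm_nonneg _) (fun x _ => hle2 _)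
        _ = 2 ^ (N - 1) := by
            rw [Finset.prod_const, Finset.card_erase_of_mem hk, Finset.card_range]
    have hNpos : 0 < N := by
      have := Finset.mem_range.mp hk; omega
    have h3 : (1 / 2 : ℝ) ≤ ‖1 - μ ^ (k + 1)‖ * 2 ^ (N - 1) := by
      calc (1 / 2 : ℝ) ≤ ‖((N : Ω) + 1)‖ := hN
        _ = ‖1 - μ ^ (k + 1)‖ * ∏ x ∈ (range N).erase k, ‖1 - μ ^ (x + 1)‖ := h1.symm
        _ ≤ _ := mul_le_mul_of_nonneg_left h2 (norm_nonneg _)
    have h4 : (1 / 2 : ℝ) ^ N ≤ ‖1 - μ ^ (k + 1)‖ := by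
      have e : (2 : ℝ) ^ N = 2 * 2 ^ (N - 1) := by
        rw [← pow_succ']; congr 1; omega
      have hp : (0 : ℝ) < 2 ^ (N - 1) := by positivity
      rw [one_div, inv_pow, inv_le_iff_one_le_mul₀ (by positivity), e]
      nlinarith
    exact le_trans (pow_le_pow_of_le_one (by norm_num) (by norm_num) hN2) h4
  refine ⟨fun k => μ ^ (k : ℕ), fun k => (hpw _).le, ?_⟩
  have hlt : ∀ k l : Fin n, (k : ℕ) < l → (1 / 2 : ℝ) ^ n ≤ ‖μ ^ (k : ℕ) - μ ^ (l : ℕ)‖ := by
    intro k l hkl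
    have e : μ ^ (k : ℕ) - μ ^ (l : ℕ) = μ ^ (k : ℕ) * (1 - μ ^ ((l - k - 1 : ℕ) + 1)) := by
      rw [mul_sub, mul_one, ← pow_add]
      congr 2
      omega
    rw [e, norm_mul, hpw, one_mul]
    apply hkey
    rw [Finset.mem_range]
    have := l.2
    omega
  intro k l hkl
  rcases lt_or_gt_of_ne (fun h => hkl (Fin.ext h) : (k : ℕ) ≠ l) with h | h
  · exact hlt k l h
  · rw [norm_sub_rev]; exact hlt l k h

/-- The norms of an algebraically closed normed field, not trivially normed, are dense up to a factor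
two. -/
theorem exists_norm {𝕜 : Type} [NormedField 𝕜] [IsAlgClosed 𝕜] (hnt : Spr 𝕜)
    {r : ℝ} (hr : 0 < r) : ∃ ρ : 𝕜, ‖ρ‖ ≤ r ∧ r ≤ 2 * ‖ρ‖ := by
  obtain ⟨a, ha⟩ := hnt
  obtain ⟨n, hn⟩ : ∃ n : ℕ, ‖a‖ < 2 ^ n := pow_unbounded_of_one_lt _ one_lt_two
  have hn0 : n ≠ 0 := by
    rintro rfl
    rw [pow_zero] at hn
    linarith
  obtain ⟨b, hb⟩ := IsAlgClosed.exists_pow_nat_eq a (Nat.pos_of_ne_zero hn0)
  have hb1 : 1 < ‖b‖ := by
    by_contra h
    have h := not_lt.mp h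
    have : ‖a‖ ≤ 1 := by rw [← hb, norm_pow]; exact pow_le_one₀ (norm_nonneg _) h
    linarith
  have hb2 : ‖b‖ < 2 := by
    by_contra h
    have h := not_lt.mp h
    have : (2 : ℝ) ^ n ≤ ‖a‖ := by
      rw [← hb, norm_pow]; exact pow_le_pow_left₀ (by norm_num) h n
    linarith
  obtain ⟨k, hk1, hk2⟩ := exists_mem_Ico_zpow hr hb1
  refine ⟨b ^ k, by rw [norm_zpow]; exact hk1, ?_⟩
  rw [norm_zpow]
  have hpos : 0 < ‖b‖ ^ k := zpow_pos (by linarith) k
  have : ‖b‖ ^ (k + 1) = ‖b‖ ^ k * ‖b‖ := by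
    rw [zpow_add₀ (by linarith : ‖b‖ ≠ 0), zpow_one]
  rw [this] at hk2
  nlinarith

/-- Spreading, for an arbitrary finite index set. -/
theorem Spr.spread {Ω : Type} [NormedField Ω] [IsAlgClosed Ω] (hnt : Spr Ω)
    {ι : Type*} [Fintype ι] [DecidableEq ι] (x : ι → Ω) (R : ι → ℝ) (hR : ∀ a, 0 < R a) :
    ∃ z : ι → Ω, (∀ a, ‖z a - x a‖ ≤ R a) ∧
      ∀ a b, a ≠ b → max ‖x a - x b‖ (max (R a) (R b)) ≤
        (9 * 2 ^ (Fintype.card ι)) * ‖z a - z b‖ := by
  classical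
  set n := Fintype.card ι with hn
  obtain ⟨t, ht1, ht2⟩ := Spr.exists_sep (Ω := Ω) n
  have hmain : ∀ s : Finset ι, ∃ z : ι → Ω, (∀ a ∈ s, ‖z a - x a‖ ≤ R a) ∧
      ∀ a ∈ s, ∀ b ∈ s, a ≠ b → max ‖x a - x b‖ (max (R a) (R b)) ≤
        (9 * 2 ^ n) * ‖z a - z b‖ := by
    intro s
    induction s using Finset.induction_on_max_value R with
    | empty => exact ⟨x, by simp, by simp⟩
    | insert a s has hmax ih =>
      obtain ⟨z, hz1, hz2⟩ := ih
      obtain ⟨ρ, hρ1, hρ2⟩ := exists_norm hnt (hR a)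
      have hρ0 : 0 < ‖ρ‖ := by have := hR a; linarith
      have hcard : s.card < n := by
        rw [hn, ← Finset.card_univ]
        exact Finset.card_lt_card ⟨Finset.subset_univ _, fun h => has (h (Finset.mem_univ a))⟩
      obtain ⟨k, hk⟩ : ∃ k : Fin n, ∀ b ∈ s, (1 / 2 : ℝ) ^ n * ‖ρ‖ / 2 ≤
          ‖x a + ρ * t k - z b‖ := by
        by_contra hcon
        push Not at hcon
        choose g hg1 hg2 using hcon
        obtain ⟨k, -, l, -, hkl, hgkl⟩ := Finset.exists_ne_map_eq_of_card_lt_of_maps_to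
          (s := (Finset.univ : Finset (Fin n))) (t := s) (f := g)
          (by rw [Finset.card_univ, Fintype.card_fin]; exact hcard) (fun k _ => hg1 k)
        have h1 := hg2 k
        have h2 := hg2 l
        rw [hgkl] at h1
        have h3 : ‖ρ * (t k - t l)‖ < (1 / 2 : ℝ) ^ n * ‖ρ‖ := by
          have e : ρ * (t k - t l) = (x a + ρ * t k - z (g l)) - (x a + ρ * t l - z (g l)) := by
            ring
          rw [e]
          calc _ ≤ ‖x a + ρ * t k - z (g l)‖ + ‖x a + ρ * t l - z (g l)‖ := norm_sub_le _ _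
            _ < _ := by linarith
        rw [norm_mul] at h3
        have h4 := ht2 k l hkl
        nlinarith
      refine ⟨Function.update z a (x a + ρ * t k), ?_, ?_⟩
      · intro b hb
        rcases Finset.mem_insert.mp hb with rfl | hb
        · rw [Function.update_self, add_sub_cancel_left, norm_mul]
          calc ‖ρ‖ * ‖t k‖ ≤ ‖ρ‖ * 1 := mul_le_mul_of_nonneg_left (ht1 k) (norm_nonneg _)
            _ ≤ _ := by rw [mul_one]; exact hρ1
        · rw [Function.update_of_ne (ne_of_mem_of_not_mem hb has)]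
          exact hz1 b hb
      · have hnew : ∀ b ∈ s, max ‖x a - x b‖ (max (R a) (R b)) ≤
            (9 * 2 ^ n) * ‖x a + ρ * t k - z b‖ := by
          intro b hb
          have h1 := hk b hb
          have h2 : R b ≤ R a := hmax b hb
          have h3 : R a ≤ 4 * 2 ^ n * ‖x a + ρ * t k - z b‖ := by
            have e : (1 / 2 : ℝ) ^ n * 2 ^ n = 1 := by rw [← mul_pow]; norm_num
            have hp : (0 : ℝ) < 2 ^ n := by positivity
            have h5 : ‖ρ‖ / 2 ≤ 2 ^ n * ‖x a + ρ * t k - z b‖ := by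
              calc ‖ρ‖ / 2 = 2 ^ n * ((1 / 2 : ℝ) ^ n * ‖ρ‖ / 2) := by
                    linear_combination (-‖ρ‖ / 2) * e
                _ ≤ _ := mul_le_mul_of_nonneg_left h1 hp.le
            nlinarith
          have h4 : ‖x a - x b‖ ≤ ‖x a + ρ * t k - z b‖ + R a + R b := by
            have e : x a - x b = (x a + ρ * t k - z b) + (-(ρ * t k)) + (z b - x b) := by ring
            rw [e]
            calc _ ≤ ‖(x a + ρ * t k - z b) + (-(ρ * t k))‖ + ‖z b - x b‖ := norm_add_le _ _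
              _ ≤ ‖x a + ρ * t k - z b‖ + ‖-(ρ * t k)‖ + ‖z b - x b‖ := by
                  gcongr; exact norm_add_le _ _
              _ ≤ _ := by
                  have h6 : ‖-(ρ * t k)‖ ≤ R a := by
                    rw [norm_neg, norm_mul]
                    calc ‖ρ‖ * ‖t k‖ ≤ ‖ρ‖ * 1 :=
                          mul_le_mul_of_nonneg_left (ht1 k) (norm_nonneg _)
                      _ ≤ _ := by rw [mul_one]; exact hρ1
                  have h7 := hz1 b hb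
                  linarith
          have h8 : (1 : ℝ) ≤ 2 ^ n := one_le_pow₀ (by norm_num)
          have h9 : 0 ≤ ‖x a + ρ * t k - z b‖ := norm_nonneg _
          refine max_le ?_ (max_le ?_ ?_)
          · nlinarith
          · nlinarith
          · nlinarith
        intro b hb c hc hbc
        rcases Finset.mem_insert.mp hb with rfl | hb'
        · rcases Finset.mem_insert.mp hc with rfl | hc'
          · exact absurd rfl hbc
          · rw [Function.update_self, Function.update_of_ne (fun h => hbc h.symm)]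
            exact hnew c hc'
        · rcases Finset.mem_insert.mp hc with rfl | hc'
          · rw [Function.update_self, Function.update_of_ne hbc, norm_sub_rev, max_comm (R b),
              norm_sub_rev (z b)]
            exact hnew b hb'
          · rw [Function.update_of_ne (ne_of_mem_of_not_mem hb' has),
              Function.update_of_ne (ne_of_mem_of_not_mem hc' has)]
            exact hz2 b hb' c hc' hbc
  obtain ⟨z, h1, h2⟩ := hmain Finset.univ
  exact ⟨z, fun a => h1 a (Finset.mem_univ _),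
    fun a b hab => h2 a (Finset.mem_univ _) b (Finset.mem_univ _) hab⟩

/-- **Spreading.** -/
theorem spread {𝕜 : Type} [NormedField 𝕜] [IsAlgClosed 𝕜] (h : Spr 𝕜) {n : ℕ} (x : Fin n → 𝕜)
    (ρ : Fin n → ℝ) (hρ : ∀ a, 0 < ρ a) : ∃ z : Fin n → 𝕜, (∀ a, ‖z a - x a‖ ≤ ρ a) ∧
    ∀ a b, a ≠ b → max ‖x a - x b‖ (max (ρ a) (ρ b)) ≤ (9 * 2 ^ n) * ‖z a - z b‖ := by
  have h1 := Spr.spread h x ρ hρ
  rw [Fintype.card_fin] at h1
  exact h1

end Pool.Agent.PQ
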