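import Pool.Agent.PQ.Defs
import Pool.Agent.PQ.G
import Pool.Agent.PQ.Had
import Pool.Agent.PQ.Spr
import Pool.Agent.PQ.Avg

/-!
# The sum of the truncated logarithms
-/

set_option autoImplicit false

namespace Pool.Agent.PQ

open Polynomial

/-- One map: spreading and the Hadamard inequality. -/
theorem Sum.one {d m : ℕ} (hd : 2 ≤ d) {Ch : ℝ} {𝕜 : Type} [NormedField 𝕜]
    [IsAlgClosed 𝕜] (hS : Spr 𝕜) (f : 𝕜[X]) (hf : Nrm d f) (ha : 1 ≤ ‖f.leadingCoeff‖)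
    (hh : ∀ z : Fin (d ^ m) → 𝕜, Function.Injective z →
      (∀ a, ∀ i, i < m → ‖(fun y => f.eval y)^[i] (z a)‖ ≤ 2) →
      ∑ a, ∑ b, Real.log ‖z a - z b‖ ≤ Ch)
    (y : Fin (d ^ m) → 𝕜) (hy : ∀ a, Bd f (y a)) :
    ∑ a, ∑ b ∈ Finset.univ.erase a,
      Real.log (max ‖y a - y b‖ (max (RR f m (y a)) (RR f m (y b)))) ≤
      ((d ^ m : ℕ) : ℝ) * (((d ^ m : ℕ) : ℝ) - 1) * Real.log (9 * 2 ^ (d ^ m)) + Ch := by
  have hdeg : 1 ≤ f.natDegree := by rw [hf.deg]; omega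
  obtain ⟨z, hz1, hz2⟩ := spread hS y (fun a => RR f m (y a)) (fun a => RR_pos f hdeg m (y a))
  have hK : (0 : ℝ) < 9 * 2 ^ (d ^ m) := by positivity
  have hmax : ∀ a b, 0 < max ‖y a - y b‖ (max (RR f m (y a)) (RR f m (y b))) := fun a b =>
    lt_of_lt_of_le (RR_pos f hdeg m (y a)) ((le_max_left _ _).trans (le_max_right _ _))
  have hzpos : ∀ a b, a ≠ b → 0 < ‖z a - z b‖ := by
    intro a b hab
    have h1 := lt_of_lt_of_le (hmax a b) (hz2 a b hab)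
    by_contra h2
    have h3 : ‖z a - z b‖ = 0 := le_antisymm (not_lt.mp h2) (norm_nonneg _)
    rw [h3, mul_zero] at h1
    exact lt_irrefl _ h1
  have hinj : Function.Injective z := by
    intro a b hab
    by_contra h
    have := hzpos a b h
    rw [hab, sub_self, norm_zero] at this
    exact lt_irrefl _ this
  have hb : ∀ a, ∀ i, i < m → ‖(fun y => f.eval y)^[i] (z a)‖ ≤ 2 := by
    intro a i hi
    have h1 := RR_follow f hdeg ha m (y a) (z a) (hz1 a) i hi.le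
    have h2 : ‖(fun y => f.eval y)^[i] (y a)‖ ≤ 1 := by
      have := hf.diam _ 0 ((hy a).iter i) hf.zero
      rwa [sub_zero] at this
    calc ‖(fun y => f.eval y)^[i] (z a)‖
        = ‖((fun y => f.eval y)^[i] (z a) - (fun y => f.eval y)^[i] (y a)) +
            (fun y => f.eval y)^[i] (y a)‖ := by rw [sub_add_cancel]
      _ ≤ ‖(fun y => f.eval y)^[i] (z a) - (fun y => f.eval y)^[i] (y a)‖ +
            ‖(fun y => f.eval y)^[i] (y a)‖ := norm_add_le _ _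
      _ ≤ 2 := by linarith
  have hsum := hh z hinj hb
  have hdiag : ∑ a, ∑ b, Real.log ‖z a - z b‖ =
      ∑ a, ∑ b ∈ Finset.univ.erase a, Real.log ‖z a - z b‖ := by
    refine Finset.sum_congr rfl fun a _ => ?_
    rw [← Finset.add_sum_erase _ _ (Finset.mem_univ a), sub_self, norm_zero, Real.log_zero,
      zero_add]
  rw [hdiag] at hsum
  have hpt : ∀ a, ∑ b ∈ Finset.univ.erase a,
      Real.log (max ‖y a - y b‖ (max (RR f m (y a)) (RR f m (y b)))) ≤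
      (((d ^ m : ℕ) : ℝ) - 1) * Real.log (9 * 2 ^ (d ^ m)) +
        ∑ b ∈ Finset.univ.erase a, Real.log ‖z a - z b‖ := by
    intro a
    have h1 : ∀ b ∈ Finset.univ.erase a,
        Real.log (max ‖y a - y b‖ (max (RR f m (y a)) (RR f m (y b)))) ≤
        Real.log (9 * 2 ^ (d ^ m)) + Real.log ‖z a - z b‖ := by
      intro b hb
      have hab : a ≠ b := (Finset.ne_of_mem_erase hb).symm
      rw [← Real.log_mul hK.ne' (hzpos a b hab).ne']
      exact Real.log_le_log (hmax a b) (hz2 a b hab)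
    refine (Finset.sum_le_sum h1).trans (le_of_eq ?_)
    rw [Finset.sum_add_distrib, Finset.sum_const, Finset.card_erase_of_mem (Finset.mem_univ a),
      Finset.card_univ, Fintype.card_fin, nsmul_eq_mul, Nat.cast_sub (Nat.one_le_pow _ _ (by omega)),
      Nat.cast_one]
  refine (Finset.sum_le_sum fun a _ => hpt a).trans ?_
  rw [Finset.sum_add_distrib, Finset.sum_const, Finset.card_univ, Fintype.card_fin, nsmul_eq_mul,
    ← mul_assoc]
  linarith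

/-- (7): the sum of the truncated logarithms. -/
theorem hsum (d m : ℕ) (hd : 2 ≤ d) (hm : 1 ≤ m) : ∃ C : ℝ,
    ∀ (𝕜 : Type) [NormedField 𝕜] [IsAlgClosed 𝕜], Spr 𝕜 → ∀ f : 𝕜[X], Nrm d f →
    1 ≤ ‖f.leadingCoeff‖ → ∀ (T : ℕ) (x : Fin T → 𝕜), (∀ i, Bd f (x i)) →
    ∑ i, ∑ j, Real.log (max ‖x i - x j‖ (max (RR f m (x i)) (RR f m (x j)))) ≤
      (T : ℝ) ^ 2 * (-(Real.log ‖f.leadingCoeff‖ / (d - 1)) +
        Real.log ‖f.leadingCoeff‖ * m / ((d : ℝ) ^ m - 1) + C) := by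
  obtain ⟨Ch, hCh⟩ := had d m hd
  have hn2 : 2 ≤ d ^ m := hd.trans (Nat.le_self_pow (by omega) d)
  have hnR : (2 : ℝ) ≤ (d : ℝ) ^ m := by exact_mod_cast hn2
  have hd1 : (0 : ℝ) < (d : ℝ) - 1 := by
    have : (2 : ℝ) ≤ d := by exact_mod_cast hd
    linarith
  have hn1 : (0 : ℝ) < (d : ℝ) ^ m - 1 := by linarith
  have hn0 : (0 : ℝ) < (d : ℝ) ^ m := by linarith
  refine ⟨Real.log (9 * 2 ^ (d ^ m)) + Ch / ((d : ℝ) ^ m * ((d : ℝ) ^ m - 1)), ?_⟩
  intro 𝕜 _ _ hS f hf ha T x hx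
  set L := Real.log ‖f.leadingCoeff‖ with hL
  have hkey := avg_maps hn2
    (fun i j => Real.log (max ‖x i - x j‖ (max (RR f m (x i)) (RR f m (x j)))))
    (((d ^ m : ℕ) : ℝ) * (((d ^ m : ℕ) : ℝ) - 1) * Real.log (9 * 2 ^ (d ^ m)) +
      (-(L / (d - 1)) *
        ((d : ℝ) ^ m * ((d : ℝ) ^ m - 1) - m * (d - 1) * (d : ℝ) ^ m) + Ch))
    (fun e => Sum.one hd hS f hf ha (fun z hz hb => hCh 𝕜 f hf.deg z hz hb)
      (fun a => x (e a)) (fun a => hx (e a)))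
  have hcast : ((d ^ m : ℕ) : ℝ) = (d : ℝ) ^ m := by push_cast; rfl
  rw [hcast] at hkey
  have hpos : (0 : ℝ) < (d : ℝ) ^ m * ((d : ℝ) ^ m - 1) := mul_pos hn0 hn1
  have heq : (T : ℝ) ^ 2 * ((d : ℝ) ^ m * ((d : ℝ) ^ m - 1) * Real.log (9 * 2 ^ (d ^ m)) +
      (-(L / (d - 1)) * ((d : ℝ) ^ m * ((d : ℝ) ^ m - 1) - m * (d - 1) * (d : ℝ) ^ m) + Ch)) =
      ((d : ℝ) ^ m * ((d : ℝ) ^ m - 1)) * ((T : ℝ) ^ 2 * (-(L / (d - 1)) +
        L * m / ((d : ℝ) ^ m - 1) + (Real.log (9 * 2 ^ (d ^ m)) +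
          Ch / ((d : ℝ) ^ m * ((d : ℝ) ^ m - 1))))) := by
    field_simp
    ring
  rw [heq] at hkey
  exact le_of_mul_le_mul_left hkey hpos

end Pool.Agent.PQ
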