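import Pool.Agent.PQ.Defs
import Pool.Agent.PQ.G
import Pool.Agent.PQ.Cov
import Pool.Agent.PQ.Gap
import Pool.Agent.PQ.Avg
import Pool.Agent.PQ.Sum

set_option autoImplicit false

/-!
# The energy of few colours when the leading coefficient is large

`exists_m`: the choice of `m`; `large`: for a polynomial in the normalised situation whose leading
coefficient is large, points with bounded orbits which have at most `N` colours have an energy
below the one of the capacity by an arbitrarily large amount.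
-/

namespace Pool.Agent.PQ

open Polynomial NumberField IsDedekindDomain Pool.Agent.GPoly

/-- The choice of `m`. -/
theorem exists_m (d N : ℕ) (hd : 2 ≤ d) (hN : 1 ≤ N) : ∃ m : ℕ, 1 ≤ m ∧
    4 * ((m : ℝ) / ((d : ℝ) ^ m - 1)) ≤ 1 / (d * N * ((d : ℝ) - 1) ^ m) := by
  have hd' : (2 : ℝ) ≤ d := by exact_mod_cast hd
  have hN' : (1 : ℝ) ≤ N := by exact_mod_cast hN
  have hd0 : (0 : ℝ) < d := by linarith
  have hr0 : (0 : ℝ) ≤ ((d : ℝ) - 1) / d := by
    apply div_nonneg <;> linarith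
  have hr1 : ((d : ℝ) - 1) / d < 1 := by
    rw [div_lt_one hd0]; linarith
  have ht := tendsto_self_mul_const_pow_of_lt_one hr0 hr1
  have hpos : (0 : ℝ) < 1 / (8 * d * N) := by positivity
  have hev := (ht.eventually (gt_mem_nhds hpos)).and (Filter.eventually_ge_atTop 1)
  obtain ⟨m, hm, hm1⟩ := hev.exists
  refine ⟨m, hm1, ?_⟩
  have hdm : (0 : ℝ) < (d : ℝ) ^ m := by positivity
  have hd1m : (0 : ℝ) < ((d : ℝ) - 1) ^ m := by
    apply pow_pos; linarith
  have hdm2 : (2 : ℝ) ≤ (d : ℝ) ^ m := by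
    calc (2 : ℝ) ≤ d := hd'
      _ = (d : ℝ) ^ 1 := (pow_one _).symm
      _ ≤ (d : ℝ) ^ m := pow_le_pow_right₀ (by linarith) hm1
  have hden : (0 : ℝ) < (d : ℝ) ^ m - 1 := by linarith
  have hD : (0 : ℝ) < d * N * ((d : ℝ) - 1) ^ m := by positivity
  rw [← mul_div_assoc, div_le_div_iff₀ hden hD, one_mul]
  rw [div_pow, ← mul_div_assoc, div_lt_div_iff₀ hdm (by positivity), one_mul] at hm
  nlinarith

/-- The final inequality between real numbers. -/
theorem large_arith (L κ n a C1 C3 m D Lam T q : ℝ) (hL : 0 ≤ L) (hn : 1 ≤ n)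
    (ha : 4 * a ≤ κ) (hD : 0 ≤ D) (hT1 : 1 ≤ T) (hT : 4 * (m + κ * n) ≤ κ * T)
    (hLL : 2 * (|Lam| + |C1| + 2 * |C3| + D) ≤ κ * L) :
    T ^ 2 * (-q + L * a + C1) + T * (m * L + D) - (κ * n * L - C3) * (T ^ 2 / n - T) ≤
      -(T ^ 2) * q - Lam * T ^ 2 := by
  have hn0 : 0 < n := by linarith
  have h1 : (κ * n * L - C3) * (T ^ 2 / n - T) =
      κ * L * T ^ 2 - κ * n * L * T - C3 * (T ^ 2 / n) + C3 * T := by
    field_simp
    ring
  have hT2 : 0 ≤ T ^ 2 := sq_nonneg T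
  have hTT : T ≤ T ^ 2 := by nlinarith
  have h2 : T ^ 2 * (L * a) ≤ T ^ 2 * (L * (κ / 4)) := by
    apply mul_le_mul_of_nonneg_left _ hT2
    apply mul_le_mul_of_nonneg_left _ hL
    linarith
  have h3 : T * L * (m + κ * n) ≤ T * L * (κ * T / 4) := by
    apply mul_le_mul_of_nonneg_left _ (mul_nonneg (by linarith) hL)
    linarith
  have h4 : C3 * (T ^ 2 / n) ≤ |C3| * T ^ 2 := by
    have h5 : T ^ 2 / n ≤ T ^ 2 := div_le_self hT2 hn
    have h6 : 0 ≤ T ^ 2 / n := div_nonneg hT2 hn0.le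
    calc C3 * (T ^ 2 / n) ≤ |C3| * (T ^ 2 / n) :=
          mul_le_mul_of_nonneg_right (le_abs_self _) h6
      _ ≤ |C3| * T ^ 2 := mul_le_mul_of_nonneg_left h5 (abs_nonneg _)
  have h7 : -(C3 * T) ≤ |C3| * T ^ 2 := by
    calc -(C3 * T) = (-C3) * T := by ring
      _ ≤ |C3| * T := mul_le_mul_of_nonneg_right (neg_le_abs _) (by linarith)
      _ ≤ |C3| * T ^ 2 := mul_le_mul_of_nonneg_left hTT (abs_nonneg _)
  have h8 : T * D ≤ D * T ^ 2 := by
    rw [mul_comm]
    exact mul_le_mul_of_nonneg_left hTT hD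
  have h9 : C1 * T ^ 2 ≤ |C1| * T ^ 2 := mul_le_mul_of_nonneg_right (le_abs_self _) hT2
  have h10 : Lam * T ^ 2 ≤ |Lam| * T ^ 2 := mul_le_mul_of_nonneg_right (le_abs_self _) hT2
  have h11 : 2 * (|Lam| + |C1| + 2 * |C3| + D) * T ^ 2 ≤ κ * L * T ^ 2 :=
    mul_le_mul_of_nonneg_right hLL hT2
  rw [h1]
  nlinarith

/-- (8): the energy when the leading coefficient is large. -/
theorem large (d N : ℕ) (hd : 2 ≤ d) (hN : 1 ≤ N) (Lam : ℝ) : ∃ (M T₀ : ℕ) (L₀ : ℝ),
    ∀ (𝕜 : Type) [NormedField 𝕜] [IsAlgClosed 𝕜], Spr 𝕜 → ∀ f : 𝕜[X], Nrm d f →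
    L₀ ≤ Real.log ‖f.leadingCoeff‖ → ∃ c : 𝕜 → Fin M, ∀ T : ℕ, T₀ ≤ T → ∀ x : Fin T → 𝕜,
      Function.Injective x → (∀ i, Bd f (x i)) → (Finset.univ.image fun i => c (x i)).card ≤ N →
      ∑ i, ∑ j, Real.log ‖x i - x j‖ ≤
        -((T : ℝ) ^ 2) * (Real.log ‖f.leadingCoeff‖ / (d - 1)) - Lam * (T : ℝ) ^ 2 := by
  classical
  obtain ⟨m, hm1, hm⟩ := exists_m d N hd hN
  obtain ⟨C1, hC1⟩ := hsum d m hd hm1
  obtain ⟨Kj, hKj1, hcov⟩ := cover d hd (m + 1)
  obtain ⟨C2, hC2⟩ := gap d hd m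
  have hd' : (2 : ℝ) ≤ d := by exact_mod_cast hd
  have hN' : (1 : ℝ) ≤ N := by exact_mod_cast hN
  have hd1m : (0 : ℝ) < ((d : ℝ) - 1) ^ m := by
    apply pow_pos; linarith
  -- the constants
  set κ : ℝ := 1 / (d * N * ((d : ℝ) - 1) ^ m) with hκdef
  have hκ : 0 < κ := by rw [hκdef]; positivity
  set C3 : ℝ := C2 + Real.log Kj with hC3
  set D : ℝ := m * (d * Real.log 2) with hDdef
  have hD : 0 ≤ D := by
    have := Real.log_nonneg (show (1 : ℝ) ≤ 2 by norm_num)
    rw [hDdef]; positivity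
  refine ⟨d ^ (m + 1), max 1 (Nat.ceil (4 * (m + κ * N) / κ)),
    max (max 1 (Real.log (2 * 32 ^ d) + 1)) (2 * (|Lam| + |C1| + 2 * |C3| + D) / κ), ?_⟩
  intro 𝕜 _ _ hS f hf hL
  set L : ℝ := Real.log ‖f.leadingCoeff‖ with hLdef
  have hL1 : 1 ≤ L := le_trans (le_trans (le_max_left _ _) (le_max_left _ _)) hL
  have hL2 : Real.log (2 * 32 ^ d) + 1 ≤ L :=
    le_trans (le_trans (le_max_right _ _) (le_max_left _ _)) hL
  have hL3 : 2 * (|Lam| + |C1| + 2 * |C3| + D) / κ ≤ L := le_trans (le_max_right _ _) hL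
  have hL4 : 2 * (|Lam| + |C1| + 2 * |C3| + D) ≤ κ * L := by
    rw [div_le_iff₀ hκ] at hL3
    linarith
  have hA1 : 1 < ‖f.leadingCoeff‖ := by
    by_contra h
    push Not at h
    have := Real.log_nonpos (norm_nonneg f.leadingCoeff) h
    linarith
  have hA2 : 2 * 32 ^ d < ‖f.leadingCoeff‖ := by
    rw [← Real.log_lt_log_iff (by positivity) (by linarith)]
    linarith
  have hdeg : 1 ≤ f.natDegree := by rw [hf.deg]; omega
  obtain ⟨c, hc⟩ := hcov 𝕜 f hf hA1.le
  refine ⟨c, ?_⟩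
  intro T hT x hx hB hcard
  have hT1 : (1 : ℝ) ≤ T := by
    have : 1 ≤ T := le_trans (le_max_left _ _) hT
    exact_mod_cast this
  have hT2 : 4 * (m + κ * N) ≤ κ * T := by
    have h1 : Nat.ceil (4 * (m + κ * N) / κ) ≤ T := le_trans (le_max_right _ _) hT
    have h2 : 4 * (m + κ * N) / κ ≤ T := le_trans (Nat.le_ceil _) (by exact_mod_cast h1)
    rw [div_le_iff₀ hκ] at h2
    linarith
  -- the numbers h(i, j)
  set h : Fin T → Fin T → ℝ := fun i j =>
    Real.log (max ‖x i - x j‖ (max (RR f m (x i)) (RR f m (x j)))) with hh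
  set g : ℝ := κ * N * L with hg
  have hg' : g = L / (d * ((d : ℝ) - 1) ^ m) := by
    rw [hg, hκdef]
    field_simp
  have hgC : 0 ≤ g - C3 := by
    have h1 : κ * L ≤ g := by
      rw [hg]
      have : 0 ≤ κ * L := by positivity
      nlinarith
    have h2 : C3 ≤ |C3| := le_abs_self _
    have h3 := abs_nonneg Lam
    have h4 := abs_nonneg C1
    have h5 := abs_nonneg C3
    linarith
  have hRpos : ∀ j i, 0 < RR f j (x i) := fun j i => RR_pos f hdeg j (x i)
  -- pairs of different indices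
  have hpair : ∀ i j, i ≠ j → Real.log ‖x i - x j‖ ≤
      h i j - (g - C3) * (if c (x i) = c (x j) then (1 : ℝ) else 0) := by
    intro i j hij
    have hne : 0 < ‖x i - x j‖ := by
      rw [norm_pos_iff, sub_ne_zero]
      exact fun hxx => hij (hx hxx)
    have hle : Real.log ‖x i - x j‖ ≤ h i j := Real.log_le_log hne (le_max_left _ _)
    split_ifs with hcc
    · have h1 := (hc (x i) (x j) (hB i) (hB j) hcc).1
      have h2 : Real.log ‖x i - x j‖ ≤ Real.log Kj + Real.log (RR f (m + 1) (x i)) := by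
        rw [← Real.log_mul (by linarith) (hRpos _ _).ne']
        exact Real.log_le_log hne h1
      have h3 := hC2 𝕜 f hf hA2 (x i) (hB i)
      have h4 : Real.log (RR f m (x i)) ≤ h i j :=
        Real.log_le_log (hRpos _ _) (le_trans (le_max_left _ _) (le_max_right _ _))
      rw [← hLdef, ← hg'] at h3
      linarith
    · linarith
  have hdiag : ∀ i, -(m * L + D) ≤ h i i := by
    intro i
    have h1 := RR_lower d hd 𝕜 f hf hA1.le m (x i) (hB i)
    have h2 : Real.log (RR f m (x i)) ≤ h i i :=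
      Real.log_le_log (hRpos _ _) (le_trans (le_max_left _ _) (le_max_right _ _))
    rw [← hLdef] at h1
    have h3 : -(m * (L + d * Real.log 2)) = -(m * L + D) := by
      rw [hDdef]; ring
    linarith
  have hcol := same_colour (T := T) hN (fun i => c (x i)) hcard
  have hsm := hC1 𝕜 hS f hf hA1.le T x hB
  -- the sum
  have hsplit : ∀ i, ∑ j, h i j = h i i + ∑ j ∈ Finset.univ.erase i, h i j := by
    intro i
    rw [Finset.add_sum_erase _ _ (Finset.mem_univ i)]
  have hrow : ∀ i, ∑ j, Real.log ‖x i - x j‖ ≤ (∑ j, h i j) + (m * L + D) -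
      (g - C3) * ∑ j ∈ Finset.univ.erase i, (if c (x i) = c (x j) then (1 : ℝ) else 0) := by
    intro i
    rw [← Finset.add_sum_erase _ _ (Finset.mem_univ i), sub_self, norm_zero, Real.log_zero,
      zero_add, hsplit i, Finset.mul_sum]
    have h1 : ∑ j ∈ Finset.univ.erase i, Real.log ‖x i - x j‖ ≤
        ∑ j ∈ Finset.univ.erase i,
          (h i j - (g - C3) * (if c (x i) = c (x j) then (1 : ℝ) else 0)) :=
      Finset.sum_le_sum fun j hj => hpair i j (Finset.ne_of_mem_erase hj).symm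
    rw [Finset.sum_sub_distrib] at h1
    have h2 := hdiag i
    linarith
  have htot := Finset.sum_le_sum fun i (_ : i ∈ (Finset.univ : Finset (Fin T))) => hrow i
  rw [Finset.sum_sub_distrib, Finset.sum_add_distrib, ← Finset.mul_sum, Finset.sum_const,
    Finset.card_univ, Fintype.card_fin, nsmul_eq_mul] at htot
  have hfin := large_arith L κ N ((m : ℝ) / ((d : ℝ) ^ m - 1)) C1 C3 m D Lam T (L / (d - 1))
    (by linarith) hN' hm hD hT1 hT2 hL4
  have hc2 : (g - C3) * ((T : ℝ) ^ 2 / N - T) ≤ (g - C3) *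
      ∑ i, ∑ j ∈ Finset.univ.erase i, (if c (x i) = c (x j) then (1 : ℝ) else 0) :=
    mul_le_mul_of_nonneg_left hcol hgC
  have hsm' : ∑ i, ∑ j, h i j ≤
      (T : ℝ) ^ 2 * (-(L / (d - 1)) + L * ((m : ℝ) / ((d : ℝ) ^ m - 1)) + C1) := by
    rw [← mul_div_assoc]
    exact hsm
  linarith

end Pool.Agent.PQ
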