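import Pool.Agent.PQ.Defs
import Pool.Agent.QPol.LocB

set_option autoImplicit false

/-!
# Preliminaries for the local estimates at defective primes
-/

namespace Pool.Agent.PQ

open Polynomial NumberField IsDedekindDomain Pool.Agent.GPoly Pool.Agent.QPol
open Pool.Agent.RDF (aux_sub_eq aux_sub_le)

section

variable (Om : Type) [NormedField Om]

/-- the norm as an absolute value -/
noncomputable def nabs : AbsoluteValue Om ℝ where
  toFun x := ‖x‖
  map_mul' := norm_mul
  nonneg' := norm_nonneg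
  eq_zero' := fun _ => norm_eq_zero
  add_le' := norm_add_le

theorem nabs_apply (x : Om) : nabs Om x = ‖x‖ := rfl

theorem nabs_na [IsUltrametricDist Om] : IsNonarchimedean (nabs Om) := by
  intro x y
  exact IsUltrametricDist.norm_add_le_max x y

/-- a point at distance one from finitely many points of the unit disc -/
theorem exists_far_Om [IsAlgClosed Om] [IsUltrametricDist Om] (U : Finset Om)
    (hU : ∀ u ∈ U, ‖u‖ ≤ 1) : ∃ t : Om, ‖t‖ ≤ 1 ∧ ∀ u ∈ U, ‖u - t‖ = 1 := by
  classical
  rcases U.eq_empty_or_nonempty with hE | hE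
  · subst hE
    exact ⟨0, by simp, by simp⟩
  set P : Om[X] := (∏ u ∈ U, (X - C u)) - C 1 with hP
  have hdeg : P.natDegree = U.card := by
    rw [hP, natDegree_sub_C, natDegree_prod_of_monic _ _ fun u _ => monic_X_sub_C u]
    simp
  have hdeg0 : P.degree ≠ 0 := by
    intro h0
    have h1 : P.natDegree = 0 := natDegree_eq_zero_iff_degree_le_zero.mpr h0.le
    rw [hdeg, Finset.card_eq_zero] at h1
    exact hE.ne_empty h1
  obtain ⟨t, ht⟩ := IsAlgClosed.exists_root P hdeg0
  have ht1 : ∏ u ∈ U, (t - u) = 1 := by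
    have h1 : P.eval t = 0 := ht
    rw [hP, eval_sub, eval_prod, eval_C, sub_eq_zero] at h1
    simpa using h1
  have htn : ∏ u ∈ U, ‖t - u‖ = 1 := by
    rw [← norm_prod, ht1, norm_one]
  have hle : ‖t‖ ≤ 1 := by
    by_contra hcon
    push Not at hcon
    have h1 : ∀ u ∈ U, ‖t - u‖ = ‖t‖ := by
      intro u hu
      have h2 := aux_sub_eq (nabs Om) (nabs_na Om) (x := t) (y := u)
        (lt_of_le_of_lt (hU u hu) hcon)
      exact h2
    rw [Finset.prod_congr rfl h1, Finset.prod_const] at htn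
    exact absurd htn (one_lt_pow₀ hcon (Finset.card_ne_zero.mpr hE)).ne'
  have hle1 : ∀ u ∈ U, ‖t - u‖ ≤ 1 := fun u hu =>
    (aux_sub_le (nabs Om) (nabs_na Om) t u).trans (max_le hle (hU u hu))
  refine ⟨t, hle, fun u hu => ?_⟩
  rw [norm_sub_rev]
  by_contra hne
  have hlt : ‖t - u‖ < 1 := lt_of_le_of_ne (hle1 u hu) hne
  have h2 : ∏ u ∈ U, ‖t - u‖ < 1 := by
    rw [← Finset.mul_prod_erase U _ hu]
    calc ‖t - u‖ * ∏ x ∈ U.erase u, ‖t - x‖ ≤ ‖t - u‖ * 1 :=
          mul_le_mul_of_nonneg_left (Finset.prod_le_one (fun _ _ => norm_nonneg _)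
            fun x hx => hle1 x (Finset.mem_of_mem_erase hx)) (norm_nonneg _)
      _ < 1 := by rwa [mul_one]
  exact absurd htn h2.ne

theorem gen_Om [IsAlgClosed Om] [IsUltrametricDist Om] : ∀ N : ℕ, ∃ t : Fin N → Om,
    (∀ i, nabs Om (t i) ≤ 1) ∧ ∀ i j, i ≠ j → nabs Om (t i - t j) = 1 := by
  classical
  intro N
  induction N with
  | zero => exact ⟨fun i => i.elim0, fun i => i.elim0, fun i => i.elim0⟩
  | succ N ih =>
    obtain ⟨t, ht1, ht2⟩ := ih
    obtain ⟨s, hs1, hs2⟩ := exists_far_Om Om (Finset.univ.image t) (by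
      intro u hu
      obtain ⟨i, _, rfl⟩ := Finset.mem_image.mp hu
      exact ht1 i)
    have hs3 : ∀ i, nabs Om (t i - s) = 1 := fun i =>
      hs2 (t i) (Finset.mem_image_of_mem t (Finset.mem_univ i))
    refine ⟨Fin.cons s t, ?_, ?_⟩
    · intro i
      refine Fin.cases ?_ (fun i => ?_) i
      · exact hs1
      · exact ht1 i
    · intro i j
      refine Fin.cases ?_ (fun i => ?_) i
      · refine Fin.cases ?_ (fun j => ?_) j
        · intro h
          exact absurd rfl h
        · intro _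
          rw [Fin.cons_zero, Fin.cons_succ, (nabs Om).map_sub]
          exact hs3 j
      · refine Fin.cases ?_ (fun j => ?_) j
        · intro _
          rw [Fin.cons_zero, Fin.cons_succ]
          exact hs3 i
        · intro h
          rw [Fin.cons_succ, Fin.cons_succ]
          exact ht2 i j fun h' => h (by rw [h'])

variable {Om}

/-- preperiodic points and their orbits are in the unit disc -/
theorem pre_bound (abv : AbsoluteValue Om ℝ) (hna : IsNonarchimedean abv) {d : ℕ} (hd : 2 ≤ d)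
    {F : Om[X]} (hF : F.natDegree = d) (hlead : abv F.leadingCoeff = 1)
    (hc : ∀ i, abv (F.coeff i) ≤ 1) {b : Om} (hb : b ≠ 0) (hb1 : abv b ≤ 1) {x : Om}
    (hx : Pre (qf F b) x) (n : ℕ) : abv ((qf F b)^[n] x) ≤ 1 := by
  have hx' : Pre (qf F b) ((qf F b)^[n] x) := by
    induction n with
    | zero => exact hx
    | succ n ih =>
      rw [Function.iterate_succ_apply']
      exact ih.map
  by_contra hcon
  push Not at hcon
  set y := (qf F b)^[n] x with hy
  have h1 : ∀ j, abv y ≤ abv ((qf F b)^[j] y) ∧ abv ((qf F b)^[j] y) < abv ((qf F b)^[j + 1] y) := by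
    intro j
    induction j with
    | zero =>
      refine ⟨le_rfl, ?_⟩
      change abv y < abv (qf F b y)
      rw [(qf_out hna (by omega) hF hlead hc hb hb1 hcon).1, lt_div_iff₀ (abv.pos hb)]
      calc abv y * abv b ≤ abv y * 1 := mul_le_mul_of_nonneg_left hb1 (abv.nonneg _)
        _ = abv y ^ 1 := by rw [mul_one, pow_one]
        _ < abv y ^ d := pow_lt_pow_right₀ hcon (by omega)
    | succ j ih =>
      have h2 : 1 < abv ((qf F b)^[j + 1] y) := by linarith [ih.1, ih.2]
      refine ⟨ih.1.trans ih.2.le, ?_⟩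
      rw [Function.iterate_succ_apply' (qf F b) (j + 1)]
      rw [(qf_out hna (by omega) hF hlead hc hb hb1 h2).1, lt_div_iff₀ (abv.pos hb)]
      calc abv ((qf F b)^[j + 1] y) * abv b ≤ abv ((qf F b)^[j + 1] y) * 1 :=
            mul_le_mul_of_nonneg_left hb1 (abv.nonneg _)
        _ = abv ((qf F b)^[j + 1] y) ^ 1 := by rw [mul_one, pow_one]
        _ < abv ((qf F b)^[j + 1] y) ^ d := pow_lt_pow_right₀ h2 (by omega)
  have hmono : StrictMono fun j => abv ((qf F b)^[j] y) :=
    strictMono_nat_of_lt_succ fun j => (h1 j).2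
  obtain ⟨m', n', hmn, he⟩ := hx'
  have h3 := hmono hmn
  simp only [he] at h3
  exact lt_irrefl _ h3

end

section

variable {K : Type} [Field K] [NumberField K]

/-- the coefficients in `Om` -/
noncomputable abbrev toOm (K : Type) [Field K] [NumberField K] (Om : Type) [NormedField Om]
    [Algebra K Om] : 𝓞 K →+* Om := (algebraMap K Om).comp (algebraMap (𝓞 K) K)

theorem toOm_inj (Om : Type) [NormedField Om] [Algebra K Om] : Function.Injective (toOm K Om) :=
  (algebraMap K Om).injective.comp RingOfIntegers.coe_injective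

theorem fE_eval (Om : Type) [NormedField Om] [Algebra K Om] (F : (𝓞 K)[X]) (b : 𝓞 K) :
    (fun z => (fE Om F b).eval z) = qf (F.map (toOm K Om)) (toOm K Om b) := by
  funext z
  rw [fE, fp, Polynomial.map_mul, Polynomial.map_C, eval_mul, eval_C, map_inv₀, Polynomial.map_map,
    qf, div_eq_inv_mul]
  rfl

theorem norm_toOm (v : HeightOneSpectrum (𝓞 K)) (Om : Type) [NormedField Om] [Algebra K Om]
    (h : ∀ x : K, ‖algebraMap K Om x‖ = av v x) (x : 𝓞 K) (hx : x ≠ 0) :
    ‖toOm K Om x‖ = Real.exp (-wt v x) := by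
  rw [exp_neg_wt v x hx]
  exact h _

theorem norm_toOm_le (v : HeightOneSpectrum (𝓞 K)) (Om : Type) [NormedField Om] [Algebra K Om]
    (h : ∀ x : K, ‖algebraMap K Om x‖ = av v x) (x : 𝓞 K) : ‖toOm K Om x‖ ≤ 1 := by
  refine (h _).trans_le ?_
  exact av_int_le_one v x

/-- the energy without the diagonal -/
theorem energy_eq (Om : Type) [NormedField Om] {T : ℕ} (x : Fin T → Om) :
    ∑ i, ∑ j, Real.log ‖x i - x j‖ =
      ∑ i, ∑ j ∈ Finset.univ.erase i, Real.log (nabs Om (x i - x j)) := by
  refine Finset.sum_congr rfl fun i _ => ?_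
  rw [← Finset.add_sum_erase _ _ (Finset.mem_univ i), sub_self, norm_zero, Real.log_zero, zero_add]
  rfl

end

end Pool.Agent.PQ
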