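import Pool.Agent.PQ.Ext

set_option autoImplicit false

/-!
# Theorem Q: the sets of colours at one place
-/

namespace Pool.Agent.PQ

open Polynomial NumberField IsDedekindDomain Pool.Agent.GPoly

variable {K : Type} [Field K] [NumberField K]

theorem PreE.of_map {E L : Type} [Field E] [Algebra K E] [Field L] [Algebra K L] {F : (𝓞 K)[X]}
    {b : 𝓞 K} {x : L} (φ : L →ₐ[K] E) (h : PreE E F b (φ x)) : PreE L F b x := by
  have key : ∀ n : ℕ, (fun z => (fE E F b).eval z)^[n] (φ x) =
      φ ((fun z => (fE L F b).eval z)^[n] x) := by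
    intro n
    induction n with
    | zero => rfl
    | succ n ih =>
      rw [Function.iterate_succ_apply', Function.iterate_succ_apply', ih]
      have e : fE E F b = (fE L F b).map (φ : L →+* E) := by
        rw [fE, fE, map_map]
        congr 1
        exact (φ.comp_algebraMap).symm
      rw [e, eval_map]
      exact eval₂_at_apply (p := fE L F b) (φ : L →+* E) _
  obtain ⟨m, n, hmn, h⟩ := h
  refine ⟨m, n, hmn, ?_⟩
  rw [key, key] at h
  exact φ.toRingHom.injective h

/-- The set of colours of the conjugates of a point. -/
theorem colour_sum (E : Type) [NormedField E] [IsAlgClosed E] [Algebra K E] (F : (𝓞 K)[X])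
    (b : 𝓞 K) {M T₀ N : ℕ} (U : ℕ → ℝ) (c : E → Fin M)
    (hc : ∀ T : ℕ, T₀ ≤ T → ∀ x : Fin T → E, Function.Injective x →
      (∀ i, Bd (fE E F b) (x i)) → (Finset.univ.image fun i => c (x i)).card ≤ N →
      ∑ i, ∑ j, Real.log ‖x i - x j‖ ≤ U T) :
    ∃ A : AlgebraicClosure K → Finset (Fin M),
      ∀ (L : IntermediateField K (AlgebraicClosure K)) [FiniteDimensional K L] (T : ℕ), T₀ ≤ T →
      ∀ x : Fin T → L, Function.Injective x →
      (∀ i, (minpoly K (x i : AlgebraicClosure K)).natDegree ≤ N) →
      (∀ i, PreE (AlgebraicClosure K) F b (x i : AlgebraicClosure K)) →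
      (∀ i j, A (x i : AlgebraicClosure K) = A (x j : AlgebraicClosure K)) →
      ∑ i, ∑ j, Real.log ‖algebraMap K E (Algebra.norm K (x i - x j))‖ ≤
        Module.finrank K L * U T := by
  classical
  refine ⟨fun z => ((minpoly K z).aroots E).toFinset.image c, ?_⟩
  intro L _ T hT x hx hN hP hA
  refine local_sum E L x hx (U T) fun φ => ?_
  refine hc T hT (fun i => φ (x i)) (fun i j h => hx (φ.toRingHom.injective h)) (fun i => ?_) ?_
  · have h1 : PreE L F b (x i) := PreE.of_map L.val (hP i)
    exact (h1.map φ).bd
  · have hmem : ∀ i, c (φ (x i)) ∈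
        ((minpoly K (x i : AlgebraicClosure K)).aroots E).toFinset.image c := by
      intro i
      refine Finset.mem_image_of_mem c ?_
      have hint : IsIntegral K (x i : AlgebraicClosure K) := Algebra.IsIntegral.isIntegral _
      rw [Multiset.mem_toFinset, mem_aroots]
      refine ⟨minpoly.ne_zero hint, ?_⟩
      have h2 : aeval (x i) (minpoly K (x i : AlgebraicClosure K)) = 0 := by
        have h3 := minpoly.aeval K (x i : AlgebraicClosure K)
        have h4 : aeval (L.val (x i)) (minpoly K (x i : AlgebraicClosure K)) = 0 := h3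
        rw [aeval_algHom_apply] at h4
        exact L.val.toRingHom.injective (by simpa using h4)
      rw [aeval_algHom_apply, h2, map_zero]
    rcases isEmpty_or_nonempty (Fin T) with hE | ⟨⟨i₀⟩⟩
    · rw [Finset.univ_eq_empty, Finset.image_empty, Finset.card_empty]
      exact Nat.zero_le _
    · have hsub : (Finset.univ.image fun i => c (φ (x i))) ⊆
          ((minpoly K (x i₀ : AlgebraicClosure K)).aroots E).toFinset.image c := by
        intro t ht
        obtain ⟨i, -, rfl⟩ := Finset.mem_image.1 ht
        have h5 := hA i i₀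
        simp only at h5
        rw [← h5]
        exact hmem i
      refine (Finset.card_le_card hsub).trans (Finset.card_image_le.trans ?_)
      refine (Multiset.toFinset_card_le _).trans ?_
      refine (card_roots' _).trans ?_
      rw [natDegree_map]
      exact hN i₀

end Pool.Agent.PQ
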