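import Pool.Agent.PQ.Ext

set_option autoImplicit false

/-!
# Theorem Q: effective cycles of degree `N`
-/

namespace Pool.Agent.PQ

open Polynomial NumberField IsDedekindDomain Pool.Agent.GPoly

/-- Monic polynomials of degree at most `N` with all their roots in a finite set. -/
theorem monic_encard {K : Type} [Field K] (Z : Set (AlgebraicClosure K)) (N c : ℕ)
    (hZ : {x : AlgebraicClosure K | (minpoly K x).natDegree ≤ N ∧ x ∈ Z}.encard ≤ c) :
    {g : K[X] | g.Monic ∧ g.natDegree ≤ N ∧ ∀ x : AlgebraicClosure K, aeval x g = 0 →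
      x ∈ Z}.encard ≤ ((N + 1) ^ c : ℕ) := by
  classical
  set A : Set (AlgebraicClosure K) := {x | (minpoly K x).natDegree ≤ N ∧ x ∈ Z} with hA
  have hfin : A.Finite := Set.finite_of_encard_le_coe hZ
  have hcard : hfin.toFinset.card ≤ c := by
    rw [hfin.encard_eq_coe_toFinset_card] at hZ
    exact_mod_cast hZ
  set B : Set K[X] := {g : K[X] | g.Monic ∧ g.natDegree ≤ N ∧
    ∀ x : AlgebraicClosure K, aeval x g = 0 → x ∈ Z} with hB
  have hroots : ∀ g ∈ B, ∀ x ∈ g.aroots (AlgebraicClosure K), x ∈ hfin.toFinset := by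
    intro g hg x hx
    rw [mem_aroots] at hx
    rw [Set.Finite.mem_toFinset]
    refine ⟨?_, hg.2.2 x hx.2⟩
    exact (natDegree_le_of_dvd (minpoly.dvd K x hx.2) hx.1).trans hg.2.1
  let φ : K[X] → (hfin.toFinset → Fin (N + 1)) := fun g x =>
    ⟨min ((g.aroots (AlgebraicClosure K)).count (x : AlgebraicClosure K)) N, by omega⟩
  have hcnt : ∀ g ∈ B, ∀ x, (g.aroots (AlgebraicClosure K)).count x ≤ N := by
    intro g hg x
    refine (Multiset.count_le_card _ _).trans ((card_roots' _).trans ?_)
    rw [natDegree_map]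
    exact hg.2.1
  have hinj : Set.InjOn φ B := by
    intro g hg g' hg' h
    have h1 : g.aroots (AlgebraicClosure K) = g'.aroots (AlgebraicClosure K) := by
      ext x
      by_cases hx : x ∈ hfin.toFinset
      · have h2 := congrArg Fin.val (congrFun h ⟨x, hx⟩)
        simp only [φ, min_eq_left (hcnt g hg x), min_eq_left (hcnt g' hg' x)] at h2
        exact h2
      · rw [Multiset.count_eq_zero_of_notMem fun h2 => hx (hroots g hg x h2),
          Multiset.count_eq_zero_of_notMem fun h2 => hx (hroots g' hg' x h2)]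
    have h3 : ∀ p : K[X], p.Monic → p.map (algebraMap K (AlgebraicClosure K)) =
        ((p.aroots (AlgebraicClosure K)).map fun a => X - C a).prod := by
      intro p hp
      exact (IsAlgClosed.splits _).eq_prod_roots_of_monic (hp.map _)
    have h4 : g.map (algebraMap K (AlgebraicClosure K)) =
        g'.map (algebraMap K (AlgebraicClosure K)) := by
      rw [h3 g hg.1, h3 g' hg'.1, h1]
    exact map_injective _ (algebraMap K (AlgebraicClosure K)).injective h4
  have h5 : B.encard = (φ '' B).encard := hinj.encard_image.symm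
  rw [h5]
  refine (Set.encard_le_encard (Set.subset_univ _)).trans ?_
  rw [Set.encard_univ, ENat.card_eq_coe_fintype_card, Fintype.card_fun, Fintype.card_fin,
    Fintype.card_coe]
  exact_mod_cast Nat.pow_le_pow_right (by omega) hcard

end Pool.Agent.PQ
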